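import Mathlib

/-!
# Null sets of parameters

Images of smooth maps from lower dimensional spaces are null sets; sets of parameters of linear
equations.
-/

set_option autoImplicit false

open MeasureTheory Module Set

namespace Pool.Agent.Helper34.BI

section null
variable {X P : Type*} [NormedAddCommGroup X] [NormedSpace ℝ X] [FiniteDimensional ℝ X]
  [NormedAddCommGroup P] [NormedSpace ℝ P] [FiniteDimensional ℝ P] [MeasurableSpace P]
  [BorelSpace P] (μ : Measure P) [μ.IsAddHaarMeasure]

omit [MeasurableSpace P] [BorelSpace P] in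
/-- a linear embedding into a space of larger dimension, with a left inverse -/
theorem exists_embedding (h : finrank ℝ X < finrank ℝ P) :
    ∃ (i : X →L[ℝ] P) (π : P →L[ℝ] X), (∀ x, π (i x) = x) ∧
      (LinearMap.range (i : X →ₗ[ℝ] P)) ≠ ⊤ := by
  classical
  let bX := finBasis ℝ X
  let bP := finBasis ℝ P
  let i₀ : X →ₗ[ℝ] P := bX.constr ℝ (fun j => bP (Fin.castLE h.le j))
  have hinj : Function.Injective i₀ := by
    rw [← LinearMap.ker_eq_bot]
    have hli : LinearIndependent ℝ (fun j => bP (Fin.castLE h.le j)) :=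
      bP.linearIndependent.comp _ (Fin.castLE_injective h.le)
    rw [LinearMap.ker_eq_bot']
    intro x hx
    have h1 : i₀ x = ∑ j, bX.repr x j • bP (Fin.castLE h.le j) := by
      simp [i₀, Basis.constr_apply_fintype]
    rw [h1] at hx
    have h2 := Fintype.linearIndependent_iff.1 hli _ hx
    have h3 : bX.repr x = 0 := by
      ext j
      simpa using h2 j
    simpa using h3
  obtain ⟨π₀, hπ⟩ := LinearMap.exists_leftInverse_of_injective i₀ (LinearMap.ker_eq_bot.2 hinj)
  refine ⟨LinearMap.toContinuousLinearMap i₀, LinearMap.toContinuousLinearMap π₀, ?_, ?_⟩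
  · intro x
    exact LinearMap.congr_fun hπ x
  · intro htop
    have h1 : finrank ℝ (LinearMap.range i₀) ≤ finrank ℝ X := LinearMap.finrank_range_le i₀
    have h2 : LinearMap.range i₀ = ⊤ := by
      simpa using htop
    rw [h2, finrank_top] at h1
    omega

/-- The image of a set under a differentiable map from a space of smaller dimension is a null
set. -/
theorem null_image (h : finrank ℝ X < finrank ℝ P) {f : X → P} {s : Set X}
    (hf : DifferentiableOn ℝ f s) : μ (f '' s) = 0 := by
  obtain ⟨i, π, hπi, hr⟩ := exists_embedding (X := X) (P := P) h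
  have h1 : μ (i '' s) = 0 := by
    have h2 : i '' s ⊆ (LinearMap.range (i : X →ₗ[ℝ] P) : Set P) := by
      rintro _ ⟨x, -, rfl⟩
      exact ⟨x, rfl⟩
    exact measure_mono_null h2 (Measure.addHaar_submodule μ _ hr)
  have h3 : DifferentiableOn ℝ (f ∘ π) (i '' s) := by
    refine hf.comp π.differentiable.differentiableOn ?_
    rintro _ ⟨x, hx, rfl⟩
    rw [hπi]
    exact hx
  have h4 : f '' s = (f ∘ π) '' (i '' s) := by
    rw [image_image]
    refine image_congr ?_
    intro x _
    simp [hπi]
  rw [h4]
  exact addHaar_image_eq_zero_of_differentiableOn_of_addHaar_eq_zero μ h3 h1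

end null

section lin
variable {X E : Type*} [NormedAddCommGroup X] [NormedSpace ℝ X] [FiniteDimensional ℝ X]
  [NormedAddCommGroup E] [NormedSpace ℝ E] [FiniteDimensional ℝ E] [MeasurableSpace E]
  [BorelSpace E] (μ : Measure (E × E)) [μ.IsAddHaarMeasure]

/-- The pairs `(v, w)` satisfying one of the linear equations `a x • v + b x • w = c x`, where
`x` runs over a set of dimension smaller than the dimension of `E`, form a null set. -/
theorem null_linear (h : finrank ℝ X < finrank ℝ E) {a b : X → ℝ} {c : X → E} {s : Set X}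
    (ha : DifferentiableOn ℝ a s) (hb : DifferentiableOn ℝ b s) (hc : DifferentiableOn ℝ c s)
    (hab : ∀ x ∈ s, a x ≠ 0 ∨ b x ≠ 0) :
    μ {p : E × E | ∃ x ∈ s, a x • p.1 + b x • p.2 = c x} = 0 := by
  have hdim : finrank ℝ (X × E) < finrank ℝ (E × E) := by
    rw [finrank_prod, finrank_prod]
    omega
  -- first case
  let s₁ : Set (X × E) := {q | q.1 ∈ s ∧ a q.1 ≠ 0}
  let f₁ : X × E → E × E := fun q => ((a q.1)⁻¹ • (c q.1 - b q.1 • q.2), q.2)
  have hm₁ : MapsTo (Prod.fst : X × E → X) s₁ s := fun q hq => hq.1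
  have ha₁ : DifferentiableOn ℝ (fun q : X × E => a q.1) s₁ :=
    ha.comp differentiable_fst.differentiableOn hm₁
  have hb₁ : DifferentiableOn ℝ (fun q : X × E => b q.1) s₁ :=
    hb.comp differentiable_fst.differentiableOn hm₁
  have hc₁ : DifferentiableOn ℝ (fun q : X × E => c q.1) s₁ :=
    hc.comp differentiable_fst.differentiableOn hm₁
  have h₁ : DifferentiableOn ℝ f₁ s₁ := by
    refine DifferentiableOn.prodMk ?_ differentiable_snd.differentiableOn
    exact (ha₁.inv (fun q hq => hq.2)).smul
      (hc₁.sub (hb₁.smul differentiable_snd.differentiableOn))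
  -- second case
  let s₂ : Set (X × E) := {q | q.1 ∈ s ∧ b q.1 ≠ 0}
  let f₂ : X × E → E × E := fun q => (q.2, (b q.1)⁻¹ • (c q.1 - a q.1 • q.2))
  have hm₂ : MapsTo (Prod.fst : X × E → X) s₂ s := fun q hq => hq.1
  have ha₂ : DifferentiableOn ℝ (fun q : X × E => a q.1) s₂ :=
    ha.comp differentiable_fst.differentiableOn hm₂
  have hb₂ : DifferentiableOn ℝ (fun q : X × E => b q.1) s₂ :=
    hb.comp differentiable_fst.differentiableOn hm₂
  have hc₂ : DifferentiableOn ℝ (fun q : X × E => c q.1) s₂ :=
    hc.comp differentiable_fst.differentiableOn hm₂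
  have h₂ : DifferentiableOn ℝ f₂ s₂ := by
    refine DifferentiableOn.prodMk differentiable_snd.differentiableOn ?_
    exact (hb₂.inv (fun q hq => hq.2)).smul
      (hc₂.sub (ha₂.smul differentiable_snd.differentiableOn))
  refine measure_mono_null ?_ (measure_union_null (null_image μ hdim h₁) (null_image μ hdim h₂))
  rintro ⟨v, w⟩ ⟨x, hx, hxe⟩
  simp only at hxe
  rcases hab x hx with hax | hbx
  · left
    refine ⟨(x, w), ⟨hx, hax⟩, ?_⟩
    simp only [f₁, Prod.mk.injEq, and_true]
    rw [← hxe, add_sub_cancel_right, smul_smul, inv_mul_cancel₀ hax, one_smul]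
  · right
    refine ⟨(x, v), ⟨hx, hbx⟩, ?_⟩
    simp only [f₂, Prod.mk.injEq, true_and]
    rw [← hxe, add_sub_cancel_left, smul_smul, inv_mul_cancel₀ hbx, one_smul]

end lin

end Pool.Agent.Helper34.BI
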