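import Pool.Agent.Helper18.BI.R.StR

/-!
# Project BI, module UNK, part 2: logarithm and null-homotopy off the standard unknotted sphere
-/

set_option autoImplicit false

open scoped Topology
open Set Pool.Agent.Helper65.Barb Pool.Agent.Helper18.BI Pool.Agent.Helper18.BI.R

namespace Pool.Agent.Helper34.BI.UNK2

/-- radial retraction to the unit disc -/
noncomputable def rt (z : ℂ) : ℂ := (max 1 ‖z‖)⁻¹ • z

theorem rt_cont : Continuous rt := by
  unfold rt
  have hc : Continuous fun z : ℂ => max 1 ‖z‖ := continuous_const.max continuous_norm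
  refine Continuous.smul (hc.inv₀ ?_) continuous_id
  intro z
  have : (1 : ℝ) ≤ max 1 ‖z‖ := le_max_left _ _
  linarith

theorem rt_le (z : ℂ) : ‖rt z‖ ≤ 1 := by
  unfold rt
  have h1 : (1 : ℝ) ≤ max 1 ‖z‖ := le_max_left _ _
  have h2 : ‖z‖ ≤ max 1 ‖z‖ := le_max_right _ _
  rw [norm_smul, norm_inv, Real.norm_of_nonneg (by linarith), ← div_eq_inv_mul]
  exact (div_le_one (by linarith)).mpr h2

theorem rt_eq {z : ℂ} (hz : ‖z‖ ≤ 1) : rt z = z := by
  unfold rt
  rw [max_eq_left hz, inv_one, one_smul]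

/-- the two hemispheres -/
noncomputable def hs (σ : ℝ) (z : ℂ) : R3 := (σ * Real.sqrt (1 - ‖rt z‖ ^ 2), rt z)

theorem hs_cont (σ : ℝ) : Continuous (hs σ) := by
  unfold hs
  refine Continuous.prodMk ?_ rt_cont
  exact continuous_const.mul (Real.continuous_sqrt.comp
    (continuous_const.sub ((rt_cont.norm).pow 2)))

theorem nsqC (z : ℂ) : ‖z‖ ^ 2 = z.re ^ 2 + z.im ^ 2 := by
  rw [← Complex.normSq_eq_norm_sq, Complex.normSq_apply]
  ring

theorem mem_S2 {m : R3} : m ∈ S2 ↔ m.1 ^ 2 + m.2.re ^ 2 + m.2.im ^ 2 = 1 := Iff.rfl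

theorem hs_mem {σ : ℝ} (hσ : σ ^ 2 = 1) (z : ℂ) : hs σ z ∈ S2 := by
  rw [mem_S2]
  unfold hs
  have h1 := rt_le z
  have h2 : 0 ≤ ‖rt z‖ := norm_nonneg _
  have h3 : 0 ≤ 1 - ‖rt z‖ ^ 2 := by nlinarith
  show (σ * Real.sqrt (1 - ‖rt z‖ ^ 2)) ^ 2 + (rt z).re ^ 2 + (rt z).im ^ 2 = 1
  rw [mul_pow, Real.sq_sqrt h3, hσ, add_assoc, ← nsqC]
  ring

theorem lift_log (g : ℂ → ℂ) (hg : Continuous g) (h0 : ∀ z, g z ≠ 0) :
    ∃ L : ℂ → ℂ, Continuous L ∧ ∀ z, Complex.exp (L z) = g z := by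
  obtain ⟨L, ⟨-, hL⟩, -⟩ := Complex.isCoveringMapOn_exp.existsUnique_continuousMap_lifts
    (⟨g, hg⟩ : C(ℂ, ℂ)) (a₀ := 0) (e₀ := Complex.log (g 0)) (Complex.exp_log (h0 0))
    (fun z => h0 z)
  exact ⟨L, L.continuous, fun z => congrFun hL z⟩

theorem log_S2 (F : R3 → ℂ) (hF : ContinuousOn F S2) (h0 : ∀ m ∈ S2, F m ≠ 0) :
    ∃ l : R3 → ℂ, ContinuousOn l S2 ∧ ∀ m ∈ S2, Complex.exp (l m) = F m := by
  have s1 : (1 : ℝ) ^ 2 = 1 := by norm_num
  have s2 : (-1 : ℝ) ^ 2 = 1 := by norm_num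
  obtain ⟨Lp, hLp, hLpe⟩ := lift_log (fun z => F (hs 1 z))
    (hF.comp_continuous (hs_cont 1) (hs_mem s1)) (fun z => h0 _ (hs_mem s1 z))
  obtain ⟨Lm, hLm, hLme⟩ := lift_log (fun z => F (hs (-1) z))
    (hF.comp_continuous (hs_cont (-1)) (hs_mem s2)) (fun z => h0 _ (hs_mem s2 z))
  -- the difference on the circle
  have hcirc : ∀ z ∈ Metric.sphere (0 : ℂ) 1, Complex.exp (Lp z - Lm z) = 1 := by
    intro z hz
    have hz1 : ‖z‖ = 1 := by simpa using hz
    have e : hs 1 z = hs (-1) z := by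
      unfold hs
      rw [rt_eq hz1.le, hz1]
      norm_num
    rw [Complex.exp_sub, hLpe, hLme, e, div_self (h0 _ (hs_mem s2 z))]
  have hpre : IsPreconnected (Metric.sphere (0 : ℂ) 1) :=
    isPreconnected_sphere (by rw [Complex.rank_real_complex]; norm_num) 0 1
  have hconst : ∀ z ∈ Metric.sphere (0 : ℂ) 1, Lp z - Lm z = Lp 1 - Lm 1 := by
    intro z hz
    have h1 : (1 : ℂ) ∈ Metric.sphere (0 : ℂ) 1 := by simp
    have hdisc : DiscreteTopology (Complex.exp ⁻¹' {(1 : ℂ)} : Set ℂ) :=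
      (Complex.isCoveringMapOn_exp (1 : ℂ) (by simp)).1
    refine hpre.constant_of_mapsTo (T := (Complex.exp ⁻¹' {(1 : ℂ)} : Set ℂ))
      (f := fun z => Lp z - Lm z) ⟨hdisc⟩ (hLp.sub hLm).continuousOn ?_ hz h1
    intro w hw
    exact hcirc w hw
  set κ : ℂ := Lp 1 - Lm 1 with hκ
  have hexpκ : Complex.exp κ = 1 := hcirc 1 (by simp)
  refine ⟨fun m => if 0 ≤ m.1 then Lp m.2 else Lm m.2 + κ, ?_, ?_⟩
  · rw [continuousOn_iff_continuous_domRestrict]
    have hc : Continuous fun x : ↥S2 => if (0 : ℝ) ≤ (x : R3).1 then Lp (x : R3).2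
        else Lm (x : R3).2 + κ := by
      refine Continuous.if_le ?_ ?_ ?_ ?_ ?_
      · fun_prop
      · fun_prop
      · fun_prop
      · fun_prop
      · intro x hx
        have hx2 := mem_S2.mp x.2
        rw [← hx] at hx2
        have hn : ‖(x : R3).2‖ ^ 2 = 1 := by rw [nsqC]; linarith
        have hn1 : ‖(x : R3).2‖ = 1 := by
          have := norm_nonneg (x : R3).2
          nlinarith
        have := hconst (x : R3).2 (by simpa using hn1)
        rw [← this]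
        ring
    exact hc
  · intro m hm
    have hm' := mem_S2.mp hm
    have hn : ‖m.2‖ ^ 2 = 1 - m.1 ^ 2 := by rw [nsqC]; linarith
    have hn1 : ‖m.2‖ ≤ 1 := by
      have := norm_nonneg m.2
      nlinarith [sq_nonneg m.1]
    show Complex.exp (if 0 ≤ m.1 then Lp m.2 else Lm m.2 + κ) = F m
    split_ifs with h
    · rw [hLpe]
      congr 1
      unfold hs
      rw [rt_eq hn1, hn, sub_sub_cancel, Real.sqrt_sq h, one_mul]
    · rw [Complex.exp_add, hexpκ, mul_one, hLme]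
      congr 1
      unfold hs
      rw [rt_eq hn1, hn, sub_sub_cancel, Real.sqrt_sq_eq_abs, abs_of_neg (not_le.mp h)]
      simp

/-- the coordinates of `sph 1` -/
noncomputable def ee (p : R4) : R3 := (5 : ℝ) • (p.2 - (1, 0))

noncomputable def ei (m : R3) : R4 := (1 / 2, (1, 0) + (1 / 5 : ℝ) • m)

theorem ee_mem {p : R4} (hp : p ∈ sph 1) : ee p ∈ S2 := by
  have h : (p.2.1 - 1) ^ 2 + p.2.2.re ^ 2 + p.2.2.im ^ 2 = 1 / 25 := hp.2
  rw [mem_S2]
  unfold ee
  simp only [Prod.smul_fst, Prod.smul_snd, Prod.fst_sub, Prod.snd_sub, sub_zero, Complex.smul_re,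
    Complex.smul_im, smul_eq_mul]
  nlinarith

theorem ei_mem {m : R3} (hm : m ∈ S2) : ei m ∈ sph 1 := by
  have hm' := mem_S2.mp hm
  refine ⟨rfl, ?_⟩
  show ((1 : ℝ) + ((1 / 5 : ℝ) • m).1 - 1) ^ 2 + ((0 : ℂ) + ((1 / 5 : ℝ) • m).2).re ^ 2 +
    ((0 : ℂ) + ((1 / 5 : ℝ) • m).2).im ^ 2 = 1 / 25
  simp only [Prod.smul_fst, Prod.smul_snd, zero_add, Complex.smul_re,
    Complex.smul_im, smul_eq_mul]
  nlinarith

theorem ei_ee {p : R4} (hp : p ∈ sph 1) : ei (ee p) = p := by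
  unfold ei ee
  rw [smul_smul]
  norm_num
  exact Prod.ext (by simpa using hp.1.symm) rfl

section

variable (v e : EuclideanSpace ℝ (Fin 5)) (k : R4 → S4) (l : R4 → ℂ)

/-- the unnormalised homotopy -/
noncomputable def ww (x : ℝ × R4) : EuclideanSpace ℝ (Fin 5) :=
  (Complex.exp (((1 - x.1 : ℝ) : ℂ) * l x.2)).re • v +
    (Complex.exp (((1 - x.1 : ℝ) : ℂ) * l x.2)).im • e +
    (1 - x.1) • ((k x.2 : EuclideanSpace ℝ (Fin 5)) -
      inner ℝ (k x.2 : EuclideanSpace ℝ (Fin 5)) v • v -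
      inner ℝ (k x.2 : EuclideanSpace ℝ (Fin 5)) e • e)

variable {v e}

theorem ww_v (hv : ‖v‖ = 1) (hve : inner ℝ v e = 0) (x : ℝ × R4) :
    inner ℝ (ww v e k l x) v = (Complex.exp (((1 - x.1 : ℝ) : ℂ) * l x.2)).re := by
  have hvv : inner ℝ v v = (1 : ℝ) := by rw [real_inner_self_eq_norm_sq, hv]; norm_num
  have hev : inner ℝ e v = (0 : ℝ) := by rw [real_inner_comm]; exact hve
  unfold ww
  simp only [inner_add_left, inner_sub_left, inner_smul_left, hvv, hev, RCLike.conj_to_real]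
  ring

theorem ww_e (he : ‖e‖ = 1) (hve : inner ℝ v e = 0) (x : ℝ × R4) :
    inner ℝ (ww v e k l x) e = (Complex.exp (((1 - x.1 : ℝ) : ℂ) * l x.2)).im := by
  have hee : inner ℝ e e = (1 : ℝ) := by rw [real_inner_self_eq_norm_sq, he]; norm_num
  unfold ww
  simp only [inner_add_left, inner_sub_left, inner_smul_left, hee, hve, RCLike.conj_to_real]
  ring

theorem ww_off (hv : ‖v‖ = 1) (he : ‖e‖ = 1) (hve : inner ℝ v e = 0) (x : ℝ × R4) :
    inner ℝ (ww v e k l x) v ≠ 0 ∨ inner ℝ (ww v e k l x) e ≠ 0 := by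
  rw [ww_v k l hv hve, ww_e k l he hve]
  by_contra hcon
  push Not at hcon
  exact Complex.exp_ne_zero _ (Complex.ext hcon.1 hcon.2)

theorem ww_ne (hv : ‖v‖ = 1) (he : ‖e‖ = 1) (hve : inner ℝ v e = 0) (x : ℝ × R4) :
    ww v e k l x ≠ 0 := by
  intro h
  have := ww_off k l hv he hve x
  rw [h] at this
  simp at this

end

theorem unk2 (v e : EuclideanSpace ℝ (Fin 5)) (hv : ‖v‖ = 1) (he : ‖e‖ = 1)
    (hve : inner ℝ v e = 0) (k : R4 → S4) (hk : ContinuousOn k (sph 1))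
    (hoff : ∀ p ∈ sph 1, inner ℝ (k p : EuclideanSpace ℝ (Fin 5)) v ≠ 0 ∨
      inner ℝ (k p : EuclideanSpace ℝ (Fin 5)) e ≠ 0) :
    ∃ (h : ℝ × R4 → S4) (y : S4), ContinuousOn h (Icc (0 : ℝ) 1 ×ˢ sph 1) ∧
      (∀ p ∈ sph 1, h (0, p) = k p) ∧ (∀ p ∈ sph 1, h (1, p) = y) ∧
      ∀ u ∈ Icc (0 : ℝ) 1, ∀ p ∈ sph 1,
        inner ℝ (h (u, p) : EuclideanSpace ℝ (Fin 5)) v ≠ 0 ∨
          inner ℝ (h (u, p) : EuclideanSpace ℝ (Fin 5)) e ≠ 0 := by
  let z : R4 → ℂ := fun p => ⟨inner ℝ (k p : EuclideanSpace ℝ (Fin 5)) v,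
    inner ℝ (k p : EuclideanSpace ℝ (Fin 5)) e⟩
  have hk' : ContinuousOn (fun p => (k p : EuclideanSpace ℝ (Fin 5))) (sph 1) :=
    continuous_subtype_val.comp_continuousOn hk
  have hz : ContinuousOn z (sph 1) := by
    have h1 : ContinuousOn (fun p => inner ℝ (k p : EuclideanSpace ℝ (Fin 5)) v) (sph 1) :=
      hk'.inner continuousOn_const
    have h2 : ContinuousOn (fun p => inner ℝ (k p : EuclideanSpace ℝ (Fin 5)) e) (sph 1) :=
      hk'.inner continuousOn_const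
    exact Complex.equivRealProdCLM.symm.continuous.comp_continuousOn (h1.prodMk h2)
  have hz0 : ∀ p ∈ sph 1, z p ≠ 0 := by
    intro p hp h
    rcases hoff p hp with h1 | h1
    · exact h1 (congrArg Complex.re h)
    · exact h1 (congrArg Complex.im h)
  have hei : Continuous ei := by
    unfold ei
    fun_prop
  have hee : Continuous ee := by
    unfold ee
    fun_prop
  obtain ⟨l₀, hl₀, hl₀e⟩ := log_S2 (fun m => z (ei m))
    (hz.comp hei.continuousOn (fun m hm => ei_mem hm)) (fun m hm => hz0 _ (ei_mem hm))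
  let l : R4 → ℂ := fun p => l₀ (ee p)
  have hl : ContinuousOn l (sph 1) := hl₀.comp hee.continuousOn (fun p hp => ee_mem hp)
  have hle : ∀ p ∈ sph 1, Complex.exp (l p) = z p := by
    intro p hp
    show Complex.exp (l₀ (ee p)) = z p
    rw [hl₀e _ (ee_mem hp), ei_ee hp]
  have hwc : ContinuousOn (ww v e k l) (Icc (0 : ℝ) 1 ×ˢ sph 1) := by
    have h1 : ContinuousOn (fun x : ℝ × R4 => l x.2) (Icc (0 : ℝ) 1 ×ˢ sph 1) :=
      hl.comp continuousOn_snd (fun x hx => hx.2)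
    have h2 : ContinuousOn (fun x : ℝ × R4 => (k x.2 : EuclideanSpace ℝ (Fin 5)))
        (Icc (0 : ℝ) 1 ×ˢ sph 1) :=
      hk'.comp continuousOn_snd (fun x hx => hx.2)
    have h3 : ContinuousOn (fun x : ℝ × R4 => Complex.exp (((1 - x.1 : ℝ) : ℂ) * l x.2))
        (Icc (0 : ℝ) 1 ×ˢ sph 1) := by
      refine Complex.continuous_exp.comp_continuousOn (ContinuousOn.mul ?_ h1)
      exact (Complex.continuous_ofReal.comp (by fun_prop : Continuous fun x : ℝ × R4 => 1 - x.1)).continuousOn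
    have h4 : ContinuousOn (fun x : ℝ × R4 => 1 - x.1) (Icc (0 : ℝ) 1 ×ˢ sph 1) := by fun_prop
    unfold ww
    refine ContinuousOn.add (ContinuousOn.add ?_ ?_) ?_
    · exact (Complex.continuous_re.comp_continuousOn h3).smul continuousOn_const
    · exact (Complex.continuous_im.comp_continuousOn h3).smul continuousOn_const
    · have h5 : ∀ a : EuclideanSpace ℝ (Fin 5), ContinuousOn (fun x : ℝ × R4 =>
          inner ℝ (k x.2 : EuclideanSpace ℝ (Fin 5)) a • a) (Icc (0 : ℝ) 1 ×ˢ sph 1) := by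
        intro a
        have h6 : ContinuousOn (fun x : ℝ × R4 =>
            inner ℝ (k x.2 : EuclideanSpace ℝ (Fin 5)) a) (Icc (0 : ℝ) 1 ×ˢ sph 1) :=
          h2.inner continuousOn_const
        exact h6.smul continuousOn_const
      exact h4.smul ((h2.sub (h5 v)).sub (h5 e))
  have hne := ww_ne k l hv he hve
  let h : ℝ × R4 → S4 := fun x => ⟨‖ww v e k l x‖⁻¹ • ww v e k l x, by
    rw [mem_sphere_zero_iff_norm, norm_smul, norm_inv, norm_norm]
    exact inv_mul_cancel₀ (norm_ne_zero_iff.mpr (hne x))⟩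
  refine ⟨h, ⟨v, by rw [mem_sphere_zero_iff_norm, hv]⟩, ?_, ?_, ?_, ?_⟩
  · rw [Topology.IsInducing.subtypeVal.continuousOn_iff]
    exact (hwc.norm.inv₀ (fun x _ => norm_ne_zero_iff.mpr (hne x))).smul hwc
  · intro p hp
    have hw : ww v e k l (0, p) = (k p : EuclideanSpace ℝ (Fin 5)) := by
      unfold ww
      simp only [sub_zero, Complex.ofReal_one, one_mul, one_smul, hle p hp]
      show inner ℝ (k p : EuclideanSpace ℝ (Fin 5)) v • v +
        inner ℝ (k p : EuclideanSpace ℝ (Fin 5)) e • e + _ = _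
      abel
    apply Subtype.ext
    show ‖ww v e k l (0, p)‖⁻¹ • ww v e k l (0, p) = _
    rw [hw]
    have : ‖(k p : EuclideanSpace ℝ (Fin 5))‖ = 1 := mem_sphere_zero_iff_norm.mp (k p).2
    rw [this, inv_one, one_smul]
  · intro p _
    have hw : ww v e k l (1, p) = v := by
      unfold ww
      simp
    apply Subtype.ext
    show ‖ww v e k l (1, p)‖⁻¹ • ww v e k l (1, p) = v
    rw [hw, hv, inv_one, one_smul]
  · intro u _ p _
    have hi : ‖ww v e k l (u, p)‖⁻¹ ≠ 0 := inv_ne_zero (norm_ne_zero_iff.mpr (hne (u, p)))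
    have := ww_off k l hv he hve (u, p)
    show inner ℝ (‖ww v e k l (u, p)‖⁻¹ • ww v e k l (u, p)) v ≠ 0 ∨
      inner ℝ (‖ww v e k l (u, p)‖⁻¹ • ww v e k l (u, p)) e ≠ 0
    rw [inner_smul_left, inner_smul_left]
    simp only [RCLike.conj_to_real]
    rcases this with h1 | h1
    · exact Or.inl (mul_ne_zero hi h1)
    · exact Or.inr (mul_ne_zero hi h1)

end Pool.Agent.Helper34.BI.UNK2
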