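import Pool.Agent.Helper18.BI.Defs

/-!
# Local diffeomorphisms between vector spaces
-/

set_option autoImplicit false

open Module Set Filter Topology
open scoped ContDiff Manifold

namespace Pool.Agent.Helper34.BI

section
variable {E F : Type*} [NormedAddCommGroup E] [NormedSpace ℝ E]
  [NormedAddCommGroup F] [NormedSpace ℝ F]

/-- a local diffeomorphism is smooth near the point -/
theorem eventually_contDiffAt {f : E → F} {p : E}
    (hf : IsLocalDiffeomorphAt 𝓘(ℝ, E) 𝓘(ℝ, F) ∞ f p) : ∀ᶠ q in 𝓝 p, ContDiffAt ℝ ∞ f q := by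
  obtain ⟨Φ, hp, he⟩ := hf
  filter_upwards [Φ.open_source.mem_nhds hp] with q hq
  have h1 : ContDiffOn ℝ ∞ Φ Φ.source := contMDiffOn_iff_contDiffOn.1 Φ.contMDiffOn_toFun
  have h2 : ContDiffAt ℝ ∞ Φ q := h1.contDiffAt (Φ.open_source.mem_nhds hq)
  exact h2.congr_of_eventuallyEq (he.eventuallyEq_of_mem (Φ.open_source.mem_nhds hq))

/-- the derivative of a local diffeomorphism is injective -/
theorem injective_fderiv {f : E → F} {p : E}
    (hf : IsLocalDiffeomorphAt 𝓘(ℝ, E) 𝓘(ℝ, F) ∞ f p) : Function.Injective (fderiv ℝ f p) := by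
  obtain ⟨Φ, hp, he⟩ := hf
  have h1 : ContDiffOn ℝ ∞ Φ Φ.source := contMDiffOn_iff_contDiffOn.1 Φ.contMDiffOn_toFun
  have h2 : ContDiffOn ℝ ∞ Φ.toPartialEquiv.symm Φ.target :=
    contMDiffOn_iff_contDiffOn.1 Φ.contMDiffOn_invFun
  have hs := Φ.open_source.mem_nhds hp
  have ht := Φ.open_target.mem_nhds (Φ.toPartialEquiv.map_source hp)
  have d1 : HasFDerivAt Φ (fderiv ℝ Φ p) p :=
    ((h1.contDiffAt hs).differentiableAt (by simp)).hasFDerivAt
  have d2 : HasFDerivAt Φ.toPartialEquiv.symm (fderiv ℝ Φ.toPartialEquiv.symm (Φ p)) (Φ p) :=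
    ((h2.contDiffAt ht).differentiableAt (by simp)).hasFDerivAt
  have d3 := d2.comp p d1
  have d4 : HasFDerivAt (fun x : E => x)
      ((fderiv ℝ Φ.toPartialEquiv.symm (Φ p)).comp (fderiv ℝ Φ p)) p := by
    refine d3.congr_of_eventuallyEq ?_
    filter_upwards [hs] with q hq
    exact (Φ.toPartialEquiv.left_inv hq).symm
  have d5 := d4.unique (hasFDerivAt_id p)
  have d6 : fderiv ℝ f p = fderiv ℝ Φ p := (he.eventuallyEq_of_mem hs).fderiv_eq
  intro v w hvw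
  rw [d6] at hvw
  have := congrArg (fderiv ℝ Φ.toPartialEquiv.symm (Φ p)) hvw
  have e1 : ∀ z, (fderiv ℝ Φ.toPartialEquiv.symm (Φ p)) (fderiv ℝ Φ p z) = z := fun z =>
    congrArg (fun A : E →L[ℝ] E => A z) d5
  rw [e1, e1] at this
  exact this

variable [FiniteDimensional ℝ E] [FiniteDimensional ℝ F]

/-- inverse function theorem, in the form of `IsLocalDiffeomorphAt` -/
theorem isLocalDiffeomorphAt_of_injective (hdim : finrank ℝ E = finrank ℝ F) {f : E → F} {p : E}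
    (hf : ∀ᶠ q in 𝓝 p, ContDiffAt ℝ ∞ f q) (hinj : Function.Injective (fderiv ℝ f p)) :
    IsLocalDiffeomorphAt 𝓘(ℝ, E) 𝓘(ℝ, F) ∞ f p := by
  haveI : CompleteSpace E := FiniteDimensional.complete ℝ E
  -- a linear isomorphism
  let e : E ≃L[ℝ] F := (LinearEquiv.ofInjectiveOfFinrankEq (fderiv ℝ f p : E →ₗ[ℝ] F)
      hinj hdim).toContinuousLinearEquiv
  have he : (e : E →L[ℝ] F) = fderiv ℝ f p := ContinuousLinearMap.ext fun q => rfl
  have hfp : ContDiffAt ℝ ∞ f p := hf.self_of_nhds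
  have hd : HasFDerivAt f (e : E →L[ℝ] F) p := by
    rw [he]
    exact (hfp.differentiableAt (by simp)).hasFDerivAt
  let Φ := hfp.toOpenPartialHomeomorph f hd (by simp)
  have hΦ : (Φ : E → F) = f := rfl
  have hpΦ : p ∈ Φ.source := hfp.mem_toOpenPartialHomeomorph_source hd (by simp)
  -- good neighbourhood
  obtain ⟨U, hU, hUo, hpU⟩ := mem_nhds_iff.1 hf
  have hcont : ContinuousOn (fderiv ℝ f) U := by
    intro q hq
    have h1 : ContDiffAt ℝ ∞ f q := hU hq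
    have h2 : ContDiffAt ℝ ∞ (fderiv ℝ f) q := h1.fderiv_right (m := ∞) (by simp)
    exact h2.continuousAt.continuousWithinAt
  let R : Set (E →L[ℝ] F) := range ((↑) : (E ≃L[ℝ] F) → (E →L[ℝ] F))
  have hRo : IsOpen R := ContinuousLinearEquiv.isOpen
  let V : Set E := U ∩ fderiv ℝ f ⁻¹' R
  have hVo : IsOpen V := hcont.isOpen_inter_preimage hUo hRo
  have hpV : p ∈ V := ⟨hpU, ⟨e, he⟩⟩
  let Ψ := Φ.restrOpen V hVo
  have hsrc : Ψ.source = Φ.source ∩ V := rfl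
  refine ⟨⟨Ψ.toPartialEquiv, Ψ.open_source, Ψ.open_target, ?_, ?_⟩, ⟨hpΦ, hpV⟩, fun q _ => rfl⟩
  · refine contMDiffOn_iff_contDiffOn.2 ?_
    intro q hq
    have : ContDiffAt ℝ ∞ f q := hU (show q ∈ U from hq.2.1)
    exact this.contDiffWithinAt
  · refine contMDiffOn_iff_contDiffOn.2 ?_
    intro y hy
    have h1 : Ψ.symm y ∈ Ψ.source := Ψ.map_target hy
    obtain ⟨e', he'⟩ : fderiv ℝ f (Ψ.symm y) ∈ R := h1.2.2
    have h2 : ContDiffAt ℝ ∞ f (Ψ.symm y) := hU h1.2.1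
    have h3 : HasFDerivAt f (e' : E →L[ℝ] F) (Ψ.symm y) := by
      rw [he']
      exact (h2.differentiableAt (by simp)).hasFDerivAt
    exact (Ψ.contDiffAt_symm hy h3 h2).contDiffWithinAt

theorem isLocalDiffeomorphAt_iff (hdim : finrank ℝ E = finrank ℝ F) {f : E → F} {p : E} :
    IsLocalDiffeomorphAt 𝓘(ℝ, E) 𝓘(ℝ, F) ∞ f p ↔
      (∀ᶠ q in 𝓝 p, ContDiffAt ℝ ∞ f q) ∧ Function.Injective (fderiv ℝ f p) :=
  ⟨fun h => ⟨eventually_contDiffAt h, injective_fderiv h⟩,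
    fun h => isLocalDiffeomorphAt_of_injective hdim h.1 h.2⟩

end

end Pool.Agent.Helper34.BI
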