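import Pool.Agent.Helper34.BI.StD
import Pool.Agent.Helper34.BI.Loc

/-!
# Project BI, module CH: charts of the cuffs by stereographic projection
-/

set_option autoImplicit false

open Module Set Filter Topology
open scoped ContDiff Manifold ComplexConjugate
open Pool.Agent.Helper65.Barb Pool.Agent.Helper18.BI Pool.Agent.Helper27.BI

namespace Pool.Agent.Helper34.BI

namespace CH

theorem rsq_eq (c : ℝ) (p : R4) : rsq c p = (p.2.1 - c) ^ 2 + p.2.2.re ^ 2 + p.2.2.im ^ 2 := rfl

theorem cont_rsq (c : ℝ) : Continuous (rsq c) := by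
  have : rsq c = fun p : R4 => (p.2.1 - c) ^ 2 + p.2.2.re ^ 2 + p.2.2.im ^ 2 := by
    funext p; exact rsq_eq c p
  rw [this]
  fun_prop

theorem closed_sph (c : ℝ) : IsClosed (sph c) :=
  IsClosed.inter (isClosed_eq continuous_fst continuous_const)
    (isClosed_eq (cont_rsq c) continuous_const)

theorem cpt_sph (c : ℝ) : IsCompact (sph c) := by
  apply Metric.isCompact_of_isClosed_isBounded (closed_sph c)
  apply (Metric.isBounded_iff_subset_closedBall (0 : R4)).2
  refine ⟨|c| + 1, ?_⟩
  rintro p ⟨h1, h2⟩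
  rw [rsq_eq] at h2
  have hc := abs_nonneg c
  rw [mem_closedBall_zero_iff, Prod.norm_def, Prod.norm_def]
  refine max_le ?_ (max_le ?_ ?_)
  · rw [h1, Real.norm_eq_abs, abs_of_pos (by norm_num : (0 : ℝ) < 1 / 2)]
    linarith
  · have h3 : (p.2.1 - c) ^ 2 ≤ 1 ^ 2 := by nlinarith [sq_nonneg p.2.2.re, sq_nonneg p.2.2.im]
    have h4 := abs_le_of_sq_le_sq h3 (by norm_num)
    rw [Real.norm_eq_abs]
    have h5 : p.2.1 = c + (p.2.1 - c) := by ring
    rw [h5]
    exact (abs_add_le _ _).trans (by linarith)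
  · have h3 : ‖p.2.2‖ ^ 2 ≤ 1 ^ 2 := by
      rw [Complex.sq_norm, Complex.normSq_apply]
      nlinarith [sq_nonneg (p.2.1 - c)]
    have h4 := abs_le_of_sq_le_sq h3 (by norm_num)
    rw [abs_of_nonneg (norm_nonneg _)] at h4
    linarith

theorem npos (y : ℂ) : 0 < Complex.normSq y + 1 := by
  have := Complex.normSq_nonneg y; linarith

/-- `|st y| = 1` -/
theorem st_sq (y : ℂ) : (st y).1 ^ 2 + (st y).2.re ^ 2 + (st y).2.im ^ 2 = 1 := by
  have h := (npos y).ne'
  simp only [st, Complex.real_smul, Complex.mul_re, Complex.mul_im, Complex.ofReal_re,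
    Complex.ofReal_im, zero_mul, sub_zero, add_zero]
  rw [Complex.normSq_apply] at h ⊢
  field_simp
  ring

theorem st_lt (y : ℂ) : (st y).1 < 1 := by
  have h := npos y
  simp only [st]
  rw [div_lt_one h]
  linarith

theorem ctd_st : ContDiff ℝ ∞ st := by
  have hn : ContDiff ℝ ∞ (fun y : ℂ => Complex.normSq y) := by
    have : (fun y : ℂ => Complex.normSq y) = fun y : ℂ => y.re * y.re + y.im * y.im := by
      funext y; exact Complex.normSq_apply y
    rw [this]
    have h1 : ContDiff ℝ ∞ (fun y : ℂ => y.re) := Complex.reCLM.contDiff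
    have h2 : ContDiff ℝ ∞ (fun y : ℂ => y.im) := Complex.imCLM.contDiff
    exact (h1.mul h1).add (h2.mul h2)
  have hd : ∀ y : ℂ, Complex.normSq y + 1 ≠ 0 := fun y => (npos y).ne'
  have hs : ContDiff ℝ ∞ (fun y : ℂ => Complex.normSq y + 1) := hn.add contDiff_const
  exact ((hn.sub contDiff_const).div hs hd).prodMk
    ((contDiff_const.div hs hd).smul contDiff_id)

theorem ctd_cst (b : Bool) : ContDiff ℝ ∞ (cst b) := by
  have h1 : ContDiff ℝ ∞ (fun y => (st y).1) := contDiff_fst.comp ctd_st
  have h2 : ContDiff ℝ ∞ (fun y => (st y).2) := contDiff_snd.comp ctd_st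
  cases b
  · exact contDiff_const.prodMk ((h1.div_const 5).prodMk (h2.const_smul (1 / 5 : ℝ)))
  · exact contDiff_const.prodMk
      ((contDiff_const.sub (h1.div_const 5)).prodMk (h2.const_smul (1 / 5 : ℝ)))

/-- the centre of the cuff -/
def cen (b : Bool) : ℝ := if b then 1 else 0

theorem cst_mem (b : Bool) (y : ℂ) : cst b y ∈ sph (cen b) := by
  have h := st_sq y
  refine ⟨rfl, ?_⟩
  rw [rsq_eq]
  cases b <;>
  · simp only [cst, cen, Complex.real_smul, Complex.mul_re, Complex.mul_im, Complex.ofReal_re,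
      Complex.ofReal_im, zero_mul, sub_zero, add_zero, if_true, if_false, Bool.false_eq_true]
    linear_combination (1 / 25) * h

theorem sph_sub (b : Bool) : sph (cen b) ⊆ sph 0 ∪ sph 1 := by
  cases b
  · exact subset_union_left
  · exact subset_union_right

theorem sub_SP : sph 0 ∪ sph 1 ⊆ SP := subset_union_left

/-- the first coordinate on the unit sphere -/
noncomputable def xx (b : Bool) (p : R4) : ℝ := if b then 5 * (1 - p.2.1) else 5 * p.2.1

/-- the inverse of `cst b` -/
noncomputable def cinv (b : Bool) (p : R4) : ℂ := (5 / (1 - xx b p)) • p.2.2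

theorem cont_xx (b : Bool) : Continuous (xx b) := by
  cases b
  · exact (by fun_prop : Continuous fun p : R4 => 5 * p.2.1)
  · exact (by fun_prop : Continuous fun p : R4 => 5 * (1 - p.2.1))

theorem xx_sq {b : Bool} {p : R4} (hp : p ∈ sph (cen b)) :
    xx b p ^ 2 + (5 * p.2.2.re) ^ 2 + (5 * p.2.2.im) ^ 2 = 1 := by
  have h := hp.2
  rw [rsq_eq] at h
  cases b
  · simp only [xx, cen, if_false, Bool.false_eq_true] at h ⊢
    linear_combination 25 * h
  · simp only [xx, cen, if_true] at h ⊢
    linear_combination 25 * h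

theorem cst_cinv {b : Bool} {p : R4} (hp : p ∈ sph (cen b)) (hx : xx b p ≠ 1) :
    cst b (cinv b p) = p := by
  have h := xx_sq hp
  have hx' : 1 - xx b p ≠ 0 := fun h0 => hx (by linarith)
  set x := xx b p with hxd
  have hN : Complex.normSq (cinv b p) + 1 = 2 / (1 - x) := by
    rw [Complex.normSq_apply]
    simp only [cinv, ← hxd, Complex.real_smul, Complex.mul_re, Complex.mul_im, Complex.ofReal_re,
      Complex.ofReal_im, zero_mul, sub_zero, add_zero]
    field_simp
    linear_combination h
  have h1 : (st (cinv b p)).1 = x := by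
    have : (st (cinv b p)).1 = (Complex.normSq (cinv b p) + 1 - 2) / (Complex.normSq (cinv b p) + 1) := by
      simp only [st]; ring
    rw [this, hN]
    field_simp
    ring
  have h2 : (st (cinv b p)).2 = (5 : ℝ) • p.2.2 := by
    have : (st (cinv b p)).2 = (2 / (Complex.normSq (cinv b p) + 1)) • cinv b p := rfl
    rw [this, hN, cinv, ← hxd, smul_smul]
    congr 1
    field_simp
  have h3 : (1 / 5 : ℝ) • (st (cinv b p)).2 = p.2.2 := by
    rw [h2, smul_smul]; norm_num
  have h0 : p.1 = 1 / 2 := hp.1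
  cases b
  · have hx5 : x = 5 * p.2.1 := rfl
    refine Prod.ext h0.symm (Prod.ext ?_ h3)
    change (st (cinv false p)).1 / 5 = p.2.1
    rw [h1, hx5]; ring
  · have hx5 : x = 5 * (1 - p.2.1) := rfl
    refine Prod.ext h0.symm (Prod.ext ?_ h3)
    change 1 - (st (cinv true p)).1 / 5 = p.2.1
    rw [h1, hx5]; ring

theorem xx_cst (b : Bool) (y : ℂ) : xx b (cst b y) = (st y).1 := by
  cases b
  · change 5 * ((st y).1 / 5) = (st y).1
    ring
  · change 5 * (1 - (1 - (st y).1 / 5)) = (st y).1
    ring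

theorem cinv_cst (b : Bool) (y : ℂ) : cinv b (cst b y) = y := by
  have h2 : (cst b y).2.2 = (1 / 5 : ℝ) • (st y).2 := by cases b <;> rfl
  have h3 : (st y).2 = (2 / (Complex.normSq y + 1)) • y := rfl
  have h4 : 1 - (st y).1 = 2 / (Complex.normSq y + 1) := by
    have := (npos y).ne'
    simp only [st]
    field_simp
    ring
  have h5 := (npos y).ne'
  rw [cinv, xx_cst, h4, h2, h3, smul_smul, smul_smul]
  have : 5 / (2 / (Complex.normSq y + 1)) * (1 / 5) * (2 / (Complex.normSq y + 1)) = 1 := by
    field_simp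
  rw [this, one_smul]

/-- `F` is smooth at the points of the spine -/
theorem smooth_at {F : R4 → R4} (hF : EmbOn 𝓘(ℝ, R4) F SP) {p : R4} (hp : p ∈ SP) :
    ContDiffAt ℝ ∞ F p := (eventually_contDiffAt (hF.1 p hp)).self_of_nhds

/-- the side of the cuff -/
def side (b : Bool) : Set R4 := if b then {p | 1 / 2 < p.2.1} else {p | p.2.1 < 1 / 2}

theorem open_side (b : Bool) : IsOpen (side b) := by
  cases b
  · exact isOpen_lt (by fun_prop : Continuous fun p : R4 => p.2.1) continuous_const
  · exact isOpen_lt continuous_const (by fun_prop : Continuous fun p : R4 => p.2.1)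

theorem bnd {c : ℝ} {p : R4} (hp : p ∈ sph c) : c - 1 / 5 ≤ p.2.1 ∧ p.2.1 ≤ c + 1 / 5 := by
  have h := hp.2
  rw [rsq_eq] at h
  have h3 : (p.2.1 - c) ^ 2 ≤ (1 / 5) ^ 2 := by nlinarith [sq_nonneg p.2.2.re, sq_nonneg p.2.2.im]
  have h4 := abs_le_of_sq_le_sq' h3 (by norm_num)
  constructor <;> linarith [h4.1, h4.2]

theorem sph_side (b : Bool) {p : R4} (hp : p ∈ sph (cen b)) : p ∈ side b := by
  have h := bnd hp
  cases b
  · change p.2.1 < 1 / 2
    simp only [cen, if_false, Bool.false_eq_true] at h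
    linarith
  · change 1 / 2 < p.2.1
    simp only [cen, if_true] at h
    linarith

theorem side_sph {b : Bool} {p : R4} (hp : p ∈ sph 0 ∪ sph 1) (hs : p ∈ side b) :
    p ∈ sph (cen b) := by
  cases b
  · rcases hp with hp | hp
    · exact hp
    · have h := bnd hp
      have hs' : p.2.1 < 1 / 2 := hs
      linarith
  · rcases hp with hp | hp
    · have h := bnd hp
      have hs' : 1 / 2 < p.2.1 := hs
      linarith
    · exact hp

theorem foot {b : Bool} {p : R4} (hp : p ∈ sph (cen b)) (hx : xx b p = 1) :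
    p = (1 / 2, (if b then 4 / 5 else 1 / 5), 0) := by
  have h := xx_sq hp
  rw [hx] at h
  have h1 : p.2.2.re = 0 := by nlinarith [sq_nonneg p.2.2.re, sq_nonneg p.2.2.im]
  have h2 : p.2.2.im = 0 := by nlinarith [sq_nonneg p.2.2.re, sq_nonneg p.2.2.im]
  refine Prod.ext hp.1 (Prod.ext ?_ (Complex.ext h1 h2))
  cases b
  · have : 5 * p.2.1 = 1 := hx
    change p.2.1 = 1 / 5
    linarith
  · have : 5 * (1 - p.2.1) = 1 := hx
    change p.2.1 = 4 / 5
    linarith

/-- the derivative of `cst b` along a line -/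
theorem deriv_cst (b : Bool) (y : ℂ) (v : R4) (h1 : v.1 = 0) (h2 : drsq (cen b) (cst b y) v = 0) :
    ∃ η : ℂ, fderiv ℝ (cst b) y η = v := by
  obtain ⟨v0, v1, w⟩ := v
  simp only at h1
  subst h1
  set N : ℝ := Complex.normSq y + 1 with hN
  have hN0 : N ≠ 0 := (npos y).ne'
  -- the vector in three-space
  set α : ℝ := if b then -5 * v1 else 5 * v1 with hα
  have hN2 : N = y.re * y.re + y.im * y.im + 1 := by rw [hN, Complex.normSq_apply]
  have h3 : (N - 2) * α + 10 * (y.re * w.re + y.im * w.im) = 0 := by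
    have h21 : drsq (cen b) (cst b y) (0, v1, w) =
        ((cst b y).2.1 - cen b) * v1 + ((cst b y).2.2.re * w.re + (cst b y).2.2.im * w.im) := rfl
    rw [h21] at h2
    cases b
    · simp only [cst, st, cen, Complex.real_smul, Complex.mul_re, Complex.mul_im,
        Complex.ofReal_re, Complex.ofReal_im, zero_mul, sub_zero, add_zero, if_false,
        Bool.false_eq_true, ← hN] at h2
      simp only [hα, if_false, Bool.false_eq_true]
      have e : Complex.normSq y - 1 = N - 2 := by rw [hN]; ring
      rw [e] at h2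
      field_simp at h2
      linear_combination 5 * h2
    · simp only [cst, st, cen, Complex.real_smul, Complex.mul_re, Complex.mul_im,
        Complex.ofReal_re, Complex.ofReal_im, zero_mul, sub_zero, add_zero, if_true, ← hN] at h2
      simp only [hα, if_true]
      have e : Complex.normSq y - 1 = N - 2 := by rw [hN]; ring
      rw [e] at h2
      field_simp at h2
      linear_combination 5 * h2
  set η : ℂ := (N / 2) • ((5 : ℝ) • w + α • y) with hη
  have hre : η.re = N / 2 * (5 * w.re + α * y.re) := by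
    simp [hη]
    ring
  have him : η.im = N / 2 * (5 * w.im + α * y.im) := by
    simp [hη]
    ring
  refine ⟨η, ?_⟩
  have hdf : DifferentiableAt ℝ (cst b) y := (ctd_cst b).differentiable (by simp) y
  have hl : HasDerivAt (fun t : ℝ => y + t • η) η 0 := by
    have := ((hasDerivAt_id (0 : ℝ)).smul_const η).const_add y
    simpa using this
  have hc : HasDerivAt (fun t : ℝ => cst b (y + t • η)) (fderiv ℝ (cst b) y η) 0 := by
    have h0 : HasFDerivAt (cst b) (fderiv ℝ (cst b) y) (y + (0 : ℝ) • η) := by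
      rw [zero_smul, add_zero]; exact hdf.hasFDerivAt
    exact h0.comp_hasDerivAt (0 : ℝ) hl
  -- the components
  have hre' : HasDerivAt (fun t : ℝ => (y + t • η).re) η.re 0 := by
    have : (fun t : ℝ => (y + t • η).re) = fun t : ℝ => y.re + t * η.re := by
      funext t; simp
    rw [this]
    simpa using ((hasDerivAt_id (0 : ℝ)).mul_const η.re).const_add y.re
  have him' : HasDerivAt (fun t : ℝ => (y + t • η).im) η.im 0 := by
    have : (fun t : ℝ => (y + t • η).im) = fun t : ℝ => y.im + t * η.im := by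
      funext t; simp
    rw [this]
    simpa using ((hasDerivAt_id (0 : ℝ)).mul_const η.im).const_add y.im
  have hNN : HasDerivAt (fun t : ℝ => Complex.normSq (y + t • η) + 1) (α * N ^ 2 / 2) 0 := by
    have h5 : (fun t : ℝ => Complex.normSq (y + t • η) + 1) =
        fun t : ℝ => (y + t • η).re * (y + t • η).re + (y + t • η).im * (y + t • η).im + 1 := by
      funext t; rw [Complex.normSq_apply]
    rw [h5]
    have h6 := ((hre'.mul hre').add (him'.mul him')).add_const 1
    simp only [zero_smul, add_zero] at h6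
    refine h6.congr_deriv ?_
    rw [hre, him]
    linear_combination (N / 2) * h3 + (-(N * α)) * hN2
  have hN' : Complex.normSq (y + (0 : ℝ) • η) + 1 = N := by rw [zero_smul, add_zero]
  have hinv : HasDerivAt (fun t : ℝ => 2 / (Complex.normSq (y + t • η) + 1)) (-α) 0 := by
    have h6 := (hasDerivAt_const (0 : ℝ) (2 : ℝ)).div hNN (by rw [hN']; exact hN0)
    rw [hN'] at h6
    refine h6.congr_deriv ?_
    field_simp
    ring
  have hs1 : HasDerivAt (fun t : ℝ => (st (y + t • η)).1) α 0 := by
    have h7 : (fun t : ℝ => (st (y + t • η)).1) =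
        fun t : ℝ => 1 - 2 / (Complex.normSq (y + t • η) + 1) := by
      funext t
      have := (npos (y + t • η)).ne'
      simp only [st]
      field_simp
      ring
    rw [h7]
    simpa using hinv.const_sub 1
  have hs2 : HasDerivAt (fun t : ℝ => (st (y + t • η)).2) ((5 : ℝ) • w) 0 := by
    have h8 : HasDerivAt (fun t : ℝ => (2 / (Complex.normSq (y + t • η) + 1)) • (y + t • η))
        ((2 / (Complex.normSq (y + (0 : ℝ) • η) + 1)) • η + (-α) • (y + (0 : ℝ) • η)) 0 :=
      hinv.smul hl
    have h9 : (2 / (Complex.normSq (y + (0 : ℝ) • η) + 1)) • η + (-α) • (y + (0 : ℝ) • η) =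
        (5 : ℝ) • w := by
      rw [hN', hη, smul_smul]
      have e : 2 / N * (N / 2) = 1 := by field_simp
      rw [e, one_smul, zero_smul, add_zero, neg_smul]
      abel
    rw [h9] at h8
    exact h8
  have hgoal : HasDerivAt (fun t : ℝ => cst b (y + t • η)) ((0 : ℝ), v1, w) 0 := by
    have h10 : HasDerivAt (fun t : ℝ => (1 / 5 : ℝ) • (st (y + t • η)).2) w 0 := by
      have := hs2.const_smul (1 / 5 : ℝ)
      refine this.congr_deriv ?_
      rw [smul_smul]
      norm_num
    cases b
    · have h11 : HasDerivAt (fun t : ℝ => (st (y + t • η)).1 / 5) v1 0 := by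
        refine (hs1.div_const 5).congr_deriv ?_
        rw [hα]
        simp
      exact (hasDerivAt_const (0 : ℝ) (1 / 2 : ℝ)).prodMk (h11.prodMk h10)
    · have h11 : HasDerivAt (fun t : ℝ => 1 - (st (y + t • η)).1 / 5) v1 0 := by
        refine ((hs1.div_const 5).const_sub 1).congr_deriv ?_
        rw [hα]
        simp only [if_true]
        ring
      exact (hasDerivAt_const (0 : ℝ) (1 / 2 : ℝ)).prodMk (h11.prodMk h10)
  exact hc.unique hgoal

theorem crv_mem (b : Bool) (θ : ℝ) : crv b θ ∈ sph (cen b) := by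
  refine ⟨rfl, ?_⟩
  have h := Real.sin_sq_add_cos_sq θ
  rw [rsq_eq]
  cases b
  · simp only [crv, cen, if_false, Bool.false_eq_true]
    linear_combination (1 / 25) * h
  · simp only [crv, cen, if_true]
    linear_combination (1 / 25) * h

theorem ctd_crv (b : Bool) : ContDiff ℝ ∞ (crv b) := by
  have h1 : ContDiff ℝ ∞ (fun θ : ℝ => ((⟨0, Real.sin θ / 5⟩ : ℂ))) := by
    have : (fun θ : ℝ => ((⟨0, Real.sin θ / 5⟩ : ℂ))) =
        fun θ : ℝ => (Real.sin θ / 5) • Complex.I := by
      funext θ
      apply Complex.ext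
      · change (0 : ℝ) = _
        rw [Complex.real_smul, Complex.mul_re, Complex.I_re, Complex.I_im, Complex.ofReal_im]
        ring
      · change Real.sin θ / 5 = _
        rw [Complex.real_smul, Complex.mul_im, Complex.I_re, Complex.I_im, Complex.ofReal_re]
        ring
    rw [this]
    exact (Real.contDiff_sin.div_const 5).smul contDiff_const
  exact contDiff_const.prodMk ((contDiff_const.add (Real.contDiff_cos.div_const 5)).prodMk h1)

theorem exists_angle {a c : ℝ} (h : a ^ 2 + c ^ 2 = 1) : ∃ θ : ℝ, Real.cos θ = a ∧ Real.sin θ = c := by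
  have h1 : ‖(⟨a, c⟩ : ℂ)‖ = 1 := by
    rw [← sq_eq_sq₀ (norm_nonneg _) (by norm_num), Complex.sq_norm, Complex.normSq_apply]
    simp only
    linear_combination h
  obtain ⟨θ, hθ⟩ := (Complex.norm_eq_one_iff _).1 h1
  refine ⟨θ, ?_, ?_⟩
  · have := congrArg Complex.re hθ
    rwa [Complex.exp_ofReal_mul_I_re] at this
  · have := congrArg Complex.im hθ
    rwa [Complex.exp_ofReal_mul_I_im] at this

theorem crv_surj {b : Bool} {p : R4} (hp : p ∈ sph (cen b)) (h0 : p.2.2.re = 0) :
    ∃ θ, crv b θ = p := by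
  have h := hp.2
  rw [rsq_eq, h0] at h
  obtain ⟨θ, h1, h2⟩ := exists_angle (a := 5 * (p.2.1 - cen b)) (c := 5 * p.2.2.im)
    (by linear_combination 25 * h)
  refine ⟨θ, ?_⟩
  refine Prod.ext hp.1.symm (Prod.ext ?_ (Complex.ext ?_ ?_))
  · change cen b + Real.cos θ / 5 = p.2.1
    rw [h1]; ring
  · exact h0.symm
  · change Real.sin θ / 5 = p.2.2.im
    rw [h2]; ring

end CH

open CH in
theorem m_CH : StCH := by
  intro F hF
  have hsub : ∀ b y, cst b y ∈ SP := fun b y => sub_SP (sph_sub b (cst_mem b y))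
  refine ⟨⟨?_, fun _ => isOpen_univ, ?_, ?_, ?_, ?_⟩, ?_, ?_, ?_, ?_, ?_, ?_⟩
  · -- closed
    have hc : ContinuousOn F (sph 0 ∪ sph 1) := fun p hp =>
      (smooth_at hF (sub_SP hp)).continuousAt.continuousWithinAt
    exact (((cpt_sph 0).union (cpt_sph 1)).image_of_continuousOn hc).isClosed
  · -- smooth
    intro b y _
    exact ((smooth_at hF (hsub b y)).comp y (ctd_cst b).contDiffAt).contDiffWithinAt
  · -- mem
    intro b y _
    exact ⟨cst b y, sph_sub b (cst_mem b y), rfl⟩
  · -- cover
    rintro x ⟨p, hp, rfl⟩ h1 h2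
    have key : ∀ b : Bool, p ∈ sph (cen b) →
        F p ≠ F (1 / 2, (if b then 4 / 5 else 1 / 5), 0) →
        ∃ i, ∃ y ∈ (univ : Set ℂ), F (cst i y) = F p := by
      intro b hb hne
      refine ⟨b, cinv b p, mem_univ _, ?_⟩
      rw [cst_cinv hb]
      intro hx
      exact hne (congrArg F (foot hb hx))
    rcases hp with hp | hp
    · exact key false hp h1
    · exact key true hp h2
  · -- nhds
    intro b y _ V hV
    obtain ⟨V₀, hV₀, hV₀o, hy⟩ := mem_nhds_iff.1 hV
    set U : Set R4 := {p | xx b p ≠ 1} with hU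
    have hUo : IsOpen U := isOpen_ne_fun (cont_xx b) continuous_const
    have hcc : ContinuousOn (cinv b) U := by
      intro p hp
      have hp' : 1 - xx b p ≠ 0 := fun h0 => hp (by linarith)
      have h1 : ContinuousAt (fun p : R4 => 5 / (1 - xx b p)) p :=
        continuousAt_const.div (continuousAt_const.sub (cont_xx b).continuousAt) hp'
      exact (h1.smul (by fun_prop : Continuous fun p : R4 => p.2.2).continuousAt).continuousWithinAt
    have hO : IsOpen (U ∩ cinv b ⁻¹' V₀) := hcc.isOpen_inter_preimage hUo hV₀o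
    set K : Set R4 := (sph 0 ∪ sph 1) \ ((U ∩ cinv b ⁻¹' V₀) ∩ side b) with hK
    have hKc : IsCompact K := ((cpt_sph 0).union (cpt_sph 1)).diff (hO.inter (open_side b))
    have hKF : IsClosed (F '' K) := by
      have hc : ContinuousOn F K := fun p hp =>
        (smooth_at hF (sub_SP hp.1)).continuousAt.continuousWithinAt
      exact (hKc.image_of_continuousOn hc).isClosed
    refine ⟨(F '' K)ᶜ, hKF.isOpen_compl.mem_nhds ?_, ?_⟩
    · rintro ⟨q, hq, hqe⟩
      have : q = cst b y := hF.2 (sub_SP hq.1) (hsub b y) hqe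
      apply hq.2
      rw [this]
      refine ⟨⟨?_, ?_⟩, sph_side b (cst_mem b y)⟩
      · change xx b (cst b y) ≠ 1
        rw [xx_cst]
        exact (st_lt y).ne
      · change cinv b (cst b y) ∈ V₀
        rw [cinv_cst]
        exact hy
    · rintro x ⟨⟨p, hp, rfl⟩, hx⟩
      have hpK : p ∈ (U ∩ cinv b ⁻¹' V₀) ∩ side b := by
        by_contra hcon
        exact hx ⟨p, ⟨hp, hcon⟩, rfl⟩
      refine ⟨cinv b p, hV₀ hpK.1.2, ?_⟩
      change F (cst b (cinv b p)) = F p
      rw [cst_cinv (side_sph hp hpK.2) hpK.1.1]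
  · intro p hp hne
    refine ⟨cinv false p, cst_cinv (b := false) hp ?_⟩
    intro hx
    exact hne (foot (b := false) hp hx)
  · intro p hp hne
    refine ⟨cinv true p, cst_cinv (b := true) hp ?_⟩
    intro hx
    exact hne (foot (b := true) hp hx)
  · -- tangent vectors
    intro b y v h1 h2
    obtain ⟨η, hη⟩ := deriv_cst b y v h1 h2
    refine ⟨η, ?_⟩
    have hd1 : HasFDerivAt F (fderiv ℝ F (cst b y)) (cst b y) :=
      ((smooth_at hF (hsub b y)).differentiableAt (by simp)).hasFDerivAt
    have hd2 : HasFDerivAt (cst b) (fderiv ℝ (cst b) y) y :=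
      ((ctd_cst b).differentiable (by simp) y).hasFDerivAt
    have hd3 : HasFDerivAt (fun y => F (cst b y))
        ((fderiv ℝ F (cst b y)).comp (fderiv ℝ (cst b) y)) y := hd1.comp y hd2
    rw [hd3.fderiv, ContinuousLinearMap.comp_apply, hη]
  · intro b
    rw [contDiff_iff_contDiffAt]
    intro θ
    exact (smooth_at hF (sub_SP (sph_sub b (crv_mem b θ)))).comp θ (ctd_crv b).contDiffAt
  · intro p hp h0
    exact crv_surj (b := false) hp h0
  · intro p hp h0
    exact crv_surj (b := true) hp h0

end Pool.Agent.Helper34.BI
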