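import Pool.Agent.Helper34.BI.StD

/-!
# Project BI, module CO: global core functions
-/

set_option autoImplicit false

open Module Set Filter Topology
open scoped ContDiff Manifold ComplexConjugate
open Pool.Agent.Helper65.Barb Pool.Agent.Helper18.BI Pool.Agent.Helper27.BI

namespace Pool.Agent.Helper34.BI

/-- the axis of the neck -/
private noncomputable def eCO (u : ℝ) : R4 := (1 / 2, u, 0)

private theorem eCO_contDiff : ContDiff ℝ ∞ eCO :=
  contDiff_const.prodMk (contDiff_id.prodMk contDiff_const)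

private theorem eCO_hasDerivAt (u : ℝ) : HasDerivAt eCO ((0, 1, 0) : R4) u := by
  have h1 : HasDerivAt (fun _ : ℝ => (1 / 2 : ℝ)) 0 u := hasDerivAt_const u _
  have h2 : HasDerivAt (fun x : ℝ => x) 1 u := hasDerivAt_id u
  have h3 : HasDerivAt (fun _ : ℝ => (0 : ℂ)) 0 u := hasDerivAt_const u _
  exact h1.prodMk (h2.prodMk h3)

private theorem eCO_mem {u : ℝ} (hu : u ∈ Icc (1 / 5 : ℝ) (4 / 5)) : eCO u ∈ SP :=
  Or.inr ⟨rfl, hu.1, hu.2, rfl⟩

private theorem abs_CO {u : ℝ} (hu : u ∈ Icc (1 / 5 : ℝ) (4 / 5)) : |u - 1 / 2| ≤ 3 / 10 := by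
  rw [abs_le]
  constructor <;> linarith [hu.1, hu.2]

/-- a germ is smooth near the axis -/
private theorem nbhd_CO (F : R4 → R4) (hF : EmbOn 𝓘(ℝ, R4) F SP) :
    ∃ r > 0, ∀ u : ℝ, |u - 1 / 2| < 3 / 10 + r → ContDiffAt ℝ ∞ F (eCO u) := by
  have hO : IsOpen (eCO ⁻¹' (interior {p : R4 | ContDiffAt ℝ ∞ F p})) :=
    isOpen_interior.preimage eCO_contDiff.continuous
  have hsub : Metric.closedBall (1 / 2 : ℝ) (3 / 10) ⊆
      eCO ⁻¹' (interior {p : R4 | ContDiffAt ℝ ∞ F p}) := by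
    intro u hu
    rw [Metric.mem_closedBall, Real.dist_eq, abs_le] at hu
    have hm : u ∈ Icc (1 / 5 : ℝ) (4 / 5) := ⟨by linarith [hu.1], by linarith [hu.2]⟩
    have := eventually_contDiffAt (hF.1 _ (eCO_mem hm))
    exact mem_interior_iff_mem_nhds.2 this
  obtain ⟨r, hr, hr2⟩ := (isCompact_closedBall (1 / 2 : ℝ) (3 / 10)).exists_thickening_subset_open
    hO hsub
  refine ⟨r, hr, fun u hu => ?_⟩
  have h1 : u ∈ Metric.thickening r (Metric.closedBall (1 / 2 : ℝ) (3 / 10)) := by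
    rw [thickening_closedBall hr (by norm_num), Metric.mem_ball, Real.dist_eq]
    linarith
  exact interior_subset (hr2 h1)

/-- the cut off core function of one germ -/
private theorem cut_CO (F : R4 → R4) (hF : EmbOn 𝓘(ℝ, R4) F SP) {r : ℝ} (hr : 0 < r)
    (hsm : ∀ u : ℝ, |u - 1 / 2| < 3 / 10 + r → ContDiffAt ℝ ∞ F (eCO u))
    (Ψ : ℝ → ℝ) (hΨ : ContDiff ℝ ∞ Ψ) (h1 : ∀ u : ℝ, |u - 1 / 2| ≤ 3 / 10 + r / 3 → Ψ u = 1)
    (h0 : ∀ u : ℝ, 3 / 10 + 2 * r / 3 ≤ |u - 1 / 2| → Ψ u = 0) :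
    ContDiff ℝ ∞ (fun u => Ψ u • F (eCO u)) ∧
      ∀ u ∈ Icc (1 / 5 : ℝ) (4 / 5), deriv (fun u => Ψ u • F (eCO u)) u ≠ 0 := by
  have hc : Continuous (fun u : ℝ => |u - 1 / 2|) := (continuous_id.sub continuous_const).abs
  constructor
  · rw [contDiff_iff_contDiffAt]
    intro u
    rcases lt_or_ge (|u - 1 / 2|) (3 / 10 + r) with h | h
    · exact hΨ.contDiffAt.smul ((hsm u h).comp u eCO_contDiff.contDiffAt)
    · have h2 : ∀ᶠ v : ℝ in 𝓝 u, 3 / 10 + 2 * r / 3 < |v - 1 / 2| :=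
        hc.continuousAt.eventually_const_lt (by linarith)
      have h3 : (fun u => Ψ u • F (eCO u)) =ᶠ[𝓝 u] fun _ => (0 : R4) := by
        filter_upwards [h2] with v hv
        rw [h0 v hv.le, zero_smul]
      exact contDiffAt_const.congr_of_eventuallyEq h3
  · intro u hu
    have hu' := abs_CO hu
    have h2 : ∀ᶠ v : ℝ in 𝓝 u, |v - 1 / 2| < 3 / 10 + r / 3 :=
      hc.continuousAt.eventually_lt_const (by linarith)
    have h3 : (fun u => Ψ u • F (eCO u)) =ᶠ[𝓝 u] fun u => F (eCO u) := by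
      filter_upwards [h2] with v hv
      rw [h1 v hv.le, one_smul]
    have h4 : HasDerivAt (fun u => F (eCO u)) (fderiv ℝ F (eCO u) ((0, 1, 0) : R4)) u :=
      (((hsm u (by linarith)).differentiableAt (by simp)).hasFDerivAt).comp_hasDerivAt u
        (eCO_hasDerivAt u)
    rw [h3.deriv_eq, h4.deriv]
    intro h5
    have h6 := injective_fderiv (hF.1 _ (eCO_mem hu))
    have h7 : ((0, 1, 0) : R4) = 0 := h6 (by rw [h5, map_zero])
    have h8 := congrArg (fun p : R4 => p.2.1) h7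
    simp at h8

/-- **CO.** The two core arcs extended to smooth functions on the line. -/
theorem m_CO : StCO := by
  intro F F' U hF hF' hU hsU hFF
  obtain ⟨r₁, hr₁, hs₁⟩ := nbhd_CO F hF
  obtain ⟨r₂, hr₂, hs₂⟩ := nbhd_CO F' hF'
  have hV : IsOpen (eCO ⁻¹' U) := hU.preimage eCO_contDiff.continuous
  have ha : (1 / 5 : ℝ) ∈ eCO ⁻¹' U := by
    refine hsU (Or.inl ⟨rfl, ?_⟩)
    simp only [rsq, nsq, eCO]
    norm_num
  have hb : (4 / 5 : ℝ) ∈ eCO ⁻¹' U := by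
    refine hsU (Or.inr ⟨rfl, ?_⟩)
    simp only [rsq, nsq, eCO]
    norm_num
  obtain ⟨r₃, hr₃, hs₃⟩ := Metric.isOpen_iff.1 hV _ ha
  obtain ⟨r₄, hr₄, hs₄⟩ := Metric.isOpen_iff.1 hV _ hb
  obtain ⟨r, hr, hra, hrb, hrc, hrd, hre⟩ : ∃ r : ℝ, 0 < r ∧ r ≤ r₁ ∧ r ≤ r₂ ∧ r ≤ r₃ ∧ r ≤ r₄ ∧
      r ≤ 1 / 10 :=
    ⟨min (min r₁ r₂) (min (min r₃ r₄) (1 / 10)), by positivity,
      (min_le_left _ _).trans (min_le_left _ _), (min_le_left _ _).trans (min_le_right _ _),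
      (min_le_right _ _).trans ((min_le_left _ _).trans (min_le_left _ _)),
      (min_le_right _ _).trans ((min_le_left _ _).trans (min_le_right _ _)),
      (min_le_right _ _).trans (min_le_right _ _)⟩
  let Ψ : ContDiffBump (1 / 2 : ℝ) := ⟨3 / 10 + r / 3, 3 / 10 + 2 * r / 3, by positivity,
    by linarith⟩
  have hΨ : ContDiff ℝ ∞ Ψ := Ψ.contDiff
  have h1 : ∀ u : ℝ, |u - 1 / 2| ≤ 3 / 10 + r / 3 → Ψ u = 1 := fun u hu =>
    Ψ.one_of_mem_closedBall (by rw [Metric.mem_closedBall, Real.dist_eq]; exact hu)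
  have h0 : ∀ u : ℝ, 3 / 10 + 2 * r / 3 ≤ |u - 1 / 2| → Ψ u = 0 := fun u hu =>
    Ψ.zero_of_le_dist (by rw [Real.dist_eq]; exact hu)
  obtain ⟨hc₀, hd₀⟩ := cut_CO F hF hr (fun u hu => hs₁ u (by linarith)) Ψ hΨ h1 h0
  obtain ⟨hc₁, hd₁⟩ := cut_CO F' hF' hr (fun u hu => hs₂ u (by linarith)) Ψ hΨ h1 h0
  refine ⟨fun u => Ψ u • F (eCO u), fun u => Ψ u • F' (eCO u), r / 3, by positivity, by linarith,
    hc₀, hc₁, fun u hu => ?_, fun u hu => ?_, fun u hu => ⟨hd₀ u hu, hd₁ u hu⟩⟩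
  · have h := abs_CO hu
    have h2 := h1 u (by linarith)
    simp only [h2, one_smul]
    exact ⟨rfl, rfl⟩
  · rcases lt_or_ge (|u - 1 / 2|) (3 / 10 + 2 * r / 3) with h | h
    · rw [abs_lt] at h
      have h2 : eCO u ∈ U := by
        rcases hu with h3 | h3
        · refine hs₃ ?_
          rw [Metric.mem_ball, Real.dist_eq, abs_lt]
          constructor <;> linarith [h.1, h.2]
        · refine hs₄ ?_
          rw [Metric.mem_ball, Real.dist_eq, abs_lt]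
          constructor <;> linarith [h.1, h.2]
      simp only [hFF h2]
    · have h2 := h0 u h
      simp only [h2, zero_smul]

end Pool.Agent.Helper34.BI
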