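import Pool.Agent.Helper34.BI.StD
import Pool.Agent.Helper34.BI.Loc
import Pool.Agent.Helper18.BI.M_S4

/-!
# D1b: from local to global at a crossing
-/

set_option autoImplicit false

open Module Set Filter Topology
open scoped ContDiff Manifold ComplexConjugate
open Pool.Agent.Helper65.Barb Pool.Agent.Helper18.BI Pool.Agent.Helper27.BI

namespace Pool.Agent.Helper34.BI

namespace D1b

theorem continuous_rsq (c : ℝ) : Continuous (rsq c) := by
  unfold rsq nsq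
  fun_prop

theorem cpt_FB : IsCompact FB :=
  ((S4.cpt_flat 0).union (S4.cpt_flat 1)).union S4.cpt_neck

theorem cpt_SH (η : ℝ) : IsCompact (SH η) := by
  have h : SH η = FB ∩ ({p | 1 / 25 - η ≤ rsq 0 p} ∩ {p | 1 / 25 - η ≤ rsq 1 p}) := by
    ext p
    simp only [SH, mem_setOf_eq, mem_inter_iff]
  rw [h]
  exact cpt_FB.inter_right ((isClosed_le continuous_const (continuous_rsq 0)).inter
    (isClosed_le continuous_const (continuous_rsq 1)))

theorem cpt_CL (η : ℝ) : IsCompact (CL η) := by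
  have h : CL η = SH η ∩ ({p | rsq 0 p ≤ 1 / 25} ∪ {p | rsq 1 p ≤ 1 / 25}) := by
    ext p
    simp only [CL, mem_setOf_eq, mem_inter_iff, mem_union]
  rw [h]
  exact (cpt_SH η).inter_right ((isClosed_le (continuous_rsq 0) continuous_const).union
    (isClosed_le (continuous_rsq 1) continuous_const))

theorem mono_SH : Monotone SH := by
  intro a b hab p hp
  exact ⟨hp.1, by linarith [hp.2.1], by linarith [hp.2.2]⟩

theorem mono_CL : Monotone CL := by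
  intro a b hab p hp
  exact ⟨mono_SH hab hp.1, hp.2⟩

theorem fst_FB {p : R4} (hp : p ∈ FB) : p.1 = 1 / 2 := by
  rcases hp with (h | h) | h
  · exact h.1
  · exact h.1
  · exact h.1

theorem le_of_seq {x y : ℝ} (h : ∀ n : ℕ, x - 1 / ((n : ℝ) + 1) ≤ y) : x ≤ y := by
  refine le_of_forall_pos_le_add fun ε hε => ?_
  obtain ⟨n, hn⟩ := exists_nat_one_div_lt hε
  linarith [h n]

theorem SP_of_SH {p : R4} (h : ∀ n : ℕ, p ∈ SH (1 / ((n : ℝ) + 1))) : p ∈ SP := by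
  have h0 : 1 / 25 ≤ rsq 0 p := le_of_seq fun n => (h n).2.1
  have h1 : 1 / 25 ≤ rsq 1 p := le_of_seq fun n => (h n).2.2
  rcases (h 0).1 with (h2 | h2) | h2
  · exact Or.inl (Or.inl ⟨h2.1, le_antisymm h2.2 h0⟩)
  · exact Or.inl (Or.inr ⟨h2.1, le_antisymm h2.2 h1⟩)
  · exact Or.inr h2

theorem sph_of_CL {p : R4} (h : ∀ n : ℕ, p ∈ CL (1 / ((n : ℝ) + 1))) : p ∈ sph 0 ∪ sph 1 := by
  have h0 : 1 / 25 ≤ rsq 0 p := le_of_seq fun n => (h n).1.2.1
  have h1 : 1 / 25 ≤ rsq 1 p := le_of_seq fun n => (h n).1.2.2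
  have hf : p.1 = 1 / 2 := fst_FB (h 0).1.1
  rcases (h 0).2 with h2 | h2
  · exact Or.inl ⟨hf, le_antisymm h2 h0⟩
  · exact Or.inr ⟨hf, le_antisymm h2 h1⟩

/-- shrinking to a compact set -/
theorem shrink (K : ℝ → Set R4) (K0 : Set R4) (hc : ∀ η, IsCompact (K η)) (hm : Monotone K)
    (h0 : ∀ p, (∀ n : ℕ, p ∈ K (1 / ((n : ℝ) + 1))) → p ∈ K0) (U : Set (ℝ × R4 × R4))
    (hU : ∀ p ∈ K0, ∀ q ∈ K0, U ∈ 𝓝 ((0 : ℝ), p, q)) :
    ∀ᶠ η in 𝓝[>] (0 : ℝ), ∀ r ∈ Icc (-η) η, ∀ p ∈ K η, ∀ q ∈ K η, (r, p, q) ∈ U := by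
  set V : ℕ → Set (ℝ × R4 × R4) := fun n =>
    Icc (-(1 / ((n : ℝ) + 1))) (1 / ((n : ℝ) + 1)) ×ˢ (K (1 / ((n : ℝ) + 1)) ×ˢ K (1 / ((n : ℝ) + 1)))
    with hV
  have hVc : ∀ n, IsCompact (V n) := fun n => isCompact_Icc.prod ((hc _).prod (hc _))
  have hanti : ∀ {m n : ℕ}, m ≤ n → V n ⊆ V m := by
    intro m n hmn
    have h1 : 1 / ((n : ℝ) + 1) ≤ 1 / ((m : ℝ) + 1) := by
      apply one_div_le_one_div_of_le (by positivity)
      have : (m : ℝ) ≤ n := by exact_mod_cast hmn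
      linarith
    exact prod_mono (Icc_subset_Icc (neg_le_neg h1) h1) (prod_mono (hm h1) (hm h1))
  have hdir : Directed (fun a b : Set (ℝ × R4 × R4) => a ⊇ b) V := by
    intro m n
    exact ⟨max m n, hanti (le_max_left _ _), hanti (le_max_right _ _)⟩
  obtain ⟨n, hn⟩ := exists_subset_nhds_of_isCompact' hdir hVc (fun n => (hVc n).isClosed)
    (U := U) (by
      rintro ⟨r, p, q⟩ hx
      rw [mem_iInter] at hx
      have hr : r = 0 := by
        have h1 : r ≤ 0 := le_of_forall_pos_le_add fun ε hε => by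
          obtain ⟨n, hn⟩ := exists_nat_one_div_lt hε
          linarith [(hx n).1.2]
        have h2 : 0 ≤ r := by
          have : -r ≤ 0 := le_of_forall_pos_le_add fun ε hε => by
            obtain ⟨n, hn⟩ := exists_nat_one_div_lt hε
            linarith [(hx n).1.1]
          linarith
        exact le_antisymm h1 h2
      subst hr
      exact hU p (h0 p fun n => (hx n).2.1) q (h0 q fun n => (hx n).2.2))
  have hpos : (0 : ℝ) < 1 / ((n : ℝ) + 1) := by positivity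
  filter_upwards [Ioo_mem_nhdsGT hpos] with η hη r hr p hp q hq
  apply hn
  exact ⟨⟨by linarith [hr.1, hη.2], by linarith [hr.2, hη.2]⟩, hm hη.2.le hp, hm hη.2.le hq⟩

/-! ## the map `(t, p) ↦ (t, J (t, p))` -/

/-- the graph map -/
def gr (J : ℝ × R4 → R4) (x : ℝ × R4) : ℝ × R4 := (x.1, J x)

theorem contDiffAt_gr {J : ℝ × R4 → R4} {x : ℝ × R4} (h : ContDiffAt ℝ ∞ J x) :
    ContDiffAt ℝ ∞ (gr J) x := contDiffAt_fst.prodMk h

theorem fderiv_gr {J : ℝ × R4 → R4} {x : ℝ × R4} (h : ContDiffAt ℝ ∞ J x) (ζ : ℝ × R4) :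
    fderiv ℝ (gr J) x ζ = (ζ.1, fderiv ℝ J x ζ) := by
  have h1 : HasFDerivAt J (fderiv ℝ J x) x := (h.differentiableAt (by simp)).hasFDerivAt
  have h2 : HasFDerivAt (gr J) ((ContinuousLinearMap.fst ℝ ℝ R4).prod (fderiv ℝ J x)) x :=
    hasFDerivAt_fst.prodMk h1
  rw [h2.fderiv]
  rfl

theorem fderiv_slice {J : ℝ × R4 → R4} {t : ℝ} {p : R4} (h : ContDiffAt ℝ ∞ J (t, p)) (v : R4) :
    fderiv ℝ (fun p => J (t, p)) p v = fderiv ℝ J (t, p) (0, v) := by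
  have h1 : HasFDerivAt J (fderiv ℝ J (t, p)) (t, p) :=
    (h.differentiableAt (by simp)).hasFDerivAt
  have h2 : HasFDerivAt (fun p : R4 => (t, p)) (ContinuousLinearMap.inr ℝ ℝ R4) p :=
    hasFDerivAt_prodMk_right t p
  have h3 : HasFDerivAt (fun p : R4 => J (t, p))
      ((fderiv ℝ J (t, p)).comp (ContinuousLinearMap.inr ℝ ℝ R4)) p := h1.comp p h2
  rw [h3.fderiv]
  rfl

theorem locDiff_gr {J : ℝ × R4 → R4} {t : ℝ} {p : R4} (hs : ∀ᶠ q in 𝓝 (t, p), ContDiffAt ℝ ∞ J q)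
    (hl : IsLocalDiffeomorphAt 𝓘(ℝ, R4) 𝓘(ℝ, R4) ∞ (fun p => J (t, p)) p) :
    IsLocalDiffeomorphAt 𝓘(ℝ, ℝ × R4) 𝓘(ℝ, ℝ × R4) ∞ (gr J) (t, p) := by
  refine isLocalDiffeomorphAt_of_injective rfl (hs.mono fun q hq => contDiffAt_gr hq) ?_
  rw [injective_iff_map_eq_zero]
  intro ζ hζ
  rw [fderiv_gr hs.self_of_nhds, Prod.mk_eq_zero] at hζ
  obtain ⟨τ, v⟩ := ζ
  obtain ⟨h1, h2⟩ := hζ
  change τ = 0 at h1
  subst h1
  rw [← fderiv_slice hs.self_of_nhds] at h2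
  have h3 := (injective_iff_map_eq_zero _).1 (injective_fderiv hl) v h2
  rw [h3]
  rfl

theorem locDiff_slice {J : ℝ × R4 → R4} {t : ℝ} {p : R4}
    (hs : ∀ᶠ q in 𝓝 (t, p), ContDiffAt ℝ ∞ J q)
    (hl : IsLocalDiffeomorphAt 𝓘(ℝ, ℝ × R4) 𝓘(ℝ, ℝ × R4) ∞ (gr J) (t, p)) :
    IsLocalDiffeomorphAt 𝓘(ℝ, R4) 𝓘(ℝ, R4) ∞ (fun p => J (t, p)) p := by
  refine isLocalDiffeomorphAt_of_injective rfl ?_ ?_
  · have hc : Tendsto (fun p' : R4 => (t, p')) (𝓝 p) (𝓝 (t, p)) :=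
      (Continuous.prodMk_right t).continuousAt
    filter_upwards [hc.eventually hs] with q hq
    exact hq.comp q (contDiffAt_const.prodMk contDiffAt_id)
  · rw [injective_iff_map_eq_zero]
    intro v hv
    rw [fderiv_slice hs.self_of_nhds] at hv
    have h1 := (injective_iff_map_eq_zero _).1 (injective_fderiv hl) (0, v) (by
      rw [fderiv_gr hs.self_of_nhds, hv]
      rfl)
    exact (Prod.mk_eq_zero.1 h1).2

/-- near a point of the spine the graph map is smooth and a local diffeomorphism -/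
theorem eventually_good {J : ℝ × R4 → R4} {t : ℝ} {p : R4}
    (hs : ∀ᶠ q in 𝓝 (t, p), ContDiffAt ℝ ∞ J q)
    (hl : IsLocalDiffeomorphAt 𝓘(ℝ, R4) 𝓘(ℝ, R4) ∞ (fun p => J (t, p)) p) :
    ∀ᶠ q in 𝓝 (t, p), ContDiffAt ℝ ∞ J q ∧
      IsLocalDiffeomorphAt 𝓘(ℝ, R4) 𝓘(ℝ, R4) ∞ (fun p => J (q.1, p)) q.2 := by
  obtain ⟨Φ, hp, hΦ⟩ := locDiff_gr hs hl
  filter_upwards [hs.eventually_nhds, Φ.open_source.mem_nhds hp] with q h1 h2
  exact ⟨h1.self_of_nhds, locDiff_slice (t := q.1) (p := q.2) h1 ⟨Φ, h2, hΦ⟩⟩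

/-- near a point of the spine the graph map is injective -/
theorem eventually_inj {J : ℝ × R4 → R4} {t : ℝ} {p : R4}
    (hs : ∀ᶠ q in 𝓝 (t, p), ContDiffAt ℝ ∞ J q)
    (hl : IsLocalDiffeomorphAt 𝓘(ℝ, R4) 𝓘(ℝ, R4) ∞ (fun p => J (t, p)) p) :
    ∃ N ∈ 𝓝 (t, p), ∀ x ∈ N, ∀ y ∈ N, x.1 = y.1 → J x = J y → x = y := by
  obtain ⟨Φ, hp, hΦ⟩ := locDiff_gr hs hl
  refine ⟨Φ.source, Φ.open_source.mem_nhds hp, ?_⟩
  intro x hx y hy h1 h2
  apply Φ.injOn hx hy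
  change Φ.toFun x = Φ.toFun y
  rw [← hΦ hx, ← hΦ hy]
  exact Prod.ext h1 h2

end D1b

open D1b

theorem m_D1b : StD1b := by
  intro J t₀ u₀ p₀ hP T X η₀ hη₀ hT hT0 hXc hX0 hX huniq ε hε
  -- continuity of `T`
  have hTs : ∀ r ∈ Ioo (-η₀) η₀, ContDiffAt ℝ ∞ T r := fun r hr =>
    hT.contDiffAt (isOpen_Ioo.mem_nhds hr)
  have h00 : (0 : ℝ) ∈ Ioo (-η₀) η₀ := ⟨by linarith, hη₀⟩
  have hTc : ContinuousAt T 0 := (hTs 0 h00).continuousAt
  -- the map `(r, p) ↦ (T r, p)`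
  have hTp : ∀ p : R4, Tendsto (fun q : ℝ × R4 => (T q.1, q.2)) (𝓝 ((0 : ℝ), p)) (𝓝 (t₀, p)) := by
    intro p
    have h1 : ContinuousAt (fun q : ℝ × R4 => (T q.1, q.2)) ((0 : ℝ), p) := by
      refine ContinuousAt.prodMk ?_ continuousAt_snd
      exact ContinuousAt.comp (f := fun q : ℝ × R4 => q.1) (g := T) hTc continuousAt_fst
    unfold ContinuousAt at h1
    have h2 : (fun q : ℝ × R4 => (T q.1, q.2)) ((0 : ℝ), p) = (t₀, p) := by
      change (T 0, p) = (t₀, p)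
      rw [hT0]
    rw [h2] at h1
    exact h1
  have hT1 : ∀ p q : R4, Tendsto (fun x : ℝ × R4 × R4 => (T x.1, x.2.1)) (𝓝 ((0 : ℝ), p, q))
      (𝓝 (t₀, p)) := by
    intro p q
    have h1 : Tendsto (fun x : ℝ × R4 × R4 => (x.1, x.2.1)) (𝓝 ((0 : ℝ), p, q))
        (𝓝 ((0 : ℝ), p)) := by
      apply Continuous.tendsto' (by fun_prop)
      rfl
    exact (hTp p).comp h1
  have hT2 : ∀ p q : R4, Tendsto (fun x : ℝ × R4 × R4 => (T x.1, x.2.2)) (𝓝 ((0 : ℝ), p, q))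
      (𝓝 (t₀, q)) := by
    intro p q
    have h1 : Tendsto (fun x : ℝ × R4 × R4 => (x.1, x.2.2)) (𝓝 ((0 : ℝ), p, q))
        (𝓝 ((0 : ℝ), q)) := by
      apply Continuous.tendsto' (by fun_prop)
      rfl
    exact (hTp q).comp h1
  -- case (a)
  have caseA : ∀ p ∈ SP, ∀ q ∈ SP, J (t₀, p) ≠ J (t₀, q) →
      ∀ᶠ x : ℝ × R4 × R4 in 𝓝 ((0 : ℝ), p, q), J (T x.1, x.2.1) ≠ J (T x.1, x.2.2) := by
    intro p hp q hq hne
    have c1 : ContinuousAt J (t₀, p) := (hP.smooth p hp).self_of_nhds.continuousAt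
    have c2 : ContinuousAt J (t₀, q) := (hP.smooth q hq).self_of_nhds.continuousAt
    have l1 := Tendsto.comp c1 (hT1 p q)
    have l2 := Tendsto.comp c2 (hT2 p q)
    have l3 := (l1.prodMk_nhds l2).eventually (isOpen_ne_fun continuous_fst continuous_snd
      |>.mem_nhds (show (J (t₀, p), J (t₀, q)) ∈ {x : R4 × R4 | x.1 ≠ x.2} from hne))
    exact l3
  -- case (b)
  have caseB : ∀ p ∈ SP, ∀ᶠ x : ℝ × R4 × R4 in 𝓝 ((0 : ℝ), p, p),
      J (T x.1, x.2.1) = J (T x.1, x.2.2) → x.2.1 = x.2.2 := by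
    intro p hp
    obtain ⟨N, hN, hNi⟩ := eventually_inj (hP.smooth p hp) (hP.loc p hp)
    filter_upwards [(hT1 p p).eventually hN, (hT2 p p).eventually hN] with x h1 h2 h3
    have h4 := hNi _ h1 _ h2 rfl h3
    exact (Prod.ext_iff.1 h4).2
  -- (1)
  have e1 := shrink SH SP cpt_SH mono_SH (fun p => SP_of_SH)
    {x | x.2.1 ∈ FB → x.2.2 ∈ FB → J (T x.1, x.2.1) = J (T x.1, x.2.2) →
      x.2.1 = x.2.2 ∨ x.2.1 = X x.1 ∨ x.2.2 = X x.1} (by
    intro p hp q hq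
    by_cases hne : J (t₀, p) = J (t₀, q)
    · rcases hP.inj p hp q hq hne with h | h | h
      · subst h
        filter_upwards [caseB p hp] with x hx _ _ h
        exact Or.inl (hx h)
      · obtain ⟨rfl, rfl⟩ := h
        filter_upwards [huniq] with x hx h1 h2 h3
        exact Or.inr (Or.inl (hx h1 h2 h3))
      · obtain ⟨rfl, rfl⟩ := h
        have hsw : Tendsto (fun x : ℝ × R4 × R4 => (x.1, x.2.2, x.2.1))
            (𝓝 ((0 : ℝ), ((1 / 2, u₀, 0) : R4), q)) (𝓝 ((0 : ℝ), q, ((1 / 2, u₀, 0) : R4))) := by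
          apply Continuous.tendsto' (by fun_prop)
          rfl
        filter_upwards [hsw.eventually huniq] with x hx h1 h2 h3
        exact Or.inr (Or.inr (hx h2 h1 h3.symm))
    · filter_upwards [caseA p hp q hq hne] with x hx _ _ h
      exact absurd h hx)
  -- (2)
  have hu0 : ∀ c : ℝ, (c = 0 ∨ c = 1) → ((1 / 2, u₀, 0) : R4) ∉ sph c := by
    intro c hc h
    have h1 : rsq c ((1 / 2, u₀, 0) : R4) = 1 / 25 := h.2
    rw [S4.rsq_eq] at h1
    simp only [map_zero, add_zero] at h1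
    obtain ⟨h2, h3⟩ := hP.arc
    rcases hc with rfl | rfl
    · nlinarith
    · nlinarith
  have hu1 : ((1 / 2, u₀, 0) : R4) ∉ sph 0 ∪ sph 1 := by
    rintro (h | h)
    · exact hu0 0 (Or.inl rfl) h
    · exact hu0 1 (Or.inr rfl) h
  have e2 := shrink CL (sph 0 ∪ sph 1) cpt_CL mono_CL (fun p => sph_of_CL)
    {x | J (T x.1, x.2.1) = J (T x.1, x.2.2) → x.2.1 = x.2.2} (by
    intro p hp q hq
    have hp' : p ∈ SP := Or.inl hp
    have hq' : q ∈ SP := Or.inl hq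
    by_cases hne : J (t₀, p) = J (t₀, q)
    · rcases hP.inj p hp' q hq' hne with h | h | h
      · subst h
        exact caseB p hp'
      · exact absurd (h.2 ▸ hq) hu1
      · exact absurd (h.2 ▸ hp) hu1
    · filter_upwards [caseA p hp' q hq' hne] with x hx h
      exact absurd h hx)
  -- (3)
  set S : Set (ℝ × R4) := interior {x | ContDiffAt ℝ ∞ (fun q : ℝ × R4 => J (T q.1, q.2)) x ∧
    IsLocalDiffeomorphAt 𝓘(ℝ, R4) 𝓘(ℝ, R4) ∞ (fun p => J (T x.1, p)) x.2} with hS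
  have hSn : ∀ p ∈ SP, S ∈ 𝓝 ((0 : ℝ), p) := by
    intro p hp
    rw [hS, interior_mem_nhds]
    have h1 := (hTp p).eventually (eventually_good (hP.smooth p hp) (hP.loc p hp))
    have h2 : ∀ᶠ x : ℝ × R4 in 𝓝 ((0 : ℝ), p), x.1 ∈ Ioo (-η₀) η₀ :=
      continuousAt_fst.eventually (isOpen_Ioo.mem_nhds h00)
    filter_upwards [h1, h2] with x hx hx2
    refine ⟨?_, hx.2⟩
    refine ContDiffAt.comp x (g := J) (f := fun q : ℝ × R4 => (T q.1, q.2)) hx.1 ?_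
    exact ((hTs x.1 hx2).comp x contDiffAt_fst).prodMk contDiffAt_snd
  have e3 := shrink SH SP cpt_SH mono_SH (fun p => SP_of_SH) {x | (x.1, x.2.1) ∈ S} (by
    intro p hp q hq
    have hc : Tendsto (fun x : ℝ × R4 × R4 => (x.1, x.2.1)) (𝓝 ((0 : ℝ), p, q))
        (𝓝 ((0 : ℝ), p)) := by
      apply Continuous.tendsto' (by fun_prop)
      rfl
    exact hc.eventually (hSn p hp))
  -- (4)
  have e4 : ∀ᶠ r in 𝓝 (0 : ℝ), (X r).2.2.re ≠ 0 ∧ |T r - t₀| < ε := by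
    have c1 : ContinuousAt (fun r => (X r).2.2.re) 0 := by
      have : Continuous fun p : R4 => p.2.2.re := by fun_prop
      exact this.continuousAt.comp hXc
    have h1 : ∀ᶠ r in 𝓝 (0 : ℝ), (X r).2.2.re ≠ 0 := by
      apply c1.eventually_ne
      rw [hX0]
      exact hP.re
    have c2 : ContinuousAt (fun r => |T r - t₀|) 0 := (hTc.sub continuousAt_const).abs
    have h2 : ∀ᶠ r in 𝓝 (0 : ℝ), |T r - t₀| < ε := by
      apply c2.eventually_lt continuousAt_const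
      rw [hT0, sub_self, abs_zero]
      exact hε
    exact h1.and h2
  obtain ⟨δ, hδ, hδ'⟩ := Metric.eventually_nhds_iff.1 e4
  have e5 : ∀ᶠ η in 𝓝[>] (0 : ℝ), η ∈ Ioo (0 : ℝ) (min δ (min η₀ (1 / 100))) :=
    Ioo_mem_nhdsGT (lt_min hδ (lt_min hη₀ (by norm_num)))
  obtain ⟨η, h1, h2, h3, h4⟩ := (e1.and (e2.and (e3.and e5))).exists
  have hηδ : η < δ := lt_of_lt_of_le h4.2 (min_le_left _ _)
  have hηη : η < η₀ := lt_of_lt_of_le h4.2 ((min_le_right _ _).trans (min_le_left _ _))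
  have hη100 : η < 1 / 100 := lt_of_lt_of_le h4.2 ((min_le_right _ _).trans (min_le_right _ _))
  have hmem : ∀ r ∈ Icc (-η) η, r ∈ Ioo (-η₀) η₀ := fun r hr =>
    ⟨by linarith [hr.1], by linarith [hr.2]⟩
  have hsmall : ∀ r ∈ Icc (-η) η, (X r).2.2.re ≠ 0 ∧ |T r - t₀| < ε := by
    intro r hr
    apply hδ'
    rw [Real.dist_eq, sub_zero]
    exact lt_of_le_of_lt (abs_le.2 ⟨hr.1, hr.2⟩) hηδ
  refine ⟨η, h4.1, hηη, ?_, fun r hr => (hsmall r hr).2⟩
  exact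
    { pos := h4.1
      small := hη100.le
      smooth := by
        refine ⟨S, isOpen_interior, ?_, ?_⟩
        · rintro ⟨r, p⟩ ⟨hr, hp⟩
          exact h3 r hr p hp p hp
        · intro x hx
          exact (interior_subset hx).1.contDiffWithinAt
      loc := by
        intro r hr p hp
        exact (interior_subset (h3 r hr p hp p hp)).2
      inj := by
        intro r hr p hp q hq h
        rcases h1 r hr p hp.1 q hq.1 hp.1.1 hq.1.1 h with h5 | h5 | h5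
        · exact h5
        · exact absurd h5 hp.2
        · exact absurd h5 hq.2
      injA := by
        intro r hr p hp q hq h
        exact h2 r hr p hp q hq h
      fst := fun r hr => (hX r (hmem r hr)).1
      lvl := fun r hr => (hX r (hmem r hr)).2
      re := fun r hr => (hsmall r hr).1 }

end Pool.Agent.Helper34.BI
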