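import Pool.Agent.Helper34.BI.Generic

/-!
# Generic families of arcs joining two given arcs
-/

set_option autoImplicit false

open MeasureTheory Module Set Filter Topology
open scoped ContDiff

namespace Pool.Agent.Helper34.BI

/-- a smooth function positive exactly on the interval `(a, b)` -/
noncomputable def hat (a b t : ℝ) : ℝ := expNegInvGlue (t - a) * expNegInvGlue (b - t)

theorem expNegInvGlue_le_one (x : ℝ) : expNegInvGlue x ≤ 1 := by
  unfold expNegInvGlue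
  split_ifs with h
  · exact zero_le_one
  · rw [Real.exp_le_one_iff, neg_nonpos, inv_nonneg]
    linarith

theorem hat_nonneg (a b t : ℝ) : 0 ≤ hat a b t :=
  mul_nonneg (expNegInvGlue.nonneg _) (expNegInvGlue.nonneg _)

theorem hat_le_one (a b t : ℝ) : hat a b t ≤ 1 :=
  mul_le_one₀ (expNegInvGlue_le_one _) (expNegInvGlue.nonneg _) (expNegInvGlue_le_one _)

theorem contDiff_hat (a b : ℝ) : ContDiff ℝ ∞ (hat a b) := by
  unfold hat
  exact (expNegInvGlue.contDiff.comp (by fun_prop)).mul (expNegInvGlue.contDiff.comp (by fun_prop))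

theorem hat_ne_zero {a b t : ℝ} : hat a b t ≠ 0 ↔ a < t ∧ t < b := by
  unfold hat
  rw [mul_ne_zero_iff]
  constructor
  · rintro ⟨h1, h2⟩
    constructor
    · by_contra h
      exact h1 (expNegInvGlue.zero_of_nonpos (by linarith))
    · by_contra h
      exact h2 (expNegInvGlue.zero_of_nonpos (by linarith))
  · rintro ⟨h1, h2⟩
    exact ⟨(expNegInvGlue.pos_of_pos (by linarith)).ne', (expNegInvGlue.pos_of_pos (by linarith)).ne'⟩

theorem hat_eq_zero {a b t : ℝ} (h : t ≤ a ∨ b ≤ t) : hat a b t = 0 := by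
  by_contra h0
  have := hat_ne_zero.1 h0
  rcases h with h | h <;> linarith [this.1, this.2]

section
variable {E : Type*} [NormedAddCommGroup E] [NormedSpace ℝ E]

/-- The surfaces `f i` (defined on `T i`) parametrize the closed set `A` up to the two points
`p` and `q`, and they are open maps into `A`. -/
structure Charts {ι Y : Type*} [NormedAddCommGroup Y] [NormedSpace ℝ Y] (A : Set E) (p q : E)
    (f : ι → Y → E) (T : ι → Set Y) : Prop where
  closed : IsClosed A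
  opn : ∀ i, IsOpen (T i)
  smooth : ∀ i, ContDiffOn ℝ ∞ (f i) (T i)
  mem : ∀ i, ∀ y ∈ T i, f i y ∈ A
  cover : ∀ x ∈ A, x ≠ p → x ≠ q → ∃ i, ∃ y ∈ T i, f i y = x
  nhds : ∀ i, ∀ y ∈ T i, ∀ V ∈ 𝓝 y, ∃ W ∈ 𝓝 (f i y), A ∩ W ⊆ f i '' V

/-- A generic family of arcs `H (t, ·)`, `t ∈ [0, 1]`, on the interval `[a, b]`, constant for
`u ≤ a + δ` and for `b - δ ≤ u`, joining `c₀` to `c₁`. -/
structure ArcFamily {ι Y : Type*} [NormedAddCommGroup Y] [NormedSpace ℝ Y] (a b δ : ℝ)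
    (c₀ c₁ : ℝ → E) (A : Set E) (f : ι → Y → E) (T : ι → Set Y) (H : ℝ × ℝ → E) : Prop where
  smooth : ContDiff ℝ ∞ H
  start : ∀ t u, t ≤ 0 → H (t, u) = c₀ u
  stop : ∀ t u, 1 ≤ t → H (t, u) = c₁ u
  frozen : ∀ t u, (u ≤ a + δ ∨ b - δ ≤ u) → H (t, u) = c₀ u
  inj : ∀ t ∈ Icc (0 : ℝ) 1, InjOn (fun u => H (t, u)) (Icc a b)
  imm : ∀ t ∈ Icc (0 : ℝ) 1, ∀ u ∈ Icc a b, fderiv ℝ H (t, u) (0, 1) ≠ 0
  finite : {x : ℝ × ℝ | x.1 ∈ Icc (0 : ℝ) 1 ∧ x.2 ∈ Ioo a b ∧ H x ∈ A}.Finite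
  active : ∀ t ∈ Icc (0 : ℝ) 1, ∀ u ∈ Ioo a b, H (t, u) ∈ A →
    (0 < t ∧ t < 1) ∧ (a + δ < u ∧ u < b - δ)
  single : ∀ t ∈ Icc (0 : ℝ) 1, ∀ u ∈ Ioo a b, ∀ u' ∈ Ioo a b, H (t, u) ∈ A → H (t, u') ∈ A →
    u = u'
  trans : ∀ t ∈ Icc (0 : ℝ) 1, ∀ u ∈ Ioo a b, ∀ i, ∀ y ∈ T i, H (t, u) = f i y →
    ∀ ζ η, fderiv ℝ H (t, u) ζ = fderiv ℝ (f i) y η → ζ = 0 ∧ η = 0

variable [FiniteDimensional ℝ E]
variable {ι Y : Type*} [NormedAddCommGroup Y] [NormedSpace ℝ Y] [FiniteDimensional ℝ Y]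

/-- crossings are isolated -/
theorem isolated (hE : finrank ℝ E = 4) (hY : finrank ℝ Y = 2) {H : ℝ × ℝ → E}
    (hH : ContDiff ℝ ∞ H) {f : Y → E} {T : Set Y} (hT : IsOpen T) (hf : ContDiffOn ℝ ∞ f T)
    {x : ℝ × ℝ} {y : Y} (hy : y ∈ T) (hxy : H x = f y)
    (htr : ∀ ζ η, fderiv ℝ H x ζ = fderiv ℝ f y η → ζ = 0 ∧ η = 0) :
    ∃ U ∈ 𝓝 x, ∃ V ∈ 𝓝 y, ∀ x' ∈ U, ∀ y' ∈ V, H x' = f y' → x' = x := by
  have hfd : ContDiffAt ℝ ∞ f y := hf.contDiffAt (hT.mem_nhds hy)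
  have s1 : HasStrictFDerivAt H (fderiv ℝ H x) x :=
    (hH.contDiffAt (x := x)).hasStrictFDerivAt (by simp)
  have s2 : HasStrictFDerivAt f (fderiv ℝ f y) y := hfd.hasStrictFDerivAt (by simp)
  let L : (ℝ × ℝ) × Y →L[ℝ] E := (fderiv ℝ H x).comp (ContinuousLinearMap.fst ℝ _ _) -
    (fderiv ℝ f y).comp (ContinuousLinearMap.snd ℝ _ _)
  have s3 : HasStrictFDerivAt (fun q : (ℝ × ℝ) × Y => H q.1 - f q.2) L (x, y) :=
    (HasStrictFDerivAt.comp (x, y) s1 hasStrictFDerivAt_fst).sub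
      (HasStrictFDerivAt.comp (x, y) s2 hasStrictFDerivAt_snd)
  have hker : LinearMap.ker (L : (ℝ × ℝ) × Y →ₗ[ℝ] E) = ⊥ := by
    rw [LinearMap.ker_eq_bot']
    rintro ⟨ζ, η⟩ h0
    have h1 : fderiv ℝ H x ζ = fderiv ℝ f y η := by
      have : fderiv ℝ H x ζ - fderiv ℝ f y η = 0 := h0
      exact sub_eq_zero.1 this
    obtain ⟨h2, h3⟩ := htr ζ η h1
    rw [h2, h3]
    rfl
  have hdim : finrank ℝ ((ℝ × ℝ) × Y) = finrank ℝ E := by
    rw [hE, finrank_prod, hY]; simp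
  let e : ((ℝ × ℝ) × Y) ≃L[ℝ] E :=
    (LinearEquiv.ofInjectiveOfFinrankEq (L : (ℝ × ℝ) × Y →ₗ[ℝ] E)
      (LinearMap.ker_eq_bot.1 hker) hdim).toContinuousLinearEquiv
  have he : (e : ((ℝ × ℝ) × Y) →L[ℝ] E) = L := ContinuousLinearMap.ext fun q => rfl
  rw [← he] at s3
  have hmem := s3.mem_toOpenPartialHomeomorph_source
  have hopen := (s3.toOpenPartialHomeomorph (fun q : (ℝ × ℝ) × Y => H q.1 - f q.2)).open_source
  have hnhds : (s3.toOpenPartialHomeomorph (fun q : (ℝ × ℝ) × Y => H q.1 - f q.2)).source ∈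
      𝓝 (x, y) := hopen.mem_nhds hmem
  rw [nhds_prod_eq, mem_prod_iff] at hnhds
  obtain ⟨U, hU, V, hV, hUV⟩ := hnhds
  refine ⟨U, hU, V, hV, fun x' hx' y' hy' he' => ?_⟩
  have h1 : (x', y') ∈ (s3.toOpenPartialHomeomorph (fun q : (ℝ × ℝ) × Y => H q.1 - f q.2)).source :=
    hUV ⟨hx', hy'⟩
  have h2 := (s3.toOpenPartialHomeomorph (fun q : (ℝ × ℝ) × Y => H q.1 - f q.2)).injOn h1 hmem
    (by
      show H x' - f y' = H x - f y
      rw [he', hxy, sub_self, sub_self])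
  exact congrArg Prod.fst h2

/-- Any two embedded arcs with the same ends, disjoint from the surfaces, are joined by a generic
family of embedded arcs, whose crossings with the surfaces avoid countably many given curves. -/
theorem exists_arcFamily (hE : finrank ℝ E = 4) (hY : finrank ℝ Y = 2) [Countable ι] {κ : Type*}
    [Countable κ] {g : κ → ℝ → E} (hg : ∀ k, ContDiff ℝ ∞ (g k)) {a b δ : ℝ}
    (hδ : 0 < δ) (hab : a + 2 * δ < b - 2 * δ)
    {c₀ c₁ : ℝ → E} (h₀ : ContDiff ℝ ∞ c₀) (h₁ : ContDiff ℝ ∞ c₁)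
    (hfr : ∀ u, (u ≤ a + 2 * δ ∨ b - 2 * δ ≤ u) → c₀ u = c₁ u)
    (inj₀ : InjOn c₀ (Icc a b)) (inj₁ : InjOn c₁ (Icc a b))
    (imm₀ : ∀ u ∈ Icc a b, deriv c₀ u ≠ 0) (imm₁ : ∀ u ∈ Icc a b, deriv c₁ u ≠ 0)
    {A : Set E} {f : ι → Y → E} {T : ι → Set Y} (hA : Charts A (c₀ a) (c₀ b) f T)
    (hA₀ : ∀ u ∈ Ioo a b, c₀ u ∉ A) (hA₁ : ∀ u ∈ Ioo a b, c₁ u ∉ A)
    {ε : ℝ} (hε : 0 < ε) :
    ∃ H : ℝ × ℝ → E, ArcFamily a b δ c₀ c₁ A f T H ∧
      (∀ t ∈ Icc (0 : ℝ) 1, ∀ u ∈ Ioo a b, H (t, u) ∈ A → ∀ k r, H (t, u) ≠ g k r) ∧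
      ∀ t ∈ Icc (0 : ℝ) 1, ∀ u, ∃ s ∈ Icc (0 : ℝ) 1,
        ‖H (t, u) - ((1 - s) • c₀ u + s • c₁ u)‖ < ε := by
  let ρ : ℝ → ℝ := hat 0 1
  let χ : ℝ → ℝ := hat (a + δ) (b - δ)
  have hρ : ContDiff ℝ ∞ ρ := contDiff_hat _ _
  have hχ : ContDiff ℝ ∞ χ := contDiff_hat _ _
  let τ : ℝ → ℝ := Real.smoothTransition
  have hτ : ContDiff ℝ ∞ τ := Real.smoothTransition.contDiff
  let h : ℝ × ℝ → E := fun x => (1 - τ x.1) • c₀ x.2 + τ x.1 • c₁ x.2
  have hh : ContDiff ℝ ∞ h := by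
    have e1 : ContDiff ℝ ∞ (fun x : ℝ × ℝ => τ x.1) := hτ.comp contDiff_fst
    have e2 : ContDiff ℝ ∞ (fun x : ℝ × ℝ => c₀ x.2) := h₀.comp contDiff_snd
    have e3 : ContDiff ℝ ∞ (fun x : ℝ × ℝ => c₁ x.2) := h₁.comp contDiff_snd
    exact ((contDiff_const.sub e1).smul e2).add (e1.smul e3)
  obtain ⟨v, w, hv, hw, hgp⟩ := exists_genPos (h := h) (ρ := ρ) (χ := χ) hE hY hh hρ hχ hA.opn
    hA.smooth hg
    (ε := ε / (2 * (1 + |a| + |b|))) (by positivity)
  let H : ℝ × ℝ → E := fam h ρ χ v w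
  have hH : ContDiff ℝ ∞ H := by
    have e1 : ContDiff ℝ ∞ (fun x : ℝ × ℝ => ρ x.1) := hρ.comp contDiff_fst
    have e2 : ContDiff ℝ ∞ (fun x : ℝ × ℝ => χ x.2) := hχ.comp contDiff_snd
    exact hh.add ((e1.mul e2).smul (contDiff_const.add (contDiff_snd.smul contDiff_const)))
  have start : ∀ t u, t ≤ 0 → H (t, u) = c₀ u := by
    intro t u ht
    have e1 : ρ t = 0 := hat_eq_zero (Or.inl ht)
    have e2 : τ t = 0 := Real.smoothTransition.zero_of_nonpos ht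
    simp [H, fam, h, e1, e2]
  have stop : ∀ t u, 1 ≤ t → H (t, u) = c₁ u := by
    intro t u ht
    have e1 : ρ t = 0 := hat_eq_zero (Or.inr ht)
    have e2 : τ t = 1 := Real.smoothTransition.one_of_one_le ht
    simp [H, fam, h, e1, e2]
  have frozen : ∀ t u, (u ≤ a + δ ∨ b - δ ≤ u) → H (t, u) = c₀ u := by
    intro t u hu
    have e1 : χ u = 0 := hat_eq_zero hu
    have e2 : c₁ u = c₀ u := (hfr u (by rcases hu with hu | hu; left; linarith; right; linarith)).symm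
    simp only [H, fam, h, e1, e2]
    module
  have hρt : ∀ t, 0 < t → t < 1 → ρ t ≠ 0 := fun t h1 h2 => hat_ne_zero.2 ⟨h1, h2⟩
  have hχt : ∀ u, a + δ < u → u < b - δ → χ u ≠ 0 := fun u h1 h2 => hat_ne_zero.2 ⟨h1, h2⟩
  have hIoo : ∀ t ∈ Icc (0 : ℝ) 1, (t ≤ 0 ∨ 1 ≤ t) ∨ (0 < t ∧ t < 1) := by
    intro t ht
    rcases le_or_gt t 0 with h1 | h1
    · exact Or.inl (Or.inl h1)
    · rcases le_or_gt 1 t with h2 | h2
      · exact Or.inl (Or.inr h2)
      · exact Or.inr ⟨h1, h2⟩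
  have hact : ∀ u, (u ≤ a + δ ∨ b - δ ≤ u) ∨ (a + δ < u ∧ u < b - δ) := by
    intro u
    rcases le_or_gt u (a + δ) with h1 | h1
    · exact Or.inl (Or.inl h1)
    · rcases le_or_gt (b - δ) u with h2 | h2
      · exact Or.inl (Or.inr h2)
      · exact Or.inr ⟨h1, h2⟩
  have inj : ∀ t ∈ Icc (0 : ℝ) 1, InjOn (fun u => H (t, u)) (Icc a b) := by
    intro t ht u hu u' hu' he
    simp only at he
    rcases hIoo t ht with (h1 | h1) | h1
    · rw [start t u h1, start t u' h1] at he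
      exact inj₀ hu hu' he
    · rw [stop t u h1, stop t u' h1] at he
      exact inj₁ hu hu' he
    · rcases hact u with h2 | h2
      · rcases hact u' with h3 | h3
        · rw [frozen t u h2, frozen t u' h3] at he
          exact inj₀ hu hu' he
        · by_contra hne
          exact hgp.inj t u u' (hρt t h1.1 h1.2) hne (Or.inr (hχt u' h3.1 h3.2)) he
      · by_contra hne
        exact hgp.inj t u u' (hρt t h1.1 h1.2) hne (Or.inl (hχt u h2.1 h2.2)) he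
  -- derivative along the arcs
  have hder : ∀ t u, HasDerivAt (fun r => H (t, r)) (fderiv ℝ H (t, u) (0, 1)) u := by
    intro t u
    have l : HasDerivAt (fun r : ℝ => ((t, r) : ℝ × ℝ)) (0, 1) u :=
      (hasDerivAt_const u t).prodMk (hasDerivAt_id u)
    exact HasFDerivAt.comp_hasDerivAt_of_eq u ((hH.differentiable (by simp) (t, u)).hasFDerivAt) l
      rfl
  have imm : ∀ t ∈ Icc (0 : ℝ) 1, ∀ u ∈ Icc a b, fderiv ℝ H (t, u) (0, 1) ≠ 0 := by
    intro t ht u hu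
    rcases hIoo t ht with (h1 | h1) | h1
    · have e : (fun r => H (t, r)) = c₀ := funext fun r => start t r h1
      rw [← (hder t u).deriv, e]
      exact imm₀ u hu
    · have e : (fun r => H (t, r)) = c₁ := funext fun r => stop t r h1
      rw [← (hder t u).deriv, e]
      exact imm₁ u hu
    · rcases hact u with h2 | h2
      · -- frozen: the derivative is the one of `c₀`
        have hd0 : HasDerivAt c₀ (deriv c₀ u) u := (h₀.differentiable (by simp) u).hasDerivAt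
        have key : fderiv ℝ H (t, u) (0, 1) = deriv c₀ u := by
          rcases h2 with h2 | h2
          · have w1 : HasDerivWithinAt (fun r => H (t, r)) (fderiv ℝ H (t, u) (0, 1)) (Iic u) u :=
              (hder t u).hasDerivWithinAt
            have w2 : HasDerivWithinAt c₀ (deriv c₀ u) (Iic u) u := hd0.hasDerivWithinAt
            have w3 : HasDerivWithinAt (fun r => H (t, r)) (deriv c₀ u) (Iic u) u :=
              w2.congr (fun r hr => frozen t r (Or.inl (le_trans hr h2))) (frozen t u (Or.inl h2))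
            exact (uniqueDiffWithinAt_Iic u).eq_deriv _ w1 w3
          · have w1 : HasDerivWithinAt (fun r => H (t, r)) (fderiv ℝ H (t, u) (0, 1)) (Ici u) u :=
              (hder t u).hasDerivWithinAt
            have w2 : HasDerivWithinAt c₀ (deriv c₀ u) (Ici u) u := hd0.hasDerivWithinAt
            have w3 : HasDerivWithinAt (fun r => H (t, r)) (deriv c₀ u) (Ici u) u :=
              w2.congr (fun r hr => frozen t r (Or.inr (le_trans h2 hr))) (frozen t u (Or.inr h2))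
            exact (uniqueDiffWithinAt_Ici u).eq_deriv _ w1 w3
        rw [key]
        exact imm₀ u hu
      · exact hgp.imm t u (hρt t h1.1 h1.2) (hχt u h2.1 h2.2)
  have active : ∀ t ∈ Icc (0 : ℝ) 1, ∀ u ∈ Ioo a b, H (t, u) ∈ A →
      (0 < t ∧ t < 1) ∧ (a + δ < u ∧ u < b - δ) := by
    intro t ht u hu hm
    rcases hIoo t ht with (h1 | h1) | h1
    · rw [start t u h1] at hm
      exact absurd hm (hA₀ u hu)
    · rw [stop t u h1] at hm
      exact absurd hm (hA₁ u hu)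
    · rcases hact u with h2 | h2
      · rw [frozen t u h2] at hm
        exact absurd hm (hA₀ u hu)
      · exact ⟨h1, h2⟩
  have hcover : ∀ t ∈ Icc (0 : ℝ) 1, ∀ u ∈ Ioo a b, H (t, u) ∈ A →
      ∃ i, ∃ y ∈ T i, f i y = H (t, u) := by
    intro t ht u hu hm
    have ha' : a ∈ Icc a b := ⟨le_rfl, by linarith [hu.1, hu.2]⟩
    have hb' : b ∈ Icc a b := ⟨by linarith [hu.1, hu.2], le_rfl⟩
    have hu' : u ∈ Icc a b := ⟨hu.1.le, hu.2.le⟩
    refine hA.cover _ hm ?_ ?_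
    · intro he
      rw [← frozen t a (Or.inl (by linarith))] at he
      exact hu.1.ne' (inj t ht hu' ha' he)
    · intro he
      rw [← frozen t b (Or.inr (by linarith))] at he
      exact hu.2.ne (inj t ht hu' hb' he)
  have trans : ∀ t ∈ Icc (0 : ℝ) 1, ∀ u ∈ Ioo a b, ∀ i, ∀ y ∈ T i, H (t, u) = f i y →
      ∀ ζ η, fderiv ℝ H (t, u) ζ = fderiv ℝ (f i) y η → ζ = 0 ∧ η = 0 := by
    intro t ht u hu i y hy he
    obtain ⟨h1, h2⟩ := active t ht u hu (he ▸ hA.mem i y hy)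
    exact hgp.trans t u i y (hρt t h1.1 h1.2) (hχt u h2.1 h2.2) hy he
  have single : ∀ t ∈ Icc (0 : ℝ) 1, ∀ u ∈ Ioo a b, ∀ u' ∈ Ioo a b, H (t, u) ∈ A →
      H (t, u') ∈ A → u = u' := by
    intro t ht u hu u' hu' hm hm'
    obtain ⟨h1, h2⟩ := active t ht u hu hm
    obtain ⟨-, h2'⟩ := active t ht u' hu' hm'
    obtain ⟨i, y, hy, he⟩ := hcover t ht u hu hm
    obtain ⟨i', y', hy', he'⟩ := hcover t ht u' hu' hm'
    by_contra hne
    exact hgp.cross t u u' i i' y y' (hρt t h1.1 h1.2) hne (hχt u h2.1 h2.2)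
      (hχt u' h2'.1 h2'.2) hy hy' he.symm he'.symm
  have avoid : ∀ t ∈ Icc (0 : ℝ) 1, ∀ u ∈ Ioo a b, H (t, u) ∈ A → ∀ k r, H (t, u) ≠ g k r := by
    intro t ht u hu hm k r
    obtain ⟨h1, h2⟩ := active t ht u hu hm
    exact hgp.curve t u k r (hρt t h1.1 h1.2) (hχt u h2.1 h2.2)
  refine ⟨H, ⟨hH, start, stop, frozen, inj, imm, ?_, active, single, trans⟩, avoid, ?_⟩
  · -- finiteness
    by_contra hinf
    have hinf' : Set.Infinite {x : ℝ × ℝ | x.1 ∈ Icc (0 : ℝ) 1 ∧ x.2 ∈ Ioo a b ∧ H x ∈ A} := hinf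
    have hsub : {x : ℝ × ℝ | x.1 ∈ Icc (0 : ℝ) 1 ∧ x.2 ∈ Ioo a b ∧ H x ∈ A} ⊆
        Icc (0 : ℝ) 1 ×ˢ Icc (a + δ) (b - δ) := by
      rintro ⟨t, u⟩ ⟨ht, hu, hm⟩
      obtain ⟨-, h2⟩ := active t ht u hu hm
      exact ⟨ht, h2.1.le, h2.2.le⟩
    obtain ⟨x, hx, hacc⟩ := hinf'.exists_accPt_of_subset_isCompact (isCompact_Icc.prod isCompact_Icc)
      hsub
    obtain ⟨t, u⟩ := x
    have hu : u ∈ Ioo a b := ⟨by linarith [hx.2.1], by linarith [hx.2.2]⟩
    have hmem : H (t, u) ∈ A := by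
      have hcl : IsClosed (H ⁻¹' A) := hA.closed.preimage hH.continuous
      have h1 : (t, u) ∈ closure (H ⁻¹' A) := by
        rw [mem_closure_iff_clusterPt]
        refine hacc.clusterPt.mono ?_
        rw [Filter.principal_mono]
        exact fun x hx => hx.2.2
      rw [hcl.closure_eq] at h1
      exact h1
    obtain ⟨i, y, hy, he⟩ := hcover t hx.1 u hu hmem
    obtain ⟨U, hU, V, hV, hUV⟩ := isolated hE hY hH (hA.opn i) (hA.smooth i) hy he.symm
      (trans t hx.1 u hu i y hy he.symm)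
    obtain ⟨W, hW, hAW⟩ := hA.nhds i y hy V hV
    rw [he] at hW
    have hW' : H ⁻¹' W ∈ 𝓝 (t, u) := hH.continuous.continuousAt hW
    rw [accPt_iff_nhds] at hacc
    obtain ⟨x', ⟨hx'1, hx'2⟩, hne⟩ := hacc (U ∩ H ⁻¹' W) (inter_mem hU hW')
    obtain ⟨y', hy', he'⟩ := hAW ⟨hx'2.2.2, hx'1.2⟩
    exact hne (hUV x' hx'1.1 y' hy' he'.symm)
  · intro t ht u
    refine ⟨τ t, ⟨Real.smoothTransition.nonneg t, Real.smoothTransition.le_one t⟩, ?_⟩
    have e1 : H (t, u) - ((1 - τ t) • c₀ u + τ t • c₁ u) = (ρ t * χ u) • (v + u • w) := by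
      simp only [H, fam, h]
      abel
    have hρ0 : 0 ≤ ρ t := hat_nonneg _ _ _
    have hχ0 : 0 ≤ χ u := hat_nonneg _ _ _
    rw [e1, norm_smul, Real.norm_eq_abs, abs_of_nonneg (mul_nonneg hρ0 hχ0)]
    rcases hact u with h2 | h2
    · have e3 : χ u = 0 := hat_eq_zero h2
      rw [e3, mul_zero, zero_mul]
      exact hε
    · have e4 : ρ t * χ u ≤ 1 := mul_le_one₀ (hat_le_one _ _ _) (hat_nonneg _ _ _) (hat_le_one _ _ _)
      have e5 : |u| ≤ |a| + |b| := by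
        rw [abs_le]
        constructor
        · have := neg_abs_le a
          have := abs_nonneg b
          linarith [h2.1]
        · have := le_abs_self b
          have := abs_nonneg a
          linarith [h2.2]
      have e6 : ‖v + u • w‖ ≤ ‖v‖ + (|a| + |b|) * ‖w‖ := by
        refine (norm_add_le _ _).trans (add_le_add_right ?_ _)
        rw [norm_smul, Real.norm_eq_abs]
        exact mul_le_mul_of_nonneg_right e5 (norm_nonneg _)
      set R := |a| + |b| with hR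
      have hR0 : 0 ≤ R := by positivity
      have e7 : ‖v‖ + R * ‖w‖ < ε := by
        have d1 : 1 + |a| + |b| = 1 + R := by rw [hR]; ring
        rw [d1] at hv hw
        have : R * ‖w‖ ≤ R * (ε / (2 * (1 + R))) := mul_le_mul_of_nonneg_left hw.le hR0
        have e8 : ε / (2 * (1 + R)) + R * (ε / (2 * (1 + R))) = ε / 2 := by
          field_simp
        linarith
      calc (ρ t * χ u) * ‖v + u • w‖ ≤ 1 * ‖v + u • w‖ :=
            mul_le_mul_of_nonneg_right e4 (norm_nonneg _)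
        _ = ‖v + u • w‖ := one_mul _
        _ ≤ _ := e6
        _ < ε := e7

end

end Pool.Agent.Helper34.BI
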