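import Pool.Agent.Helper18.BI.StF
import Pool.Agent.Helper18.BI.StFr
import Pool.Agent.Helper27.BI.StM2
import Pool.Agent.Helper34.BI.Thick
import Pool.Agent.Helper34.BI.Arcs

/-!
# Project BI (MP_8e98f2_gt), parts (B) and (D): crossings of the bar with the cuffs

Statements (as `Prop` definitions) with complete proofs in the docstrings.  A module `M_X` proves
`theorem m_X : StX` (possibly from other statements as hypotheses `(h : StY)`).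
All germs have values in `R4` here; `I = 𝓘(ℝ, R4)`.
-/

set_option autoImplicit false

open Module Set Filter Topology
open scoped ContDiff Manifold ComplexConjugate
open Pool.Agent.Helper65.Barb Pool.Agent.Helper18.BI Pool.Agent.Helper27.BI

namespace Pool.Agent.Helper34.BI

/-! ## definitions -/

/-- The classes of the germs `F` and `G` are equal modulo `N`. -/
def MR (F G : R4 → R4) : Prop :=
  ∀ φ ψ : R4 → R4, Thin 𝓘(ℝ, R4) F φ → Thin 𝓘(ℝ, R4) G ψ →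
    ∃ n, InN 𝓘(ℝ, R4) n ∧ CIsot 𝓘(ℝ, R4) ψ (fun x => n (φ x))

/-- the spine together with two collars of the cuffs in the flat balls -/
def SH (η : ℝ) : Set R4 := {p | p ∈ FB ∧ 1 / 25 - η ≤ rsq 0 p ∧ 1 / 25 - η ≤ rsq 1 p}

/-- the two collars -/
def CL (η : ℝ) : Set R4 := {p | p ∈ SH η ∧ (rsq 0 p ≤ 1 / 25 ∨ rsq 1 p ≤ 1 / 25)}

/-- half of the derivative of `rsq c` at `p` in the direction `v` -/
def drsq (c : ℝ) (p v : R4) : ℝ :=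
  (p.2.1 - c) * v.2.1 + (p.2.2.re * v.2.2.re + p.2.2.im * v.2.2.im)

/-- The family of germs `J (t, ·)` has at time `t₀` exactly one double point along the spine: the
point `p₀` of the first cuff and the point with parameter `u₀` of the neck; the crossing is
transverse, the family is constant near the cuffs, and `p₀` is not on the circle `Re w = 0`. -/
structure PreCross (J : ℝ × R4 → R4) (t₀ u₀ : ℝ) (p₀ : R4) : Prop where
  smooth : ∀ p ∈ SP, ∀ᶠ q in 𝓝 (t₀, p), ContDiffAt ℝ ∞ J q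
  loc : ∀ p ∈ SP, IsLocalDiffeomorphAt 𝓘(ℝ, R4) 𝓘(ℝ, R4) ∞ (fun p => J (t₀, p)) p
  frozen : ∀ p ∈ sph 0 ∪ sph 1, ∀ᶠ q in 𝓝 (t₀, p), J q = J (t₀, q.2)
  mem : p₀ ∈ sph 0
  re : p₀.2.2.re ≠ 0
  arc : u₀ ∈ Ioo (1 / 5 : ℝ) (4 / 5)
  eq : J (t₀, p₀) = J (t₀, (1 / 2, u₀, 0))
  inj : ∀ p ∈ SP, ∀ q ∈ SP, J (t₀, p) = J (t₀, q) →
    p = q ∨ (p = p₀ ∧ q = (1 / 2, u₀, 0)) ∨ (q = p₀ ∧ p = (1 / 2, u₀, 0))
  trans : ∀ (ζ : ℝ × ℝ) (v : R4),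
    fderiv ℝ (fun x : ℝ × ℝ => J (x.1, (1 / 2, x.2, 0))) (t₀, u₀) ζ =
      fderiv ℝ (fun p => J (t₀, p)) p₀ v → v.1 = 0 → drsq 0 p₀ v = 0 → ζ = 0

/-- In the coordinates given by the germ near `p₀` the strand crosses the slice `s = 1/2`
transversally. -/
def Slope (J : ℝ × R4 → R4) (t₀ u₀ : ℝ) (p₀ : R4) : Prop :=
  ∀ v : R4, fderiv ℝ (fun x : ℝ × ℝ => J (x.1, (1 / 2, x.2, 0))) (t₀, u₀) (0, 1) =
    fderiv ℝ (fun p => J (t₀, p)) p₀ v → v.1 ≠ 0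

/-- A family of germs, parametrized by the depth `r ∈ [-η, η]` at which the neck crosses the
(extended) flat ball of the first cuff: at time `r` it crosses at the point `X r`, with
`rsq 0 (X r) = 1/25 + r`; this is the only double point along the spine with collars. -/
structure Cross (J : ℝ × R4 → R4) (X : ℝ → R4) (η : ℝ) : Prop where
  pos : 0 < η
  small : η ≤ 1 / 100
  smooth : ∃ W : Set (ℝ × R4), IsOpen W ∧ Icc (-η) η ×ˢ SH η ⊆ W ∧ ContDiffOn ℝ ∞ J W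
  loc : ∀ r ∈ Icc (-η) η, ∀ p ∈ SH η,
    IsLocalDiffeomorphAt 𝓘(ℝ, R4) 𝓘(ℝ, R4) ∞ (fun p => J (r, p)) p
  inj : ∀ r ∈ Icc (-η) η, InjOn (fun p => J (r, p)) (SH η \ {X r})
  injA : ∀ r ∈ Icc (-η) η, InjOn (fun p => J (r, p)) (CL η)
  fst : ∀ r ∈ Icc (-η) η, (X r).1 = 1 / 2
  lvl : ∀ r ∈ Icc (-η) η, rsq 0 (X r) = 1 / 25 + r
  re : ∀ r ∈ Icc (-η) η, (X r).2.2.re ≠ 0

/-- A family of germs along the spine parametrized by the line, embedded except at finitely many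
times, where there is one generic crossing of the neck with the first or (after exchange) with the
second cuff. -/
structure BFam (J : ℝ × R4 → R4) : Prop where
  smooth : ∀ t, ∀ p ∈ SP, ∀ᶠ q in 𝓝 (t, p), ContDiffAt ℝ ∞ J q
  loc : ∀ t, ∀ p ∈ SP, IsLocalDiffeomorphAt 𝓘(ℝ, R4) 𝓘(ℝ, R4) ∞ (fun p => J (t, p)) p
  finite : {t | ¬ InjOn (fun p => J (t, p)) SP}.Finite
  cross : ∀ t, ¬ InjOn (fun p => J (t, p)) SP →
    (∃ u p, PreCross J t u p) ∨ ∃ u p, PreCross (fun q => J (q.1, swp q.2)) t u p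

/-! ## the two model theorems used (part (C)) -/

/-- **ADD2** (proved in part (C)): additivity with the strand over `0` and the strand over `x₂`. -/
def StAdd2 : Prop :=
  ∀ x₂ : R3, nsq x₂ < (7 / 50) ^ 2 → x₂.2.re ≠ 0 →
    ∃ (r : ℝ) (k₁ k₂ : R4 → R4), 0 < r ∧ r ≤ 1 / 100 ∧
      (∀ k : R4 → R4, (k = k₁ ∨ k = k₂) → EmbOn 𝓘(ℝ, R4) k univ ∧ (∀ p, (k p).1 = p.1) ∧
        (∀ p ∈ ball4, k p ∈ ball4) ∧ (∀ p, 17 / 100 ≤ p.2.1 → k p = p) ∧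
        ∀ p, rsq 0 p ≤ 1 / 25 → rsq 0 (k p) ≤ 1 / 25) ∧
      (∀ p : R4, ‖p.2.2‖ ≤ |x₂.2.re| / 2 → k₁ p = p) ∧
      (∀ p ∈ ball4, k₁ p ∉ tube x₂ r ∧ k₂ p ∉ tube 0 r) ∧
      (∀ p, (k₁ p ∈ tube 0 r → p ∈ tube 0 r) ∧ (k₂ p ∈ tube x₂ r → p ∈ tube x₂ r)) ∧
      ∀ (E : Type) [NormedAddCommGroup E] [NormedSpace ℝ E] (H : Type) [TopologicalSpace H]
        (I : ModelWithCorners ℝ E H) (M : Type) [TopologicalSpace M] [ChartedSpace H M]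
        [T2Space M] (F : R4 → M),
        EmbOn I F (ball4 \ (tube (1, 0) (3 / 20) ∪ tube 0 r ∪ tube x₂ r)) →
        CIsot I (imp F bsupp barMap) (fun y => imp (fun p => F (k₂ p)) bsupp barMap
          (imp (fun p => F (k₁ p)) bsupp barMap y))

/-- **SWAP** (proved in part (C)): exchanging the two cuffs inverts the class. -/
def StSwap : Prop :=
  ∀ F φ φ' : R4 → R4, EmbOn 𝓘(ℝ, R4) F SP → (∀ x, φ (φ' x) = x) → (∀ x, φ' (φ x) = x) →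
    Thin 𝓘(ℝ, R4) F φ → Thin 𝓘(ℝ, R4) (fun p => F (swp p)) φ'

/-! ## RE: the radial map -/

/-- squared radius function: the identity for `q ≥ 1/25 - δ`, slope `δ` for `q ≤ 1/25 - 2δ` -/
noncomputable def qe (δ q : ℝ) : ℝ := qq δ (q + δ) - δ

/-- radial map about `(s, c, 0)` with squared radius function `qe δ` -/
noncomputable def rade (δ c : ℝ) (p : R4) : R4 :=
  (p.1, c + √(qe δ (rsq c p) / rsq c p) * (p.2.1 - c),
    ((√(qe δ (rsq c p) / rsq c p) : ℝ) : ℂ) * p.2.2)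

/-- the composition of the two radial maps -/
noncomputable def Em (δ : ℝ) (p : R4) : R4 := rade δ 0 (rade δ 1 p)

/-- **RE.** The map `Em δ`: an injective local diffeomorphism off the two lines `(s, 0, 0)`,
`(s, 1, 0)`, the identity near the exterior of the tubes of radius `1/5`, pushing everything out to
`rsq ≥ 1/25 - 3δ`.
Proof. `qe δ q = q + (1-δ) δ ramp((1/25 - δ - q)/δ)`, derivative `1 - (1-δ) step(..) ∈ [δ, 1]` (`StR0`), so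
strictly increasing; `qe δ q ≥ q` (`ramp ≥ 0`), `qe δ q = q` for `q ≥ 1/25 - δ`, `qe δ q ≥ 1/25 - 3δ` for
`q ≥ 0` (`ramp x ≥ x - 1`: `qe ≥ q + (1-δ)(1/25 - δ - q) - (1-δ) δ ≥ 1/25 - 3δ`), `qe δ q ≤ 1/25` for
`q ≤ 1/25`.  `rade δ c` is treated exactly as `radc δ c` in module R2 (file
`Helper18/BI/M_R2.lean`, on main; copy the proof with `qe` in place of `qq`):
`rsq c (rade δ c p) = qe δ (rsq c p)` for `rsq c p > 0`, `EmbOn {rsq c p > 0}`.  `rade δ c p = p` if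
`rsq c p ≥ 1/25 - δ`.  If `rsq 1 p < 1/25 - δ` then `rsq 1 (rade δ 1 p) ≤ 1/25`, so the `a`-coordinate of
`rade δ 1 p` is `≥ 4/5`, `rsq 0 (rade δ 1 p) ≥ 16/25` and `Em δ p = rade δ 1 p`; if `rsq 1 p ≥ 1/25 - δ` then
`Em δ p = rade δ 0 p`.  This gives everything (for injectivity: compositions; `rade δ 1` maps
`{rsq 0 > 0, rsq 1 > 0}` into `{rsq 0 > 0}`, and is injective there).  For the last claim:
`x₂ = √((1/100) / qe δ (1/100)) • X.2`; `nsq x₂ = 1/100`, `rsq 1 ≥ (1 - 1/10)²`, so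
`Em δ (1/2, x₂) = rade δ 0 (1/2, x₂) = X`. -/
def StRE : Prop :=
  ∀ δ ∈ Ioo (0 : ℝ) (1 / 100),
    EmbOn 𝓘(ℝ, R4) (Em δ) {p | 0 < rsq 0 p ∧ 0 < rsq 1 p} ∧
    (∀ p, 1 / 25 - δ ≤ rsq 0 p → 1 / 25 - δ ≤ rsq 1 p → Em δ p = p) ∧
    (∀ p, (Em δ p).1 = p.1) ∧
    (∀ (s s' : ℝ) (x : R3), (Em δ (s, x)).2 = (Em δ (s', x)).2) ∧
    (∀ p : R4, p.2.2 = 0 → (Em δ p).2.2 = 0) ∧
    (∀ p, 0 < rsq 0 p → 0 < rsq 1 p →
      1 / 25 - 3 * δ ≤ rsq 0 (Em δ p) ∧ 1 / 25 - 3 * δ ≤ rsq 1 (Em δ p)) ∧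
    (∀ p, 0 < rsq 0 p → rsq 0 p ≤ 1 / 25 →
      rsq 0 (Em δ p) = qe δ (rsq 0 p) ∧ rsq 0 (Em δ p) ≤ 1 / 25) ∧
    (∀ p, 0 < rsq 1 p → rsq 1 p ≤ 1 / 25 → rsq 1 (Em δ p) ≤ 1 / 25) ∧
    StrictMono (qe δ) ∧ Continuous (qe δ) ∧ (∀ q, 1 / 25 - δ ≤ q → qe δ q = q) ∧
    (∀ q, 0 ≤ q → 1 / 25 - 3 * δ ≤ qe δ q) ∧
    ∀ X : R4, X.1 = 1 / 2 → rsq 0 X = qe δ (1 / 100) → ∃ x₂ : R3, nsq x₂ = 1 / 100 ∧
      Em δ (1 / 2, x₂) = X ∧ (X.2.2.re ≠ 0 → x₂.2.re ≠ 0)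

/-! ## RC: the contraction -/

/-- the contraction factor -/
noncomputable def cfac (lam q : ℝ) : ℝ := lam + (1 - lam) * step ((q - 1 / 20) / (1 / 25))

/-- the contraction of the first flat ball: `x ↦ lam x` for `|x|² ≤ 1/20`, the identity for
`|x|² ≥ 9/100` -/
noncomputable def cl (lam : ℝ) (p : R4) : R4 := (p.1, cfac lam (nsq p.2) • p.2)

/-- **RC.** Properties of the contraction.
Proof. `l = cfac lam` is smooth, `lam ≤ l ≤ 1` for `lam ≤ 1`, `l' ≥ 0` (`Real.smoothTransition.monotone`).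
For `0 < lam` the map `x ↦ l(|x|²) x` is injective: `q ↦ q l(q)²` is strictly increasing on `[0, ∞)`, so
`|x|²` is determined by the image, and then `x`; its derivative in the direction `v` is
`l v + 2 l' ⟨x,v⟩ x`; if this is `0` then `(l + 2 l' |x|²) ⟨x,v⟩ = 0`, so `⟨x,v⟩ = 0` and `v = 0` (`A0`).  On the
neck: `x = (a, 0)`, `1/5 ≤ a ≤ 4/5`, image `(l(a²) a, 0)`, `lam/5 ≤ l a ≤ 4/5`. -/
def StRC : Prop :=
  ContDiff ℝ ∞ (fun q : ℝ × R4 => cl q.1 q.2) ∧ (∀ p, cl 1 p = p) ∧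
  ∀ lam ∈ Ioc (0 : ℝ) 1,
    EmbOn 𝓘(ℝ, R4) (cl lam) univ ∧ (∀ p, (cl lam p).1 = p.1) ∧
    (∀ p : R4, nsq p.2 ≤ 1 / 20 → cl lam p = (p.1, lam • p.2)) ∧
    (∀ p : R4, 9 / 100 ≤ nsq p.2 → cl lam p = p) ∧
    (∀ p : R4, p.2.2 = 0 → (cl lam p).2.2 = 0) ∧
    (∀ p : R4, nsq (cl lam p).2 ≤ nsq p.2) ∧
    (∀ p ∈ neck, 0 < (cl lam p).2.1 ∧ (cl lam p).2.1 ≤ 4 / 5) ∧
    ∀ p : R4, 0 < nsq p.2 → 0 < nsq (cl lam p).2

/-! ## D2: the crossing theorem -/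

/-- **D2a.** Splitting off the crossing.  `G` is a germ whose neck crosses the first collar only at
the point `X`, at the depth `1/25 - qe δ (1/100)`.
Proof (uses `StRE`, `StAdd2`, `StImp`, `StCI`, `StS3`, `StS4`, `StT2`, `StT3`, `StT5`, `StT6`).
`X ∉ SP` (`qe δ (1/100) < 1/25`; `rsq 0 ≥ 1/25` on `SP`), so `EmbOn G SP`.
`StRE` gives `x₂` with `Em δ (1/2, x₂) = X`, `nsq x₂ = 1/100 < (7/50)²`, `x₂.2.re ≠ 0`.  `StAdd2` gives
`r, k₁, k₂`; `k = k₁`.  Put `K = ball4 \ (tube (1,0) (3/20) ∪ tube 0 r ∪ tube x₂ r)`, compact (tubes are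
open).  `bsupp ⊆ EB ⊆ K` (`|x| ≥ 1/5`: `|x - x₂| ≥ 1/10 ≥ r`).  `K ⊆ {0 < rsq 0, 0 < rsq 1}`.
(1) Let `L = SP ∪ (sq 0 ∘ Em δ) '' K`, compact (`StS3` at `ε = 0`, `Em δ` is continuous on `K`),
`L ⊆ FB` (`StS4`).  Claim `L ⊆ SH η \ {X}`: for `p ∈ K`, `y = Em δ p`: if `y ∈ Ext` then `sq 0 y ∈ SP`.
Otherwise `rsq c y < 1/25` for `c = 0` or `1`, and `sq 0 y = (1/2, y.2)`; this is in `FB` and both
`rsq ≥ 1/25 - 3δ ≥ 1/25 - η`.  If `sq 0 y = X` then (as `X ∉ SP`) `(1/2, y.2) = X`, and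
`y.2 = (Em δ (1/2, p.2)).2`, so `Em δ (1/2, p.2) = X = Em δ (1/2, x₂)`, `p.2 = x₂`, `p ∈ tube x₂ r`,
contradiction.  `SP ⊆ SH η \ {X}` clear.  Hence `EmbOn G L`.
(2) `StT6` with the compact set `Em δ '' K` and `L`: for small `ε`, `G ∘ sq ε` is `EmbOn (Em δ '' K)`; so
`F_ε = G ∘ sq ε ∘ Em δ` is `EmbOn K` (composition).  `StAdd2`:
`CIsot (imp F_ε bsupp barMap) (imp (F_ε ∘ k₂) bsupp barMap ∘ imp (F_ε ∘ k₁) bsupp barMap)`.
`Em δ = id` on `bsupp ⊆ Ext`, so `imp F_ε bsupp barMap = imp (G ∘ sq ε) bsupp barMap` (`StImp` (6)), which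
represents `Thin G`.
(3) For `i = 1, 2`: `k_i` maps `EB` into `K`: `ball4` to `ball4`; `k_i p ∉ tube (1,0) (3/20)`: if `(k_i p).2.1 ≥ 17/100`
then `k_i (k_i p) = k_i p`, so `k_i p = p ∈ Ext`; the other tubes by the last properties of `StAdd2` and
`|x| ≥ 1/5` on `EB`.  So `F_ε ∘ k_i` is `EmbOn EB`, and `StT3`: `Thin (F_ε ∘ k_i) (imp (F_ε ∘ k_i) bsupp barMap)`.
(4) `m = Em δ ∘ k_i` is `EmbOn SP` (`SP ⊆ EB`) and maps `SP` into `L`: for `p ∈ SP`, `sq 0 (m p) ∈ L`, and `m p ∈ FB`,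
so `sq 0 (m p) = m p` (`StS4`): on `neck` and `sph 1`, `k_i p = p`, `m p = p`; on `sph 0`: `(m p).1 = 1/2`,
`rsq 0 (k_i p) ≤ 1/25`, `rsq 0 (m p) ≤ 1/25` (`rsq 0 (k_i p) > 0` as `k_i p ∈ K`), so `m p ∈ flat 0`.  `StT5`: for small `ε`,
`Thin (G ∘ sq ε ∘ m) φ ↔ Thin (G ∘ m) φ`.  Fix `ε` small enough for everything and put
`ψ = imp (F_ε ∘ k₁) bsupp barMap`, `n = imp (F_ε ∘ k₂) bsupp barMap`.
(5) `InN n`: the germ `G' = G ∘ Em δ ∘ k₂` is `EmbOn SP` by (4), `Thin G' n`, and it is half split: `BoundsOff G' 0 1` with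
the ball `G'` on `flat 0`: `k₂ (flat 0) ⊆ flat 0`, `0 < rsq 0` there (`k₂ p ∉ tube 0 r`), so `Em δ ∘ k₂` is an injective local
diffeomorphism along `flat 0 ∪ sph 1` with values in `CL η` (`Em δ p ∈ flat 0`, `rsq 0 ≥ 1/25 - 3δ`), where `G` is injective
and locally diffeomorphic; the images of `flat 0` and `sph 1` under `Em δ ∘ k₂` are disjoint. -/
def StD2a : Prop :=
  ∀ (G : R4 → R4) (X : R4) (δ η : ℝ), δ ∈ Ioo (0 : ℝ) (1 / 100) → 3 * δ ≤ η → η ≤ 1 / 100 →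
    (∀ p ∈ SH η, IsLocalDiffeomorphAt 𝓘(ℝ, R4) 𝓘(ℝ, R4) ∞ G p) → InjOn G (SH η \ {X}) →
    InjOn G (CL η) → X.1 = 1 / 2 → rsq 0 X = qe δ (1 / 100) → X.2.2.re ≠ 0 →
    ∃ (x₂ : R3) (r : ℝ) (k : R4 → R4), 0 < r ∧ r ≤ 1 / 100 ∧ nsq x₂ = 1 / 100 ∧
      x₂.2.re ≠ 0 ∧ Em δ (1 / 2, x₂) = X ∧ EmbOn 𝓘(ℝ, R4) k univ ∧ (∀ p, (k p).1 = p.1) ∧
      (∀ p, 17 / 100 ≤ p.2.1 → k p = p) ∧ (∀ p, rsq 0 p ≤ 1 / 25 → rsq 0 (k p) ≤ 1 / 25) ∧
      (∀ p : R4, ‖p.2.2‖ ≤ |x₂.2.re| / 2 → k p = p) ∧ (∀ p ∈ ball4, k p ∉ tube x₂ r) ∧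
      ∃ n ψ : R4 → R4, InN 𝓘(ℝ, R4) n ∧ Thin 𝓘(ℝ, R4) (fun p => G (Em δ (k p))) ψ ∧
        ∀ φ, Thin 𝓘(ℝ, R4) G φ → CIsot 𝓘(ℝ, R4) φ (fun x => n (ψ x))

/-- **D2b.** The other factor is the class on the other side of the crossing.
Proof (uses `StRE`, `StRC`, `StT2`).  Four steps; `ρ = |x₂.2.re| / 2 > 0`, `lam₀ = min (1/4) ρ` (so
`lam₀ / 5 < ρ` and `lam₀² / 25 < 1/100`).
(1) family `J (-r₁, Em δ (k (cl lam p)))`, `lam` from `1` to `lam₀`, along `SP` (`τ ∈ [0,1]`,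
`lam = 1 - τ (1 - lam₀)`; for `τ = 0` it is the given germ since `cl 1 p = p`).  For `p ∈ SP`: `q = cl lam p` has
first coordinate `1/2`, is in `ball4`, and `q ∈ sph 1`, or `q.2.2 = 0` with `0 < q.2.1 ≤ 4/5`, or `0 < rsq 0 q ≤ 1/25`; in
all cases `k q` has the same property (`k` fixes the points with `a ≥ 17/100` and those with `w = 0`;
`rsq 0 (k q) > 0`, because `rsq 0 (k q) = 0` implies `k (k q) = k q`, `k q = q`); so `y = Em δ (k q)` is in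
`SH η` (in `FB`: `rsq c y ≤ 1/25` or in the neck, `StRE`; for `k q ∈ neck ∪ sph 1`, `Em δ` fixes it), and `y ≠ X(-r₁)`:
else `Em δ (1/2, (k q).2) = Em δ (1/2, x₂)`, `k q ∈ tube x₂ r`.  `J (-r₁, ·)` is injective on `SH η \ {X (-r₁)}`,
the maps `Em δ`, `k`, `cl lam` are injective local diffeomorphisms: `FamOn`.
(2) at `lam₀`: `k (cl lam₀ p) = cl lam₀ p` for `p` near `SP`: either `(cl lam₀ p).2.1 > 17/100` or
`‖(cl lam₀ p).2.2‖ < ρ` (on `sph 0`: `‖w‖ ≤ lam₀ / 5 < ρ`; on the neck `w = 0`; on `sph 1`, `a ≥ 4/5`; open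
conditions).  `StT2` (v).
(3) family `J (-r₁ + 2 r₁ τ, Em δ (cl lam₀ p))`: for `p ∈ SP` the point `y = Em δ (cl lam₀ p)` is in `SH η` and
`y ≠ X r` for `r ∈ [-r₁, r₁]`: for `p ∈ sph 0`, `rsq 0 y = qe δ (lam₀²/25) < qe δ (1/100) = 1/25 - r₁ ≤ rsq 0 (X r)`; for
`p ∈ neck`, `y.2.2 = 0`; for `p ∈ sph 1`, `y = p` has `rsq 0 ≥ 16/25 > 1/25 + η`.
(4) family `J (r₁, Em δ (cl lam p))`, `lam` from `lam₀` to `1`: `X r₁ ∉ SH η` (`rsq 0 (X r₁) > 1/25`, `w ≠ 0`,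
`rsq 0 (X r₁) < 16/25`, while a point of `FB` with `1/25 < rsq 0 < 16/25` is on the neck).
At the end `Em δ p = p` near `SP` (`rsq ≥ 1/25 - δ`): `StT2` (v).  All families are smooth near
`[0,1] × SP`: `J` is smooth on the open set `W ⊇ [-η,η] × SH η`, the others on open sets. -/
def StD2b : Prop :=
  ∀ (J : ℝ × R4 → R4) (X : ℝ → R4) (δ η r₁ : ℝ), Cross J X η → δ ∈ Ioo (0 : ℝ) (1 / 100) →
    3 * δ ≤ η → r₁ = 1 / 25 - qe δ (1 / 100) → 0 < r₁ → r₁ ≤ η →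
    ∀ (x₂ : R3) (r : ℝ) (k : R4 → R4), 0 < r → nsq x₂ = 1 / 100 →
      x₂.2.re ≠ 0 → Em δ (1 / 2, x₂) = X (-r₁) → EmbOn 𝓘(ℝ, R4) k univ → (∀ p, (k p).1 = p.1) →
      (∀ p, 17 / 100 ≤ p.2.1 → k p = p) → (∀ p, rsq 0 p ≤ 1 / 25 → rsq 0 (k p) ≤ 1 / 25) →
      (∀ p : R4, ‖p.2.2‖ ≤ |x₂.2.re| / 2 → k p = p) → (∀ p ∈ ball4, k p ∉ tube x₂ r) →
      ∀ ψ, Thin 𝓘(ℝ, R4) (fun p => J (-r₁, Em δ (k p))) ψ → Thin 𝓘(ℝ, R4) (fun p => J (r₁, p)) ψ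

/-- **D2.** The crossing theorem.
Proof.  `δ = η/3 < 1/100`, `r₁ = 1/25 - qe δ (1/100)`, `0 < r₁ ≤ 3δ = η` (`StRE`: `qe δ (1/100) < qe δ (1/25) = 1/25`).
`D2a` for `G = J (-r₁, ·)`, `X = X (-r₁)`, then `D2b`; uniqueness of the class `StT2` (ii): for `φ` with
`Thin (J (r₁, ·)) φ` and `φ'` with `Thin (J (-r₁, ·)) φ'`: `CIsot φ' (n ∘ ψ)`, `CIsot ψ φ`. -/
def StD2 : Prop :=
  ∀ (J : ℝ × R4 → R4) (X : ℝ → R4) (η : ℝ), Cross J X η →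
    ∃ r ∈ Ioc 0 η, MR (fun p => J (r, p)) (fun p => J (-r, p))

/-! ## D1: analysis of a transverse crossing -/

/-- **D1a.** Local coordinates at the crossing.
Proof. `F p = J (t₀, p)`, `H x = J (x.1, (1/2, x.2, 0))`, `x₀ = (t₀, u₀)`.  `Φ` partial diffeomorphism with
`F = Φ` on `Φ.source ∋ p₀`.  `P x = Φ.symm (H x)` is smooth near `x₀`, `P x₀ = p₀`, and
`N x = ((P x).1 - 1/2, rsq 0 (P x) - 1/25)`.  `DN(x₀)` is injective: if `DN ζ = 0`, then `v = DP(x₀) ζ` has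
`v.1 = 0`, `drsq 0 p₀ v = 0`, and `DF(p₀) v = DH(x₀) ζ` (`F ∘ P = H` near `x₀`), so `ζ = 0` by `trans`.  So `N` is a local
diffeomorphism at `x₀` (`isLocalDiffeomorphAt_of_injective`, Loc.lean): `Ψ` with `N = Ψ` on `Ψ.source`.
`T r = (Ψ.symm (0, r)).1`, `U r = (Ψ.symm (0, r)).2`, `X r = P (T r, U r)`: smooth near `0`, `T 0 = t₀`,
`U 0 = u₀`, `X 0 = p₀`, `N (T r, U r) = (0, r)`.  `T'(0) ≠ 0`: `ζ = (T'(0), U'(0))` satisfies `DN ζ = (0, 1)`; if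
`ζ.1 = 0` then `ζ = ζ₂ • (0,1)`, `v = DP(x₀) (0,1)` satisfies `DF(p₀) v = DH(x₀) (0,1)`, so `v.1 ≠ 0` by `Slope`, but
`0 = (DN ζ).1 = ζ₂ v.1`, so `ζ = 0`, contradiction.  `deriv T` is continuous near `0`, so it has constant sign on
some `(-η₀, η₀)`, and `T` is strictly monotone there (`strictMonoOn_of_deriv_pos`).
Last claim: for `(r, p, q)` close to `(0, p₀, (1/2, u₀, 0))`, `p, q ∈ FB`: `p.1 = 1/2`, and `q = (1/2, u, 0)` because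
`u₀ ∈ (1/5, 4/5)` (points of `flat 0` have `a ≤ 1/5`, of `flat 1`: `a ≥ 4/5`).  `J (T r, p) = J (t₀, p) = Φ p` (`frozen`),
`J (T r, q) = H (T r, u)`; if they are equal then `p = P (T r, u)`, and
`N (T r, u) = (0, rsq 0 p - 1/25)`, so `(T r, u) = (T ρ, U ρ)` with `ρ = rsq 0 p - 1/25` small, so `r = ρ`
(injectivity of `T`), `u = U r`, `p = P (T r, U r) = X r`. -/
def StD1a : Prop :=
  ∀ (J : ℝ × R4 → R4) (t₀ u₀ : ℝ) (p₀ : R4), PreCross J t₀ u₀ p₀ → Slope J t₀ u₀ p₀ →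
    ∃ (T : ℝ → ℝ) (X : ℝ → R4) (η₀ : ℝ), 0 < η₀ ∧ ContDiffOn ℝ ∞ T (Ioo (-η₀) η₀) ∧
      (StrictMonoOn T (Ioo (-η₀) η₀) ∨ StrictAntiOn T (Ioo (-η₀) η₀)) ∧ T 0 = t₀ ∧
      ContinuousAt X 0 ∧ X 0 = p₀ ∧
      (∀ r ∈ Ioo (-η₀) η₀, (X r).1 = 1 / 2 ∧ rsq 0 (X r) = 1 / 25 + r) ∧
      ∀ᶠ q : ℝ × R4 × R4 in 𝓝 ((0 : ℝ), p₀, ((1 / 2, u₀, 0) : R4)), q.2.1 ∈ FB → q.2.2 ∈ FB →
        J (T q.1, q.2.1) = J (T q.1, q.2.2) → q.2.1 = X q.1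

/-- **D1b.** From local to global.
Proof.  (0) `SH η` shrinks to `SP`: for every open `V ⊇ SP` there is `η > 0` with `SH η ⊆ V`: on the compact
set `FB \ V` one has `min (rsq 0 p) (rsq 1 p) < 1/25` (a point of `FB` with both `≥ 1/25` is in `SP`), so the maximum is
`< 1/25`.  Similarly `CL η` shrinks to `sph 0 ∪ sph 1`.  With the (generalized) tube lemma: every
neighbourhood of `{0} × SP × SP` contains `[-η,η] × SH η × SH η` for small `η`.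
(1) `inj`: it suffices that for all `(p, q) ∈ SP × SP`, for all `(r, p', q')` near `(0, p, q)` with `p', q' ∈ FB`:
`J (T r, p') = J (T r, q')` implies `p' = q'` or `p' = X r` or `q' = X r`.  If `J (t₀, p) ≠ J (t₀, q)`: continuity.  If `p = q`:
`(t, p) ↦ (t, J (t, p))` is smooth near `(t₀, p)` with injective derivative, so injective near `(t₀, p)`.
If `(p, q)` is `(p₀, (1/2,u₀,0))` or conversely: the hypothesis `huniq`.
(2) `injA`: the same for `(p, q) ∈ (sph 0 ∪ sph 1)²`, where only the cases `J (t₀,p) ≠ J (t₀,q)` and `p = q` occur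
(`(1/2,u₀,0) ∉ sph 0 ∪ sph 1`).
(3) `loc`, `smooth`: at the points near `(t₀, p)`, `p ∈ SP`, `J` is smooth and `(t,p) ↦ (t, J (t,p))` is a local
diffeomorphism (open condition), so `fderiv (J (t, ·)) p` is injective.  `T` is smooth on `(-η₀, η₀)` and
continuous, `T r` is near `t₀`.  (4) `re`: `X` is continuous at `0`. -/
def StD1b : Prop :=
  ∀ (J : ℝ × R4 → R4) (t₀ u₀ : ℝ) (p₀ : R4), PreCross J t₀ u₀ p₀ →
    ∀ (T : ℝ → ℝ) (X : ℝ → R4) (η₀ : ℝ), 0 < η₀ → ContDiffOn ℝ ∞ T (Ioo (-η₀) η₀) → T 0 = t₀ →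
      ContinuousAt X 0 → X 0 = p₀ →
      (∀ r ∈ Ioo (-η₀) η₀, (X r).1 = 1 / 2 ∧ rsq 0 (X r) = 1 / 25 + r) →
      (∀ᶠ q : ℝ × R4 × R4 in 𝓝 ((0 : ℝ), p₀, ((1 / 2, u₀, 0) : R4)), q.2.1 ∈ FB → q.2.2 ∈ FB →
        J (T q.1, q.2.1) = J (T q.1, q.2.2) → q.2.1 = X q.1) →
      ∀ ε > 0, ∃ η > 0, η < η₀ ∧ Cross (fun q => J (T q.1, q.2)) X η ∧
        ∀ r ∈ Icc (-η) η, |T r - t₀| < ε

/-! ## SHR: the shear -/

/-- a polynomial shear fixing the spine pointwise -/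
noncomputable def shr (c : ℝ) (p : R4) : R4 :=
  (p.1 + c * (Complex.normSq p.2.2 * ((rsq 0 p - 1 / 25) * (rsq 1 p - 1 / 25))), p.2)

/-- **SHR.** The shear does not change the classes, and can be used to achieve `Slope`.
Proof. `shr c` is a polynomial diffeomorphism of `R4` with inverse `shr (-c)` (`rsq` and `w` depend on
`p.2` only), derivative `v ↦ (v.1 + c g'(v), v.2)`; it fixes `sph 0`, `sph 1`, `neck` pointwise.
First claim: family `F (shr (t c) p)` along `SP`, `StT2` (iii), in both directions.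
Second claim: `G q = J (q.1, shr c q.2)`.  All fields of `PreCross` for `G`: `shr c p = p` on `SP`;
`smooth`, `loc` by composition; `frozen` by continuity of `shr c`; `trans`: near `x₀` the function
`G (x.1, (1/2, x.2, 0))` is `J (x.1, (1/2, x.2, 0))` (`w = 0`), and
`fderiv (G (t₀, ·)) p₀ v = fderiv (J (t₀, ·)) p₀ (v.1 + c k drsq 0 p₀ v, v.2)` with
`k = 2 |w₀|² (rsq 1 p₀ - 1/25) ≠ 0` (`rsq 0 p₀ = 1/25`; `rsq 1 p₀ ≥ 16/25`), which is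
`fderiv (J (t₀, ·)) p₀ v` if `drsq 0 p₀ v = 0`.
`Slope`: let `ξ` be the vector with `fderiv (J (t₀,·)) p₀ ξ = fderiv H (t₀,u₀) (0,1)` (the derivative of a
local diffeomorphism is bijective).  If `ξ.1 ≠ 0` take `c = 0`.  Otherwise `drsq 0 p₀ ξ ≠ 0` by `trans`
(`ζ = (0,1) ≠ 0`); take `c = 1`: if `fderiv (G (t₀,·)) p₀ v = fderiv H (0,1)` then
`v.1 + k drsq 0 p₀ v = ξ.1 = 0`, `v.2 = ξ.2`, so `v.1 = - k drsq 0 p₀ ξ ≠ 0`. -/
def StShr : Prop :=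
  (∀ (F : R4 → R4) (c : ℝ), EmbOn 𝓘(ℝ, R4) F SP → EmbOn 𝓘(ℝ, R4) (fun p => F (shr c p)) SP ∧
    ∀ φ, (Thin 𝓘(ℝ, R4) (fun p => F (shr c p)) φ ↔ Thin 𝓘(ℝ, R4) F φ)) ∧
  (∀ c : ℝ, ∀ p ∈ SP, shr c p = p) ∧
  ∀ (J : ℝ × R4 → R4) (t₀ u₀ : ℝ) (p₀ : R4), PreCross J t₀ u₀ p₀ →
    ∃ c : ℝ, PreCross (fun q => J (q.1, shr c q.2)) t₀ u₀ p₀ ∧
      Slope (fun q => J (q.1, shr c q.2)) t₀ u₀ p₀

/-! ## MRL: the relation `MR` -/

/-- **MRL.** Properties of the relation `MR`.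
Proof (uses `StT2`, `StN1`, `StCI`, `StSwap`, `A0` in the form of Loc.lean).
Reflexive: uniqueness of the class (`T2` (ii)), `n = id`.  Symmetric: `CIsot ψ (n ∘ φ)`; `InN n` implies
`CIsot n n` (`N1`), so `n` has an inverse `n'` (`CI`), `InN n'` (`InN.inv`), and
`CIsot φ (n' ∘ ψ)` (compose with `CIsot n' n'`, symmetric).  Transitive: `G` has a representative by `T2` (i);
`InN.mul`.  Families: for `t₁ ≤ t₂` put `J' (τ, p) = J (t₁ + τ (t₂ - t₁), p)`: `FamOn` (the set of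
points where `J'` is smooth near is open; contains `[0,1] × SP`), `T2` (iii).
Swap: let `φ`, `ψ` represent `F`, `G`; their inverses `φ'`, `ψ'` (they exist by `T2` (vii), `CI`) represent
`F ∘ swp`, `G ∘ swp` (`StSwap`); so `CIsot ψ' (n ∘ φ')`, and taking inverses `CIsot ψ (φ ∘ n')` with `n' = n⁻¹ ∈ N`,
and `φ ∘ n' = n'' ∘ φ` with `n'' ∈ N` (`N1` (iii)).
Jet: `MR F G` depends only on the classes. -/
def StMRL : Prop :=
  (∀ F, MR F F) ∧ (∀ F G, MR F G → MR G F) ∧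
  (∀ F G H, EmbOn 𝓘(ℝ, R4) G SP → MR F G → MR G H → MR F H) ∧
  (∀ (J : ℝ × R4 → R4) (t₁ t₂ : ℝ), t₁ ≤ t₂ →
    (∀ t ∈ Icc t₁ t₂, ∀ p ∈ SP, ∀ᶠ q in 𝓝 (t, p), ContDiffAt ℝ ∞ J q) →
    (∀ t ∈ Icc t₁ t₂, EmbOn 𝓘(ℝ, R4) (fun p => J (t, p)) SP) →
    MR (fun p => J (t₁, p)) (fun p => J (t₂, p))) ∧
  (∀ F G, EmbOn 𝓘(ℝ, R4) F SP → EmbOn 𝓘(ℝ, R4) G SP →
    MR (fun p => F (swp p)) (fun p => G (swp p)) → MR F G) ∧
  (∀ F F' G, (∀ φ, (Thin 𝓘(ℝ, R4) F φ ↔ Thin 𝓘(ℝ, R4) F' φ)) → MR F G → MR F' G)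

/-! ## CR, LG: local and global invariance modulo `N` -/

/-- **CR.** Crossing at `t₀`, without `Slope`.
Proof. `StShr` gives `c`; `D1a`, `D1b`, `D2` for `J' = J ∘ (id × shr c)`: there are `r ∈ (0, η]` and times
`T r`, `T (-r)` on different sides of `t₀` (`T` is strictly monotone or antitone, `T 0 = t₀`) with
`|T (±r) - t₀| < ε` and `MR (J' (T r, ·)) (J' (T (-r), ·))`; `J' (T (±r), ·)` is injective on `SP` because
`X (±r) ∉ SP` (`rsq 0 (X r) = 1/25 + r ≠ 1/25`, `w ≠ 0`, `rsq 0 (X r) < 16/25`), and `shr c` fixes `SP`, so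
`J (T (±r), ·)` is injective on `SP`; for the classes use `StShr` (its `EmbOn` hypothesis: `J (t, ·)` is
locally diffeomorphic along `SP` because `J (t, ·) = J' (t, ·) ∘ shr (-c)` and `Cross.loc`).
By symmetry of `MR` one may order the two times. -/
def StCR : Prop :=
  ∀ (J : ℝ × R4 → R4) (t₀ u₀ : ℝ) (p₀ : R4), PreCross J t₀ u₀ p₀ → ∀ ε > 0,
    ∃ t₁ ∈ Ioo (t₀ - ε) t₀, ∃ t₂ ∈ Ioo t₀ (t₀ + ε), EmbOn 𝓘(ℝ, R4) (fun p => J (t₁, p)) SP ∧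
      EmbOn 𝓘(ℝ, R4) (fun p => J (t₂, p)) SP ∧ MR (fun p => J (t₁, p)) (fun p => J (t₂, p))

/-- **LG.** From local to global in time.
Proof (uses `StMRL`, `StCR`).  `C = {t | ¬ InjOn (J (t, ·)) SP}` is finite.  Local claim: every `t` has `ε > 0` such that
`MR (J (t', ·)) (J (t'', ·))` for all `t', t'' ∈ (t - ε, t + ε) \ C`.  Choose `ε` with
`(t - ε, t + ε) ∩ C ⊆ {t}`.  If `t ∉ C`, or `t', t''` are on the same side of `t`: families (`StMRL`, 4th; symmetric).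
If `t' < t < t''` and `t ∈ C`: `CR` (or `CR` for the swapped family and `StMRL`, 5th; note
`EmbOn (J ∘ swp) SP ↔ EmbOn J SP`) gives `t₁ ∈ (t - ε, t)`, `t₂ ∈ (t, t + ε)`; chain
`t' ~ t₁ ~ t₂ ~ t''`.  The set `{t | ∀ᶠ t' in 𝓝 t, t' ∉ C → MR (J (0, ·)) (J (t', ·))}` is open, contains `0`, and
is closed by the local claim (`Cᶜ` is dense), so it is `ℝ`; take `t = 1` (`1 ∉ C`, `self_of_nhds`). -/
def StLG : Prop :=
  ∀ J : ℝ × R4 → R4, BFam J → EmbOn 𝓘(ℝ, R4) (fun p => J (0, p)) SP →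
    EmbOn 𝓘(ℝ, R4) (fun p => J (1, p)) SP → MR (fun p => J (0, p)) (fun p => J (1, p))

/-! ## CH: charts of the cuffs -/

/-- stereographic parametrization of the unit sphere of three-space minus `(1, 0)` -/
noncomputable def st (y : ℂ) : R3 :=
  ((Complex.normSq y - 1) / (Complex.normSq y + 1), (2 / (Complex.normSq y + 1)) • y)

/-- parametrization of the first (`false`) and the second (`true`) core sphere minus the foot -/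
noncomputable def cst (b : Bool) (y : ℂ) : R4 :=
  (1 / 2, if b then 1 - (st y).1 / 5 else (st y).1 / 5, (1 / 5 : ℝ) • (st y).2)

/-- the circle `Re w = 0` on the core spheres -/
noncomputable def crv (b : Bool) (θ : ℝ) : R4 :=
  (1 / 2, (if b then 1 else 0) + Real.cos θ / 5, ⟨0, Real.sin θ / 5⟩)

/-- **CH.** Charts of the cuffs of a germ.
Proof.  `|st y| = 1`, `st y ≠ (1,0)`, and every `x` with `|x| = 1`, `x ≠ (1,0)` is `st (σ x)`,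
`σ x = x.2 / (1 - x.1)`, `σ (st y) = y`.  So `cst b` is a bijection of `ℂ` onto `sph b` minus the foot
(`(1/2,1/5,0)` resp. `(1/2,4/5,0)`), smooth, with a continuous inverse (`cinv`) defined near every point.
`Charts`: closed: image of a compact set under a map continuous on it; smooth: `F` is smooth near the
points of `SP`; `nhds`: let `V₀ ⊆ V` be open, `y ∈ V₀`; the set `K = (sph 0 ∪ sph 1) \ cst b '' V₀` is compact
(`cst b '' V₀` is the intersection of `sph b` with an open set: `{p | foot ≠ p, cinv p ∈ V₀}`), `F '' K` is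
closed and does not contain `F (cst b y)` (injectivity); `W = (F '' K)ᶜ`.
Tangent vectors: for `x = st y`, `v = (α, β)` with `x.1 α + Re (x.2 conj β) = 0` put
`η = β / (1 - x.1) + (α / (1 - x.1)²) x.2`; then `D st(y) η = v` (direct computation:
`|y|² + 1 = 2/(1 - x.1)`, `⟨y, η⟩ = α / (1 - x.1)²`).  Apply this to `5 v.2` resp. the reflected vector, and
the chain rule for `F ∘ cst b`. -/
def StCH : Prop :=
  ∀ F : R4 → R4, EmbOn 𝓘(ℝ, R4) F SP →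
    Charts (F '' (sph 0 ∪ sph 1)) (F (1 / 2, 1 / 5, 0)) (F (1 / 2, 4 / 5, 0))
      (fun b y => F (cst b y)) (fun _ => univ) ∧
    (∀ p ∈ sph 0, p ≠ (1 / 2, 1 / 5, 0) → ∃ y, cst false y = p) ∧
    (∀ p ∈ sph 1, p ≠ (1 / 2, 4 / 5, 0) → ∃ y, cst true y = p) ∧
    (∀ (b : Bool) (y : ℂ) (v : R4), v.1 = 0 → drsq (if b then 1 else 0) (cst b y) v = 0 →
      ∃ η : ℂ, fderiv ℝ (fun y => F (cst b y)) y η = fderiv ℝ F (cst b y) v) ∧
    (∀ b : Bool, ContDiff ℝ ∞ (fun θ => F (crv b θ))) ∧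
    (∀ p ∈ sph 0, p.2.2.re = 0 → ∃ θ, crv false θ = p) ∧
    ∀ p ∈ sph 1, p.2.2.re = 0 → ∃ θ, crv true θ = p

/-! ## CO: global core functions -/

/-- **CO.** The two core arcs extended to smooth functions on the line.
Proof.  Let `e u = (1/2, u, 0)`.  There is `r > 0` such that `F` and `F'` are smooth near `e u` for
`u ∈ (1/5 - r, 4/5 + r)` and `e u ∈ U` for `|u - 1/5| < r` and `|u - 4/5| < r`.  `Ψ` smooth, `1` on
`[1/5 - r/3, 4/5 + r/3]`, `0` off `[1/5 - 2r/3, 4/5 + 2r/3]`; `c₀ u = Ψ u • F (e u)`,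
`c₁ u = Ψ u • F' (e u)`; `2 δ < r`, `δ < 1/10`.  The derivative is the derivative of the germ applied to
`(0,1,0)` on `[1/5, 4/5]`, nonzero (`injective_fderiv`, Loc.lean). -/
def StCO : Prop :=
  ∀ (F F' : R4 → R4) (U : Set R4), EmbOn 𝓘(ℝ, R4) F SP → EmbOn 𝓘(ℝ, R4) F' SP → IsOpen U →
    sph 0 ∪ sph 1 ⊆ U → EqOn F F' U →
    ∃ (c₀ c₁ : ℝ → R4) (δ : ℝ), 0 < δ ∧ δ < 1 / 10 ∧ ContDiff ℝ ∞ c₀ ∧ ContDiff ℝ ∞ c₁ ∧
      (∀ u ∈ Icc (1 / 5 : ℝ) (4 / 5), F (1 / 2, u, 0) = c₀ u ∧ F' (1 / 2, u, 0) = c₁ u) ∧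
      (∀ u, (u ≤ 1 / 5 + 2 * δ ∨ 4 / 5 - 2 * δ ≤ u) → c₀ u = c₁ u) ∧
      ∀ u ∈ Icc (1 / 5 : ℝ) (4 / 5), deriv c₀ u ≠ 0 ∧ deriv c₁ u ≠ 0

end Pool.Agent.Helper34.BI
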