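import Pool.Agent.Helper34.BI.UNK1
import Pool.Agent.Helper70.BI.M_EI
import Pool.Agent.Helper70.BI.StU

/-!
# Project BI, module UNK, part 1b: straightening an unknotted sphere in the 4-sphere
-/

set_option autoImplicit false

open scoped Manifold ContDiff Topology
open Set Pool.Agent.Helper65.Barb Pool.Agent.Helper18.BI
open Pool.Agent.Helper70.BI (I4 LD StLOC ld_iff)
open Pool.Agent.Helper34.BI.UNK1

namespace Pool.Agent.Helper34.BI.UNK3

abbrev E5 : Type := EuclideanSpace ℝ (Fin 5)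
abbrev Em : Type := PartialDiffeomorph 𝓘(ℝ, R4) (𝓡 4) R4 S4 ∞

/-! ## the chart -/

/-- linear coordinates -/
noncomputable def iotL (σ : ℝ) (hσ : σ * σ = 1) : R4 ≃ₗ[ℝ] EuclideanSpace ℝ (Fin 4) where
  toFun p := !₂[10 * (σ * p.1), 10 * p.2.1, 10 * p.2.2.re, 10 * p.2.2.im]
  map_add' p q := by
    ext i
    fin_cases i <;> simp <;> ring
  map_smul' t p := by
    ext i
    fin_cases i <;> simp <;> ring
  invFun w := (σ * (w 0 / 10), (w 1 / 10, ⟨w 2 / 10, w 3 / 10⟩))
  left_inv p := by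
    refine Prod.ext ?_ (Prod.ext ?_ (Complex.ext ?_ ?_))
    · show σ * ((10 * (σ * p.1)) / 10) = p.1
      have : σ * ((10 * (σ * p.1)) / 10) = (σ * σ) * p.1 := by ring
      rw [this, hσ, one_mul]
    · show (10 * p.2.1) / 10 = p.2.1
      ring
    · show (10 * p.2.2.re) / 10 = p.2.2.re
      ring
    · show (10 * p.2.2.im) / 10 = p.2.2.im
      ring
  right_inv w := by
    ext i
    fin_cases i
    · show 10 * (σ * (σ * (w 0 / 10))) = w 0
      have : 10 * (σ * (σ * (w 0 / 10))) = (σ * σ) * w 0 := by ring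
      rw [this, hσ, one_mul]
    · show 10 * (w 1 / 10) = w 1
      ring
    · show 10 * (w 2 / 10) = w 2
      ring
    · show 10 * (w 3 / 10) = w 3
      ring

theorem iotL_norm (σ : ℝ) (hσ : σ * σ = 1) (p : R4) :
    ‖iotL σ hσ p‖ ^ 2 = 100 * (p.1 ^ 2 + nsq p.2) := by
  rw [EuclideanSpace.norm_sq_eq, Fin.sum_univ_four]
  show ‖10 * (σ * p.1)‖ ^ 2 + ‖10 * p.2.1‖ ^ 2 + ‖10 * p.2.2.re‖ ^ 2 + ‖10 * p.2.2.im‖ ^ 2 = _
  simp only [Real.norm_eq_abs, sq_abs]
  unfold nsq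
  have : (10 * (σ * p.1)) ^ 2 = 100 * ((σ * σ) * p.1 ^ 2) := by ring
  rw [this, hσ]
  ring

theorem iotL_zero (σ : ℝ) (hσ : σ * σ = 1) (p : R4) : iotL σ hσ p 0 = 10 * (σ * p.1) := rfl

/-- The charts. -/
theorem exists_chart (v : S4) : ∃ (s : S4 → EuclideanSpace ℝ (Fin 4)) (e : E5), ‖e‖ = 1 ∧
    inner ℝ (v : E5) e = 0 ∧ ∀ (σ : ℝ) (hσ : σ * σ = 1), ∃ c : Em, c.source = univ ∧
      c.target = {v}ᶜ ∧ (∀ y, c.symm y = mc + (iotL σ hσ).symm (s y)) ∧
      c '' sph 0 = {y : S4 | inner ℝ (y : E5) (v : E5) = 0 ∧ inner ℝ (y : E5) e = 0} := by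
  have : Fact (Module.finrank ℝ (EuclideanSpace ℝ (Fin 5)) = 4 + 1) := ⟨by simp⟩
  set U : (Submodule.span ℝ {(v : E5)})ᗮ ≃ₗᵢ[ℝ] EuclideanSpace ℝ (Fin 4) :=
    (OrthonormalBasis.fromOrthogonalSpanSingleton 4 (ne_zero_of_mem_unit_sphere v)).repr with hU
  have hsymm : ∀ x : EuclideanSpace ℝ (Fin 4), ((stereographic' 4 v).symm x : E5) =
      (‖(U.symm x : E5)‖ ^ 2 + 4)⁻¹ • (4 : ℝ) • (U.symm x : E5) +
        (‖(U.symm x : E5)‖ ^ 2 + 4)⁻¹ • (‖(U.symm x : E5)‖ ^ 2 - 4) • v.val :=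
    fun x => stereographic'_symm_apply v x
  have hsrc : (chartAt (EuclideanSpace ℝ (Fin 4)) (-v : S4)).source = {v}ᶜ := by
    change (stereographic' 4 (- -v)).source = _
    rw [neg_neg, stereographic'_source]
  have htgt : (chartAt (EuclideanSpace ℝ (Fin 4)) (-v : S4)).target = univ := by
    change (stereographic' 4 (- -v)).target = _
    rw [stereographic'_target]
  have hs1 : ContMDiffOn (𝓡 4) (𝓡 4) ∞ (chartAt (EuclideanSpace ℝ (Fin 4)) (-v : S4))
      (chartAt (EuclideanSpace ℝ (Fin 4)) (-v : S4)).source := contMDiffOn_chart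
  have hs2 : ContMDiffOn (𝓡 4) (𝓡 4) ∞ (chartAt (EuclideanSpace ℝ (Fin 4)) (-v : S4)).symm
      (chartAt (EuclideanSpace ℝ (Fin 4)) (-v : S4)).target := contMDiffOn_chart_symm
  have hch : chartAt (EuclideanSpace ℝ (Fin 4)) (-v : S4) = stereographic' 4 v := by
    change stereographic' 4 (- -v) = _
    rw [neg_neg]
  rw [hch] at hsrc htgt hs1 hs2
  have hvn : ‖(v : E5)‖ = 1 := norm_eq_of_mem_sphere v
  have hvv : inner ℝ (v : E5) (v : E5) = (1 : ℝ) := by
    rw [real_inner_self_eq_norm_sq, hvn]; norm_num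
  have horth : ∀ w : (Submodule.span ℝ {(v : E5)})ᗮ, inner ℝ (w : E5) (v : E5) = 0 := by
    intro w
    rw [real_inner_comm]
    exact Submodule.mem_orthogonal_singleton_iff_inner_right.mp w.2
  generalize stereographic' 4 v = sv at hsymm hsrc htgt hs1 hs2
  let f0 : EuclideanSpace ℝ (Fin 4) := EuclideanSpace.single 0 1
  let e : E5 := (U.symm f0 : E5)
  have he : ‖e‖ = 1 := by
    show ‖(U.symm f0 : E5)‖ = 1
    rw [← Submodule.coe_norm, U.symm.norm_map]
    simp [f0]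
  have hve : inner ℝ (v : E5) e = 0 := by
    rw [real_inner_comm]
    exact horth _
  have hinner : ∀ w : (Submodule.span ℝ {(v : E5)})ᗮ, inner ℝ (w : E5) e = U w 0 := by
    intro w
    have h1 : inner ℝ (w : E5) e = inner ℝ w (U.symm f0) := rfl
    rw [h1, ← U.inner_map_map, U.apply_symm_apply, EuclideanSpace.inner_single_right]
    simp
  refine ⟨fun y => sv y, e, he, hve, fun σ hσ => ?_⟩
  let L : R4 ≃L[ℝ] EuclideanSpace ℝ (Fin 4) := (iotL σ hσ).toContinuousLinearEquiv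
  have hL : ∀ p, L p = iotL σ hσ p := fun p => rfl
  have hLs : ∀ p, L.symm p = (iotL σ hσ).symm p := fun p => rfl
  have hC1 : ContMDiff 𝓘(ℝ, R4) (𝓡 4) ∞ (fun p : R4 => L (p - mc)) :=
    (L.contDiff.comp (contDiff_id.sub contDiff_const)).contMDiff
  have hC2 : ContMDiff (𝓡 4) 𝓘(ℝ, R4) ∞ (fun x => mc + L.symm x) :=
    (contDiff_const.add L.symm.contDiff).contMDiff
  let c : Em :=
    { toFun := fun p => sv.symm (L (p - mc))
      invFun := fun y => mc + L.symm (sv y)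
      source := univ
      target := sv.source
      map_source' := fun p _ => sv.map_target (by rw [htgt]; exact mem_univ _)
      map_target' := fun y _ => mem_univ _
      left_inv' := fun p _ => by
        rw [sv.right_inv (by rw [htgt]; exact mem_univ _), L.symm_apply_apply, add_sub_cancel]
      right_inv' := fun y hy => by
        rw [add_sub_cancel_left, L.apply_symm_apply, sv.left_inv hy]
      open_source := isOpen_univ
      open_target := sv.open_source
      contMDiffOn_toFun := hs2.comp hC1.contMDiffOn (fun p _ => by rw [htgt]; exact mem_univ _)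
      contMDiffOn_invFun := hC2.comp_contMDiffOn hs1 }
  refine ⟨c, rfl, hsrc, fun y => rfl, ?_⟩
  apply Subset.antisymm
  · rintro _ ⟨p, hp, rfl⟩
    have hnorm : ‖(U.symm (L (p - mc)) : E5)‖ = 2 := by
      rw [← Submodule.coe_norm, U.symm.norm_map, hL]
      have h1 := iotL_norm σ hσ (p - mc)
      have h2 : (p - mc).1 = 0 := by
        show p.1 - 1 / 2 = 0
        rw [hp.1, sub_self]
      have h3 : (p - mc).2 = p.2 := Prod.ext (sub_zero _) (sub_zero _)
      have h4 := hp.2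
      rw [rsq0] at h4
      rw [h2, h3, h4] at h1
      have h5 := norm_nonneg (iotL σ hσ (p - mc))
      nlinarith
    have hcp : (c p : E5) = (1 / 2 : ℝ) • (U.symm (L (p - mc)) : E5) := by
      show (sv.symm (L (p - mc)) : E5) = _
      rw [hsymm, hnorm, smul_smul]
      norm_num
    constructor
    · show inner ℝ (c p : E5) (v : E5) = 0
      rw [hcp, inner_smul_left, horth, mul_zero]
    · show inner ℝ (c p : E5) e = 0
      rw [hcp, inner_smul_left, hinner, U.apply_symm_apply, hL, iotL_zero]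
      have h2 : (p - mc).1 = 0 := by
        show p.1 - 1 / 2 = 0
        rw [hp.1, sub_self]
      rw [h2]
      simp
  · rintro y ⟨hy1, hy2⟩
    have hy1' : inner ℝ (y : E5) (v : E5) = 0 := hy1
    have hy2' : inner ℝ (y : E5) e = 0 := hy2
    have hmem : (2 : ℝ) • (y : E5) ∈ (Submodule.span ℝ {(v : E5)})ᗮ := by
      rw [Submodule.mem_orthogonal_singleton_iff_inner_right, inner_smul_right, real_inner_comm,
        hy1', mul_zero]
    let w : (Submodule.span ℝ {(v : E5)})ᗮ := ⟨(2 : ℝ) • (y : E5), hmem⟩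
    have hwy : (w : E5) = (2 : ℝ) • (y : E5) := rfl
    let a := U w
    have ha0 : a 0 = 0 := by
      show U w 0 = 0
      rw [← hinner, hwy, inner_smul_left, hy2', mul_zero]
    have hna : ‖a‖ = 2 := by
      show ‖U w‖ = 2
      rw [U.norm_map, Submodule.coe_norm, hwy, norm_smul, norm_eq_of_mem_sphere y]
      norm_num
    have hm : ∀ z : R4, mc + z - mc = z := fun z => add_sub_cancel_left _ _
    refine ⟨mc + L.symm a, ?_, ?_⟩
    · have h1 := iotL_norm σ hσ (L.symm a)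
      have h0 : (iotL σ hσ) (L.symm a) = a := L.apply_symm_apply a
      have h2 := iotL_zero σ hσ (L.symm a)
      rw [h0] at h1 h2
      rw [ha0] at h2
      rw [hna] at h1
      have hσ0 : σ ≠ 0 := by
        intro h
        rw [h] at hσ
        norm_num at hσ
      have h3 : (L.symm a).1 = 0 := by
        have : σ * (L.symm a).1 = 0 := by linarith
        exact (mul_eq_zero.mp this).resolve_left hσ0
      refine ⟨?_, ?_⟩
      · show 1 / 2 + (L.symm a).1 = 1 / 2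
        rw [h3, add_zero]
      · rw [rsq0]
        have h4 : (mc + L.symm a).2 = (L.symm a).2 := Prod.ext (zero_add _) (zero_add _)
        rw [h4]
        rw [h3] at h1
        linarith
    · apply Subtype.ext
      show (sv.symm (L (mc + L.symm a - mc)) : E5) = (y : E5)
      rw [hm, L.apply_symm_apply, hsymm]
      have h5 : U.symm a = w := U.symm_apply_apply w
      rw [h5, hwy, norm_smul, norm_eq_of_mem_sphere y, smul_smul, smul_smul]
      norm_num

/-! ## the straightening homeomorphism -/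

theorem flat_squeeze {l : ℝ} (hl0 : 0 < l) (hl1 : l < 1) {p : R4} (hp : p ∈ flat 0) :
    mc + l • (p - mc) ∈ flat 0 ∧ ‖mc + l • (p - mc) - mc‖ ≤ l := by
  have h2 : (p - mc).1 = 0 := by
    show p.1 - 1 / 2 = 0
    rw [hp.1, sub_self]
  have h3 : (p - mc).2 = p.2 := Prod.ext (sub_zero _) (sub_zero _)
  have h4 := hp.2
  rw [rsq0] at h4
  have hn : nsq (l • (p - mc)).2 = l ^ 2 * nsq p.2 := by
    have : (l • (p - mc)).2 = l • p.2 := by
      show l • (p - mc).2 = _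
      rw [h3]
    rw [this]
    unfold nsq
    show (l * p.2.1) ^ 2 + (l • p.2.2).re ^ 2 + (l • p.2.2).im ^ 2 = _
    simp only [Complex.smul_re, Complex.smul_im, smul_eq_mul]
    ring
  constructor
  · refine ⟨?_, ?_⟩
    · show 1 / 2 + l * (p - mc).1 = 1 / 2
      rw [h2, mul_zero, add_zero]
    · rw [rsq0]
      have h5 : (mc + l • (p - mc)).2 = (l • (p - mc)).2 := Prod.ext (zero_add _) (zero_add _)
      rw [h5, hn]
      have h6 := nsq_nonneg' p.2
      nlinarith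
  · rw [add_sub_cancel_left, norm_smul, Real.norm_of_nonneg hl0.le]
    have h7 : ‖p - mc‖ ≤ 1 := by
      rw [Prod.norm_def, h2, h3, norm_zero]
      refine max_le zero_le_one ((norm_le_nsq _).trans ?_)
      rw [show (1 : ℝ) = Real.sqrt 1 by simp]
      exact Real.sqrt_le_sqrt (by linarith)
    nlinarith

theorem core (hLOC : StLOC) (hfc : IsCompact (flat 0)) (δ c : Em) (hδ : flat 0 ⊆ δ.source)
    (hc : c.source = univ) (hct : δ '' flat 0 ⊆ c.target)
    (hLD : LD (fun p => c.symm (δ p)) mc)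
    (hdet : 0 < (fderiv ℝ (fun p => c.symm (δ p)) mc).det) :
    ∃ Ψ : S4 ≃ₜ S4, ∀ p ∈ flat 0, Ψ (δ p) = c p := by
  obtain ⟨G, -, ⟨C, hC, -, hCid⟩, hev⟩ := hLOC (fun p => c.symm (δ p)) mc univ hLD hdet
    isOpen_univ isPreconnected_univ (mem_univ _) (mem_univ _)
  have hGf : Continuous fun x : R4 => G.f (1, x) :=
    G.smooth_f.continuous.comp (continuous_const.prodMk continuous_id)
  have hGg : Continuous fun x : R4 => G.g (1, x) :=
    G.smooth_g.continuous.comp (continuous_const.prodMk continuous_id)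
  let G₁ : R4 ≃ₜ R4 := ⟨⟨fun x => G.f (1, x), fun x => G.g (1, x), fun x => G.gf 1 x,
    fun x => G.fg 1 x⟩, hGf, hGg⟩
  have hG₁ : ∀ x, x ∉ C → G₁ x = x := fun x hx => hCid 1 x hx
  obtain ⟨r, hr, hball⟩ := Metric.eventually_nhds_iff.1 hev
  obtain ⟨l, hl0, hl1, hlr⟩ : ∃ l : ℝ, 0 < l ∧ l < 1 ∧ l < r :=
    ⟨min (1 / 2) (r / 2), lt_min (by norm_num) (by linarith),
      lt_of_le_of_lt (min_le_left _ _) (by norm_num),
      lt_of_le_of_lt (min_le_right _ _) (by linarith)⟩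
  obtain ⟨T, K, hK, hKs, hTid, hT⟩ := exists_squeeze δ.source δ.open_source hδ hfc l hl0 hl1
  obtain ⟨Ψ₁, h1⟩ := exists_push δ.toOpenPartialHomeomorph T K hK hKs hTid
  obtain ⟨Ψ₂, h2⟩ := exists_push c.toOpenPartialHomeomorph G₁ C hC
    (by intro x _; show x ∈ c.source; rw [hc]; exact mem_univ _) hG₁
  obtain ⟨Ψ₃, h3⟩ := exists_push c.toOpenPartialHomeomorph T K hK
    (by intro x _; show x ∈ c.source; rw [hc]; exact mem_univ _) hTid
  refine ⟨Ψ₁.trans (Ψ₂.trans Ψ₃.symm), fun p hp => ?_⟩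
  obtain ⟨hp', hpn⟩ := flat_squeeze hl0 hl1 hp
  set p' := mc + l • (p - mc) with hp'def
  have e1 : Ψ₁ (δ p) = δ p' := by
    have := h1 p (hδ hp)
    rw [hT p hp] at this
    exact this
  have e2 : Ψ₂ (δ p') = c p' := by
    have ht : δ p' ∈ c.target := hct ⟨p', hp', rfl⟩
    have e3 : c (c.symm (δ p')) = δ p' := c.toPartialEquiv.right_inv ht
    have e4 := h2 (c.symm (δ p')) (by show _ ∈ c.source; rw [hc]; exact mem_univ _)
    have e5 : G₁ (c.symm (δ p')) = p' := hball (by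
      rw [dist_eq_norm]
      exact lt_of_le_of_lt hpn hlr)
    rw [e5] at e4
    have e6 : Ψ₂ (c (c.symm (δ p'))) = c p' := e4
    rw [e3] at e6
    exact e6
  have e3 : Ψ₃ (c p) = c p' := by
    have := h3 p (by show _ ∈ c.source; rw [hc]; exact mem_univ _)
    rw [hT p hp] at this
    exact this
  show Ψ₃.symm (Ψ₂ (Ψ₁ (δ p))) = c p
  rw [e1, e2, ← e3, Ψ₃.symm_apply_apply]

theorem mc_flat : mc ∈ flat 0 := by
  refine ⟨rfl, ?_⟩
  rw [rsq0]
  unfold nsq mc
  norm_num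

/-- the reflection -/
noncomputable def Lr : R4 →L[ℝ] R4 :=
  (-(ContinuousLinearMap.id ℝ ℝ)).prodMap (ContinuousLinearMap.id ℝ R3)

theorem Lr_det : Lr.det = -1 := by
  have : (Lr : R4 →ₗ[ℝ] R4) = (-(LinearMap.id : ℝ →ₗ[ℝ] ℝ)).prodMap (LinearMap.id : R3 →ₗ[ℝ] R3) :=
    rfl
  rw [ContinuousLinearMap.det, this, LinearMap.det_prodMap, LinearMap.det_id, mul_one,
    ← neg_one_smul ℝ (LinearMap.id : ℝ →ₗ[ℝ] ℝ), LinearMap.det_smul, LinearMap.det_id]
  simp

theorem det_ne {F : R4 → R4} {p : R4} (h : LD F p) : (fderiv ℝ F p).det ≠ 0 := by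
  intro h0
  have hinj : Function.Injective (fderiv ℝ F p) := (ld_iff.1 h).2
  have h3 : LinearMap.det (fderiv ℝ F p : R4 →ₗ[ℝ] R4) = 0 := h0
  have h4 := LinearMap.bot_lt_ker_of_det_eq_zero h3
  rw [LinearMap.ker_eq_bot.2 hinj] at h4
  exact lt_irrefl _ h4

/-- **Straightening.** -/
theorem straight (hLOC : StLOC) (hfc : IsCompact (flat 0)) (δ : Em) (hδ : flat 0 ⊆ δ.source) :
    ∃ (Ψ : S4 ≃ₜ S4) (v e : E5), ‖v‖ = 1 ∧ ‖e‖ = 1 ∧ inner ℝ v e = 0 ∧
      Ψ '' (δ '' sph 0) = {y : S4 | inner ℝ (y : E5) v = 0 ∧ inner ℝ (y : E5) e = 0} := by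
  have hloc : ∀ p ∈ flat 0, IsLocalDiffeomorphAt 𝓘(ℝ, R4) (𝓡 4) ∞ δ p :=
    fun p hp => ⟨δ, hδ hp, fun _ _ => rfl⟩
  have hint := (Pool.Agent.Helper70.BI.m_EI (EuclideanSpace ℝ (Fin 4)) (EuclideanSpace ℝ (Fin 4))
    (𝓡 4) S4 δ (flat 0) hfc (fun p hp => hp.1) hloc).2
  obtain ⟨v, hv⟩ : ∃ v : S4, v ∉ δ '' flat 0 := by
    by_contra hne
    push Not at hne
    have h1 : δ '' flat 0 = univ := eq_univ_of_forall hne
    rw [h1, interior_univ] at hint
    have h3 : (⟨EuclideanSpace.single 0 1, by simp⟩ : S4) ∈ (univ : Set S4) := mem_univ _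
    rw [hint] at h3
    exact h3
  obtain ⟨s, e, he, hve, hch⟩ := exists_chart v
  have main : ∀ c : Em, c.source = univ → c.target = {v}ᶜ →
      0 < (fderiv ℝ (fun p => c.symm (δ p)) mc).det →
      c '' sph 0 = {y : S4 | inner ℝ (y : E5) (v : E5) = 0 ∧ inner ℝ (y : E5) e = 0} →
      ∃ (Ψ : S4 ≃ₜ S4) (v e : E5), ‖v‖ = 1 ∧ ‖e‖ = 1 ∧ inner ℝ v e = 0 ∧
      Ψ '' (δ '' sph 0) = {y : S4 | inner ℝ (y : E5) v = 0 ∧ inner ℝ (y : E5) e = 0} := by
    intro c hc1 hc2 hdet hc3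
    have hct : δ '' flat 0 ⊆ c.target := by
      rw [hc2]
      intro y hy hyv
      exact hv (hyv ▸ hy)
    have hLD : LD (fun p => c.symm (δ p)) mc := by
      have h1 : IsLocalDiffeomorphAt (𝓡 4) 𝓘(ℝ, R4) ∞ c.symm (δ mc) :=
        ⟨c.symm, hct ⟨mc, mc_flat, rfl⟩, fun _ _ => rfl⟩
      exact IsLocalDiffeomorphAt.comp (hf := hloc mc mc_flat) (hg := h1)
    obtain ⟨Ψ, hΨ⟩ := core hLOC hfc δ c hδ hc1 hct hLD hdet
    refine ⟨Ψ, v, e, norm_eq_of_mem_sphere v, he, hve, ?_⟩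
    rw [← hc3, image_image]
    refine image_congr fun p hp => hΨ p ⟨hp.1, hp.2.le⟩
  obtain ⟨c, hc1, hc2, hc3, hc4⟩ := hch 1 (by norm_num)
  obtain ⟨c', hc1', hc2', hc3', hc4'⟩ := hch (-1) (by norm_num)
  have hct : δ mc ∈ c.target := by
    rw [hc2]
    intro h
    exact hv ⟨mc, mc_flat, h⟩
  have hLD : LD (fun p => c.symm (δ p)) mc := by
    have h1 : IsLocalDiffeomorphAt (𝓡 4) 𝓘(ℝ, R4) ∞ c.symm (δ mc) :=
      ⟨c.symm, hct, fun _ _ => rfl⟩
    exact IsLocalDiffeomorphAt.comp (hf := hloc mc mc_flat) (hg := h1)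
  rcases lt_or_gt_of_ne (det_ne hLD) with hneg | hpos
  · refine main c' hc1' hc2' ?_ hc4'
    have heq : (fun p => c'.symm (δ p)) = fun p => mc + Lr (c.symm (δ p) - mc) := by
      funext p
      rw [hc3', hc3, add_sub_cancel_left]
      congr 1
      refine Prod.ext ?_ rfl
      show -1 * (s (δ p) 0 / 10) = -(1 * (s (δ p) 0 / 10))
      ring
    rw [heq]
    have hd : DifferentiableAt ℝ (fun p => c.symm (δ p)) mc :=
      ((ld_iff.1 hLD).1.self_of_nhds).differentiableAt (by simp)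
    have hF : HasFDerivAt (fun p => mc + Lr (c.symm (δ p) - mc))
        (Lr.comp (fderiv ℝ (fun p => c.symm (δ p)) mc)) mc := by
      have h5 : HasFDerivAt (fun p => c.symm (δ p) - mc) (fderiv ℝ (fun p => c.symm (δ p)) mc) mc :=
        hd.hasFDerivAt.sub_const mc
      exact (Lr.hasFDerivAt.comp mc h5).const_add mc
    rw [hF.fderiv]
    have h6 : (Lr.comp (fderiv ℝ (fun p => c.symm (δ p)) mc)).det =
        Lr.det * (fderiv ℝ (fun p => c.symm (δ p)) mc).det := by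
      exact LinearMap.det_comp _ _
    rw [h6, Lr_det]
    linarith
  · exact main c hc1 hc2 hpos hc4

end Pool.Agent.Helper34.BI.UNK3
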