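import Pool.Agent.Helper34.BI.Arcs

/-!
# Generic families of arcs, with an arbitrary frozen set
-/

set_option autoImplicit false

open MeasureTheory Module Set Filter Topology
open scoped ContDiff

namespace Pool.Agent.Helper34.BI

section
variable {E : Type*} [NormedAddCommGroup E] [NormedSpace ℝ E]

/-- A generic family of arcs `H (t, ·)`, `t ∈ [0, 1]`, on the interval `[a, b]`, constant where
`χ = 0`, joining `c₀` to `c₁`. -/
structure ArcFamilyG {ι Y : Type*} [NormedAddCommGroup Y] [NormedSpace ℝ Y] (a b : ℝ) (χ : ℝ → ℝ)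
    (c₀ c₁ : ℝ → E) (A : Set E) (f : ι → Y → E) (T : ι → Set Y) (H : ℝ × ℝ → E) : Prop where
  smooth : ContDiff ℝ ∞ H
  start : ∀ t u, t ≤ 0 → H (t, u) = c₀ u
  stop : ∀ t u, 1 ≤ t → H (t, u) = c₁ u
  frozen : ∀ t u, χ u = 0 → H (t, u) = c₀ u
  inj : ∀ t ∈ Icc (0 : ℝ) 1, InjOn (fun u => H (t, u)) (Icc a b)
  imm : ∀ t ∈ Icc (0 : ℝ) 1, ∀ u ∈ Icc a b, fderiv ℝ H (t, u) (0, 1) ≠ 0
  finite : {x : ℝ × ℝ | x.1 ∈ Icc (0 : ℝ) 1 ∧ x.2 ∈ Ioo a b ∧ H x ∈ A}.Finite
  active : ∀ t ∈ Icc (0 : ℝ) 1, ∀ u ∈ Ioo a b, H (t, u) ∈ A → (0 < t ∧ t < 1) ∧ χ u ≠ 0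
  single : ∀ t ∈ Icc (0 : ℝ) 1, ∀ u ∈ Ioo a b, ∀ u' ∈ Ioo a b, H (t, u) ∈ A → H (t, u') ∈ A →
    u = u'
  trans : ∀ t ∈ Icc (0 : ℝ) 1, ∀ u ∈ Ioo a b, ∀ i, ∀ y ∈ T i, H (t, u) = f i y →
    ∀ ζ η, fderiv ℝ H (t, u) ζ = fderiv ℝ (f i) y η → ζ = 0 ∧ η = 0

variable [FiniteDimensional ℝ E]
variable {ι Y : Type*} [NormedAddCommGroup Y] [NormedSpace ℝ Y] [FiniteDimensional ℝ Y]

/-- Any two embedded arcs which agree near the set `χ = 0`, disjoint from the surfaces, are joined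
by a generic family of embedded arcs, constant where `χ = 0`, whose crossings with the surfaces
avoid countably many given curves. -/
theorem exists_arcFamilyG (hE : finrank ℝ E = 4) (hY : finrank ℝ Y = 2) [Countable ι] {κ : Type*}
    [Countable κ] {g : κ → ℝ → E} (hg : ∀ k, ContDiff ℝ ∞ (g k)) {a b : ℝ} (hab : a < b)
    {χ : ℝ → ℝ} (hχ : ContDiff ℝ ∞ χ) (hχ0 : ∀ u, 0 ≤ χ u) (hχ1 : ∀ u, χ u ≤ 1)
    {δ : ℝ} (hδ : 0 < δ) (hsupp : ∀ u, (u ≤ a + δ ∨ b - δ ≤ u) → χ u = 0)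
    {c₀ c₁ : ℝ → E} (h₀ : ContDiff ℝ ∞ c₀) (h₁ : ContDiff ℝ ∞ c₁)
    (hfr : ∀ u, χ u = 0 → c₀ =ᶠ[𝓝 u] c₁)
    (inj₀ : InjOn c₀ (Icc a b)) (inj₁ : InjOn c₁ (Icc a b))
    (imm₀ : ∀ u ∈ Icc a b, deriv c₀ u ≠ 0) (imm₁ : ∀ u ∈ Icc a b, deriv c₁ u ≠ 0)
    {A : Set E} {f : ι → Y → E} {T : ι → Set Y} (hA : Charts A (c₀ a) (c₀ b) f T)
    (hA₀ : ∀ u ∈ Ioo a b, c₀ u ∉ A) (hA₁ : ∀ u ∈ Ioo a b, c₁ u ∉ A)
    {ε : ℝ} (hε : 0 < ε) :
    ∃ H : ℝ × ℝ → E, ArcFamilyG a b χ c₀ c₁ A f T H ∧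
      (∀ t ∈ Icc (0 : ℝ) 1, ∀ u ∈ Ioo a b, H (t, u) ∈ A → ∀ k r, H (t, u) ≠ g k r) ∧
      (∀ t ∈ Ioo (0 : ℝ) 1, ∀ u, χ u ≠ 0 → ∀ k r, H (t, u) ≠ g k r) ∧
      ∀ t ∈ Icc (0 : ℝ) 1, ∀ u, ∃ s ∈ Icc (0 : ℝ) 1,
        ‖H (t, u) - ((1 - s) • c₀ u + s • c₁ u)‖ < ε := by
  let ρ : ℝ → ℝ := hat 0 1
  have hρ : ContDiff ℝ ∞ ρ := contDiff_hat _ _
  let τ : ℝ → ℝ := Real.smoothTransition
  have hτ : ContDiff ℝ ∞ τ := Real.smoothTransition.contDiff
  let h : ℝ × ℝ → E := fun x => (1 - τ x.1) • c₀ x.2 + τ x.1 • c₁ x.2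
  have hh : ContDiff ℝ ∞ h := by
    have e1 : ContDiff ℝ ∞ (fun x : ℝ × ℝ => τ x.1) := hτ.comp contDiff_fst
    have e2 : ContDiff ℝ ∞ (fun x : ℝ × ℝ => c₀ x.2) := h₀.comp contDiff_snd
    have e3 : ContDiff ℝ ∞ (fun x : ℝ × ℝ => c₁ x.2) := h₁.comp contDiff_snd
    exact ((contDiff_const.sub e1).smul e2).add (e1.smul e3)
  obtain ⟨v, w, hv, hw, hgp⟩ := exists_genPos (h := h) (ρ := ρ) (χ := χ) hE hY hh hρ hχ hA.opn
    hA.smooth hg
    (ε := ε / (2 * (1 + |a| + |b|))) (by positivity)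
  let H : ℝ × ℝ → E := fam h ρ χ v w
  have hH : ContDiff ℝ ∞ H := by
    have e1 : ContDiff ℝ ∞ (fun x : ℝ × ℝ => ρ x.1) := hρ.comp contDiff_fst
    have e2 : ContDiff ℝ ∞ (fun x : ℝ × ℝ => χ x.2) := hχ.comp contDiff_snd
    exact hh.add ((e1.mul e2).smul (contDiff_const.add (contDiff_snd.smul contDiff_const)))
  have start : ∀ t u, t ≤ 0 → H (t, u) = c₀ u := by
    intro t u ht
    have e1 : ρ t = 0 := hat_eq_zero (Or.inl ht)
    have e2 : τ t = 0 := Real.smoothTransition.zero_of_nonpos ht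
    simp [H, fam, h, e1, e2]
  have stop : ∀ t u, 1 ≤ t → H (t, u) = c₁ u := by
    intro t u ht
    have e1 : ρ t = 0 := hat_eq_zero (Or.inr ht)
    have e2 : τ t = 1 := Real.smoothTransition.one_of_one_le ht
    simp [H, fam, h, e1, e2]
  have frozen : ∀ t u, χ u = 0 → H (t, u) = c₀ u := by
    intro t u e1
    have e2 : c₁ u = c₀ u := (hfr u e1).self_of_nhds.symm
    simp only [H, fam, h, e1, e2]
    module
  have hρt : ∀ t, 0 < t → t < 1 → ρ t ≠ 0 := fun t h1 h2 => hat_ne_zero.2 ⟨h1, h2⟩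
  have hIoo : ∀ t ∈ Icc (0 : ℝ) 1, (t ≤ 0 ∨ 1 ≤ t) ∨ (0 < t ∧ t < 1) := by
    intro t ht
    rcases le_or_gt t 0 with h1 | h1
    · exact Or.inl (Or.inl h1)
    · rcases le_or_gt 1 t with h2 | h2
      · exact Or.inl (Or.inr h2)
      · exact Or.inr ⟨h1, h2⟩
  have hact : ∀ u, χ u = 0 ∨ χ u ≠ 0 := fun u => em _
  have hsupp' : ∀ u, χ u ≠ 0 → a + δ < u ∧ u < b - δ := by
    intro u hu
    constructor
    · by_contra hcon
      exact hu (hsupp u (Or.inl (not_lt.1 hcon)))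
    · by_contra hcon
      exact hu (hsupp u (Or.inr (not_lt.1 hcon)))
  have inj : ∀ t ∈ Icc (0 : ℝ) 1, InjOn (fun u => H (t, u)) (Icc a b) := by
    intro t ht u hu u' hu' he
    simp only at he
    rcases hIoo t ht with (h1 | h1) | h1
    · rw [start t u h1, start t u' h1] at he
      exact inj₀ hu hu' he
    · rw [stop t u h1, stop t u' h1] at he
      exact inj₁ hu hu' he
    · rcases hact u with h2 | h2
      · rcases hact u' with h3 | h3
        · rw [frozen t u h2, frozen t u' h3] at he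
          exact inj₀ hu hu' he
        · by_contra hne
          exact hgp.inj t u u' (hρt t h1.1 h1.2) hne (Or.inr (h3)) he
      · by_contra hne
        exact hgp.inj t u u' (hρt t h1.1 h1.2) hne (Or.inl (h2)) he
  -- derivative along the arcs
  have hder : ∀ t u, HasDerivAt (fun r => H (t, r)) (fderiv ℝ H (t, u) (0, 1)) u := by
    intro t u
    have l : HasDerivAt (fun r : ℝ => ((t, r) : ℝ × ℝ)) (0, 1) u :=
      (hasDerivAt_const u t).prodMk (hasDerivAt_id u)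
    exact HasFDerivAt.comp_hasDerivAt_of_eq u ((hH.differentiable (by simp) (t, u)).hasFDerivAt) l
      rfl
  have imm : ∀ t ∈ Icc (0 : ℝ) 1, ∀ u ∈ Icc a b, fderiv ℝ H (t, u) (0, 1) ≠ 0 := by
    intro t ht u hu
    rcases hIoo t ht with (h1 | h1) | h1
    · have e : (fun r => H (t, r)) = c₀ := funext fun r => start t r h1
      rw [← (hder t u).deriv, e]
      exact imm₀ u hu
    · have e : (fun r => H (t, r)) = c₁ := funext fun r => stop t r h1
      rw [← (hder t u).deriv, e]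
      exact imm₁ u hu
    · rcases hact u with h2 | h2
      · -- frozen: the derivative is the one of `c₀`
        have hd0 : HasDerivAt c₀ (deriv c₀ u) u := (h₀.differentiable (by simp) u).hasDerivAt
        have key : fderiv ℝ H (t, u) (0, 1) = deriv c₀ u := by
          have hmin : deriv χ u = 0 := by
            have : IsLocalMin χ u := Eventually.of_forall fun r => by
              show χ u ≤ χ r
              rw [h2]; exact hχ0 r
            exact this.deriv_eq_zero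
          have d2 : HasDerivAt χ 0 u := by
            rw [← hmin]
            exact (hχ.differentiable (by simp) u).hasDerivAt
          have d3 : HasDerivAt (fun r : ℝ => (ρ t * χ r) • (v + r • w)) 0 u := by
            have a1 : HasDerivAt (fun r : ℝ => ρ t * χ r) (ρ t * 0) u := d2.const_mul _
            have a2 : HasDerivAt (fun r : ℝ => v + r • w) w u := by
              simpa using ((hasDerivAt_id u).smul_const w).const_add v
            have a3 := a1.smul a2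
            refine a3.congr_deriv ?_
            simp [h2]
          have d4 : HasDerivAt (fun r => H (t, r)) (deriv c₀ u) u := by
            have d5 := hd0.add d3
            rw [add_zero] at d5
            refine d5.congr_of_eventuallyEq ?_
            filter_upwards [hfr u h2] with r hr
            simp only [H, fam, h, ← hr, Pi.add_apply]
            module
          exact (hder t u).unique d4
        rw [key]
        exact imm₀ u hu
      · exact hgp.imm t u (hρt t h1.1 h1.2) (h2)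
  have active : ∀ t ∈ Icc (0 : ℝ) 1, ∀ u ∈ Ioo a b, H (t, u) ∈ A →
      (0 < t ∧ t < 1) ∧ χ u ≠ 0 := by
    intro t ht u hu hm
    rcases hIoo t ht with (h1 | h1) | h1
    · rw [start t u h1] at hm
      exact absurd hm (hA₀ u hu)
    · rw [stop t u h1] at hm
      exact absurd hm (hA₁ u hu)
    · rcases hact u with h2 | h2
      · rw [frozen t u h2] at hm
        exact absurd hm (hA₀ u hu)
      · exact ⟨h1, h2⟩
  have hcover : ∀ t ∈ Icc (0 : ℝ) 1, ∀ u ∈ Ioo a b, H (t, u) ∈ A →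
      ∃ i, ∃ y ∈ T i, f i y = H (t, u) := by
    intro t ht u hu hm
    have ha' : a ∈ Icc a b := ⟨le_rfl, by linarith [hu.1, hu.2]⟩
    have hb' : b ∈ Icc a b := ⟨by linarith [hu.1, hu.2], le_rfl⟩
    have hu' : u ∈ Icc a b := ⟨hu.1.le, hu.2.le⟩
    refine hA.cover _ hm ?_ ?_
    · intro he
      rw [← frozen t a (hsupp a (Or.inl (by linarith)))] at he
      exact hu.1.ne' (inj t ht hu' ha' he)
    · intro he
      rw [← frozen t b (hsupp b (Or.inr (by linarith)))] at he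
      exact hu.2.ne (inj t ht hu' hb' he)
  have trans : ∀ t ∈ Icc (0 : ℝ) 1, ∀ u ∈ Ioo a b, ∀ i, ∀ y ∈ T i, H (t, u) = f i y →
      ∀ ζ η, fderiv ℝ H (t, u) ζ = fderiv ℝ (f i) y η → ζ = 0 ∧ η = 0 := by
    intro t ht u hu i y hy he
    obtain ⟨h1, h2⟩ := active t ht u hu (he ▸ hA.mem i y hy)
    exact hgp.trans t u i y (hρt t h1.1 h1.2) (h2) hy he
  have single : ∀ t ∈ Icc (0 : ℝ) 1, ∀ u ∈ Ioo a b, ∀ u' ∈ Ioo a b, H (t, u) ∈ A →
      H (t, u') ∈ A → u = u' := by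
    intro t ht u hu u' hu' hm hm'
    obtain ⟨h1, h2⟩ := active t ht u hu hm
    obtain ⟨-, h2'⟩ := active t ht u' hu' hm'
    obtain ⟨i, y, hy, he⟩ := hcover t ht u hu hm
    obtain ⟨i', y', hy', he'⟩ := hcover t ht u' hu' hm'
    by_contra hne
    exact hgp.cross t u u' i i' y y' (hρt t h1.1 h1.2) hne (h2)
      h2' hy hy' he.symm he'.symm
  have avoid : ∀ t ∈ Icc (0 : ℝ) 1, ∀ u ∈ Ioo a b, H (t, u) ∈ A → ∀ k r, H (t, u) ≠ g k r := by
    intro t ht u hu hm k r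
    obtain ⟨h1, h2⟩ := active t ht u hu hm
    exact hgp.curve t u k r (hρt t h1.1 h1.2) (h2)
  refine ⟨H, ⟨hH, start, stop, frozen, inj, imm, ?_, active, single, trans⟩, avoid, fun t ht u hu k r => hgp.curve t u k r (hρt t ht.1 ht.2) hu, ?_⟩
  · -- finiteness
    by_contra hinf
    have hinf' : Set.Infinite {x : ℝ × ℝ | x.1 ∈ Icc (0 : ℝ) 1 ∧ x.2 ∈ Ioo a b ∧ H x ∈ A} := hinf
    have hsub : {x : ℝ × ℝ | x.1 ∈ Icc (0 : ℝ) 1 ∧ x.2 ∈ Ioo a b ∧ H x ∈ A} ⊆
        Icc (0 : ℝ) 1 ×ˢ Icc (a + δ) (b - δ) := by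
      rintro ⟨t, u⟩ ⟨ht, hu, hm⟩
      obtain ⟨-, h2⟩ := active t ht u hu hm
      exact ⟨ht, (hsupp' u h2).1.le, (hsupp' u h2).2.le⟩
    obtain ⟨x, hx, hacc⟩ := hinf'.exists_accPt_of_subset_isCompact (isCompact_Icc.prod isCompact_Icc)
      hsub
    obtain ⟨t, u⟩ := x
    have hu : u ∈ Ioo a b := ⟨by linarith [hx.2.1], by linarith [hx.2.2]⟩
    have hmem : H (t, u) ∈ A := by
      have hcl : IsClosed (H ⁻¹' A) := hA.closed.preimage hH.continuous
      have h1 : (t, u) ∈ closure (H ⁻¹' A) := by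
        rw [mem_closure_iff_clusterPt]
        refine hacc.clusterPt.mono ?_
        rw [Filter.principal_mono]
        exact fun x hx => hx.2.2
      rw [hcl.closure_eq] at h1
      exact h1
    obtain ⟨i, y, hy, he⟩ := hcover t hx.1 u hu hmem
    obtain ⟨U, hU, V, hV, hUV⟩ := isolated hE hY hH (hA.opn i) (hA.smooth i) hy he.symm
      (trans t hx.1 u hu i y hy he.symm)
    obtain ⟨W, hW, hAW⟩ := hA.nhds i y hy V hV
    rw [he] at hW
    have hW' : H ⁻¹' W ∈ 𝓝 (t, u) := hH.continuous.continuousAt hW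
    rw [accPt_iff_nhds] at hacc
    obtain ⟨x', ⟨hx'1, hx'2⟩, hne⟩ := hacc (U ∩ H ⁻¹' W) (inter_mem hU hW')
    obtain ⟨y', hy', he'⟩ := hAW ⟨hx'2.2.2, hx'1.2⟩
    exact hne (hUV x' hx'1.1 y' hy' he'.symm)
  · intro t ht u
    refine ⟨τ t, ⟨Real.smoothTransition.nonneg t, Real.smoothTransition.le_one t⟩, ?_⟩
    have e1 : H (t, u) - ((1 - τ t) • c₀ u + τ t • c₁ u) = (ρ t * χ u) • (v + u • w) := by
      simp only [H, fam, h]
      abel
    have hρ0 : 0 ≤ ρ t := hat_nonneg _ _ _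
    have hχ0' : 0 ≤ χ u := hχ0 u
    rw [e1, norm_smul, Real.norm_eq_abs, abs_of_nonneg (mul_nonneg hρ0 hχ0')]
    rcases hact u with h2 | h2
    · rw [h2, mul_zero, zero_mul]
      exact hε
    · have h2' := hsupp' u h2
      have e4 : ρ t * χ u ≤ 1 := mul_le_one₀ (hat_le_one _ _ _) (hχ0 u) (hχ1 u)
      have e5 : |u| ≤ |a| + |b| := by
        rw [abs_le]
        constructor
        · have := neg_abs_le a
          have := abs_nonneg b
          linarith [h2'.1]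
        · have := le_abs_self b
          have := abs_nonneg a
          linarith [h2'.2]
      have e6 : ‖v + u • w‖ ≤ ‖v‖ + (|a| + |b|) * ‖w‖ := by
        refine (norm_add_le _ _).trans (add_le_add_right ?_ _)
        rw [norm_smul, Real.norm_eq_abs]
        exact mul_le_mul_of_nonneg_right e5 (norm_nonneg _)
      set R := |a| + |b| with hR
      have hR0 : 0 ≤ R := by positivity
      have e7 : ‖v‖ + R * ‖w‖ < ε := by
        have d1 : 1 + |a| + |b| = 1 + R := by rw [hR]; ring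
        rw [d1] at hv hw
        have : R * ‖w‖ ≤ R * (ε / (2 * (1 + R))) := mul_le_mul_of_nonneg_left hw.le hR0
        have e8 : ε / (2 * (1 + R)) + R * (ε / (2 * (1 + R))) = ε / 2 := by
          field_simp
        linarith
      calc (ρ t * χ u) * ‖v + u • w‖ ≤ 1 * ‖v + u • w‖ :=
            mul_le_mul_of_nonneg_right e4 (norm_nonneg _)
        _ = ‖v + u • w‖ := one_mul _
        _ ≤ _ := e6
        _ < ε := e7

end

end Pool.Agent.Helper34.BI
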