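import Pool.Agent.Helper34.BI.AsmD0
import Pool.Agent.Helper34.BI.M_CH

/-!
# Project BI: stage 1 (bar independence modulo `N`), unconditionally
-/

set_option autoImplicit false

open Pool.Agent.Helper18.BI Pool.Agent.Helper27.BI

namespace Pool.Agent.Helper34.BI

theorem hCH : StCH := m_CH
theorem hMain : StMain := hMain_of hCH

end Pool.Agent.Helper34.BI
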