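import Pool.Agent.Helper34.BI.StD
import Pool.Agent.Helper27.BI.StG

/-!
# Project BI: the interface to part (C)
-/

set_option autoImplicit false

open Module Set Filter Topology
open scoped ContDiff Manifold ComplexConjugate
open Pool.Agent.Helper65.Barb Pool.Agent.Helper18.BI Pool.Agent.Helper27.BI

namespace Pool.Agent.Helper34.BI

theorem m_Add2 (h : StADD2) : StAdd2 := by
  intro x₂ h1 h2
  obtain ⟨r, k₁, k₂, hr, hr2, -, kap1, kap2, hoff, haxis, ht1, ht2, hadd⟩ := h x₂ h1 h2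
  refine ⟨r, k₁, k₂, hr, by linarith, ?_, haxis, fun p hp => ⟨kap1.away p hp, kap2.away p hp⟩,
    fun p => ⟨ht1 p, ht2 p⟩, ?_⟩
  · rintro k (rfl | rfl)
    · exact ⟨kap1.emb, kap1.fst, kap1.ball, fun p hp => (hoff p hp).1, kap1.small⟩
    · exact ⟨kap2.emb, kap2.fst, kap2.ball, fun p hp => (hoff p hp).2, kap2.small⟩
  · intro E _ _ H _ I M _ _ _ F hF
    exact hadd E H I M F hF

theorem m_Swap (h : StR2sw) : StSwap := by
  intro F φ φ' hF h1 h2 hT
  exact (h R4 R4 𝓘(ℝ, R4) R4 F φ φ' hF h1 h2).1 hT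

end Pool.Agent.Helper34.BI
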