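import Pool.Agent.Helper34.BI.StD

/-!
# Project BI, module CR: invariance modulo `N` at a crossing
-/

set_option autoImplicit false

open Module Set Filter Topology
open scoped ContDiff Manifold ComplexConjugate
open Pool.Agent.Helper65.Barb Pool.Agent.Helper18.BI Pool.Agent.Helper27.BI

namespace Pool.Agent.Helper34.BI

theorem shr_shr_neg (c : ℝ) (p : R4) : shr c (shr (-c) p) = p := by
  simp only [shr, rsq]
  ext1
  · simp only
    ring
  · rfl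

theorem SP_subset_SH {η : ℝ} (hη : 0 ≤ η) : SP ⊆ SH η := by
  intro p hp
  refine ⟨?_, ?_, ?_⟩
  · rcases hp with (hp | hp) | hp
    · exact Or.inl (Or.inl ⟨hp.1, hp.2.le⟩)
    · exact Or.inl (Or.inr ⟨hp.1, hp.2.le⟩)
    · exact Or.inr hp
  · rcases hp with (hp | hp) | hp
    · rw [hp.2]; linarith
    · have h1 := rsq_nonneg_aux 0 p
      have h2 := le_sph_one hp
      nlinarith
    · have h1 := rsq_nonneg_aux 0 p
      have h2 := hp.2.1
      nlinarith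
  · rcases hp with (hp | hp) | hp
    · have h1 := rsq_nonneg_aux 1 p
      have h2 := sph_zero_le hp
      nlinarith
    · rw [hp.2]; linarith
    · have h1 := rsq_nonneg_aux 1 p
      have h2 := hp.2.2.1
      nlinarith

/-- the crossing point is not on the spine at times `≠ 0` -/
theorem X_notMem_SP {J : ℝ × R4 → R4} {X : ℝ → R4} {η : ℝ} (C : Cross J X η) {r : ℝ}
    (hr : r ∈ Icc (-η) η) (h0 : r ≠ 0) : X r ∉ SP := by
  have h1 := C.small
  rintro ((h | h) | h)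
  · have h2 := C.lvl r hr
    rw [h.2] at h2
    exact h0 (by linarith)
  · have h2 := C.lvl r hr
    have h3 := rsq_nonneg_aux 0 (X r)
    have h4 := le_sph_one h
    nlinarith [hr.2]
  · have h2 := C.re r hr
    rw [h.2.2.2] at h2
    exact h2 rfl

theorem m_CR (hShr : StShr) (hD1a : StD1a) (hD1b : StD1b) (hD2 : StD2) (hMRL : StMRL) : StCR := by
  intro J t₀ u₀ p₀ hP ε hε
  obtain ⟨hS1, -, hS3⟩ := hShr
  obtain ⟨c, hP', hsl⟩ := hS3 J t₀ u₀ p₀ hP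
  obtain ⟨T, X, η₀, hη₀, hT1, hTm, hT0, hX1, hX0, hX2, huniq⟩ := hD1a _ t₀ u₀ p₀ hP' hsl
  obtain ⟨η, hη, hηη, C, hclose⟩ := hD1b _ t₀ u₀ p₀ hP' T X η₀ hη₀ hT1 hT0 hX1 hX0 hX2 huniq ε hε
  obtain ⟨r, hr, hMR⟩ := hD2 _ X η C
  -- the germs at the times `T s`
  have key : ∀ s ∈ Icc (-η) η, s ≠ 0 → EmbOn 𝓘(ℝ, R4) (fun p => J (T s, p)) SP ∧
      ∀ φ, (Thin 𝓘(ℝ, R4) (fun p => J (T s, p)) φ ↔
        Thin 𝓘(ℝ, R4) (fun p => J (T s, shr c p)) φ) := by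
    intro s hs h0
    have e1 : EmbOn 𝓘(ℝ, R4) (fun p => J (T s, shr c p)) SP := by
      refine ⟨fun p hp => C.loc s hs p (SP_subset_SH hη.le hp), ?_⟩
      have hsub : SP ⊆ SH η \ {X s} := by
        intro p hp
        refine ⟨SP_subset_SH hη.le hp, ?_⟩
        rintro rfl
        exact X_notMem_SP C hs h0 hp
      exact (C.inj s hs).mono hsub
    obtain ⟨e2, e3⟩ := hS1 _ (-c) e1
    simp only [shr_shr_neg] at e2 e3
    exact ⟨e2, e3⟩
  have hr1 : r ∈ Icc (-η) η := ⟨by linarith [hr.1], hr.2⟩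
  have hr2 : -r ∈ Icc (-η) η := ⟨by linarith [hr.2], by linarith [hr.1]⟩
  obtain ⟨k1, k2⟩ := key r hr1 hr.1.ne'
  obtain ⟨k3, k4⟩ := key (-r) hr2 (neg_ne_zero.2 hr.1.ne')
  have hMR' : MR (fun p => J (T r, p)) (fun p => J (T (-r), p)) := by
    intro φ ψ h1 h2
    exact hMR φ ψ ((k2 φ).1 h1) ((k4 ψ).1 h2)
  have c1 := abs_lt.1 (hclose r hr1)
  have c2 := abs_lt.1 (hclose (-r) hr2)
  have i1 : r ∈ Ioo (-η₀) η₀ := ⟨by linarith [hr1.1], by linarith [hr1.2]⟩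
  have i2 : -r ∈ Ioo (-η₀) η₀ := ⟨by linarith [hr1.2], by linarith [hr1.1]⟩
  have i0 : (0 : ℝ) ∈ Ioo (-η₀) η₀ := ⟨by linarith, hη₀⟩
  have l1 : (0 : ℝ) < r := hr.1
  have l2 : -r < 0 := by linarith
  rcases hTm with hTm | hTm
  · have a1 := hTm i0 i1 l1
    have a2 := hTm i2 i0 l2
    rw [hT0] at a1 a2
    exact ⟨T (-r), ⟨by linarith [c2.1], a2⟩, T r, ⟨a1, by linarith [c1.2]⟩, k3, k1,
      hMRL.2.1 _ _ hMR'⟩
  · have a1 := hTm i0 i1 l1
    have a2 := hTm i2 i0 l2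
    rw [hT0] at a1 a2
    exact ⟨T r, ⟨by linarith [c1.1], a1⟩, T (-r), ⟨a2, by linarith [c2.2]⟩, k1, k3, hMR'⟩

end Pool.Agent.Helper34.BI
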