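import Pool.Agent.Helper34.BI.M_Shr

/-!
# Project BI: a shear with small support (stage 2 version of module SHR, after helper63)
-/

set_option autoImplicit false

open Module Set Filter Topology
open scoped ContDiff Manifold ComplexConjugate
open Pool.Agent.Helper65.Barb Pool.Agent.Helper18.BI

namespace Pool.Agent.Helper34.BI

/-- the coefficient of the shear: a smooth function of the point of three-space, zero on the axis
and for `3/10 ≤ a` -/
structure BumpOK (β : R3 → ℝ) : Prop where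
  smooth : ContDiff ℝ ∞ β
  axis : ∀ᶠ ε in 𝓝[>] (0 : ℝ), ∀ x : R3, ‖x.2‖ ≤ ε → β x = 0
  far : ∀ x : R3, 3 / 10 ≤ x.1 → β x = 0

/-- the shear with coefficient `β` -/
noncomputable def shb (β : R3 → ℝ) (c : ℝ) (p : R4) : R4 :=
  (p.1 + c * (β p.2 * (rsq 0 p - 1 / 25)), p.2)

namespace ShB

open Shr (smooth_rsq)

variable {β : R3 → ℝ}

/-- the exponent of the shear -/
noncomputable def gg (β : R3 → ℝ) (p : R4) : ℝ := β p.2 * (rsq 0 p - 1 / 25)

theorem shr_eq (c : ℝ) (p : R4) : shb β c p = (p.1 + c * gg β p, p.2) := rfl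

theorem gg_snd (s s' : ℝ) (x : ℝ × ℂ) : gg β (s, x) = gg β (s', x) := rfl

theorem shr_neg (c : ℝ) (p : R4) : shb β (-c) (shb β c p) = p := by
  obtain ⟨s, x⟩ := p
  rw [shr_eq, shr_eq]
  refine Prod.ext ?_ rfl
  show s + c * gg β (s, x) + -c * gg β (s + c * gg β (s, x), x) = s
  rw [gg_snd (s + c * gg β (s, x)) s x]
  ring

theorem shr_zero (p : R4) : shb β 0 p = p := by
  rw [shr_eq]
  refine Prod.ext ?_ rfl
  show p.1 + 0 * gg β p = p.1
  ring

theorem smooth_gg (hβ : BumpOK β) : ContDiff ℝ ∞ (gg β) := by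
  unfold gg
  exact (hβ.smooth.comp contDiff_snd).mul ((smooth_rsq 0).sub contDiff_const)

theorem smooth_shr2 (hβ : BumpOK β) : ContDiff ℝ ∞ (fun q : ℝ × R4 => shb β q.1 q.2) := by
  have : (fun q : ℝ × R4 => shb β q.1 q.2) = fun q => (q.2.1 + q.1 * gg β q.2, q.2.2) :=
    funext fun q => shr_eq _ _
  rw [this]
  exact ((contDiff_fst.comp contDiff_snd).add (contDiff_fst.mul ((smooth_gg hβ).comp
    contDiff_snd))).prodMk (contDiff_snd.comp contDiff_snd)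

theorem smooth_shr (hβ : BumpOK β) (c : ℝ) : ContDiff ℝ ∞ (shb β c) :=
  (smooth_shr2 hβ).comp (contDiff_const.prodMk contDiff_id)

theorem axis_zero (hβ : BumpOK β) (u : ℝ) : β (u, 0) = 0 := by
  obtain ⟨ε, hε, h⟩ := (hβ.axis.and self_mem_nhdsWithin).exists
  exact hε (u, 0) (by simpa using (le_of_lt h))

theorem gg_line (hβ : BumpOK β) (s u : ℝ) : gg β (s, u, 0) = 0 := by
  unfold gg
  rw [show ((s, u, 0) : R4).2 = (u, 0) from rfl, axis_zero hβ, zero_mul]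

theorem gg_SP (hβ : BumpOK β) {p : R4} (hp : p ∈ SP) : gg β p = 0 := by
  unfold gg
  rcases hp with (hp | hp) | hp
  · rw [show rsq 0 p = 1 / 25 from hp.2]; ring
  · rw [hβ.far p.2 (by linarith [le_sph_one hp]), zero_mul]
  · rw [show p.2 = (p.2.1, 0) from Prod.ext rfl hp.2.2.2, axis_zero hβ, zero_mul]

theorem fix (hβ : BumpOK β) (c : ℝ) {p : R4} (hp : p ∈ SP) : shb β c p = p := by
  rw [shr_eq, gg_SP hβ hp]
  refine Prod.ext ?_ rfl
  show p.1 + c * 0 = p.1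
  ring

theorem fix_line (hβ : BumpOK β) (c s u : ℝ) : shb β c (s, u, 0) = (s, u, 0) := by
  rw [shr_eq, gg_line hβ]
  refine Prod.ext ?_ rfl
  show s + c * 0 = s
  ring

/-- composition of a local diffeomorphism with the shear -/
theorem loc_comp (hβ : BumpOK β) {F : R4 → R4} {p : R4} (c : ℝ)
    (hF : IsLocalDiffeomorphAt 𝓘(ℝ, R4) 𝓘(ℝ, R4) ∞ F (shb β c p)) :
    IsLocalDiffeomorphAt 𝓘(ℝ, R4) 𝓘(ℝ, R4) ∞ (fun p => F (shb β c p)) p := by
  have h1 := eventually_contDiffAt hF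
  have h2 := injective_fderiv hF
  have hc : ContinuousAt (shb β c) p := (smooth_shr hβ c).continuous.continuousAt
  refine isLocalDiffeomorphAt_of_injective rfl ?_ ?_
  · filter_upwards [hc.eventually h1] with q hq
    exact hq.comp q (smooth_shr hβ c).contDiffAt
  · have d1 : HasFDerivAt F (fderiv ℝ F (shb β c p)) (shb β c p) :=
      (h1.self_of_nhds.differentiableAt (by simp)).hasFDerivAt
    have d2 : HasFDerivAt (shb β c) (fderiv ℝ (shb β c) p) p :=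
      ((smooth_shr hβ c).contDiffAt.differentiableAt (by simp)).hasFDerivAt
    have d3 : HasFDerivAt (shb β (-c)) (fderiv ℝ (shb β (-c)) (shb β c p)) (shb β c p) :=
      ((smooth_shr hβ (-c)).contDiffAt.differentiableAt (by simp)).hasFDerivAt
    have e1 : fderiv ℝ (fun p => F (shb β c p)) p =
        (fderiv ℝ F (shb β c p)).comp (fderiv ℝ (shb β c) p) := (d1.comp p d2).fderiv
    have e2 : HasFDerivAt (fun p : R4 => p)
        ((fderiv ℝ (shb β (-c)) (shb β c p)).comp (fderiv ℝ (shb β c) p)) p := by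
      have := d3.comp p d2
      refine this.congr_of_eventuallyEq (Eventually.of_forall fun q => ?_)
      exact (shr_neg c q).symm
    have e3 := e2.unique (hasFDerivAt_id p)
    intro v w hvw
    rw [e1] at hvw
    have h4 : fderiv ℝ (shb β c) p v = fderiv ℝ (shb β c) p w := h2 hvw
    have h5 := congrArg (fderiv ℝ (shb β (-c)) (shb β c p)) h4
    have e4 : ∀ z, (fderiv ℝ (shb β (-c)) (shb β c p)) (fderiv ℝ (shb β c) p z) = z := fun z =>
      congrArg (fun A : R4 →L[ℝ] R4 => A z) e3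
    rw [e4, e4] at h5
    exact h5

/-- the family -/
theorem fam (hβ : BumpOK β) {F : R4 → R4} {τ : ℝ → ℝ} (hF : EmbOn 𝓘(ℝ, R4) F SP) (hτ : ContDiff ℝ ∞ τ) :
    FamOn 𝓘(ℝ, R4) (fun q : ℝ × R4 => F (shb β (τ q.1) q.2)) SP := by
  have hJ : ContDiff ℝ ∞ (fun q : ℝ × R4 => shb β (τ q.1) q.2) :=
    (smooth_shr2 hβ).comp ((hτ.comp contDiff_fst).prodMk contDiff_snd)
  refine ⟨⟨(fun q : ℝ × R4 => shb β (τ q.1) q.2) ⁻¹' {p | ∀ᶠ q in 𝓝 p, ContDiffAt ℝ ∞ F q},
    (isOpen_setOfPred_eventually_nhds).preimage hJ.continuous, ?_, ?_⟩, ?_⟩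
  · rintro ⟨t, p⟩ ⟨-, hp⟩
    show ∀ᶠ q in 𝓝 (shb β (τ t) p), ContDiffAt ℝ ∞ F q
    rw [fix hβ _ hp]
    exact eventually_contDiffAt (hF.1 p hp)
  · rw [contMDiffOn_iff_contDiffOn]
    intro q hq
    have hq' : ∀ᶠ q' in 𝓝 (shb β (τ q.1) q.2), ContDiffAt ℝ ∞ F q' := hq
    exact (hq'.self_of_nhds.comp q hJ.contDiffAt).contDiffWithinAt
  · intro t _
    refine ⟨fun p hp => ?_, ?_⟩
    · have h := hF.1 p hp
      rw [← fix hβ (τ t) hp] at h
      exact loc_comp hβ (τ t) h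
    · intro p hp q hq hpq
      have h1 : F (shb β (τ t) p) = F (shb β (τ t) q) := hpq
      rw [fix hβ _ hp, fix hβ _ hq] at h1
      exact hF.2 hp hq h1

/-- the derivative of the shear at a point of the first core sphere -/
theorem deriv_shr (hβ : BumpOK β) (c : ℝ) {p : R4} (hp : rsq 0 p = 1 / 25) (v : R4) :
    fderiv ℝ (shb β c) p v = (v.1 + c * (2 * β p.2 * drsq 0 p v), v.2) := by
  let A : R4 →L[ℝ] ℝ := (ContinuousLinearMap.fst ℝ ℝ ℂ).comp (ContinuousLinearMap.snd ℝ ℝ (ℝ × ℂ))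
  let R : R4 →L[ℝ] ℝ := Complex.reCLM.comp
    ((ContinuousLinearMap.snd ℝ ℝ ℂ).comp (ContinuousLinearMap.snd ℝ ℝ (ℝ × ℂ)))
  let M : R4 →L[ℝ] ℝ := Complex.imCLM.comp
    ((ContinuousLinearMap.snd ℝ ℝ ℂ).comp (ContinuousLinearMap.snd ℝ ℝ (ℝ × ℂ)))
  have hA : ∀ q : R4, A q = q.2.1 := fun q => rfl
  have hR : ∀ q : R4, R q = q.2.2.re := fun q => rfl
  have hM : ∀ q : R4, M q = q.2.2.im := fun q => rfl
  have h0 : HasFDerivAt (fun q : R4 => rsq 0 q - 1 / 25)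
      ((2 * p.2.1) • A + (2 * p.2.2.re) • R + (2 * p.2.2.im) • M) p := by
    have e : (fun q : R4 => rsq 0 q - 1 / 25) =
        fun q => (A q * A q + R q * R q + M q * M q) - 1 / 25 := by
      funext q
      rw [hA, hR, hM]
      show (q.2.1 - 0) ^ 2 + q.2.2.re ^ 2 + q.2.2.im ^ 2 - 1 / 25 = _
      ring
    rw [e]
    have := (((A.hasFDerivAt (x := p)).mul (A.hasFDerivAt (x := p))).add
      ((R.hasFDerivAt (x := p)).mul (R.hasFDerivAt (x := p)))).add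
      ((M.hasFDerivAt (x := p)).mul (M.hasFDerivAt (x := p)))
    refine (this.sub_const (1 / 25)).congr_fderiv ?_
    rw [← hA p, ← hR p, ← hM p]
    module
  have h1 : HasFDerivAt (fun q : R4 => β q.2) (fderiv ℝ (fun q : R4 => β q.2) p) p :=
    ((hβ.smooth.comp contDiff_snd).contDiffAt.differentiableAt (by simp)).hasFDerivAt
  have h2 := h1.mul h0
  have h3 : HasFDerivAt (gg β) ((β p.2) •
      ((2 * p.2.1) • A + (2 * p.2.2.re) • R + (2 * p.2.2.im) • M)) p := by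
    have h2' : HasFDerivAt (gg β) _ p := h2
    refine h2'.congr_fderiv ?_
    rw [hp, sub_self, zero_smul, add_zero]
  have h4 : HasFDerivAt (shb β c) (((ContinuousLinearMap.fst ℝ ℝ (ℝ × ℂ)) +
      c • ((β p.2) •
      ((2 * p.2.1) • A + (2 * p.2.2.re) • R + (2 * p.2.2.im) • M))).prod
      (ContinuousLinearMap.snd ℝ ℝ (ℝ × ℂ))) p := by
    have e : shb β c = fun q : R4 => (q.1 + c * gg β q, q.2) := funext fun q => shr_eq c q
    rw [e]
    exact (hasFDerivAt_fst.add (h3.const_mul c)).prodMk hasFDerivAt_snd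
  rw [h4.fderiv]
  refine Prod.ext ?_ rfl
  show v.1 + c * ((β p.2) *
      ((2 * p.2.1) * A v + (2 * p.2.2.re) * R v + (2 * p.2.2.im) * M v)) =
    v.1 + c * (2 * β p.2 * drsq 0 p v)
  rw [hA, hR, hM]
  unfold drsq
  ring

/-- the shear does not change the classes -/
theorem class_shb (t2 : StT2) (hβ : BumpOK β) (F : R4 → R4) (c : ℝ) (hF : EmbOn 𝓘(ℝ, R4) F SP) :
    EmbOn 𝓘(ℝ, R4) (fun p => F (shb β c p)) SP ∧
    ∀ φ, (Thin 𝓘(ℝ, R4) (fun p => F (shb β c p)) φ ↔ Thin 𝓘(ℝ, R4) F φ) := by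
  refine ⟨⟨fun p hp => ?_, fun p hp q hq hpq => ?_⟩, fun φ => ⟨fun h => ?_, fun h => ?_⟩⟩
  · have h := hF.1 p hp
    rw [← fix hβ c hp] at h
    exact loc_comp hβ c h
  · have h1 : F (shb β c p) = F (shb β c q) := hpq
    rw [fix hβ _ hp, fix hβ _ hq] at h1
    exact hF.2 hp hq h1
  · -- from `F ∘ shb β c` to `F`
    have h1 := (t2 R4 R4 𝓘(ℝ, R4) R4).2.2.1 _ φ
      (fam hβ (τ := fun t => (1 - t) * c) hF ((contDiff_const.sub contDiff_id).mul contDiff_const))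
    have e0 : (fun p : R4 => F (shb β ((1 - (0 : ℝ)) * c) p)) = fun p => F (shb β c p) := by
      rw [sub_zero, one_mul]
    have e1 : (fun p : R4 => F (shb β ((1 - (1 : ℝ)) * c) p)) = F := by
      funext p
      rw [sub_self, zero_mul, shr_zero]
    have h2 : Thin 𝓘(ℝ, R4) (fun p : R4 => F (shb β ((1 - (0 : ℝ)) * c) p)) φ →
      Thin 𝓘(ℝ, R4) (fun p : R4 => F (shb β ((1 - (1 : ℝ)) * c) p)) φ := h1
    rw [e0, e1] at h2
    exact h2 h
  · have h1 := (t2 R4 R4 𝓘(ℝ, R4) R4).2.2.1 _ φ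
      (fam hβ (τ := fun t => t * c) hF (contDiff_id.mul contDiff_const))
    have e0 : (fun p : R4 => F (shb β ((0 : ℝ) * c) p)) = F := by
      funext p
      rw [zero_mul, shr_zero]
    have e1 : (fun p : R4 => F (shb β ((1 : ℝ) * c) p)) = fun p => F (shb β c p) := by
      rw [one_mul]
    have h2 : Thin 𝓘(ℝ, R4) (fun p : R4 => F (shb β ((0 : ℝ) * c) p)) φ →
      Thin 𝓘(ℝ, R4) (fun p : R4 => F (shb β ((1 : ℝ) * c) p)) φ := h1
    rw [e0, e1] at h2
    exact h2 h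
/-- the bump function at the crossing point -/
theorem exists_bump {J : ℝ × R4 → R4} {t₀ u₀ : ℝ} {p₀ : R4} (hJ : PreCross J t₀ u₀ p₀) :
    ∃ β : R3 → ℝ, BumpOK β ∧ β p₀.2 = 1 := by
  have hw : 0 < ‖p₀.2.2‖ := by
    rw [norm_pos_iff]
    intro h
    exact hJ.re (by rw [h]; rfl)
  have ha : p₀.2.1 ≤ 1 / 5 := sph_zero_le hJ.mem
  set R : ℝ := min (‖p₀.2.2‖ / 2) (1 / 20) with hR
  have hR0 : 0 < R := lt_min (by positivity) (by norm_num)
  have hR1 : R ≤ ‖p₀.2.2‖ / 2 := min_le_left _ _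
  have hR2 : R ≤ 1 / 20 := min_le_right _ _
  let f : ContDiffBump (p₀.2 : R3) := ⟨R / 2, R, by positivity, by linarith⟩
  refine ⟨f, ⟨f.contDiff, ?_, ?_⟩, ?_⟩
  · have h1 : ∀ᶠ ε in 𝓝[>] (0 : ℝ), ε < ‖p₀.2.2‖ / 2 :=
      mem_nhdsWithin_of_mem_nhds (Iio_mem_nhds (by positivity))
    filter_upwards [h1] with ε hε x hx
    apply f.zero_of_le_dist
    show R ≤ dist x p₀.2
    have h2 : ‖x.2 - p₀.2.2‖ ≤ ‖x - p₀.2‖ := norm_snd_le (x - p₀.2)
    have h3 : ‖p₀.2.2‖ - ‖x.2‖ ≤ ‖x.2 - p₀.2.2‖ := by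
      have := norm_sub_norm_le p₀.2.2 x.2
      rw [norm_sub_rev] at this
      exact this
    rw [dist_eq_norm]
    linarith
  · intro x hx
    apply f.zero_of_le_dist
    show R ≤ dist x p₀.2
    have h2 : |x.1 - p₀.2.1| ≤ ‖x - p₀.2‖ := norm_fst_le (x - p₀.2)
    have h3 := le_abs_self (x.1 - p₀.2.1)
    rw [dist_eq_norm]
    linarith
  · apply f.one_of_mem_closedBall
    exact Metric.mem_closedBall_self (by positivity)

/-- the shear can be used to achieve `Slope` -/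
theorem slope_shb (J : ℝ × R4 → R4) (t₀ u₀ : ℝ) (p₀ : R4) (hJ : PreCross J t₀ u₀ p₀) :
    ∃ β : R3 → ℝ, BumpOK β ∧ ∃ c : ℝ, PreCross (fun q => J (q.1, shb β c q.2)) t₀ u₀ p₀ ∧
      Slope (fun q => J (q.1, shb β c q.2)) t₀ u₀ p₀ := by
  obtain ⟨β, hβ, hβ1⟩ := exists_bump hJ
  refine ⟨β, hβ, ?_⟩
  have hp₀ : p₀ ∈ SP := Or.inl (Or.inl hJ.mem)
  have hq₀ : ((1 / 2, u₀, 0) : R4) ∈ SP :=
    Or.inr ⟨rfl, hJ.arc.1.le, hJ.arc.2.le, rfl⟩
  have hrs : rsq 0 p₀ = 1 / 25 := hJ.mem.2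
  have hlocp := hJ.loc p₀ hp₀
  -- the strand does not change
  have hstr : ∀ c : ℝ, (fun x : ℝ × ℝ => J (x.1, shb β c (1 / 2, x.2, 0))) =
      fun x : ℝ × ℝ => J (x.1, (1 / 2, x.2, 0)) := fun c => by
    funext x
    rw [fix_line hβ]
  -- the derivative of the sheared germ
  have hder : ∀ (c : ℝ) (v : R4), fderiv ℝ (fun p => J (t₀, shb β c p)) p₀ v =
      fderiv ℝ (fun p => J (t₀, p)) p₀ (v.1 + c * (2 * β p₀.2 * drsq 0 p₀ v), v.2) := by
    intro c v
    have d1 : HasFDerivAt (fun p => J (t₀, p)) (fderiv ℝ (fun p => J (t₀, p)) p₀)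
        (shb β c p₀) := by
      rw [fix hβ c hp₀]
      exact ((eventually_contDiffAt hlocp).self_of_nhds.differentiableAt (by simp)).hasFDerivAt
    have d2 : HasFDerivAt (shb β c) (fderiv ℝ (shb β c) p₀) p₀ :=
      ((smooth_shr hβ c).contDiffAt.differentiableAt (by simp)).hasFDerivAt
    have d3 : fderiv ℝ (fun p => J (t₀, shb β c p)) p₀ = _ := (d1.comp p₀ d2).fderiv
    rw [d3, ← deriv_shr hβ c hrs v]
    rfl
  have hcont : ∀ c : ℝ, ∀ p ∈ SP, Tendsto (fun q : ℝ × R4 => (q.1, shb β c q.2)) (𝓝 (t₀, p))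
      (𝓝 (t₀, p)) := by
    intro c p hp
    have h1 : Continuous (fun q : ℝ × R4 => (q.1, shb β c q.2)) :=
      continuous_fst.prodMk ((smooth_shr hβ c).continuous.comp continuous_snd)
    have h2 := h1.tendsto (t₀, p)
    rw [show ((t₀, p).1, shb β c (t₀, p).2) = (t₀, p) from Prod.ext rfl (fix hβ c hp)] at h2
    exact h2
  have hall : ∀ c : ℝ, PreCross (fun q => J (q.1, shb β c q.2)) t₀ u₀ p₀ := by
    intro c
    refine ⟨?_, ?_, ?_, hJ.mem, hJ.re, hJ.arc, ?_, ?_, ?_⟩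
    · intro p hp
      filter_upwards [(hcont c p hp).eventually (hJ.smooth p hp)] with q hq
      have h1 : ContDiffAt ℝ ∞ (fun q : ℝ × R4 => (q.1, shb β c q.2)) q :=
        (contDiff_fst.prodMk ((smooth_shr hβ c).comp contDiff_snd)).contDiffAt
      exact ContDiffAt.comp q hq h1
    · intro p hp
      have h := hJ.loc p hp
      rw [← fix hβ c hp] at h
      exact loc_comp hβ (F := fun p => J (t₀, p)) c h
    · intro p hp
      have hp' : p ∈ SP := Or.inl hp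
      filter_upwards [(hcont c p hp').eventually (hJ.frozen p hp)] with q hq
      exact hq
    · show J (t₀, shb β c p₀) = J (t₀, shb β c (1 / 2, u₀, 0))
      rw [fix hβ c hp₀, fix hβ c hq₀]
      exact hJ.eq
    · intro p hp q hq hpq
      have h1 : J (t₀, shb β c p) = J (t₀, shb β c q) := hpq
      rw [fix hβ c hp, fix hβ c hq] at h1
      exact hJ.inj p hp q hq h1
    · intro ζ v h h1 h2
      have h3 : fderiv ℝ (fun x : ℝ × ℝ => J (x.1, shb β c (1 / 2, x.2, 0))) (t₀, u₀) ζ =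
        fderiv ℝ (fun p => J (t₀, shb β c p)) p₀ v := h
      rw [hstr c, hder c v, h2, mul_zero, mul_zero, add_zero] at h3
      exact hJ.trans ζ v h3 h1 h2
  -- the vector `ξ`
  obtain ⟨ξ, hξ⟩ : ∃ ξ : R4, fderiv ℝ (fun p => J (t₀, p)) p₀ ξ =
      fderiv ℝ (fun x : ℝ × ℝ => J (x.1, (1 / 2, x.2, 0))) (t₀, u₀) (0, 1) := by
    have hinj : Function.Injective (fderiv ℝ (fun p => J (t₀, p)) p₀ : R4 →ₗ[ℝ] R4) :=
      injective_fderiv hlocp
    exact (LinearMap.injective_iff_surjective.1 hinj) _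
  by_cases hξ1 : ξ.1 = 0
  · refine ⟨1, hall 1, ?_⟩
    have hξd : drsq 0 p₀ ξ ≠ 0 := by
      intro h
      have := hJ.trans (0, 1) ξ hξ.symm hξ1 h
      exact one_ne_zero (congrArg Prod.snd this)
    intro v hv hv1
    have h3 : fderiv ℝ (fun x : ℝ × ℝ => J (x.1, shb β 1 (1 / 2, x.2, 0))) (t₀, u₀) (0, 1) =
        fderiv ℝ (fun p => J (t₀, shb β 1 p)) p₀ v := hv
    rw [hstr 1, hder 1 v, ← hξ] at h3
    have h4 := injective_fderiv hlocp h3
    have h5 : ξ.1 = v.1 + 1 * (2 * β p₀.2 *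
        drsq 0 p₀ v) := congrArg Prod.fst h4
    have h6 : ξ.2 = v.2 := by rw [h4]
    have h7 : drsq 0 p₀ v = drsq 0 p₀ ξ := by
      unfold drsq
      rw [h6]
    rw [hξ1, hv1, h7, zero_add, one_mul] at h5
    have h8 : 2 * β p₀.2 ≠ 0 := by rw [hβ1]; norm_num
    exact mul_ne_zero h8 hξd h5.symm
  · refine ⟨0, hall 0, ?_⟩
    intro v hv hv1
    have h3 : fderiv ℝ (fun x : ℝ × ℝ => J (x.1, shb β 0 (1 / 2, x.2, 0))) (t₀, u₀) (0, 1) =
        fderiv ℝ (fun p => J (t₀, shb β 0 p)) p₀ v := hv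
    rw [hstr 0, hder 0 v, ← hξ] at h3
    have h4 := injective_fderiv hlocp h3
    have h5 : ξ.1 = v.1 + 0 * (2 * β p₀.2 *
        drsq 0 p₀ v) := congrArg Prod.fst h4
    rw [zero_mul, add_zero] at h5
    exact hξ1 (h5.trans hv1)

end ShB

end Pool.Agent.Helper34.BI
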