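import Pool.Agent.Helper70.BI.StX
import Pool.Agent.Helper34.BI.M_D2aP
import Pool.Agent.Helper34.BI.M_D1aP
import Pool.Agent.Helper34.BI.M_D1b
import Pool.Agent.Helper34.BI.M_CR
import Pool.Agent.Helper34.BI.M_RE
import Pool.Agent.Helper34.BI.ShB

/-!
# Project BI, module CRP: the crossing lemma, form for stage 2
-/

set_option autoImplicit false

open Module Set Filter Topology
open scoped ContDiff Manifold ComplexConjugate
open Pool.Agent.Helper65.Barb Pool.Agent.Helper18.BI Pool.Agent.Helper27.BI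

namespace Pool.Agent.Helper34.BI

open Pool.Agent.Helper70.BI (Br CrossAt LD core ax NearEq StCRP pc)

namespace CRP

/-- smaller `η` -/
theorem cross_mono {J : ℝ × R4 → R4} {X : ℝ → R4} {η η' : ℝ} (C : Cross J X η) (h0 : 0 < η')
    (h1 : η' ≤ η) : Cross J X η' := by
  have hI : ∀ r ∈ Icc (-η') η', r ∈ Icc (-η) η := fun r hr =>
    ⟨by linarith [hr.1], by linarith [hr.2]⟩
  have hS := D1b.mono_SH h1
  have hC := D1b.mono_CL h1
  exact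
    { pos := h0
      small := h1.trans C.small
      smooth := by
        obtain ⟨W, hW, hs, hd⟩ := C.smooth
        exact ⟨W, hW, (prod_mono (fun r hr => hI r hr) hS).trans hs, hd⟩
      loc := fun r hr p hp => C.loc r (hI r hr) p (hS hp)
      inj := fun r hr => (C.inj r (hI r hr)).mono (diff_subset_diff_left hS)
      injA := fun r hr => (C.injA r (hI r hr)).mono hC
      fst := fun r hr => C.fst r (hI r hr)
      lvl := fun r hr => C.lvl r (hI r hr)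
      re := fun r hr => C.re r (hI r hr) }

theorem ax_mem {a : ℝ} (ha : a ∈ Icc (1 / 5 : ℝ) (4 / 5)) : ax a ∈ SP :=
  Or.inr ⟨rfl, ha.1, ha.2, rfl⟩

theorem ax_inj {a b : ℝ} (h : ax a = ax b) : a = b := congrArg (fun p : R4 => p.2.1) h

theorem br_congr {γ e : ℝ} {F F' : R4 → R4} (h : NearEq F F' (SP ∪ flat 0))
    (hF : Br 0 F γ e) : Br 0 F' γ e := by
  obtain ⟨U, hU, hs, he⟩ := h
  have hSP : ∀ p ∈ SP, F p = F' p := fun p hp => he (hs (Or.inl hp))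
  have hfl : ∀ p ∈ flat 0, F p = F' p := fun p hp => he (hs (Or.inr hp))
  have hev : ∀ p ∈ SP ∪ flat 0, F =ᶠ[𝓝 p] F' := fun p hp =>
    he.eventuallyEq_of_mem (hU.mem_nhds (hs hp))
  have hcore : ∀ a ∈ Icc (1 / 5 : ℝ) (4 / 5), core F a = core F' a := fun a ha =>
    hSP _ (ax_mem ha)
  have himg : F '' flat 0 = F' '' flat 0 := image_congr hfl
  have hγ : γ ∈ Icc (1 / 5 : ℝ) (4 / 5) := ⟨hF.mem.1.le, hF.mem.2.le⟩
  refine ⟨fun p hp => Pool.Agent.Helper70.BI.ld_congr (hev p hp) (hF.loc p hp),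
    hF.inj.congr hSP, hF.injF.congr ?_, hF.mem, ?_, ?_⟩
  · rintro p (hp | hp)
    · exact hfl p hp
    · rw [sub_zero] at hp
      exact hSP p (Or.inl (Or.inr hp))
  · obtain ⟨x₀, h1, h2, l, v, h3, h4⟩ := hF.cr
    have hx : ((1 / 2, x₀) : R4) ∈ flat 0 := by
      refine ⟨rfl, ?_⟩
      have : rsq 0 ((1 / 2, x₀) : R4) = nsq (x₀ - pc 0) := by
        simp [rsq, pc, nsq]
      rw [this]
      exact h1.le
    refine ⟨x₀, h1, ?_, l, v, h3, ?_⟩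
    · rw [← hcore γ hγ, h2]
      exact hfl _ hx
    · rw [← (hev _ (Or.inl (ax_mem hγ))).fderiv_eq, ← (hev _ (Or.inr hx)).fderiv_eq]
      exact h4
  · intro a ha h
    rw [← hcore a ha, ← himg] at h
    exact hF.only a ha h

theorem rsq_ax (c a : ℝ) : rsq c (ax a) = (a - c) ^ 2 := by
  simp [rsq, ax, nsq]

theorem continuous_rsq (c : ℝ) : Continuous (rsq c) := D1b.continuous_rsq c

/-- near the neck nothing changes -/
theorem near_ax {G : R4 → R4} {X : R4} {δ : ℝ} (hRE : StRE) (hδ : δ ∈ Ioo (0 : ℝ) (1 / 100))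
    {x₂ : R3} {r : ℝ} {k₁ k₂ : R4 → R4} (hK : KK δ X x₂ r k₁ k₂) {a : ℝ}
    (ha : a ∈ Icc (1 / 5 : ℝ) (4 / 5)) :
    (fun p => G (Em δ (k₂ p))) =ᶠ[𝓝 (ax a)] G := by
  obtain ⟨-, hid, -⟩ := hRE δ hδ
  have h0 := hδ.1
  have h1 : ∀ᶠ p in 𝓝 (ax a), 17 / 100 < p.2.1 := by
    have hc : Continuous fun p : R4 => p.2.1 := by fun_prop
    exact hc.continuousAt.eventually_const_lt (show 17 / 100 < (ax a).2.1 by
      show (17 / 100 : ℝ) < a
      linarith [ha.1])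
  have h2 : ∀ c : ℝ, (c = 0 ∨ c = 1) → ∀ᶠ p in 𝓝 (ax a), 1 / 25 - δ < rsq c p := by
    intro c hc
    refine (continuous_rsq c).continuousAt.eventually_const_lt ?_
    rw [rsq_ax]
    rcases hc with rfl | rfl
    · nlinarith [ha.1]
    · nlinarith [ha.2]
  filter_upwards [h1, h2 0 (Or.inl rfl), h2 1 (Or.inr rfl)] with p e1 e2 e3
  rw [(hK.off p e1.le).2, hid p e2.le e3.le]

/-- the points of the new first ball -/
theorem mem_flat {X : R4} {δ : ℝ} (hRE : StRE) (hδ : δ ∈ Ioo (0 : ℝ) (1 / 100))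
    {x₂ : R3} {r : ℝ} {k₁ k₂ : R4 → R4} (hK : KK δ X x₂ r k₁ k₂) {p : R4} (hp : p ∈ flat 0) :
    Em δ (k₂ p) ∈ flat 0 ∧ 1 / 25 - 3 * δ ≤ rsq 0 (Em δ (k₂ p)) ∧
      16 / 25 ≤ rsq 1 (Em δ (k₂ p)) := by
  obtain ⟨-, -, hfst, -, -, hlow, hE0, -⟩ := hRE δ hδ
  have h1 : rsq 0 (k₂ p) ≤ 1 / 25 := hK.kap2.small p hp.2
  have h2 : 0 < rsq 0 (k₂ p) := by
    have h3 := hK.kap2.away p (D2a.flat_ball4 hp)
    rw [D2a.mem_tube0, not_lt] at h3
    have := hK.pos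
    exact lt_of_lt_of_le (by positivity) h3
  have h3 : 0 < rsq 1 (k₂ p) := by linarith [RE.far0 h1]
  have h4 := hE0 _ h2 h1
  have h5 : (Em δ (k₂ p)).1 = 1 / 2 := by
    rw [hfst, hK.kap2.fst]
    exact hp.1
  exact ⟨⟨h5, h4.2⟩, (hlow _ h2 h3).1, RE.far0 h4.2⟩

theorem br_of (hRE : StRE) {G : R4 → R4} {X : R4} {δ η α : ℝ} (hδ : δ ∈ Ioo (0 : ℝ) (1 / 100))
    (h3 : 3 * δ ≤ η)
    (hloc : ∀ p ∈ SH η, LD G p) (hinj : InjOn G (SH η \ {X}))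
    (hre : X.2.2.re ≠ 0) (hXS : X ∈ SH η)
    {x₂ : R3} {r : ℝ} {k₁ k₂ : R4 → R4} (hK : KK δ X x₂ r k₁ k₂)
    (e1 : EmbOn 𝓘(ℝ, R4) (fun p => G (Em δ (k₂ p))) SP)
    (e2 : EmbOn 𝓘(ℝ, R4) (fun p => G (Em δ (k₂ p))) (flat 0 ∪ sph 1))
    (hα : α ∈ Ioo (1 / 5 : ℝ) (4 / 5)) (hGα : G (ax α) = G X)
    (hsl : ∀ v : R4, fderiv ℝ G (ax α) (0, ((1 : ℝ), (0 : ℂ))) = fderiv ℝ G X v → v.1 ≠ 0) :
    ∃ e : ℝ, (e = 1 ∨ e = -1) ∧ Br 0 (fun p => G (Em δ (k₂ p))) α e := by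
  obtain ⟨hEm, hid, hfst, hsnd, -, hlow, hE0, -⟩ := hRE δ hδ
  have hδ0 := hδ.1
  have hη0 : 0 < η := by linarith
  set O : R4 → R4 := fun p => G (Em δ (k₂ p)) with hO
  have hnx : ∀ a ∈ Icc (1 / 5 : ℝ) (4 / 5), O =ᶠ[𝓝 (ax a)] G := fun a ha =>
    near_ax hRE hδ hK ha
  have hαI : α ∈ Icc (1 / 5 : ℝ) (4 / 5) := ⟨hα.1.le, hα.2.le⟩
  have hax : ∀ a ∈ Icc (1 / 5 : ℝ) (4 / 5), ax a ∈ SH η \ {X} := by
    intro a ha
    refine ⟨SP_subset_SH hη0.le (ax_mem ha), ?_⟩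
    rintro h
    apply hre
    rw [← show ax a = X from h]
    rfl
  -- the crossing point
  set q : R4 := (1 / 2, x₂) with hq
  have hqr : rsq 0 q = 1 / 100 := by
    rw [D2a.rsq_zero_eq]
    exact hK.norm
  have hqr1 : 16 / 25 ≤ rsq 1 q := RE.far0 (by rw [hqr]; norm_num)
  have hEq : Em δ q = X := hK.eq
  have hkq : ∀ᶠ p in 𝓝 q, k₂ p = p := by
    have hw : |x₂.2.re| / 8 < ‖q.2.2 - (0 : R3).2‖ := by
      have h1 : (0 : R3).2 = 0 := rfl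
      rw [h1, sub_zero]
      have h2 : |x₂.2.re| ≤ ‖x₂.2‖ := Complex.abs_re_le_norm _
      have h4 : 0 < |x₂.2.re| := abs_pos.2 hK.re
      show |x₂.2.re| / 8 < ‖x₂.2‖
      linarith
    have hc : Continuous fun p : R4 => ‖p.2.2 - (0 : R3).2‖ := by fun_prop
    filter_upwards [hc.continuousAt.eventually_const_lt hw] with p hp
    exact hK.kap2.off_w p hp.le
  have hOq : O =ᶠ[𝓝 q] fun p => G (Em δ p) := by
    filter_upwards [hkq] with p hp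
    show G (Em δ (k₂ p)) = _
    rw [hp]
  have hqE : q ∈ {p : R4 | 0 < rsq 0 p ∧ 0 < rsq 1 p} :=
    ⟨by rw [hqr]; norm_num, by linarith⟩
  have hEmq := hEm.1 q hqE
  have dE : HasFDerivAt (Em δ) (fderiv ℝ (Em δ) q) q :=
    ((eventually_contDiffAt hEmq).self_of_nhds.differentiableAt (by simp)).hasFDerivAt
  have dG : HasFDerivAt G (fderiv ℝ G X) (Em δ q) := by
    rw [hEq]
    exact ((eventually_contDiffAt (hloc X hXS)).self_of_nhds.differentiableAt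
      (by simp)).hasFDerivAt
  have dO : fderiv ℝ O q = (fderiv ℝ G X).comp (fderiv ℝ (Em δ) q) := by
    rw [hOq.fderiv_eq]
    exact (dG.comp q dE).fderiv
  have hE1 : ∀ v : R4, (fderiv ℝ (Em δ) q v).1 = v.1 := by
    intro v
    have a1 : HasFDerivAt (fun p : R4 => (Em δ p).1)
        ((ContinuousLinearMap.fst ℝ ℝ (ℝ × ℂ)).comp (fderiv ℝ (Em δ) q)) q := by
      have a0 : HasFDerivAt (fun p : R4 => p.1) (ContinuousLinearMap.fst ℝ ℝ (ℝ × ℂ))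
        (Em δ q) := hasFDerivAt_fst
      exact a0.comp q dE
    have a2 : HasFDerivAt (fun p : R4 => (Em δ p).1) (ContinuousLinearMap.fst ℝ ℝ (ℝ × ℂ)) q :=
      hasFDerivAt_fst.congr_of_eventuallyEq (Eventually.of_forall fun p => hfst p)
    exact congrArg (fun A : R4 →L[ℝ] ℝ => A v) (a1.unique a2)
  have surj : ∀ A : R4 →L[ℝ] R4, Function.Injective A → Function.Surjective A := fun A hA =>
    (LinearMap.injective_iff_surjective (f := (A : R4 →ₗ[ℝ] R4))).1 hA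
  obtain ⟨w, hw⟩ := surj _ (injective_fderiv (hloc X hXS))
    (fderiv ℝ G (ax α) (0, ((1 : ℝ), (0 : ℂ))))
  obtain ⟨w', hw'⟩ := surj _ (injective_fderiv hEmq) w
  have hw1 : w'.1 ≠ 0 := by
    rw [← hE1 w', hw']
    exact hsl w hw.symm
  refine ⟨if 0 < w'.1 then 1 else -1, by split_ifs <;> simp, ?_⟩
  refine ⟨?_, e1.2, ?_, hα, ?_, ?_⟩
  · rintro p (hp | hp)
    · exact e1.1 p hp
    · exact e2.1 p (Or.inl hp)
  · rw [sub_zero]
    exact e2.2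
  · refine ⟨x₂, ?_, ?_, w'.1, w'.2, ?_, ?_⟩
    · rw [show x₂ - pc 0 = x₂ from sub_zero x₂, hK.norm]
      norm_num
    · show O (ax α) = O q
      have b1 : O q = G (Em δ q) := hOq.self_of_nhds
      rw [(hnx α hαI).self_of_nhds, b1, hGα, hEq]
    · split_ifs with h
      · rw [one_mul]
        exact h
      · have : w'.1 < 0 := lt_of_le_of_ne (not_lt.1 h) hw1
        linarith
    · rw [(hnx α hαI).fderiv_eq]
      show _ = fderiv ℝ O q (w'.1, w'.2)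
      rw [dO, ← hw, ← hw']
      rfl
  · rintro a ha ⟨p, hp, hpa⟩
    obtain ⟨m1, m2, m3⟩ := mem_flat hRE hδ hK hp
    have m4 : Em δ (k₂ p) ∈ SH η := ⟨Or.inl (Or.inl m1), by linarith, by linarith⟩
    have h5 : G (Em δ (k₂ p)) = G (ax a) := by
      have h6 : core O a = G (ax a) := (hnx a ha).self_of_nhds
      rw [← h6]
      exact hpa
    by_cases hy : Em δ (k₂ p) = X
    · right
      rw [hy, ← hGα] at h5
      exact (ax_inj (hinj (hax α hαI) (hax a ha) h5)).symm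
    · left
      have h6 := hinj ⟨m4, hy⟩ (hax a ha) h5
      have h7 : rsq 0 (ax a) ≤ 1 / 25 := by
        rw [← h6]
        exact m1.2
      rw [rsq_ax] at h7
      have := ha.1
      nlinarith

/-- the derivative along the strand -/
theorem fderiv_strand {J : ℝ × R4 → R4} {t u : ℝ} (h : ContDiffAt ℝ ∞ J (t, ax u)) :
    fderiv ℝ (fun x : ℝ × ℝ => J (x.1, (1 / 2, x.2, 0))) (t, u) (0, 1) =
      fderiv ℝ (fun p => J (t, p)) (ax u) (0, ((1 : ℝ), (0 : ℂ))) := by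
  rw [D1b.fderiv_slice h]
  have h1 : HasFDerivAt J (fderiv ℝ J (t, ax u)) (t, ax u) :=
    (h.differentiableAt (by simp)).hasFDerivAt
  let M : ℝ × ℝ →L[ℝ] ℝ × R4 := (ContinuousLinearMap.fst ℝ ℝ ℝ).prod
    ((0 : ℝ × ℝ →L[ℝ] ℝ).prod ((ContinuousLinearMap.snd ℝ ℝ ℝ).prod (0 : ℝ × ℝ →L[ℝ] ℂ)))
  have h2 : HasFDerivAt (fun x : ℝ × ℝ => ((x.1, ((1 / 2 : ℝ), x.2, (0 : ℂ))) : ℝ × R4)) M
      (t, u) :=
    hasFDerivAt_fst.prodMk ((hasFDerivAt_const _ _).prodMk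
      (hasFDerivAt_snd.prodMk (hasFDerivAt_const _ _)))
  have h3 : HasFDerivAt (fun x : ℝ × ℝ => J (x.1, (1 / 2, x.2, 0)))
      ((fderiv ℝ J (t, ax u)).comp M) (t, u) := by
    have := HasFDerivAt.comp (t, u) (g := J) (f := fun x : ℝ × ℝ =>
      ((x.1, ((1 / 2 : ℝ), x.2, (0 : ℂ))) : ℝ × R4)) (by exact h1) h2
    exact this
  rw [h3.fderiv]
  rfl

/-- the final form of the germ `O` -/
noncomputable def OO (F : R4 → R4) (β : R3 → ℝ) (c δ : ℝ) (k : R4 → R4) (p : R4) : R4 :=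
  F (shb β c (rade δ 0 (k p)))

theorem OO_near {X : R4} {δ : ℝ} (hδ : δ ∈ Ioo (0 : ℝ) (1 / 100))
    {x₂ : R3} {r : ℝ} {k₁ k₂ : R4 → R4} (hK : KK δ X x₂ r k₁ k₂) (F : R4 → R4) (β : R3 → ℝ)
    (c : ℝ) :
    NearEq (fun p => F (shb β c (Em δ (k₂ p)))) (OO F β c δ k₂) (SP ∪ flat 0) := by
  have h0 := hδ.1
  have hc : Continuous k₂ := hK.kap2.smooth.continuous
  refine ⟨{p | 1 / 25 - δ < rsq 1 (k₂ p)},
    isOpen_lt continuous_const ((continuous_rsq 1).comp hc), ?_, ?_⟩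
  · intro p hp
    show 1 / 25 - δ < rsq 1 (k₂ p)
    have hfl : ∀ p ∈ flat 0, 1 / 25 - δ < rsq 1 (k₂ p) := by
      intro p hp
      have := RE.far0 (hK.kap2.small p hp.2)
      linarith
    rcases hp with hp | hp
    · have h1 := (D2a.SP_rsq hp).2
      rcases hp with (hp | hp) | hp
      · exact hfl p ⟨hp.1, hp.2.le⟩
      · rw [(hK.off p (by linarith [le_sph_one hp])).2]
        linarith
      · rw [(hK.off p (by linarith [hp.2.1])).2]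
        linarith
    · exact hfl p hp
  · intro p hp
    have hp' : 1 / 25 - δ < rsq 1 (k₂ p) := hp
    show F (shb β c (Em δ (k₂ p))) = F (shb β c (rade δ 0 (k₂ p)))
    unfold Em
    rw [RE.rade_id h0 hδ.2 1 hp'.le]

theorem OO_far {X : R4} {δ : ℝ} (hδ : δ ∈ Ioo (0 : ℝ) (1 / 100))
    {x₂ : R3} {r : ℝ} {k₁ k₂ : R4 → R4} (hK : KK δ X x₂ r k₁ k₂) (F : R4 → R4) {β : R3 → ℝ}
    (hβ : BumpOK β) (c : ℝ) (p : R4) (hp : 1 / 2 < p.2.1) : OO F β c δ k₂ p = F p := by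
  have h0 := hδ.1
  unfold OO
  rw [(hK.off p (by linarith)).2, RE.rade_id h0 hδ.2 0]
  · congr 1
    rw [ShB.shr_eq]
    unfold ShB.gg
    rw [hβ.far p.2 (by linarith)]
    refine Prod.ext ?_ rfl
    show p.1 + c * (0 * _) = p.1
    ring
  · have := D2a.sq_le_rsq 0 p
    nlinarith

end CRP

open CRP in
theorem m_CRP (hRE : StRE) (hT2 : StT2) (hCI : StCI) (hD1aP : StD1aP) (hD1b : StD1b)
    (hD2aP : StD2aP) (hD2b : StD2b) : StCRP := by
  intro J t₀ u₀ p₀ hP C hC hdis ε hε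
  obtain ⟨β, hβ, c, hP', hsl⟩ := ShB.slope_shb J t₀ u₀ p₀ hP
  set J' : ℝ × R4 → R4 := fun q => J (q.1, shb β c q.2) with hJ'
  obtain ⟨T, U, X, η₀, hη₀, hT1, hTm, hT0, hX1, hX0, hU1, hU0, hX2, hX3, hsl', huniq⟩ :=
    hD1aP J' t₀ u₀ p₀ hP' hsl
  obtain ⟨η₁, hη₁, hηη, C₁, hclose⟩ :=
    hD1b J' t₀ u₀ p₀ hP' T X η₀ hη₀ hT1 hT0 hX1 hX0 hX2 huniq ε hε
  have hTc : ContinuousAt T 0 :=
    (hT1.contDiffAt (isOpen_Ioo.mem_nhds ⟨by linarith, hη₀⟩)).continuousAt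
  -- the parameter of the strand
  have hα1 : ∀ᶠ r in 𝓝 (0 : ℝ), U r ∈ Ioo (1 / 5 : ℝ) (4 / 5) ∧ |U r - u₀| < ε := by
    have h1 : ∀ᶠ r in 𝓝 (0 : ℝ), U r ∈ Ioo (1 / 5 : ℝ) (4 / 5) :=
      hU1.eventually (isOpen_Ioo.mem_nhds (by rw [hU0]; exact hP.arc))
    have h2 : ∀ᶠ r in 𝓝 (0 : ℝ), |U r - u₀| < ε := by
      have c3 : ContinuousAt (fun r => |U r - u₀|) 0 := (hU1.sub continuousAt_const).abs
      apply c3.eventually_lt continuousAt_const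
      rw [hU0, sub_self, abs_zero]
      exact hε
    exact h1.and h2
  -- frozen near the crossing
  have hfr : ∀ᶠ r in 𝓝 (0 : ℝ), ∀ᶠ q in 𝓝 (T r, X r), J' q = J' (t₀, q.2) := by
    have h1 : ContinuousAt (fun r => (T r, X r)) 0 := hTc.prodMk hX1
    have h2 := (hP'.frozen p₀ (Or.inl hP'.mem)).eventually_nhds
    have h3 : (T 0, X 0) = (t₀, p₀) := by rw [hT0, hX0]
    rw [← h3] at h2
    exact h1.eventually h2
  -- smooth near the strand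
  have hst : ∀ᶠ r in 𝓝 (0 : ℝ), ContDiffAt ℝ ∞ J' (T r, ax (U r)) := by
    have h1 : ContinuousAt (fun r => (T r, ax (U r))) 0 := by
      refine hTc.prodMk ?_
      have h2 : Continuous ax := by
        unfold Pool.Agent.Helper70.BI.ax
        fun_prop
      exact h2.continuousAt.comp hU1
    have h2 := hP'.smooth (ax u₀) (ax_mem ⟨hP.arc.1.le, hP.arc.2.le⟩)
    have h3 : (T 0, ax (U 0)) = (t₀, ax u₀) := by rw [hT0, hU0]
    rw [← h3] at h2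
    exact h1.eventually h2
  -- the compact set
  have hdC : ∀ᶠ η in 𝓝[>] (0 : ℝ), ∀ r ∈ Icc (-η) η, ∀ p ∈ CL η, ∀ q ∈ CL η,
      rsq 0 p ≤ 1 / 25 → J' (T r, p) ∉ C := by
    refine D1b.shrink CL (sph 0 ∪ sph 1) D1b.cpt_CL D1b.mono_CL (fun p => D1b.sph_of_CL)
      {x | rsq 0 x.2.1 ≤ 1 / 25 → J' (T x.1, x.2.1) ∉ C} ?_
    intro p hp q hq
    by_cases h0 : p ∈ sph 0
    · have h1 : J' (t₀, p) ∉ C := by
        have h2 : J' (t₀, p) = J (t₀, p) := by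
          show J (t₀, shb β c p) = _
          rw [ShB.fix hβ c (Or.inl (Or.inl h0))]
        rw [h2]
        intro h3
        exact disjoint_left.1 hdis h3 ⟨p, h0, rfl⟩
      have h2 : ContinuousAt (fun x : ℝ × R4 × R4 => J' (T x.1, x.2.1)) ((0 : ℝ), p, q) := by
        have h3 : ContinuousAt J' (T 0, p) := by
          rw [hT0]
          exact (hP'.smooth p (Or.inl (Or.inl h0))).self_of_nhds.continuousAt
        have h4 : ContinuousAt (fun x : ℝ × R4 × R4 => (T x.1, x.2.1)) ((0 : ℝ), p, q) := by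
          refine ContinuousAt.prodMk ?_ (by fun_prop)
          exact ContinuousAt.comp (f := fun x : ℝ × R4 × R4 => x.1) (g := T) hTc
            continuousAt_fst
        exact ContinuousAt.comp (f := fun x : ℝ × R4 × R4 => (T x.1, x.2.1)) (g := J') h3 h4
      have h3 : Cᶜ ∈ 𝓝 ((fun x : ℝ × R4 × R4 => J' (T x.1, x.2.1)) ((0 : ℝ), p, q)) := by
        apply hC.isClosed.isOpen_compl.mem_nhds
        show J' (T 0, p) ∉ C
        rw [hT0]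
        exact h1
      filter_upwards [h2 h3] with x hx _
      exact hx
    · have h1 : p ∈ sph 1 := hp.resolve_left h0
      have h2 : 1 / 25 < rsq 0 p := by linarith [RE.far1 h1.2.le]
      have h3 : Continuous fun x : ℝ × R4 × R4 => rsq 0 x.2.1 :=
        (D1b.continuous_rsq 0).comp (by fun_prop)
      filter_upwards [h3.continuousAt.eventually_const_lt
        (show 1 / 25 < (fun x : ℝ × R4 × R4 => rsq 0 x.2.1) ((0 : ℝ), p, q) from h2)] with x hx hx'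
      exact absurd hx' (not_le.2 hx)
  have hall : ∀ᶠ r in 𝓝 (0 : ℝ), (U r ∈ Ioo (1 / 5 : ℝ) (4 / 5) ∧ |U r - u₀| < ε) ∧
      (∀ᶠ q in 𝓝 (T r, X r), J' q = J' (t₀, q.2)) ∧ ContDiffAt ℝ ∞ J' (T r, ax (U r)) ∧
      ∀ v : R4, fderiv ℝ (fun x : ℝ × ℝ => J' (x.1, (1 / 2, x.2, 0))) (T r, U r) (0, 1) =
          fderiv ℝ (fun p => J' (t₀, p)) (X r) v → v.1 ≠ 0 :=
    hα1.and (hfr.and (hst.and hsl'))
  obtain ⟨ρ, hρ, hρ'⟩ := Metric.eventually_nhds_iff.1 hall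
  have hIoo : ∀ᶠ η in 𝓝[>] (0 : ℝ), η ∈ Ioo (0 : ℝ) (min ρ η₁) :=
    Ioo_mem_nhdsGT (lt_min hρ hη₁)
  obtain ⟨η, ⟨hη, hηl⟩, hηC⟩ := (hIoo.and hdC).exists
  have hη1 : η ≤ η₁ := hηl.le.trans (min_le_right _ _)
  have hηρ : η < ρ := lt_of_lt_of_le hηl (min_le_left _ _)
  have C₂ := cross_mono C₁ hη hη1
  have h2 := C₂.small
  set δ := η / 3 with hδ
  have hδm : δ ∈ Ioo (0 : ℝ) (1 / 100) := ⟨by positivity, by rw [hδ]; linarith⟩
  have h3 : 3 * δ ≤ η := by rw [hδ]; linarith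
  obtain ⟨-, -, -, -, -, -, -, -, hmono, -, hid, hlow, -⟩ := hRE δ hδm
  have e1 : qe δ (1 / 25) = 1 / 25 := hid _ (by linarith [hδm.1])
  have e2 : qe δ (1 / 100) < 1 / 25 := by
    rw [← e1]
    exact hmono (by norm_num)
  have e3 := hlow (1 / 100) (by norm_num)
  set r₁ := 1 / 25 - qe δ (1 / 100) with hr₁
  have h4 : 0 < r₁ := by rw [hr₁]; linarith
  have h5 : r₁ ≤ η := by rw [hr₁]; linarith
  have m1 : -r₁ ∈ Icc (-η) η := ⟨by linarith, by linarith⟩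
  have m2 : r₁ ∈ Icc (-η) η := ⟨by linarith, by linarith⟩
  have lv : rsq 0 (X (-r₁)) = qe δ (1 / 100) := by rw [C₂.lvl _ m1, hr₁]; ring
  obtain ⟨x₂, r, k₁, k₂, hK, f1, f2, n, ψ, hn, hψ, hφ⟩ :=
    hD2aP (fun p => J' (T (-r₁), p)) (X (-r₁)) δ η hδm h3 h2 (C₂.loc _ m1) (C₂.inj _ m1)
      (C₂.injA _ m1) (C₂.fst _ m1) lv (C₂.re _ m1)
  have hψ' := hD2b _ X δ η r₁ C₂ hδm h3 hr₁ h4 h5 x₂ r k₁ hK.pos hK.norm hK.re hK.eq hK.kap1.emb
    hK.kap1.fst (fun p hp => (hK.off p hp).1) hK.kap1.small hK.axis hK.kap1.away ψ hψ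
  have hXS : X (-r₁) ∈ SH η := by
    have h6 : rsq 0 (X (-r₁)) ≤ 1 / 25 := by rw [lv]; exact e2.le
    refine ⟨Or.inl (Or.inl ⟨C₂.fst _ m1, h6⟩), ?_, ?_⟩
    · rw [lv]; linarith
    · linarith [RE.far0 h6]
  obtain ⟨⟨g1, g2⟩, g3, g4, g5⟩ := hρ' (show dist (-r₁) 0 < ρ by
    rw [Real.dist_eq, sub_zero, abs_neg, abs_of_pos h4]; linarith)
  have i0 : (0 : ℝ) ∈ Ioo (-η₀) η₀ := ⟨by linarith, hη₀⟩
  have i1 : r₁ ∈ Ioo (-η₀) η₀ := ⟨by linarith, by linarith⟩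
  have i2 : -r₁ ∈ Ioo (-η₀) η₀ := ⟨by linarith, by linarith⟩
  -- values at the crossing
  have g6 : J' (T (-r₁), ax (U (-r₁))) = J' (T (-r₁), X (-r₁)) := by
    rw [g3.self_of_nhds]
    exact (hX3 _ i2).symm
  have g7 : (fun p => J' (T (-r₁), p)) =ᶠ[𝓝 (X (-r₁))] fun p => J' (t₀, p) := by
    have h6 : ContinuousAt (fun p : R4 => (T (-r₁), p)) (X (-r₁)) := by fun_prop
    exact h6.eventually g3
  obtain ⟨e, he, hBr⟩ := br_of hRE hδm h3 (C₂.loc _ m1) (C₂.inj _ m1) (C₂.re _ m1) hXS hK f1 f2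
    g1 g6 (by
      intro v hv
      apply g5 v
      rw [fderiv_strand g4, hv, g7.fderiv_eq])
  have hne : NearEq (fun p => J' (T (-r₁), Em δ (k₂ p)))
      (OO (fun p => J (T (-r₁), p)) β c δ k₂) (SP ∪ flat 0) :=
    OO_near hδm hK (fun p => J (T (-r₁), p)) β c
  have hBr' := br_congr hne hBr
  -- the germs at the times `T s`
  have key : ∀ s ∈ Icc (-η) η, s ≠ 0 → EmbOn 𝓘(ℝ, R4) (fun p => J (T s, p)) SP ∧
      ∀ φ, (Thin 𝓘(ℝ, R4) (fun p => J (T s, p)) φ ↔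
        Thin 𝓘(ℝ, R4) (fun p => J' (T s, p)) φ) := by
    intro s hs h0
    have e1 : EmbOn 𝓘(ℝ, R4) (fun p => J' (T s, p)) SP := by
      refine ⟨fun p hp => C₂.loc s hs p (SP_subset_SH hη.le hp), ?_⟩
      have hsub : SP ⊆ SH η \ {X s} := by
        intro p hp
        refine ⟨SP_subset_SH hη.le hp, ?_⟩
        rintro rfl
        exact X_notMem_SP C₂ hs h0 hp
      exact (C₂.inj s hs).mono hsub
    obtain ⟨e2, e3⟩ := ShB.class_shb hT2 hβ _ (-c) e1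
    have e4 : ∀ p, shb β c (shb β (-c) p) = p := by
      intro p
      have := ShB.shr_neg (β := β) (-c) p
      rwa [neg_neg] at this
    simp only [hJ', e4] at e2 e3
    exact ⟨e2, e3⟩
  obtain ⟨k1, k2⟩ := key r₁ m2 h4.ne'
  obtain ⟨k3, k4⟩ := key (-r₁) m1 (neg_ne_zero.2 h4.ne')
  have c1 := abs_lt.1 (hclose r₁ ⟨by linarith, by linarith⟩)
  have c2 := abs_lt.1 (hclose (-r₁) ⟨by linarith, by linarith⟩)
  -- the conclusion for the ordered times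
  have fin : ∀ t₁ t₂ : ℝ, (T (-r₁) = t₁ ∧ T r₁ = t₂ ∨ T (-r₁) = t₂ ∧ T r₁ = t₁) →
      ∃ t' t'' : ℝ, (t' = t₁ ∧ t'' = t₂ ∨ t' = t₂ ∧ t'' = t₁) ∧
      ∃ (O : R4 → R4) (α e : ℝ), |α - u₀| < ε ∧ (e = 1 ∨ e = -1) ∧ Br 0 O α e ∧
        (∀ a ∈ Icc (1 / 5 : ℝ) (4 / 5), core O a = core (fun p => J (t', p)) a) ∧
        (∀ p : R4, 1 / 2 < p.2.1 → O p = J (t', p)) ∧ Disjoint C (O '' flat 0) ∧
        ∀ φ' φ'' n : R4 → R4, Thin 𝓘(ℝ, R4) (fun p => J (t', p)) φ' →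
          Thin 𝓘(ℝ, R4) (fun p => J (t'', p)) φ'' →
          Thin 𝓘(ℝ, R4) O n → CIsot 𝓘(ℝ, R4) φ' (fun x => n (φ'' x)) := by
    intro t₁ t₂ ht
    refine ⟨T (-r₁), T r₁, ht, OO (fun p => J (T (-r₁), p)) β c δ k₂, U (-r₁), e, g2, he, hBr',
      ?_, fun p hp => OO_far hδm hK (fun p => J (T (-r₁), p)) hβ c p hp, ?_, ?_⟩
    · intro a ha
      have b1 : J' (T (-r₁), Em δ (k₂ (ax a))) = J' (T (-r₁), ax a) :=
        (near_ax (G := fun p => J' (T (-r₁), p)) hRE hδm hK ha).self_of_nhds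
      have b2 : J' (T (-r₁), Em δ (k₂ (ax a))) = OO (fun p => J (T (-r₁), p)) β c δ k₂ (ax a) :=
        (hne.eventuallyEq (Or.inl (ax_mem ha))).self_of_nhds
      show OO (fun p => J (T (-r₁), p)) β c δ k₂ (ax a) = J (T (-r₁), ax a)
      rw [← b2, b1]
      show J (T (-r₁), shb β c (ax a)) = _
      rw [ShB.fix hβ c (ax_mem ha)]
    · rw [disjoint_left]
      rintro y hy ⟨p, hp, rfl⟩
      obtain ⟨n1, n2, n3⟩ := mem_flat hRE hδm hK hp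
      have b2 : J' (T (-r₁), Em δ (k₂ p)) = OO (fun p => J (T (-r₁), p)) β c δ k₂ p :=
        (hne.eventuallyEq (Or.inr hp)).self_of_nhds
      rw [← b2] at hy
      have n4 : Em δ (k₂ p) ∈ CL η :=
        ⟨⟨Or.inl (Or.inl n1), by linarith, by linarith⟩, Or.inl n1.2⟩
      exact hηC _ m1 _ n4 _ n4 n1.2 hy
    · intro φ' φ'' n' t1 t2 t3
      obtain ⟨-, hsym, -, htrans, hcomp, -⟩ := hCI R4 R4 𝓘(ℝ, R4) R4
      obtain ⟨-, huni, -, -, hloc, -⟩ := hT2 R4 R4 𝓘(ℝ, R4) R4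
      have a1 := hφ φ' ((k4 φ').1 t1)
      have a2 := huni _ _ _ hψ' ((k2 φ'').1 t2)
      obtain ⟨V, hV, hVs, hVe⟩ := hne
      have a3 := hloc _ _ V n' hV (subset_union_left.trans hVs) hVe.symm t3
      have a4 := huni _ _ _ hn a3
      exact htrans _ _ _ a1 (hcomp _ _ _ _ a4 a2)
  have l2 : -r₁ < 0 := by linarith
  rcases hTm with hTm | hTm
  · have a1 := hTm i0 i1 h4
    have a2 := hTm i2 i0 l2
    rw [hT0] at a1 a2
    exact ⟨T (-r₁), ⟨by linarith [c2.1], a2⟩, T r₁, ⟨a1, by linarith [c1.2]⟩, k3, k1,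
      fin _ _ (Or.inl ⟨rfl, rfl⟩)⟩
  · have a1 := hTm i0 i1 h4
    have a2 := hTm i2 i0 l2
    rw [hT0] at a1 a2
    exact ⟨T r₁, ⟨by linarith [c1.1], a1⟩, T (-r₁), ⟨a2, by linarith [c2.2]⟩, k1, k3,
      fin _ _ (Or.inr ⟨rfl, rfl⟩)⟩

end Pool.Agent.Helper34.BI
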