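import Pool.Agent.Helper34.BI.StD
import Pool.Agent.Helper34.BI.Loc
import Pool.Agent.Helper65.Barb.Bar

/-!
# Project BI, module D1a: local coordinates at a transverse crossing

Instead of `P` and `N` of the docstring of `StD1a` the inverse function theorem is applied once, to
`M (p, (t, u)) = (J (t₀, p) - J (t, (1/2, u, 0)), (p.1 - 1/2, rsq 0 p - 1/25))` on `R4 × (ℝ × ℝ)`.
-/

set_option autoImplicit false

open Module Set Filter Topology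
open scoped ContDiff Manifold ComplexConjugate
open Pool.Agent.Helper65.Barb Pool.Agent.Helper18.BI Pool.Agent.Helper27.BI

namespace Pool.Agent.Helper34.BI

/-- derivative of the squared radius -/
private theorem hasFDerivAt_rsq_D1a (p : R4) :
    ∃ L : R4 →L[ℝ] ℝ, HasFDerivAt (rsq 0) L p ∧ ∀ v, L v = 2 * drsq 0 p v := by
  have h0 : HasFDerivAt (fun p : R4 => p.2.1)
      ((ContinuousLinearMap.fst ℝ ℝ ℂ).comp (ContinuousLinearMap.snd ℝ ℝ (ℝ × ℂ))) p :=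
    ((ContinuousLinearMap.fst ℝ ℝ ℂ).comp (ContinuousLinearMap.snd ℝ ℝ (ℝ × ℂ))).hasFDerivAt
  have h1 : HasFDerivAt (fun p : R4 => p.2.1 - 0)
      ((ContinuousLinearMap.fst ℝ ℝ ℂ).comp (ContinuousLinearMap.snd ℝ ℝ (ℝ × ℂ))) p :=
    h0.sub_const (0 : ℝ)
  have h2 : HasFDerivAt (fun p : R4 => p.2.2.re)
      (Complex.reCLM.comp ((ContinuousLinearMap.snd ℝ ℝ ℂ).comp
        (ContinuousLinearMap.snd ℝ ℝ (ℝ × ℂ)))) p :=
    (Complex.reCLM.comp ((ContinuousLinearMap.snd ℝ ℝ ℂ).comp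
        (ContinuousLinearMap.snd ℝ ℝ (ℝ × ℂ)))).hasFDerivAt
  have h3 : HasFDerivAt (fun p : R4 => p.2.2.im)
      (Complex.imCLM.comp ((ContinuousLinearMap.snd ℝ ℝ ℂ).comp
        (ContinuousLinearMap.snd ℝ ℝ (ℝ × ℂ)))) p :=
    (Complex.imCLM.comp ((ContinuousLinearMap.snd ℝ ℝ ℂ).comp
        (ContinuousLinearMap.snd ℝ ℝ (ℝ × ℂ)))).hasFDerivAt
  refine ⟨_, ((h1.pow 2).add (h2.pow 2)).add (h3.pow 2), fun v => ?_⟩
  simp only [drsq, add_apply, smul_apply,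
    ContinuousLinearMap.comp_apply, ContinuousLinearMap.coe_fst', ContinuousLinearMap.coe_snd',
    Complex.reCLM_apply, Complex.imCLM_apply, smul_eq_mul, nsmul_eq_mul]
  norm_num
  ring

/-- the map to which the inverse function theorem is applied -/
private noncomputable def M_D1a (J : ℝ × R4 → R4) (t₀ : ℝ) (z : R4 × (ℝ × ℝ)) : R4 × (ℝ × ℝ) :=
  (J (t₀, z.1) - J (z.2.1, (1 / 2, z.2.2, 0)), (z.1.1 - 1 / 2, rsq 0 z.1 - 1 / 25))

/-- points of `FB` on the open neck -/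
private theorem mem_FB_arc_D1a {q : R4} (hq : q ∈ FB) (h1 : 1 / 5 < q.2.1) (h2 : q.2.1 < 4 / 5) :
    q = (1 / 2, q.2.1, 0) := by
  rcases hq with (hq | hq) | hq
  · exfalso
    have h := hq.2
    have h3 := sq_le_rsq q
    nlinarith
  · exfalso
    have h := hq.2
    have h3 := sq_le_rsq_one q
    nlinarith
  · exact Prod.ext hq.1 (Prod.ext rfl hq.2.2.2)

private theorem fst_of_mem_FB_D1a {q : R4} (hq : q ∈ FB) : q.1 = 1 / 2 := by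
  rcases hq with (hq | hq) | hq
  · exact hq.1
  · exact hq.1
  · exact hq.1

/-- a smooth function with nonzero derivative at `0` is strictly monotone near `0` -/
private theorem mono_D1a {T : ℝ → ℝ} {O : Set ℝ} (hO : IsOpen O) (h0 : (0 : ℝ) ∈ O)
    (hT : ContDiffOn ℝ ∞ T O) (hd : deriv T 0 ≠ 0) :
    ∃ η₀ : ℝ, 0 < η₀ ∧ Ioo (-η₀) η₀ ⊆ O ∧
      (StrictMonoOn T (Ioo (-η₀) η₀) ∨ StrictAntiOn T (Ioo (-η₀) η₀)) := by
  have hc : ContinuousAt (deriv T) 0 :=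
    (hT.continuousOn_deriv_of_isOpen hO (by simp)).continuousAt (hO.mem_nhds h0)
  rcases lt_or_gt_of_ne hd with hneg | hpos
  · have h1 : ∀ᶠ r in 𝓝 (0 : ℝ), r ∈ O ∧ deriv T r < 0 :=
      Filter.Eventually.and (hO.mem_nhds h0) (hc.eventually_lt_const hneg)
    obtain ⟨η₀, hη, hb⟩ := Metric.eventually_nhds_iff_ball.1 h1
    rw [Real.ball_eq_Ioo, zero_sub, zero_add] at hb
    refine ⟨η₀, hη, fun r hr => (hb r hr).1, Or.inr ?_⟩
    refine strictAntiOn_of_deriv_neg (convex_Ioo _ _)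
      (hT.continuousOn.mono fun r hr => (hb r hr).1) fun r hr => ?_
    rw [interior_Ioo] at hr
    exact (hb r hr).2
  · have h1 : ∀ᶠ r in 𝓝 (0 : ℝ), r ∈ O ∧ 0 < deriv T r :=
      Filter.Eventually.and (hO.mem_nhds h0) (hc.eventually_const_lt hpos)
    obtain ⟨η₀, hη, hb⟩ := Metric.eventually_nhds_iff_ball.1 h1
    rw [Real.ball_eq_Ioo, zero_sub, zero_add] at hb
    refine ⟨η₀, hη, fun r hr => (hb r hr).1, Or.inl ?_⟩
    refine strictMonoOn_of_deriv_pos (convex_Ioo _ _)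
      (hT.continuousOn.mono fun r hr => (hb r hr).1) fun r hr => ?_
    rw [interior_Ioo] at hr
    exact (hb r hr).2

/-- the map `M_D1a` is a local diffeomorphism at the crossing, and a formula for its derivative -/
private theorem loc_D1a {J : ℝ × R4 → R4} {t₀ u₀ : ℝ} {p₀ : R4} (hP : PreCross J t₀ u₀ p₀) :
    (∀ᶠ z in 𝓝 ((p₀, (t₀, u₀)) : R4 × (ℝ × ℝ)), ContDiffAt ℝ ∞ (M_D1a J t₀) z) ∧
    (∀ w : R4 × (ℝ × ℝ), fderiv ℝ (M_D1a J t₀) (p₀, (t₀, u₀)) w =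
      (fderiv ℝ (fun p => J (t₀, p)) p₀ w.1 -
        fderiv ℝ (fun x : ℝ × ℝ => J (x.1, (1 / 2, x.2, 0))) (t₀, u₀) w.2,
        (w.1.1, 2 * drsq 0 p₀ w.1))) := by
  have hp₀ : p₀ ∈ SP := Or.inl (Or.inl hP.mem)
  have hq₀ : ((1 / 2, u₀, 0) : R4) ∈ SP := Or.inr ⟨rfl, hP.arc.1.le, hP.arc.2.le, rfl⟩
  have sF : ∀ᶠ p in 𝓝 p₀, ContDiffAt ℝ ∞ (fun p => J (t₀, p)) p :=
    eventually_contDiffAt (hP.loc p₀ hp₀)
  have sH : ∀ᶠ x in 𝓝 (t₀, u₀), ContDiffAt ℝ ∞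
      (fun x : ℝ × ℝ => J (x.1, (1 / 2, x.2, 0))) x := by
    have c : ContinuousAt (fun x : ℝ × ℝ => ((x.1, (1 / 2, x.2, 0)) : ℝ × R4)) (t₀, u₀) := by
      fun_prop
    have h : ∀ᶠ q in 𝓝 ((t₀, (1 / 2, u₀, 0)) : ℝ × R4), ContDiffAt ℝ ∞ J q :=
      hP.smooth _ hq₀
    filter_upwards [c.eventually h] with x hx
    have c2 : ContDiffAt ℝ ∞ (fun x : ℝ × ℝ => ((x.1, (1 / 2, x.2, 0)) : ℝ × R4)) x := by
      fun_prop
    exact hx.comp x c2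
  obtain ⟨L, hL, hLv⟩ := hasFDerivAt_rsq_D1a p₀
  have dF := (sF.self_of_nhds.differentiableAt (by simp)).hasFDerivAt
  have dH := (sH.self_of_nhds.differentiableAt (by simp)).hasFDerivAt
  refine ⟨?_, fun w => ?_⟩
  · have c1 : ContinuousAt (fun z : R4 × (ℝ × ℝ) => z.1) (p₀, (t₀, u₀)) := continuousAt_fst
    have c2 : ContinuousAt (fun z : R4 × (ℝ × ℝ) => z.2) (p₀, (t₀, u₀)) := continuousAt_snd
    filter_upwards [c1.eventually sF, c2.eventually sH] with z h1 h2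
    have e1 : ContDiffAt ℝ ∞ (fun z : R4 × (ℝ × ℝ) => J (t₀, z.1)) z := h1.comp z contDiffAt_fst
    have e2 : ContDiffAt ℝ ∞ (fun z : R4 × (ℝ × ℝ) => J (z.2.1, (1 / 2, z.2.2, 0))) z :=
      h2.comp z contDiffAt_snd
    have e3 : ContDiffAt ℝ ∞ (fun z : R4 × (ℝ × ℝ) => z.1.1 - 1 / 2) z := by fun_prop
    have e4 : ContDiffAt ℝ ∞ (fun z : R4 × (ℝ × ℝ) => rsq 0 z.1 - 1 / 25) z :=
      ((contDiff_rsq 0).contDiffAt.comp z contDiffAt_fst).sub contDiffAt_const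
    exact (e1.sub e2).prodMk (e3.prodMk e4)
  · have dF' : HasFDerivAt (fun p => J (t₀, p)) (fderiv ℝ (fun p => J (t₀, p)) p₀)
        ((p₀, (t₀, u₀)) : R4 × (ℝ × ℝ)).1 := dF
    have d1 : HasFDerivAt (fun z : R4 × (ℝ × ℝ) => J (t₀, z.1))
        ((fderiv ℝ (fun p => J (t₀, p)) p₀).comp (ContinuousLinearMap.fst ℝ R4 (ℝ × ℝ)))
        (p₀, (t₀, u₀)) := dF'.comp ((p₀, (t₀, u₀)) : R4 × (ℝ × ℝ)) hasFDerivAt_fst
    have dH' : HasFDerivAt (fun x : ℝ × ℝ => J (x.1, (1 / 2, x.2, 0)))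
        (fderiv ℝ (fun x : ℝ × ℝ => J (x.1, (1 / 2, x.2, 0))) (t₀, u₀))
        ((p₀, (t₀, u₀)) : R4 × (ℝ × ℝ)).2 := dH
    have d2 : HasFDerivAt (fun z : R4 × (ℝ × ℝ) => J (z.2.1, (1 / 2, z.2.2, 0)))
        ((fderiv ℝ (fun x : ℝ × ℝ => J (x.1, (1 / 2, x.2, 0))) (t₀, u₀)).comp
          (ContinuousLinearMap.snd ℝ R4 (ℝ × ℝ)))
        (p₀, (t₀, u₀)) := dH'.comp ((p₀, (t₀, u₀)) : R4 × (ℝ × ℝ)) hasFDerivAt_snd
    have d3 : HasFDerivAt (fun z : R4 × (ℝ × ℝ) => z.1.1 - 1 / 2)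
        ((ContinuousLinearMap.fst ℝ ℝ (ℝ × ℂ)).comp (ContinuousLinearMap.fst ℝ R4 (ℝ × ℝ)))
        (p₀, (t₀, u₀)) := by
      have h : HasFDerivAt (fun z : R4 × (ℝ × ℝ) => z.1.1)
          ((ContinuousLinearMap.fst ℝ ℝ (ℝ × ℂ)).comp (ContinuousLinearMap.fst ℝ R4 (ℝ × ℝ)))
          (p₀, (t₀, u₀)) :=
        ((ContinuousLinearMap.fst ℝ ℝ (ℝ × ℂ)).comp
          (ContinuousLinearMap.fst ℝ R4 (ℝ × ℝ))).hasFDerivAt
      exact h.sub_const (1 / 2 : ℝ)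
    have hL' : HasFDerivAt (rsq 0) L ((p₀, (t₀, u₀)) : R4 × (ℝ × ℝ)).1 := hL
    have d4 : HasFDerivAt (fun z : R4 × (ℝ × ℝ) => rsq 0 z.1 - 1 / 25)
        (L.comp (ContinuousLinearMap.fst ℝ R4 (ℝ × ℝ)))
        (p₀, (t₀, u₀)) := by
      have h : HasFDerivAt (fun z : R4 × (ℝ × ℝ) => rsq 0 z.1)
          (L.comp (ContinuousLinearMap.fst ℝ R4 (ℝ × ℝ))) (p₀, (t₀, u₀)) :=
        hL'.comp ((p₀, (t₀, u₀)) : R4 × (ℝ × ℝ)) hasFDerivAt_fst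
      exact h.sub_const (1 / 25 : ℝ)
    have dM := (d1.sub d2).prodMk (d3.prodMk d4)
    have e : fderiv ℝ (M_D1a J t₀) (p₀, (t₀, u₀)) = _ := HasFDerivAt.fderiv dM
    rw [e]
    refine Prod.ext rfl (Prod.ext rfl ?_)
    exact hLv w.1

theorem m_D1a : StD1a := by
  intro J t₀ u₀ p₀ hP hS
  have hp₀ : p₀ ∈ SP := Or.inl (Or.inl hP.mem)
  obtain ⟨sM, fM⟩ := loc_D1a hP
  have hA : Function.Injective (fderiv ℝ (fun p => J (t₀, p)) p₀) :=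
    injective_fderiv (hP.loc p₀ hp₀)
  have hinj : Function.Injective (fderiv ℝ (M_D1a J t₀) (p₀, (t₀, u₀))) := by
    rw [injective_iff_map_eq_zero]
    intro w hw
    rw [fM] at hw
    have e1 : fderiv ℝ (fun p => J (t₀, p)) p₀ w.1 =
        fderiv ℝ (fun x : ℝ × ℝ => J (x.1, (1 / 2, x.2, 0))) (t₀, u₀) w.2 :=
      sub_eq_zero.1 (congrArg Prod.fst hw)
    have e2 : w.1.1 = 0 := congrArg (fun z : R4 × (ℝ × ℝ) => z.2.1) hw
    have e3 : drsq 0 p₀ w.1 = 0 := by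
      have h : 2 * drsq 0 p₀ w.1 = 0 := congrArg (fun z : R4 × (ℝ × ℝ) => z.2.2) hw
      linarith
    have e4 : w.2 = 0 := hP.trans w.2 w.1 e1.symm e2 e3
    have e6 : w.1 = 0 := by
      apply hA
      rw [e1, e4, map_zero, map_zero]
    exact Prod.ext e6 e4
  obtain ⟨Ψ, hz, hΨ⟩ := isLocalDiffeomorphAt_of_injective rfl sM hinj
  have hgs : ContDiffOn ℝ ∞ Ψ.toPartialEquiv.symm Ψ.target :=
    contMDiffOn_iff_contDiffOn.1 Ψ.contMDiffOn_invFun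
  let e : ℝ → R4 × (ℝ × ℝ) := fun r => (0, (0, r))
  have he : ContDiff ℝ ∞ e := contDiff_const.prodMk (contDiff_const.prodMk contDiff_id)
  have hM0 : M_D1a J t₀ (p₀, (t₀, u₀)) = e 0 := by
    refine Prod.ext ?_ (Prod.ext ?_ ?_)
    · change J (t₀, p₀) - J (t₀, (1 / 2, u₀, 0)) = 0
      rw [hP.eq, sub_self]
    · change p₀.1 - 1 / 2 = 0
      rw [hP.mem.1, sub_self]
    · change rsq 0 p₀ - 1 / 25 = 0
      rw [hP.mem.2, sub_self]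
  have hΨ0 : Ψ (p₀, (t₀, u₀)) = e 0 := by rw [← hM0]; exact (hΨ hz).symm
  have hOo : IsOpen (e ⁻¹' Ψ.target) := Ψ.open_target.preimage he.continuous
  have h0O : (0 : ℝ) ∈ e ⁻¹' Ψ.target := by
    change e 0 ∈ Ψ.target
    rw [← hΨ0]
    exact Ψ.toPartialEquiv.map_source hz
  let c : ℝ → R4 × (ℝ × ℝ) := fun r => Ψ.toPartialEquiv.symm (e r)
  have hc : ContDiffOn ℝ ∞ c (e ⁻¹' Ψ.target) := hgs.comp he.contDiffOn (fun r hr => hr)
  have hc0 : c 0 = (p₀, (t₀, u₀)) := by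
    change Ψ.toPartialEquiv.symm (e 0) = _
    rw [← hΨ0]
    exact Ψ.toPartialEquiv.left_inv hz
  have hMc : ∀ r ∈ e ⁻¹' Ψ.target, M_D1a J t₀ (c r) = e r := by
    intro r hr
    have h1 : c r ∈ Ψ.source := Ψ.toPartialEquiv.map_target hr
    rw [hΨ h1]
    exact Ψ.toPartialEquiv.right_inv hr
  -- the derivative of the curve
  have dc : HasDerivAt c (deriv c 0) 0 :=
    ((hc.contDiffAt (hOo.mem_nhds h0O)).differentiableAt (by simp)).hasDerivAt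
  have dM : HasFDerivAt (M_D1a J t₀) (fderiv ℝ (M_D1a J t₀) (p₀, (t₀, u₀))) (c 0) := by
    rw [hc0]
    exact (sM.self_of_nhds.differentiableAt (by simp)).hasFDerivAt
  have dMc : HasDerivAt (fun r => M_D1a J t₀ (c r))
      (fderiv ℝ (M_D1a J t₀) (p₀, (t₀, u₀)) (deriv c 0)) 0 := dM.comp_hasDerivAt 0 dc
  have de : HasDerivAt e ((0 : R4), ((0 : ℝ), (1 : ℝ))) 0 :=
    (hasDerivAt_const _ _).prodMk ((hasDerivAt_const _ _).prodMk (hasDerivAt_id _))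
  have heq : fderiv ℝ (M_D1a J t₀) (p₀, (t₀, u₀)) (deriv c 0) = ((0 : R4), ((0 : ℝ), (1 : ℝ))) := by
    refine dMc.unique (de.congr_of_eventuallyEq ?_)
    filter_upwards [hOo.mem_nhds h0O] with r hr
    exact hMc r hr
  have dT : HasDerivAt (fun r => (c r).2.1) (deriv c 0).2.1 0 := by
    have h1 := (ContinuousLinearMap.snd ℝ R4 (ℝ × ℝ)).hasFDerivAt.comp_hasDerivAt 0 dc
    exact (ContinuousLinearMap.fst ℝ ℝ ℝ).hasFDerivAt.comp_hasDerivAt 0 h1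
  have hT : ContDiffOn ℝ ∞ (fun r => (c r).2.1) (e ⁻¹' Ψ.target) :=
    contDiff_fst.comp_contDiffOn (contDiff_snd.comp_contDiffOn hc)
  have hT0 : deriv (fun r => (c r).2.1) 0 ≠ 0 := by
    rw [dT.deriv]
    intro h0
    rw [fM] at heq
    generalize deriv c 0 = w at h0 heq
    have e1 : fderiv ℝ (fun p => J (t₀, p)) p₀ w.1 =
        fderiv ℝ (fun x : ℝ × ℝ => J (x.1, (1 / 2, x.2, 0))) (t₀, u₀) w.2 :=
      sub_eq_zero.1 (congrArg Prod.fst heq)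
    have e2 : w.1.1 = 0 := congrArg (fun z : R4 × (ℝ × ℝ) => z.2.1) heq
    have e3 : 2 * drsq 0 p₀ w.1 = 1 := congrArg (fun z : R4 × (ℝ × ℝ) => z.2.2) heq
    by_cases h2 : w.2.2 = 0
    · have e4 : w.2 = 0 := Prod.ext h0 h2
      have e5 : w.1 = 0 := by
        apply hA
        rw [e1, e4, map_zero, map_zero]
      rw [e5] at e3
      simp [drsq] at e3
    · have e4 : w.2 = w.2.2 • ((0 : ℝ), (1 : ℝ)) := by
        refine Prod.ext ?_ ?_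
        · simpa using h0
        · simp
      have e5 := hS (w.2.2⁻¹ • w.1) (by
        rw [map_smul, e1, e4, map_smul, smul_smul]
        simp [h2])
      apply e5
      change w.2.2⁻¹ * w.1.1 = 0
      rw [e2, mul_zero]
  obtain ⟨η₀, hη, hsub, hmono⟩ := mono_D1a hOo h0O hT hT0
  have hcc : ContinuousAt c 0 := dc.continuousAt
  have hinjT : InjOn (fun r => (c r).2.1) (Ioo (-η₀) η₀) := by
    rcases hmono with h | h
    · exact h.injOn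
    · exact h.injOn
  refine ⟨fun r => (c r).2.1, fun r => (c r).1, η₀, hη, hT.mono hsub, hmono, ?_, ?_, ?_, ?_, ?_⟩
  · change (c 0).2.1 = t₀
    rw [hc0]
  · exact continuousAt_fst.comp hcc
  · change (c 0).1 = p₀
    rw [hc0]
  · intro r hr
    have h := hMc r (hsub hr)
    have h1 : (c r).1.1 - 1 / 2 = 0 := congrArg (fun z : R4 × (ℝ × ℝ) => z.2.1) h
    have h2 : rsq 0 (c r).1 - 1 / 25 = r := congrArg (fun z : R4 × (ℝ × ℝ) => z.2.2) h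
    exact ⟨by linarith, by linarith⟩
  · have kT : ContinuousAt (fun r => (c r).2.1) (0 : ℝ) := dT.continuousAt
    have kr : Tendsto (fun q : ℝ × R4 × R4 => q.1) (𝓝 ((0 : ℝ), p₀, ((1 / 2, u₀, 0) : R4)))
        (𝓝 0) := continuousAt_fst
    have kp : Tendsto (fun q : ℝ × R4 × R4 => q.2.1) (𝓝 ((0 : ℝ), p₀, ((1 / 2, u₀, 0) : R4)))
        (𝓝 p₀) := continuousAt_fst.comp continuousAt_snd
    have ku : Tendsto (fun q : ℝ × R4 × R4 => q.2.2.2.1)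
        (𝓝 ((0 : ℝ), p₀, ((1 / 2, u₀, 0) : R4))) (𝓝 u₀) := by
      have : Continuous (fun q : ℝ × R4 × R4 => q.2.2.2.1) := by fun_prop
      exact this.tendsto' _ _ rfl
    have kT' : Tendsto (fun q : ℝ × R4 × R4 => (c q.1).2.1)
        (𝓝 ((0 : ℝ), p₀, ((1 / 2, u₀, 0) : R4))) (𝓝 t₀) := by
      have h : Tendsto (fun r => (c r).2.1) (𝓝 (0 : ℝ)) (𝓝 (c 0).2.1) := kT
      rw [hc0] at h
      exact h.comp kr
    have k1 : ∀ᶠ q : ℝ × R4 × R4 in 𝓝 ((0 : ℝ), p₀, ((1 / 2, u₀, 0) : R4)),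
        J ((c q.1).2.1, q.2.1) = J (t₀, q.2.1) :=
      (kT'.prodMk_nhds kp).eventually (hP.frozen p₀ (Or.inl hP.mem))
    have k2 : ∀ᶠ q : ℝ × R4 × R4 in 𝓝 ((0 : ℝ), p₀, ((1 / 2, u₀, 0) : R4)),
        ((q.2.1, ((c q.1).2.1, q.2.2.2.1)) : R4 × (ℝ × ℝ)) ∈ Ψ.source :=
      (kp.prodMk_nhds (kT'.prodMk_nhds ku)).eventually (Ψ.open_source.mem_nhds hz)
    have k3 : ∀ᶠ q : ℝ × R4 × R4 in 𝓝 ((0 : ℝ), p₀, ((1 / 2, u₀, 0) : R4)),
        q.2.2.2.1 ∈ Ioo (1 / 5 : ℝ) (4 / 5) := ku.eventually (isOpen_Ioo.mem_nhds hP.arc)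
    have k4 : ∀ᶠ q : ℝ × R4 × R4 in 𝓝 ((0 : ℝ), p₀, ((1 / 2, u₀, 0) : R4)),
        q.1 ∈ Ioo (-η₀) η₀ := kr.eventually (isOpen_Ioo.mem_nhds ⟨by linarith, hη⟩)
    have k5 : ∀ᶠ q : ℝ × R4 × R4 in 𝓝 ((0 : ℝ), p₀, ((1 / 2, u₀, 0) : R4)),
        rsq 0 q.2.1 - 1 / 25 ∈ Ioo (-η₀) η₀ := by
      have h : Tendsto (fun q : ℝ × R4 × R4 => rsq 0 q.2.1 - 1 / 25)
          (𝓝 ((0 : ℝ), p₀, ((1 / 2, u₀, 0) : R4))) (𝓝 (rsq 0 p₀ - 1 / 25)) :=
        (((contDiff_rsq 0).continuous.tendsto p₀).comp kp).sub_const _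
      refine h.eventually (isOpen_Ioo.mem_nhds ?_)
      rw [hP.mem.2, sub_self]
      exact ⟨by linarith, hη⟩
    filter_upwards [k1, k2, k3, k4, k5] with q h1 h2 h3 h4 h5 hF1 hF2 hJ
    have e1 : q.2.2 = (1 / 2, q.2.2.2.1, 0) := mem_FB_arc_D1a hF2 h3.1 h3.2
    have e2 : M_D1a J t₀ (q.2.1, ((c q.1).2.1, q.2.2.2.1)) = e (rsq 0 q.2.1 - 1 / 25) := by
      refine Prod.ext ?_ (Prod.ext ?_ rfl)
      · change J (t₀, q.2.1) - J ((c q.1).2.1, (1 / 2, q.2.2.2.1, 0)) = 0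
        rw [← e1, ← h1, sub_eq_zero]
        exact hJ
      · change q.2.1.1 - 1 / 2 = 0
        rw [fst_of_mem_FB_D1a hF1, sub_self]
    have e3 : ((q.2.1, ((c q.1).2.1, q.2.2.2.1)) : R4 × (ℝ × ℝ)) = c (rsq 0 q.2.1 - 1 / 25) := by
      have h6 : Ψ (q.2.1, ((c q.1).2.1, q.2.2.2.1)) = e (rsq 0 q.2.1 - 1 / 25) := by
        rw [← e2]; exact (hΨ h2).symm
      change _ = Ψ.toPartialEquiv.symm (e (rsq 0 q.2.1 - 1 / 25))
      rw [← h6]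
      exact (Ψ.toPartialEquiv.left_inv h2).symm
    have e4 := congrArg (fun z : R4 × (ℝ × ℝ) => z.2.1) e3
    have e5 : q.1 = rsq 0 q.2.1 - 1 / 25 := hinjT h4 h5 e4
    have e6 : q.2.1 = (c (rsq 0 q.2.1 - 1 / 25)).1 := congrArg Prod.fst e3
    rw [← e5] at e6
    exact e6

end Pool.Agent.Helper34.BI
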