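import Pool.Agent.Helper34.BI.StD

/-!
# Project BI, module D2: the crossing theorem from its two halves
-/

set_option autoImplicit false

open Module Set Filter Topology
open scoped ContDiff Manifold ComplexConjugate
open Pool.Agent.Helper65.Barb Pool.Agent.Helper18.BI Pool.Agent.Helper27.BI

namespace Pool.Agent.Helper34.BI

theorem m_D2 (hRE : StRE) (hT2 : StT2) (hN1 : StN1) (hCI : StCI) (hD2a : StD2a)
    (hD2b : StD2b) : StD2 := by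
  intro J X η C
  have h1 := C.pos
  have h2 := C.small
  set δ := η / 3 with hδ
  have hδm : δ ∈ Ioo (0 : ℝ) (1 / 100) := ⟨by positivity, by rw [hδ]; linarith⟩
  have h3 : 3 * δ ≤ η := by rw [hδ]; linarith
  obtain ⟨-, -, -, -, -, -, -, -, hmono, -, hid, hlow, -⟩ := hRE δ hδm
  have e1 : qe δ (1 / 25) = 1 / 25 := hid _ (by linarith [hδm.1])
  have e2 : qe δ (1 / 100) < 1 / 25 := by
    rw [← e1]
    exact hmono (by norm_num)
  have e3 := hlow (1 / 100) (by norm_num)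
  set r₁ := 1 / 25 - qe δ (1 / 100) with hr₁
  have h4 : 0 < r₁ := by rw [hr₁]; linarith
  have h5 : r₁ ≤ η := by rw [hr₁]; linarith
  have m1 : -r₁ ∈ Icc (-η) η := ⟨by linarith, by linarith⟩
  obtain ⟨x₂, r, k, hr, -, hx, hre, hE, hk1, hk2, hk3, hk4, hk5, hk6, n, ψ, hn, hψ, hφ⟩ :=
    hD2a (fun p => J (-r₁, p)) (X (-r₁)) δ η hδm h3 h2 (C.loc _ m1) (C.inj _ m1) (C.injA _ m1)
      (C.fst _ m1) (by rw [C.lvl _ m1, hr₁]; ring) (C.re _ m1)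
  have hψ' := hD2b J X δ η r₁ C hδm h3 hr₁ h4 h5 x₂ r k hr hx hre hE hk1 hk2 hk3 hk4 hk5 hk6 ψ hψ
  refine ⟨r₁, ⟨h4, h5⟩, ?_⟩
  intro φ φ' t1 t2
  refine ⟨n, hn, ?_⟩
  obtain ⟨-, -, -, htrans, hcomp, -⟩ := hCI R4 R4 𝓘(ℝ, R4) R4
  have a1 := hφ φ' t2
  have a2 := (hT2 R4 R4 𝓘(ℝ, R4) R4).2.1 _ _ _ hψ' t1
  have a3 := (hN1 R4 R4 𝓘(ℝ, R4) R4).1 n hn
  exact htrans _ _ _ a1 (hcomp _ _ _ _ a3 a2)

end Pool.Agent.Helper34.BI
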