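import Pool.Agent.Helper34.BI.StD

/-!
# Project BI, module D2b: the other factor is the class on the other side of the crossing
-/

set_option autoImplicit false

open Module Set Filter Topology
open scoped ContDiff Manifold ComplexConjugate
open Pool.Agent.Helper65.Barb Pool.Agent.Helper18.BI Pool.Agent.Helper27.BI

namespace Pool.Agent.Helper34.BI

namespace D2b

/-! ## coordinates -/

theorem rsq_eq (c : ℝ) (p : R4) : rsq c p = (p.2.1 - c) ^ 2 + p.2.2.re ^ 2 + p.2.2.im ^ 2 := rfl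

theorem nsq_eq (x : R3) : nsq x = x.1 ^ 2 + x.2.re ^ 2 + x.2.im ^ 2 := rfl

theorem rsq_zero_eq (p : R4) : rsq 0 p = nsq p.2 := by
  rw [rsq_eq, nsq_eq, sub_zero]

theorem continuous_rsq (c : ℝ) : Continuous (rsq c) := by
  unfold rsq nsq
  fun_prop

theorem isOpen_G : IsOpen {p : R4 | 0 < rsq 0 p ∧ 0 < rsq 1 p} :=
  (isOpen_lt continuous_const (continuous_rsq 0)).inter
    (isOpen_lt continuous_const (continuous_rsq 1))

/-! ## compositions -/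

theorem embOn_comp {F G : R4 → R4} {K L : Set R4} (hF : EmbOn 𝓘(ℝ, R4) F L)
    (hG : EmbOn 𝓘(ℝ, R4) G K) (h : MapsTo G K L) : EmbOn 𝓘(ℝ, R4) (fun p => F (G p)) K := by
  refine ⟨fun p hp => IsLocalDiffeomorphAt.comp _ _ (hG.1 p hp) (hF.1 (G p) (h hp)), ?_⟩
  intro p hp q hq hpq
  exact hG.2 hp hq (hF.2 (h hp) (h hq) hpq)

theorem contDiffAt_of_emb {F : R4 → R4} {L : Set R4} (hF : EmbOn 𝓘(ℝ, R4) F L) {p : R4}
    (hp : p ∈ L) : ContDiffAt ℝ ∞ F p := (eventually_contDiffAt (hF.1 p hp)).self_of_nhds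

/-- composition of the family with the crossing family -/
theorem famOn_of {J : ℝ × R4 → R4} {X : ℝ → R4} {η : ℝ} (hJ : Cross J X η) {T : ℝ → ℝ}
    (hT : ContDiff ℝ ∞ T) (hT1 : ∀ t ∈ Icc (0 : ℝ) 1, T t ∈ Icc (-η) η) {m : ℝ × R4 → R4}
    (hm : ∀ t ∈ Icc (0 : ℝ) 1, ∀ p ∈ SP, ∀ᶠ q in 𝓝 (t, p), ContDiffAt ℝ ∞ m q)
    (he : ∀ t ∈ Icc (0 : ℝ) 1, EmbOn 𝓘(ℝ, R4) (fun p => m (t, p)) SP)
    (hmem : ∀ t ∈ Icc (0 : ℝ) 1, ∀ p ∈ SP, m (t, p) ∈ SH η ∧ m (t, p) ≠ X (T t)) :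
    FamOn 𝓘(ℝ, R4) (fun q => J (T q.1, m q)) SP := by
  obtain ⟨W, hWo, hW, hWJ⟩ := hJ.smooth
  refine ⟨⟨{q | ∀ᶠ q' in 𝓝 q, ContDiffAt ℝ ∞ (fun q => J (T q.1, m q)) q'},
    isOpen_setOf_eventually_nhds, ?_, ?_⟩, ?_⟩
  · rintro ⟨t, p⟩ ⟨ht, hp⟩
    have hc : ContinuousAt (fun q : ℝ × R4 => (T q.1, m q)) (t, p) := by
      have h1 : ContinuousAt (fun q : ℝ × R4 => T q.1) (t, p) :=
        (hT.continuous.comp continuous_fst).continuousAt
      exact h1.prodMk (hm t ht p hp).self_of_nhds.continuousAt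
    have hW' : W ∈ 𝓝 (T t, m (t, p)) :=
      hWo.mem_nhds (hW ⟨hT1 t ht, (hmem t ht p hp).1⟩)
    have h2 : ∀ᶠ q in 𝓝 (t, p), (T q.1, m q) ∈ W := hc hW'
    show ∀ᶠ q' in 𝓝 (t, p), ContDiffAt ℝ ∞ (fun q => J (T q.1, m q)) q'
    filter_upwards [h2, hm t ht p hp] with q hq1 hq2
    have h3 : ContDiffAt ℝ ∞ J (T q.1, m q) := hWJ.contDiffAt (hWo.mem_nhds hq1)
    have h4 : ContDiffAt ℝ ∞ (fun q : ℝ × R4 => (T q.1, m q)) q :=
      ((hT.comp contDiff_fst).contDiffAt).prodMk hq2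
    exact ContDiffAt.comp q h3 h4
  · rw [contMDiffOn_iff_contDiffOn]
    intro q hq
    exact (Filter.Eventually.self_of_nhds hq).contDiffWithinAt
  · intro t ht
    refine ⟨fun p hp => ?_, fun p hp q hq hpq => ?_⟩
    · exact IsLocalDiffeomorphAt.comp _ _ ((he t ht).1 p hp)
        (hJ.loc (T t) (hT1 t ht) (m (t, p)) (hmem t ht p hp).1)
    · exact (he t ht).2 hp hq (hJ.inj (T t) (hT1 t ht) ⟨(hmem t ht p hp).1, (hmem t ht p hp).2⟩
        ⟨(hmem t ht q hq).1, (hmem t ht q hq).2⟩ hpq)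

/-! ## the position of the points -/

/-- the points through which the families run -/
def AA : Set R4 := {q | q.1 = 1 / 2 ∧ q ∈ ball4 ∧ (q ∈ sph 1 ∨ (q.2.2 = 0 ∧ 0 < q.2.1 ∧
  q.2.1 ≤ 4 / 5) ∨ (0 < rsq 0 q ∧ rsq 0 q ≤ 1 / 25))}

theorem ball4_of {q : R4} (h1 : q.1 = 1 / 2) (h2 : rsq 0 q ≤ 81 / 4) : q ∈ ball4 := by
  refine ⟨?_, ?_, ?_⟩
  · rw [h1]; norm_num
  · rw [h1]; norm_num
  · refine h2.trans ?_; norm_num

theorem sph_one_bounds {p : R4} (h : p ∈ sph 1) : 4 / 5 ≤ p.2.1 ∧ 16 / 25 ≤ rsq 0 p ∧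
    rsq 0 p ≤ 81 / 4 := by
  have h1 := le_sph_one h
  have h2 := h.2
  rw [rsq_eq] at h2
  have h3 := sq_nonneg p.2.2.re
  have h4 := sq_nonneg p.2.2.im
  have h5 : p.2.1 ≤ 6 / 5 := by nlinarith
  refine ⟨h1, ?_, ?_⟩
  · rw [rsq_eq]; nlinarith
  · rw [rsq_eq]; nlinarith

theorem small_bounds {q : R4} (h : rsq 0 q ≤ 1 / 25) : 16 / 25 ≤ rsq 1 q := by
  rw [rsq_eq] at h ⊢
  have h3 := sq_nonneg q.2.2.re
  have h4 := sq_nonneg q.2.2.im
  have h5 : q.2.1 ≤ 1 / 5 := by nlinarith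
  nlinarith

theorem AA_pos {q : R4} (hq : q ∈ AA) : 0 < rsq 0 q ∧ 0 < rsq 1 q := by
  obtain ⟨-, -, h | ⟨h1, h2, h3⟩ | ⟨h1, h2⟩⟩ := hq
  · have h1 := sph_one_bounds h
    rw [h.2]
    constructor
    · linarith
    · norm_num
  · rw [rsq_eq, rsq_eq, h1]
    simp only [Complex.zero_re, Complex.zero_im]
    constructor <;> nlinarith
  · exact ⟨h1, by linarith [small_bounds h2]⟩

/-- the properties of the diffeomorphism `k` used (they hold for the identity as well) -/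
structure KK (k : R4 → R4) (ρ : ℝ) : Prop where
  emb : EmbOn 𝓘(ℝ, R4) k univ
  fst : ∀ p, (k p).1 = p.1
  far : ∀ p : R4, 17 / 100 ≤ p.2.1 → k p = p
  ball : ∀ p, rsq 0 p ≤ 1 / 25 → rsq 0 (k p) ≤ 1 / 25
  axis : ∀ p : R4, ‖p.2.2‖ ≤ ρ → k p = p

theorem KK_id (ρ : ℝ) : KK (fun p => p) ρ where
  emb := by
    refine ⟨fun p _ => isLocalDiffeomorphAt_of_injective rfl
      (Eventually.of_forall fun q => contDiff_id.contDiffAt) ?_, Function.injective_id.injOn⟩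
    intro v w hvw
    have h : fderiv ℝ (fun p : R4 => p) p = ContinuousLinearMap.id ℝ R4 := fderiv_id
    rw [h] at hvw
    exact hvw
  fst _ := rfl
  far _ _ := rfl
  ball _ h := h
  axis _ _ := rfl

theorem rsq_nonneg (c : ℝ) (p : R4) : 0 ≤ rsq c p := by
  rw [rsq_eq]; positivity

theorem k_AA {k : R4 → R4} {ρ : ℝ} (hk : KK k ρ) (hρ : 0 ≤ ρ) {q : R4} (hq : q ∈ AA) :
    k q ∈ AA := by
  obtain ⟨h0, hb, h | ⟨h1, h2, h3⟩ | ⟨h1, h2⟩⟩ := hq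
  · have : k q = q := hk.far q (by linarith [(sph_one_bounds h).1])
    rw [this]
    exact ⟨h0, hb, Or.inl h⟩
  · have : k q = q := hk.axis q (by rw [h1, norm_zero]; exact hρ)
    rw [this]
    exact ⟨h0, hb, Or.inr (Or.inl ⟨h1, h2, h3⟩)⟩
  · have e1 := hk.ball q h2
    have e0 : (k q).1 = 1 / 2 := (hk.fst q).trans h0
    refine ⟨e0, ball4_of e0 (e1.trans (by norm_num)), Or.inr (Or.inr ⟨?_, e1⟩)⟩
    rcases (rsq_nonneg 0 (k q)).lt_or_eq with h | h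
    · exact h
    · exfalso
      have h' := h.symm
      rw [rsq_eq] at h'
      have a1 := sq_nonneg ((k q).2.1 - 0)
      have a2 := sq_nonneg (k q).2.2.re
      have a3 := sq_nonneg (k q).2.2.im
      have b2 : (k q).2.2.re = 0 := by
        have : (k q).2.2.re ^ 2 = 0 := by linarith
        exact pow_eq_zero_iff (two_ne_zero) |>.1 this
      have b3 : (k q).2.2.im = 0 := by
        have : (k q).2.2.im ^ 2 = 0 := by linarith
        exact pow_eq_zero_iff (two_ne_zero) |>.1 this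
      have b4 : (k q).2.2 = 0 := Complex.ext b2 b3
      have b5 : k (k q) = k q := hk.axis _ (by rw [b4, norm_zero]; exact hρ)
      have b6 : k q = q := hk.emb.2 (mem_univ _) (mem_univ _) b5
      rw [b6] at h
      linarith

theorem neck_bounds {p : R4} (hp : p ∈ neck) : rsq 0 p ≤ 81 / 4 := by
  obtain ⟨-, h1, h2, h3⟩ := hp
  rw [rsq_eq, h3]
  simp only [Complex.zero_re, Complex.zero_im]
  nlinarith

theorem cl_AA (hRC : StRC) {lam : ℝ} (hl : lam ∈ Ioc (0 : ℝ) 1) {p : R4} (hp : p ∈ SP) :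
    cl lam p ∈ AA := by
  obtain ⟨-, -, h⟩ := hRC
  obtain ⟨-, h1, h2, h3, h4, h5, h6, -⟩ := h lam hl
  rcases hp with (hp | hp) | hp
  · have e0 : (cl lam p).1 = 1 / 2 := (h1 p).trans hp.1
    have e1 : nsq p.2 = 1 / 25 := by rw [← rsq_zero_eq]; exact hp.2
    have e2 : rsq 0 (cl lam p) ≤ 1 / 25 := by
      rw [rsq_zero_eq, ← e1]; exact h5 p
    refine ⟨e0, ball4_of e0 (e2.trans (by norm_num)), Or.inr (Or.inr ⟨?_, e2⟩)⟩
    rw [h2 p (by rw [e1]; norm_num), rsq_zero_eq, nsq_eq]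
    rw [nsq_eq] at e1
    have : (lam • p.2).1 ^ 2 + (lam • p.2).2.re ^ 2 + (lam • p.2).2.im ^ 2 =
        lam ^ 2 * (p.2.1 ^ 2 + p.2.2.re ^ 2 + p.2.2.im ^ 2) := by
      simp
      ring
    rw [this, e1]
    have := hl.1
    positivity
  · have e1 := sph_one_bounds hp
    have e2 : cl lam p = p := h3 p (by rw [← rsq_zero_eq]; linarith [e1.2.1])
    rw [e2]
    exact ⟨hp.1, ball4_of hp.1 e1.2.2, Or.inl hp⟩
  · have e0 : (cl lam p).1 = 1 / 2 := (h1 p).trans hp.1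
    have e1 := h6 p hp
    have e2 : rsq 0 (cl lam p) ≤ 81 / 4 := by
      have := h5 p
      rw [← rsq_zero_eq, ← rsq_zero_eq] at this
      exact this.trans (neck_bounds hp)
    exact ⟨e0, ball4_of e0 e2, Or.inr (Or.inl ⟨h4 p hp.2.2.2, e1.1, e1.2⟩)⟩

theorem Em_SH (hRE : StRE) {δ η : ℝ} (hδ : δ ∈ Ioo (0 : ℝ) (1 / 100)) (h3 : 3 * δ ≤ η) {q : R4}
    (hq : q ∈ AA) : Em δ q ∈ SH η := by
  obtain ⟨-, r2, r3, -, -, r6, r7, r8, -⟩ := hRE δ hδ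
  have hpos := AA_pos hq
  have e1 := r6 q hpos.1 hpos.2
  refine ⟨?_, by linarith [e1.1], by linarith [e1.2]⟩
  have e0 : (Em δ q).1 = 1 / 2 := (r3 q).trans hq.1
  obtain ⟨h0, -, h | ⟨k1, k2, k3⟩ | ⟨-, k2⟩⟩ := hq
  · exact Or.inl (Or.inr ⟨e0, r8 q hpos.2 (le_of_eq h.2)⟩)
  · rcases le_or_gt q.2.1 (1 / 5) with h | h
    · refine Or.inl (Or.inl ⟨e0, (r7 q hpos.1 ?_).2⟩)
      rw [rsq_eq, k1]
      simp only [Complex.zero_re, Complex.zero_im]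
      nlinarith
    · have e2 : Em δ q = q := by
        refine r2 q ?_ ?_
        · rw [rsq_eq, k1]
          simp only [Complex.zero_re, Complex.zero_im]
          nlinarith [hδ.1]
        · rw [rsq_eq, k1]
          simp only [Complex.zero_re, Complex.zero_im]
          nlinarith [hδ.1]
      rw [e2]
      exact Or.inr ⟨h0, h.le, k3, k1⟩
  · exact Or.inl (Or.inl ⟨e0, (r7 q hpos.1 k2).2⟩)

/-! ## the families -/

theorem emb_fam (hRE : StRE) (hRC : StRC) {δ : ℝ} (hδ : δ ∈ Ioo (0 : ℝ) (1 / 100))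
    {k : R4 → R4} {ρ : ℝ} (hk : KK k ρ) (hρ : 0 ≤ ρ) {lam : ℝ} (hl : lam ∈ Ioc (0 : ℝ) 1) :
    EmbOn 𝓘(ℝ, R4) (fun p => Em δ (k (cl lam p))) SP := by
  have h1 : EmbOn 𝓘(ℝ, R4) (cl lam) SP := by
    have := (hRC.2.2 lam hl).1
    exact ⟨fun p _ => this.1 p (mem_univ _), this.2.mono (subset_univ _)⟩
  have h2 : EmbOn 𝓘(ℝ, R4) (fun p => k (cl lam p)) SP :=
    embOn_comp hk.emb h1 (fun p _ => mem_univ _)
  exact embOn_comp (hRE δ hδ).1 h2 (fun p hp => AA_pos (k_AA hk hρ (cl_AA hRC hl hp)))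

theorem smooth_fam (hRE : StRE) (hRC : StRC) {δ : ℝ} (hδ : δ ∈ Ioo (0 : ℝ) (1 / 100))
    {k : R4 → R4} {ρ : ℝ} (hk : KK k ρ) (hρ : 0 ≤ ρ) {ℓ : ℝ → ℝ} (hℓ : ContDiff ℝ ∞ ℓ) {t : ℝ}
    (ht : ℓ t ∈ Ioc (0 : ℝ) 1) {p : R4} (hp : p ∈ SP) :
    ∀ᶠ q in 𝓝 (t, p), ContDiffAt ℝ ∞ (fun q : ℝ × R4 => Em δ (k (cl (ℓ q.1) q.2))) q := by
  have hk1 : ContDiff ℝ ∞ k := contDiff_iff_contDiffAt.2 fun q =>
    contDiffAt_of_emb hk.emb (mem_univ q)
  have h1 : ContDiff ℝ ∞ (fun q : ℝ × R4 => cl (ℓ q.1) q.2) :=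
    hRC.1.comp ((hℓ.comp contDiff_fst).prodMk contDiff_snd)
  have h2 : ContDiff ℝ ∞ (fun q : ℝ × R4 => k (cl (ℓ q.1) q.2)) := hk1.comp h1
  have h3 : ∀ᶠ q in 𝓝 (t, p), k (cl (ℓ q.1) q.2) ∈ {p : R4 | 0 < rsq 0 p ∧ 0 < rsq 1 p} :=
    h2.continuous.continuousAt (isOpen_G.mem_nhds (AA_pos (k_AA hk hρ (cl_AA hRC ht hp))))
  filter_upwards [h3] with q hq
  have h4 : ContDiffAt ℝ ∞ (Em δ) (k (cl (ℓ q.1) q.2)) := contDiffAt_of_emb (hRE δ hδ).1 hq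
  exact ContDiffAt.comp (g := Em δ) (f := fun q : ℝ × R4 => k (cl (ℓ q.1) q.2)) q h4
    h2.contDiffAt

/-- a point of the deeper side is not in the spine with collars -/
theorem not_mem_SH {η r : ℝ} {x : R4} (h1 : rsq 0 x = 1 / 25 + r) (h2 : 0 < r)
    (h3 : r ≤ 1 / 100) (h4 : x.2.2.re ≠ 0) : x ∉ SH η := by
  rintro ⟨(h | h) | h, -⟩
  · have := h.2
    linarith
  · have h5 := h.2
    rw [rsq_eq] at h5 h1
    have a1 := sq_nonneg x.2.2.re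
    have a2 := sq_nonneg x.2.2.im
    nlinarith
  · apply h4
    rw [h.2.2.2]
    rfl

/-- one step of the deformation -/
theorem thin_step (hRE : StRE) (hRC : StRC) (hT2 : StT2) {J : ℝ × R4 → R4} {X : ℝ → R4}
    {η δ : ℝ} (hJ : Cross J X η) (hδ : δ ∈ Ioo (0 : ℝ) (1 / 100)) (h3 : 3 * δ ≤ η)
    {k : R4 → R4} {ρ : ℝ} (hk : KK k ρ) (hρ : 0 ≤ ρ) {T ℓ : ℝ → ℝ} (hT : ContDiff ℝ ∞ T)
    (hT1 : ∀ t ∈ Icc (0 : ℝ) 1, T t ∈ Icc (-η) η) (hℓ : ContDiff ℝ ∞ ℓ)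
    (hℓ1 : ∀ t ∈ Icc (0 : ℝ) 1, ℓ t ∈ Ioc (0 : ℝ) 1)
    (hne : ∀ t ∈ Icc (0 : ℝ) 1, ∀ p ∈ SP, Em δ (k (cl (ℓ t) p)) ≠ X (T t)) {ψ : R4 → R4}
    (h : Thin 𝓘(ℝ, R4) (fun p => J (T 0, Em δ (k (cl (ℓ 0) p)))) ψ) :
    Thin 𝓘(ℝ, R4) (fun p => J (T 1, Em δ (k (cl (ℓ 1) p)))) ψ := by
  obtain ⟨-, -, hT3, -⟩ := hT2 R4 R4 𝓘(ℝ, R4) R4
  have hfam : FamOn 𝓘(ℝ, R4) (fun q : ℝ × R4 => J (T q.1, Em δ (k (cl (ℓ q.1) q.2)))) SP := by
    refine famOn_of (T := T) (m := fun q : ℝ × R4 => Em δ (k (cl (ℓ q.1) q.2))) hJ hT hT1 ?_ ?_ ?_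
    · intro t ht p hp
      exact smooth_fam hRE hRC hδ hk hρ hℓ (hℓ1 t ht) hp
    · intro t ht
      exact emb_fam hRE hRC hδ hk hρ (hℓ1 t ht)
    · intro t ht p hp
      exact ⟨Em_SH hRE hδ h3 (k_AA hk hρ (cl_AA hRC (hℓ1 t ht) hp)), hne t ht p hp⟩
  exact hT3 (fun q : ℝ × R4 => J (T q.1, Em δ (k (cl (ℓ q.1) q.2)))) ψ hfam h

theorem lin_mem {a b t : ℝ} (ha : a ∈ Ioc (0 : ℝ) 1) (hb : b ∈ Ioc (0 : ℝ) 1)
    (ht : t ∈ Icc (0 : ℝ) 1) : a + t * (b - a) ∈ Ioc (0 : ℝ) 1 := by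
  obtain ⟨a1, a2⟩ := ha
  obtain ⟨b1, b2⟩ := hb
  obtain ⟨t1, t2⟩ := ht
  constructor
  · rcases t2.lt_or_eq with h | h
    · nlinarith
    · subst h; linarith
  · nlinarith

theorem contDiff_lin (a b : ℝ) : ContDiff ℝ ∞ (fun t : ℝ => a + t * (b - a)) :=
  contDiff_const.add (contDiff_id.mul contDiff_const)

/-- near the spine the diffeomorphism `k` may be omitted after the contraction -/
theorem step2 (hRC : StRC) (hT2 : StT2) {k : R4 → R4} {ρ : ℝ} (hk : KK k ρ) (hρ : 0 < ρ)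
    {lam : ℝ} (hl : lam ∈ Ioc (0 : ℝ) 1) (hl2 : lam ≤ ρ) (G : R4 → R4) {ψ : R4 → R4}
    (h : Thin 𝓘(ℝ, R4) (fun p => G (k (cl lam p))) ψ) :
    Thin 𝓘(ℝ, R4) (fun p => G (cl lam p)) ψ := by
  obtain ⟨-, -, -, -, hT5, -⟩ := hT2 R4 R4 𝓘(ℝ, R4) R4
  have hclc : Continuous (cl lam) := by
    have : ContDiff ℝ ∞ (fun p : R4 => cl lam p) := hRC.1.comp (contDiff_const.prodMk contDiff_id)
    exact this.continuous
  obtain ⟨-, -, c3, c4, c5, -, -, -⟩ := hRC.2.2 lam hl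
  refine hT5 (fun p => G (k (cl lam p))) (fun p => G (cl lam p))
    {p | 17 / 100 < (cl lam p).2.1 ∨ ‖(cl lam p).2.2‖ < ρ} ψ ?_ ?_ ?_ h
  · exact (isOpen_lt continuous_const (continuous_fst.comp (continuous_snd.comp hclc))).union
      (isOpen_lt (continuous_norm.comp (continuous_snd.comp (continuous_snd.comp hclc)))
        continuous_const)
  · intro p hp
    rcases hp with (hp | hp) | hp
    · right
      have e1 : nsq p.2 = 1 / 25 := by rw [← rsq_zero_eq]; exact hp.2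
      have e4 := c3 p (by rw [e1]; norm_num)
      have e5 : (cl lam p).2.2 = lam • p.2.2 := by rw [e4]; rfl
      show ‖(cl lam p).2.2‖ < ρ
      have e2 : ‖p.2.2‖ ≤ 1 / 5 := by
        rw [nsq_eq] at e1
        have e3 : ‖p.2.2‖ ^ 2 ≤ 1 / 25 := by
          rw [← Complex.normSq_eq_norm_sq, Complex.normSq_apply]
          nlinarith [sq_nonneg p.2.1]
        nlinarith [norm_nonneg p.2.2]
      rw [e5, norm_smul, Real.norm_of_nonneg hl.1.le]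
      nlinarith [norm_nonneg p.2.2, hl.1]
    · left
      have e1 := sph_one_bounds hp
      have e2 : cl lam p = p := c4 p (by rw [← rsq_zero_eq]; linarith [e1.2.1])
      show 17 / 100 < (cl lam p).2.1
      rw [e2]
      linarith
    · right
      show ‖(cl lam p).2.2‖ < ρ
      rw [c5 p hp.2.2.2, norm_zero]
      exact hρ
  · intro p hp
    have : k (cl lam p) = cl lam p := by
      rcases hp with hp | hp
      · exact hk.far _ (le_of_lt hp)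
      · exact hk.axis _ (le_of_lt hp)
    show G (k (cl lam p)) = G (cl lam p)
    rw [this]

/-- near the spine `Em δ` is the identity -/
theorem step5 (hRE : StRE) (hT2 : StT2) {δ : ℝ} (hδ : δ ∈ Ioo (0 : ℝ) (1 / 100)) (G : R4 → R4)
    {ψ : R4 → R4} (h : Thin 𝓘(ℝ, R4) (fun p => G (Em δ p)) ψ) : Thin 𝓘(ℝ, R4) G ψ := by
  obtain ⟨-, -, -, -, hT5, -⟩ := hT2 R4 R4 𝓘(ℝ, R4) R4
  obtain ⟨-, rE2, -⟩ := hRE δ hδ
  have hd := hδ.1
  refine hT5 (fun p => G (Em δ p)) G {p | 1 / 25 - δ < rsq 0 p ∧ 1 / 25 - δ < rsq 1 p} ψ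
    ?_ ?_ ?_ h
  · exact (isOpen_lt continuous_const (continuous_rsq 0)).inter
      (isOpen_lt continuous_const (continuous_rsq 1))
  · intro p hp
    rcases hp with (hp | hp) | hp
    · refine ⟨by rw [hp.2]; linarith, ?_⟩
      have := small_bounds (le_of_eq hp.2)
      linarith
    · refine ⟨?_, by rw [hp.2]; linarith⟩
      have := (sph_one_bounds hp).2.1
      linarith
    · obtain ⟨-, h1, h2, h3⟩ := hp
      refine ⟨?_, ?_⟩
      · rw [rsq_eq, h3]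
        simp only [Complex.zero_re, Complex.zero_im]
        nlinarith
      · rw [rsq_eq, h3]
        simp only [Complex.zero_re, Complex.zero_im]
        nlinarith
  · intro p hp
    show G (Em δ p) = G p
    rw [rE2 p hp.1.le hp.2.le]

/-- step (3): the germs do not meet the strand -/
theorem ne3 (hRE : StRE) (hRC : StRC) {J : ℝ × R4 → R4} {X : ℝ → R4} {η δ : ℝ}
    (hJ : Cross J X η) (hδ : δ ∈ Ioo (0 : ℝ) (1 / 100)) {lam r : ℝ} (hl : lam ∈ Ioc (0 : ℝ) 1)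
    (hl1 : lam ≤ 1 / 4) (hr : r ∈ Icc (-η) η) (hr2 : qe δ (1 / 100) ≤ 1 / 25 + r) {p : R4}
    (hp : p ∈ SP) : Em δ (cl lam p) ≠ X r := by
  obtain ⟨-, rE2, -, -, rE5, -, rE7, -, rE9, -⟩ := hRE δ hδ
  obtain ⟨-, -, c3, c4, c5, -, -, -⟩ := hRC.2.2 lam hl
  have hc : cl lam p ∈ AA := cl_AA hRC hl hp
  have hXl := hJ.lvl r hr
  have hl0 := hl.1
  intro h
  rcases hp with (hp | hp) | hp
  · have e1 : nsq p.2 = 1 / 25 := by rw [← rsq_zero_eq]; exact hp.2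
    have e2 : rsq 0 (cl lam p) = lam ^ 2 * (1 / 25) := by
      rw [c3 p (by rw [e1]; norm_num), rsq_zero_eq, nsq_eq, ← e1, nsq_eq]
      simp
      ring
    have e3 := (rE7 (cl lam p) (AA_pos hc).1 (by rw [e2]; nlinarith)).1
    have e4 : qe δ (rsq 0 (cl lam p)) < qe δ (1 / 100) := by
      apply rE9
      rw [e2]; nlinarith
    rw [← h, e3] at hXl
    linarith
  · have e1 := sph_one_bounds hp
    have e2 : cl lam p = p := c4 p (by rw [← rsq_zero_eq]; linarith [e1.2.1])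
    have e3 : Em δ p = p := by
      refine rE2 p ?_ ?_
      · linarith [e1.2.1, hδ.1]
      · rw [hp.2]; linarith [hδ.1]
    rw [e2, e3] at h
    rw [← h] at hXl
    have := hr.2
    have := hJ.small
    linarith [e1.2.1]
  · have e1 : (Em δ (cl lam p)).2.2 = 0 := rE5 _ (c5 p hp.2.2.2)
    apply hJ.re r hr
    rw [← h, e1]
    rfl

end D2b

open D2b

theorem m_D2b (hRE : StRE) (hRC : StRC) (hT2 : StT2) : StD2b := by
  intro J X δ η r₁ hJ hδ hδη hr₁ hr0 hr1 x₂ r k hr hx2 hxre hEx hk hkf hkfar hkball hkaxis hkt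
    ψ hψ
  obtain ⟨rE1, -⟩ := hRE δ hδ
  obtain ⟨ρ, hρd⟩ : ∃ ρ : ℝ, ρ = |x₂.2.re| / 2 := ⟨_, rfl⟩
  have hρ : 0 < ρ := by
    have := abs_pos.2 hxre
    rw [hρd]; positivity
  rw [← hρd] at hkaxis
  have hK : KK k ρ := ⟨hk, hkf, hkfar, hkball, hkaxis⟩
  obtain ⟨lam₀, hl0, hl1, hl2⟩ : ∃ lam₀ : ℝ, 0 < lam₀ ∧ lam₀ ≤ 1 / 4 ∧ lam₀ ≤ ρ :=
    ⟨min (1 / 4) ρ, lt_min (by norm_num) hρ, min_le_left _ _, min_le_right _ _⟩
  have hl01 : lam₀ ∈ Ioc (0 : ℝ) 1 := ⟨hl0, by linarith⟩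
  have h11 : (1 : ℝ) ∈ Ioc (0 : ℝ) 1 := ⟨one_pos, le_rfl⟩
  have hη1 : η ≤ 1 / 100 := hJ.small
  have hηp : 0 < η := hJ.pos
  have hmr₁ : -r₁ ∈ Icc (-η) η := ⟨by linarith, by linarith⟩
  have hpr₁ : r₁ ∈ Icc (-η) η := ⟨by linarith, hr1⟩
  -- the point over x₂
  have hx2pos : ((1 / 2, x₂) : R4) ∈ {p : R4 | 0 < rsq 0 p ∧ 0 < rsq 1 p} := by
    have h1 : rsq 0 ((1 / 2, x₂) : R4) = 1 / 100 := by rw [rsq_zero_eq]; exact hx2
    refine ⟨by rw [h1]; norm_num, ?_⟩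
    have := small_bounds (q := ((1 / 2, x₂) : R4)) (by rw [h1]; norm_num)
    linarith
  -- step 1
  have s1 : Thin 𝓘(ℝ, R4) (fun p => J (-r₁, Em δ (k (cl lam₀ p)))) ψ := by
    have h0 : Thin 𝓘(ℝ, R4) (fun p => J (-r₁, Em δ (k (cl (1 + 0 * (lam₀ - 1)) p)))) ψ := by
      have e : (fun p : R4 => J (-r₁, Em δ (k (cl (1 + 0 * (lam₀ - 1)) p)))) =
          fun p => J (-r₁, Em δ (k p)) := by
        funext p
        rw [zero_mul, add_zero, hRC.2.1 p]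
      rw [e]; exact hψ
    have h1 := thin_step hRE hRC hT2 hJ hδ hδη hK hρ.le (T := fun _ => -r₁)
      (ℓ := fun t => 1 + t * (lam₀ - 1)) contDiff_const (fun t _ => hmr₁) (contDiff_lin 1 lam₀)
      (fun t ht => lin_mem h11 hl01 ht) (by
        intro t ht p hp h
        have hc : cl (1 + t * (lam₀ - 1)) p ∈ AA := cl_AA hRC (lin_mem h11 hl01 ht) hp
        have hkc := k_AA hK hρ.le hc
        have h1 : Em δ (k (cl (1 + t * (lam₀ - 1)) p)) = Em δ (1 / 2, x₂) := h.trans hEx.symm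
        have h2 := rE1.2 (AA_pos hkc) hx2pos h1
        apply hkt _ hc.2.1
        rw [h2]
        show nsq (x₂ - x₂) < r ^ 2
        rw [sub_self, nsq_eq]
        have : 0 < r ^ 2 := by positivity
        simpa using this) h0
    have e : (1 : ℝ) + 1 * (lam₀ - 1) = lam₀ := by ring
    simp only [e] at h1
    exact h1
  -- step 2
  have s2 : Thin 𝓘(ℝ, R4) (fun p => J (-r₁, Em δ (cl lam₀ p))) ψ :=
    step2 hRC hT2 hK hρ hl01 hl2 (fun q => J (-r₁, Em δ q)) s1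
  -- step 3
  have hI := KK_id ρ
  have s3 : Thin 𝓘(ℝ, R4) (fun p => J (r₁, Em δ (cl lam₀ p))) ψ := by
    have hTm : ∀ t ∈ Icc (0 : ℝ) 1, -r₁ + 2 * r₁ * t ∈ Icc (-η) η := by
      intro t ht
      obtain ⟨t1, t2⟩ := ht
      constructor <;> nlinarith
    have h0 : Thin 𝓘(ℝ, R4) (fun p => J (-r₁ + 2 * r₁ * 0, Em δ (cl lam₀ p))) ψ := by
      rw [mul_zero, add_zero]; exact s2
    have h1 := thin_step hRE hRC hT2 hJ hδ hδη hI hρ.le (T := fun t => -r₁ + 2 * r₁ * t)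
      (ℓ := fun _ => lam₀) (contDiff_const.add (contDiff_const.mul contDiff_id)) hTm
      contDiff_const (fun _ _ => hl01) (by
        intro t ht p hp
        refine ne3 hRE hRC hJ hδ hl01 hl1 (hTm t ht) ?_ hp
        have : 0 ≤ 2 * r₁ * t := by have := ht.1; positivity
        linarith) h0
    have e : -r₁ + 2 * r₁ * 1 = r₁ := by ring
    simp only [e] at h1
    exact h1
  -- step 4
  have s4 : Thin 𝓘(ℝ, R4) (fun p => J (r₁, Em δ p)) ψ := by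
    have hX1 : X r₁ ∉ SH η :=
      not_mem_SH (hJ.lvl r₁ hpr₁) hr0 (hr1.trans hη1) (hJ.re r₁ hpr₁)
    have h0 : Thin 𝓘(ℝ, R4) (fun p => J (r₁, Em δ (cl (lam₀ + 0 * (1 - lam₀)) p))) ψ := by
      rw [zero_mul, add_zero]; exact s3
    have h1 := thin_step hRE hRC hT2 hJ hδ hδη hI hρ.le (T := fun _ => r₁)
      (ℓ := fun t => lam₀ + t * (1 - lam₀)) contDiff_const (fun t _ => hpr₁)
      (contDiff_lin lam₀ 1) (fun t ht => lin_mem hl01 h11 ht) (by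
        intro t ht p hp h
        apply hX1
        rw [← h]
        exact Em_SH hRE hδ hδη (cl_AA hRC (lin_mem hl01 h11 ht) hp)) h0
    have e : lam₀ + 1 * (1 - lam₀) = 1 := by ring
    simp only [e, hRC.2.1] at h1
    exact h1
  -- step 5
  exact step5 hRE hT2 hδ (fun q => J (r₁, q)) s4

end Pool.Agent.Helper34.BI
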