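import Pool.Agent.Helper34.BI.StD

/-!
# Project BI (MP_8e98f2_gt), module LG: from local to global in time
-/

set_option autoImplicit false

open Module Set Filter Topology
open scoped ContDiff Manifold ComplexConjugate
open Pool.Agent.Helper65.Barb Pool.Agent.Helper18.BI Pool.Agent.Helper27.BI

namespace Pool.Agent.Helper34.BI

namespace LG

/-- off the exceptional times the members of the family are germs of embeddings -/
private theorem embOn_of {J : ℝ × R4 → R4} (hJ : BFam J) {t : ℝ}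
    (ht : InjOn (fun p => J (t, p)) SP) : EmbOn 𝓘(ℝ, R4) (fun p => J (t, p)) SP :=
  ⟨hJ.loc t, ht⟩

/-- two times with no exceptional time between them -/
private theorem fam {J : ℝ × R4 → R4} (h1 : StMRL) (hJ : BFam J) {a b : ℝ}
    (h : ∀ t ∈ uIcc a b, InjOn (fun p => J (t, p)) SP) :
    MR (fun p => J (a, p)) (fun p => J (b, p)) := by
  obtain ⟨-, hsymm, -, hfam, -⟩ := h1
  rcases le_total a b with hab | hab
  · rw [uIcc_of_le hab] at h
    exact hfam J a b hab (fun t _ => hJ.smooth t) (fun t ht => embOn_of hJ (h t ht))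
  · rw [uIcc_of_ge hab] at h
    exact hsymm _ _ (hfam J b a hab (fun t _ => hJ.smooth t) (fun t ht => embOn_of hJ (h t ht)))

/-- the crossing at an exceptional time -/
private theorem crossing {J : ℝ × R4 → R4} (h1 : StMRL) (h2 : StCR) (hJ : BFam J) {t ε : ℝ}
    (ht : ¬ InjOn (fun p => J (t, p)) SP) (hε : 0 < ε)
    (hloc : ∀ s ∈ Ioo (t - ε) (t + ε), s ≠ t → InjOn (fun p => J (s, p)) SP) :
    ∃ t₁ ∈ Ioo (t - ε) t, ∃ t₂ ∈ Ioo t (t + ε), MR (fun p => J (t₁, p)) (fun p => J (t₂, p)) := by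
  rcases hJ.cross t ht with ⟨u, p, hp⟩ | ⟨u, p, hp⟩
  · obtain ⟨t₁, ht₁, t₂, ht₂, -, -, h⟩ := h2 J t u p hp ε hε
    exact ⟨t₁, ht₁, t₂, ht₂, h⟩
  · obtain ⟨t₁, ht₁, t₂, ht₂, -, -, h⟩ := h2 _ t u p hp ε hε
    refine ⟨t₁, ht₁, t₂, ht₂, ?_⟩
    have e₁ : EmbOn 𝓘(ℝ, R4) (fun p => J (t₁, p)) SP :=
      embOn_of hJ (hloc t₁ ⟨ht₁.1, by linarith [ht₁.2]⟩ (ne_of_lt ht₁.2))
    have e₂ : EmbOn 𝓘(ℝ, R4) (fun p => J (t₂, p)) SP :=
      embOn_of hJ (hloc t₂ ⟨by linarith [ht₂.1], ht₂.2⟩ (ne_of_gt ht₂.1))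
    exact h1.2.2.2.2.1 _ _ e₁ e₂ h

/-- the local claim -/
private theorem local_claim {J : ℝ × R4 → R4} (h1 : StMRL) (h2 : StCR) (hJ : BFam J) (t : ℝ) :
    ∃ ε > 0, ∀ a ∈ Ioo (t - ε) (t + ε), ∀ b ∈ Ioo (t - ε) (t + ε),
      InjOn (fun p => J (a, p)) SP → InjOn (fun p => J (b, p)) SP →
        MR (fun p => J (a, p)) (fun p => J (b, p)) := by
  have hfin : ({s | ¬ InjOn (fun p => J (s, p)) SP} \ {t}).Finite := hJ.finite.subset sdiff_subset
  obtain ⟨ε, hε, hball⟩ := Metric.isOpen_iff.1 hfin.isClosed.isOpen_compl t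
    (fun h => h.2 rfl)
  rw [Real.ball_eq_Ioo] at hball
  have hloc : ∀ s ∈ Ioo (t - ε) (t + ε), s ≠ t → InjOn (fun p => J (s, p)) SP := by
    intro s hs hst
    by_contra hc
    exact hball hs ⟨hc, hst⟩
  refine ⟨ε, hε, ?_⟩
  -- the oriented version
  have key : ∀ a ∈ Ioo (t - ε) (t + ε), ∀ b ∈ Ioo (t - ε) (t + ε), a ≤ b →
      InjOn (fun p => J (a, p)) SP → InjOn (fun p => J (b, p)) SP →
        MR (fun p => J (a, p)) (fun p => J (b, p)) := by
    intro a ha b hb hab hia hib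
    by_cases hc : InjOn (fun p => J (t, p)) SP ∨ t ∉ Icc a b
    · refine fam h1 hJ (fun s hs => ?_)
      rw [uIcc_of_le hab] at hs
      by_cases hst : s = t
      · rcases hc with hc | hc
        · rw [hst]
          exact hc
        · rw [hst] at hs
          exact absurd hs hc
      · exact hloc s ⟨lt_of_lt_of_le ha.1 hs.1, lt_of_le_of_lt hs.2 hb.2⟩ hst
    · push Not at hc
      obtain ⟨hct, hmem⟩ := hc
      have hat : a < t := lt_of_le_of_ne hmem.1 (fun h => hct (h ▸ hia))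
      have htb : t < b := lt_of_le_of_ne hmem.2 (fun h => hct (h.symm ▸ hib))
      obtain ⟨t₁, ht₁, t₂, ht₂, hm⟩ := crossing h1 h2 hJ hct hε hloc
      have e₁ : InjOn (fun p => J (t₁, p)) SP :=
        hloc t₁ ⟨ht₁.1, by linarith [ht₁.2]⟩ (ne_of_lt ht₁.2)
      have e₂ : InjOn (fun p => J (t₂, p)) SP :=
        hloc t₂ ⟨by linarith [ht₂.1], ht₂.2⟩ (ne_of_gt ht₂.1)
      have m₁ : MR (fun p => J (a, p)) (fun p => J (t₁, p)) := by
        refine fam h1 hJ (fun s hs => hloc s ?_ ?_)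
        · rw [mem_uIcc] at hs
          constructor
          · rcases hs with hs | hs <;> linarith [ha.1, ht₁.1, hs.1]
          · rcases hs with hs | hs <;> linarith [hs.2, ht₁.2]
        · rw [mem_uIcc] at hs
          apply ne_of_lt
          rcases hs with hs | hs <;> linarith [hs.2, ht₁.2]
      have m₂ : MR (fun p => J (t₂, p)) (fun p => J (b, p)) := by
        refine fam h1 hJ (fun s hs => hloc s ?_ ?_)
        · rw [mem_uIcc] at hs
          constructor
          · rcases hs with hs | hs <;> linarith [ht₂.1, hs.1]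
          · rcases hs with hs | hs <;> linarith [hs.2, ht₂.2, hb.2]
        · rw [mem_uIcc] at hs
          apply ne_of_gt
          rcases hs with hs | hs <;> linarith [hs.1, ht₂.1]
      exact h1.2.2.1 _ _ _ (embOn_of hJ e₁) m₁ (h1.2.2.1 _ _ _ (embOn_of hJ e₂) hm m₂)
  intro a ha b hb hia hib
  rcases le_total a b with hab | hab
  · exact key a ha b hb hab hia hib
  · exact h1.2.1 _ _ (key b hb a ha hab hib hia)

end LG

open LG in
theorem m_LG (h1 : StMRL) (h2 : StCR) : StLG := by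
  intro J hJ h0 h1'
  have hopen : IsOpen {t : ℝ | ∀ᶠ s in 𝓝 t, InjOn (fun p => J (s, p)) SP →
      MR (fun p => J (0, p)) (fun p => J (s, p))} := isOpen_setOfPred_eventually_nhds
  have hclosed : IsClosed {t : ℝ | ∀ᶠ s in 𝓝 t, InjOn (fun p => J (s, p)) SP →
      MR (fun p => J (0, p)) (fun p => J (s, p))} := by
    rw [← closure_subset_iff_isClosed]
    intro t ht
    obtain ⟨ε, hε, hloc⟩ := local_claim h1 h2 hJ t
    have hO : IsOpen (Ioo (t - ε) (t + ε)) := isOpen_Ioo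
    have htO : t ∈ Ioo (t - ε) (t + ε) := ⟨by linarith, by linarith⟩
    obtain ⟨s, hsO, hs⟩ := mem_closure_iff.1 ht _ hO htO
    have hs' : ∀ᶠ r in 𝓝 s, InjOn (fun p => J (r, p)) SP →
      MR (fun p => J (0, p)) (fun p => J (r, p)) := hs
    obtain ⟨V, hV, hVo, hsV⟩ := eventually_nhds_iff.1 (hs'.and (hO.mem_nhds hsO))
    have hdense : Dense ({t | ¬ InjOn (fun p => J (t, p)) SP}ᶜ : Set ℝ) :=
      hJ.finite.countable.dense_compl ℝ
    obtain ⟨r, hr, hrC⟩ := hdense.exists_mem_open hVo ⟨s, hsV⟩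
    have hri : InjOn (fun p => J (r, p)) SP := by
      by_contra hc
      exact hr hc
    obtain ⟨hm, hrO⟩ := hV r hrC
    filter_upwards [hO.mem_nhds htO] with x hx hxi
    exact h1.2.2.1 _ _ _ (embOn_of hJ hri) (hm hri) (hloc r hrO x hx hri hxi)
  have hne : ({t : ℝ | ∀ᶠ s in 𝓝 t, InjOn (fun p => J (s, p)) SP →
      MR (fun p => J (0, p)) (fun p => J (s, p))}).Nonempty := by
    refine ⟨0, ?_⟩
    obtain ⟨ε, hε, hloc⟩ := local_claim h1 h2 hJ 0
    have hO : IsOpen (Ioo ((0 : ℝ) - ε) (0 + ε)) := isOpen_Ioo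
    have htO : (0 : ℝ) ∈ Ioo ((0 : ℝ) - ε) (0 + ε) := ⟨by linarith, by linarith⟩
    show ∀ᶠ s in 𝓝 (0 : ℝ), _
    filter_upwards [hO.mem_nhds htO] with x hx hxi
    exact hloc 0 htO x hx h0.2 hxi
  have huniv := IsClopen.eq_univ ⟨hclosed, hopen⟩ hne
  have h1mem : (1 : ℝ) ∈ {t : ℝ | ∀ᶠ s in 𝓝 t, InjOn (fun p => J (s, p)) SP →
      MR (fun p => J (0, p)) (fun p => J (s, p))} := by
    rw [huniv]
    exact mem_univ _
  exact (show ∀ᶠ s in 𝓝 (1 : ℝ), InjOn (fun p => J (s, p)) SP →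
      MR (fun p => J (0, p)) (fun p => J (s, p)) from h1mem).self_of_nhds h1'.2

end Pool.Agent.Helper34.BI
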