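import Pool.Agent.Helper34.BI.StD
import Pool.Agent.Helper34.BI.Loc

/-!
# Project BI, module RC: the contraction
-/

set_option autoImplicit false

open Module Set Filter Topology
open scoped ContDiff Manifold ComplexConjugate
open Pool.Agent.Helper65.Barb Pool.Agent.Helper18.BI Pool.Agent.Helper27.BI

namespace Pool.Agent.Helper34.BI

private theorem nsq_eq_RC (x : ℝ × ℂ) : nsq x = x.1 ^ 2 + x.2.re ^ 2 + x.2.im ^ 2 := rfl

private theorem nsq_contDiff_RC : ContDiff ℝ ∞ (fun p : R4 => nsq p.2) := by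
  have h1 : ContDiff ℝ ∞ (fun p : R4 => p.2.1) := contDiff_fst.comp contDiff_snd
  have h2 : ContDiff ℝ ∞ (fun p : R4 => p.2.2.re) :=
    Complex.reCLM.contDiff.comp (contDiff_snd.comp contDiff_snd)
  have h3 : ContDiff ℝ ∞ (fun p : R4 => p.2.2.im) :=
    Complex.imCLM.contDiff.comp (contDiff_snd.comp contDiff_snd)
  exact ((h1.pow 2).add (h2.pow 2)).add (h3.pow 2)

private theorem cfac_contDiff_RC : ContDiff ℝ ∞ (fun q : ℝ × ℝ => cfac q.1 q.2) := by
  unfold cfac
  exact contDiff_fst.add ((contDiff_const.sub contDiff_fst).mul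
    (contDiff_step.comp ((contDiff_snd.sub contDiff_const).div_const _)))

private theorem cl_contDiff_RC : ContDiff ℝ ∞ (fun q : ℝ × R4 => cl q.1 q.2) := by
  have h1 : ContDiff ℝ ∞ (fun q : ℝ × R4 => cfac q.1 (nsq q.2.2)) :=
    cfac_contDiff_RC.comp (contDiff_fst.prodMk (nsq_contDiff_RC.comp contDiff_snd))
  exact (contDiff_fst.comp contDiff_snd).prodMk (h1.smul (contDiff_snd.comp contDiff_snd))

private theorem step_mem_RC (s : ℝ) : 0 ≤ step s ∧ step s ≤ 1 :=
  ⟨Real.smoothTransition.nonneg s, Real.smoothTransition.le_one s⟩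

private theorem cfac_mono_RC {lam : ℝ} (h : lam ≤ 1) : Monotone (cfac lam) := by
  intro a b hab
  unfold cfac
  have h1 : step ((a - 1 / 20) / (1 / 25)) ≤ step ((b - 1 / 20) / (1 / 25)) :=
    Real.smoothTransition.monotone (by
      apply div_le_div_of_nonneg_right _ (by norm_num)
      linarith)
  nlinarith

private theorem cfac_ge_RC {lam : ℝ} (h : lam ≤ 1) (q : ℝ) : lam ≤ cfac lam q := by
  unfold cfac
  have := (step_mem_RC ((q - 1 / 20) / (1 / 25))).1
  nlinarith

private theorem cfac_le_RC {lam : ℝ} (h : lam ≤ 1) (q : ℝ) : cfac lam q ≤ 1 := by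
  unfold cfac
  have := (step_mem_RC ((q - 1 / 20) / (1 / 25))).2
  nlinarith

private theorem nsq_smul_RC (l : ℝ) (x : ℝ × ℂ) : nsq (l • x) = l ^ 2 * nsq x := by
  rw [nsq_eq_RC, nsq_eq_RC]
  simp only [Prod.smul_fst, Prod.smul_snd, smul_eq_mul, Complex.real_smul, Complex.mul_re,
    Complex.mul_im, Complex.ofReal_re, Complex.ofReal_im]
  ring

private theorem nsq_nonneg_RC (x : ℝ × ℂ) : 0 ≤ nsq x := by
  rw [nsq_eq_RC]
  positivity

private theorem smono_RC {lam : ℝ} (h0 : 0 < lam) (h1 : lam ≤ 1) {a b : ℝ} (ha : 0 ≤ a)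
    (hab : a < b) : cfac lam a ^ 2 * a < cfac lam b ^ 2 * b := by
  have h2 := cfac_mono_RC h1 hab.le
  have h3 := cfac_ge_RC h1 a
  have h4 : cfac lam a ^ 2 ≤ cfac lam b ^ 2 := by nlinarith
  have h5 : 0 < cfac lam b ^ 2 := by
    have : 0 < cfac lam b := by linarith
    positivity
  nlinarith

private theorem inj_RC {lam : ℝ} (h0 : 0 < lam) (h1 : lam ≤ 1) : Function.Injective (cl lam) := by
  intro p p' h
  have e1 : (cl lam p).1 = (cl lam p').1 := congrArg Prod.fst h
  have e2 : (cl lam p).2 = (cl lam p').2 := congrArg Prod.snd h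
  change p.1 = p'.1 at e1
  change cfac lam (nsq p.2) • p.2 = cfac lam (nsq p'.2) • p'.2 at e2
  have e3 : nsq p.2 = nsq p'.2 := by
    have h2 := congrArg nsq e2
    rw [nsq_smul_RC, nsq_smul_RC] at h2
    rcases lt_trichotomy (nsq p.2) (nsq p'.2) with h3 | h3 | h3
    · exact absurd h2 (smono_RC h0 h1 (nsq_nonneg_RC _) h3).ne
    · exact h3
    · exact absurd h2 (smono_RC h0 h1 (nsq_nonneg_RC _) h3).ne'
  rw [e3] at e2
  have h4 : cfac lam (nsq p'.2) ≠ 0 := by
    have := cfac_ge_RC h1 (nsq p'.2)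
    intro h5
    linarith
  exact Prod.ext e1 (smul_right_injective _ h4 e2)

private theorem line_deriv_RC (x y : ℝ) : HasDerivAt (fun t : ℝ => x + t * y) y 0 := by
  have := ((hasDerivAt_id (0 : ℝ)).mul_const y).const_add x
  simpa using this

private theorem fderiv_RC {lam : ℝ} (h0 : 0 < lam) (h1 : lam ≤ 1) (p v : R4)
    (hv : fderiv ℝ (cl lam) p v = 0) : v = 0 := by
  have hcd : ContDiff ℝ ∞ (cl lam) := cl_contDiff_RC.comp (contDiff_const.prodMk contDiff_id)
  have hfd : ContDiff ℝ ∞ (cfac lam) := cfac_contDiff_RC.comp (contDiff_const.prodMk contDiff_id)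
  have hd : DifferentiableAt ℝ (cl lam) p := hcd.differentiable (by simp) p
  obtain ⟨s, a, w⟩ := p
  obtain ⟨σ, b, z⟩ := v
  have hline : HasDerivAt (fun t : ℝ => ((s, a, w) : R4) + t • ((σ, b, z) : R4)) (σ, b, z) 0 := by
    have := ((hasDerivAt_id (0 : ℝ)).smul_const ((σ, b, z) : R4)).const_add ((s, a, w) : R4)
    simpa using this
  have hline0 : ((s, a, w) : R4) + (0 : ℝ) • ((σ, b, z) : R4) = (s, a, w) := by
    rw [zero_smul, add_zero]
  have hc : HasDerivAt (fun t : ℝ => cl lam ((s, a, w) + t • (σ, b, z))) 0 0 := by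
    have h2 : HasFDerivAt (cl lam) (fderiv ℝ (cl lam) (s, a, w))
        (((s, a, w) : R4) + (0 : ℝ) • ((σ, b, z) : R4)) := by
      rw [hline0]
      exact hd.hasFDerivAt
    have h3 := h2.comp_hasDerivAt (0 : ℝ) hline
    rw [hv] at h3
    exact h3
  -- the squared radius along the line
  set R : ℝ → ℝ := fun t => (a + t * b) ^ 2 + (w.re + t * z.re) ^ 2 + (w.im + t * z.im) ^ 2 with hR
  set D : ℝ := 2 * (a * b + w.re * z.re + w.im * z.im) with hD
  have hRd : HasDerivAt R D 0 := by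
    have h3 := (((line_deriv_RC a b).pow 2).add ((line_deriv_RC w.re z.re).pow 2)).add
      ((line_deriv_RC w.im z.im).pow 2)
    refine h3.congr_deriv ?_
    simp only [zero_mul, add_zero, hD]
    ring
  set L : ℝ := deriv (cfac lam) (R 0) with hL
  have hLd : HasDerivAt (cfac lam) L (R 0) := (hfd.differentiable (by simp) _).hasDerivAt
  have hL0 : 0 ≤ L := (cfac_mono_RC h1).deriv_nonneg
  set f : ℝ → ℝ := fun t => cfac lam (R t) with hf
  have hfd' : HasDerivAt f (L * D) 0 := hLd.comp (0 : ℝ) hRd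
  have hf0 : 0 < f 0 := lt_of_lt_of_le h0 (cfac_ge_RC h1 _)
  have e1 : ∀ t : ℝ, cl lam ((s, a, w) + t • (σ, b, z)) =
      (s + t * σ, f t * (a + t * b), ((f t : ℝ) : ℂ) * (w + t * z)) := by
    intro t
    have h2 : nsq (((s, a, w) : R4) + t • ((σ, b, z) : R4)).2 = R t := by
      rw [nsq_eq_RC]
      simp [hR]
    unfold cl
    rw [h2]
    refine Prod.ext ?_ (Prod.ext ?_ ?_)
    · simp
    · simp [hf]
    · simp [hf]
      ring
  simp only [e1] at hc
  have hσ : σ = 0 := by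
    have h2 := (ContinuousLinearMap.fst ℝ ℝ (ℝ × ℂ)).hasFDerivAt.comp_hasDerivAt (0 : ℝ) hc
    have h5 := (line_deriv_RC s σ).unique h2
    simpa using h5
  have hb : L * D * a + f 0 * b = 0 := by
    have h2 := ((ContinuousLinearMap.fst ℝ ℝ ℂ).comp
      (ContinuousLinearMap.snd ℝ ℝ (ℝ × ℂ))).hasFDerivAt.comp_hasDerivAt (0 : ℝ) hc
    have h3 := hfd'.mul (line_deriv_RC a b)
    have h4 := h3.unique h2
    simpa using h4
  have hre : L * D * w.re + f 0 * z.re = 0 := by
    have h2 := (Complex.reCLM.comp ((ContinuousLinearMap.snd ℝ ℝ ℂ).comp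
      (ContinuousLinearMap.snd ℝ ℝ (ℝ × ℂ)))).hasFDerivAt.comp_hasDerivAt (0 : ℝ) hc
    have h3 := hfd'.mul (line_deriv_RC w.re z.re)
    have e2 : ((Complex.reCLM.comp ((ContinuousLinearMap.snd ℝ ℝ ℂ).comp
        (ContinuousLinearMap.snd ℝ ℝ (ℝ × ℂ)))) ∘ fun t : ℝ =>
        ((s + t * σ, f t * (a + t * b), ((f t : ℝ) : ℂ) * (w + t * z)) : R4)) =
        (f * fun t : ℝ => w.re + t * z.re) := by
      ext t
      simp
    rw [e2] at h2
    have h4 := h3.unique h2
    simpa using h4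
  have him : L * D * w.im + f 0 * z.im = 0 := by
    have h2 := (Complex.imCLM.comp ((ContinuousLinearMap.snd ℝ ℝ ℂ).comp
      (ContinuousLinearMap.snd ℝ ℝ (ℝ × ℂ)))).hasFDerivAt.comp_hasDerivAt (0 : ℝ) hc
    have h3 := hfd'.mul (line_deriv_RC w.im z.im)
    have e2 : ((Complex.imCLM.comp ((ContinuousLinearMap.snd ℝ ℝ ℂ).comp
        (ContinuousLinearMap.snd ℝ ℝ (ℝ × ℂ)))) ∘ fun t : ℝ =>
        ((s + t * σ, f t * (a + t * b), ((f t : ℝ) : ℂ) * (w + t * z)) : R4)) =
        (f * fun t : ℝ => w.im + t * z.im) := by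
      ext t
      simp
    rw [e2] at h2
    have h4 := h3.unique h2
    simpa using h4
  have hR0 : 0 ≤ R 0 := by
    simp only [hR]
    positivity
  have hD0 : D = 0 := by
    have h3 : (L * D * a + f 0 * b) * a + (L * D * w.re + f 0 * z.re) * w.re +
        (L * D * w.im + f 0 * z.im) * w.im = (L * R 0 + f 0 / 2) * D := by
      simp only [hR, hD]
      ring
    rw [hb, hre, him] at h3
    have h4 : 0 < L * R 0 + f 0 / 2 := by
      have := mul_nonneg hL0 hR0
      linarith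
    rcases mul_eq_zero.1 (show (L * R 0 + f 0 / 2) * D = 0 by rw [← h3]; ring) with h5 | h5
    · exact absurd h5 h4.ne'
    · exact h5
  have key : ∀ x y : ℝ, L * D * x + f 0 * y = 0 → y = 0 := by
    intro x y h
    rw [hD0, mul_zero, zero_mul, zero_add] at h
    rcases mul_eq_zero.1 h with h3 | h3
    · exact absurd h3 hf0.ne'
    · exact h3
  have hb0 := key _ _ hb
  have hz : z = 0 := Complex.ext (key _ _ hre) (key _ _ him)
  rw [hσ, hb0, hz]
  rfl

private theorem loc_RC {lam : ℝ} (h0 : 0 < lam) (h1 : lam ≤ 1) (p : R4) :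
    IsLocalDiffeomorphAt 𝓘(ℝ, R4) 𝓘(ℝ, R4) ∞ (cl lam) p := by
  have hcd : ContDiff ℝ ∞ (cl lam) := cl_contDiff_RC.comp (contDiff_const.prodMk contDiff_id)
  refine isLocalDiffeomorphAt_of_injective rfl (Eventually.of_forall fun q => hcd.contDiffAt) ?_
  rw [injective_iff_map_eq_zero]
  exact fun v hv => fderiv_RC h0 h1 p v hv

theorem m_RC : StRC := by
  refine ⟨cl_contDiff_RC, ?_, ?_⟩
  · intro p
    unfold cl cfac
    simp
  · rintro lam ⟨h0, h1⟩
    refine ⟨⟨fun p _ => loc_RC h0 h1 p, (inj_RC h0 h1).injOn⟩, fun p => rfl, ?_, ?_, ?_, ?_, ?_, ?_⟩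
    · intro p hp
      unfold cl cfac
      rw [step_of_nonpos (div_nonpos_of_nonpos_of_nonneg (by linarith) (by norm_num)), mul_zero,
        add_zero]
    · intro p hp
      unfold cl cfac
      rw [step_of_one_le (by rw [le_div_iff₀ (by norm_num)]; linarith)]
      simp
    · intro p hp
      change (cfac lam (nsq p.2) • p.2).2 = 0
      rw [Prod.smul_snd, hp, smul_zero]
    · intro p
      change nsq (cfac lam (nsq p.2) • p.2) ≤ nsq p.2
      rw [nsq_smul_RC]
      have h2 := cfac_ge_RC h1 (nsq p.2)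
      have h3 := cfac_le_RC h1 (nsq p.2)
      have h4 := nsq_nonneg_RC p.2
      have h5 : cfac lam (nsq p.2) ^ 2 ≤ 1 := by nlinarith
      nlinarith
    · rintro p ⟨-, h2, h3, -⟩
      change 0 < (cfac lam (nsq p.2) • p.2).1 ∧ (cfac lam (nsq p.2) • p.2).1 ≤ 4 / 5
      rw [Prod.smul_fst, smul_eq_mul]
      have h4 := cfac_ge_RC h1 (nsq p.2)
      have h5 := cfac_le_RC h1 (nsq p.2)
      constructor
      · exact mul_pos (by linarith) (by linarith)
      · nlinarith
    · intro p hp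
      change 0 < nsq (cfac lam (nsq p.2) • p.2)
      rw [nsq_smul_RC]
      have h4 := cfac_ge_RC h1 (nsq p.2)
      have h5 : 0 < cfac lam (nsq p.2) := by linarith
      positivity

end Pool.Agent.Helper34.BI
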