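import Pool.Agent.Helper34.BI.StD
import Pool.Agent.Helper34.BI.Loc

/-!
# Project BI (MP_8e98f2_gt), module SHR: the polynomial shear
-/

set_option autoImplicit false

open Module Set Filter Topology
open scoped ContDiff Manifold ComplexConjugate
open Pool.Agent.Helper65.Barb Pool.Agent.Helper18.BI

namespace Pool.Agent.Helper34.BI

namespace Shr

/-- the exponent of the shear -/
noncomputable def gg (p : R4) : ℝ :=
  Complex.normSq p.2.2 * (rsq 1 p - 1 / 25) * (rsq 0 p - 1 / 25)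

theorem shr_eq (c : ℝ) (p : R4) : shr c p = (p.1 + c * gg p, p.2) := by
  unfold shr gg
  ring_nf

theorem gg_snd (s s' : ℝ) (x : ℝ × ℂ) : gg (s, x) = gg (s', x) := rfl

theorem shr_neg (c : ℝ) (p : R4) : shr (-c) (shr c p) = p := by
  obtain ⟨s, x⟩ := p
  rw [shr_eq, shr_eq]
  refine Prod.ext ?_ rfl
  show s + c * gg (s, x) + -c * gg (s + c * gg (s, x), x) = s
  rw [gg_snd (s + c * gg (s, x)) s x]
  ring

theorem shr_zero (p : R4) : shr 0 p = p := by
  rw [shr_eq]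
  refine Prod.ext ?_ rfl
  show p.1 + 0 * gg p = p.1
  ring

theorem smooth_rsq (c : ℝ) : ContDiff ℝ ∞ (rsq c) := by
  have h1 : ContDiff ℝ ∞ (fun p : R4 => p.2.1) := contDiff_fst.comp contDiff_snd
  have h2 : ContDiff ℝ ∞ (fun p : R4 => p.2.2.re) :=
    Complex.reCLM.contDiff.comp (contDiff_snd.comp contDiff_snd)
  have h3 : ContDiff ℝ ∞ (fun p : R4 => p.2.2.im) :=
    Complex.imCLM.contDiff.comp (contDiff_snd.comp contDiff_snd)
  have : rsq c = fun p : R4 => (p.2.1 - c) ^ 2 + p.2.2.re ^ 2 + p.2.2.im ^ 2 := rfl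
  rw [this]
  exact (((h1.sub contDiff_const).pow 2).add (h2.pow 2)).add (h3.pow 2)

theorem smooth_nsq : ContDiff ℝ ∞ (fun p : R4 => Complex.normSq p.2.2) := by
  have h2 : ContDiff ℝ ∞ (fun p : R4 => p.2.2.re) :=
    Complex.reCLM.contDiff.comp (contDiff_snd.comp contDiff_snd)
  have h3 : ContDiff ℝ ∞ (fun p : R4 => p.2.2.im) :=
    Complex.imCLM.contDiff.comp (contDiff_snd.comp contDiff_snd)
  have : (fun p : R4 => Complex.normSq p.2.2) =
      fun p : R4 => p.2.2.re * p.2.2.re + p.2.2.im * p.2.2.im :=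
    funext fun p => Complex.normSq_apply _
  rw [this]
  exact (h2.mul h2).add (h3.mul h3)

theorem smooth_gg : ContDiff ℝ ∞ gg := by
  unfold gg
  exact (smooth_nsq.mul ((smooth_rsq 1).sub contDiff_const)).mul
    ((smooth_rsq 0).sub contDiff_const)

theorem smooth_shr2 : ContDiff ℝ ∞ (fun q : ℝ × R4 => shr q.1 q.2) := by
  have : (fun q : ℝ × R4 => shr q.1 q.2) = fun q => (q.2.1 + q.1 * gg q.2, q.2.2) :=
    funext fun q => shr_eq _ _
  rw [this]
  exact ((contDiff_fst.comp contDiff_snd).add (contDiff_fst.mul (smooth_gg.comp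
    contDiff_snd))).prodMk (contDiff_snd.comp contDiff_snd)

theorem smooth_shr (c : ℝ) : ContDiff ℝ ∞ (shr c) :=
  smooth_shr2.comp (contDiff_const.prodMk contDiff_id)

theorem gg_line (s u : ℝ) : gg (s, u, 0) = 0 := by
  unfold gg
  simp

theorem gg_SP {p : R4} (hp : p ∈ SP) : gg p = 0 := by
  unfold gg
  rcases hp with (hp | hp) | hp
  · rw [show rsq 0 p = 1 / 25 from hp.2]; ring
  · rw [show rsq 1 p = 1 / 25 from hp.2]; ring
  · rw [show p.2.2 = 0 from hp.2.2.2]; simp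

theorem fix (c : ℝ) {p : R4} (hp : p ∈ SP) : shr c p = p := by
  rw [shr_eq, gg_SP hp]
  refine Prod.ext ?_ rfl
  show p.1 + c * 0 = p.1
  ring

theorem fix_line (c s u : ℝ) : shr c (s, u, 0) = (s, u, 0) := by
  rw [shr_eq, gg_line]
  refine Prod.ext ?_ rfl
  show s + c * 0 = s
  ring

/-- composition of a local diffeomorphism with the shear -/
theorem loc_comp {F : R4 → R4} {p : R4} (c : ℝ)
    (hF : IsLocalDiffeomorphAt 𝓘(ℝ, R4) 𝓘(ℝ, R4) ∞ F (shr c p)) :
    IsLocalDiffeomorphAt 𝓘(ℝ, R4) 𝓘(ℝ, R4) ∞ (fun p => F (shr c p)) p := by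
  have h1 := eventually_contDiffAt hF
  have h2 := injective_fderiv hF
  have hc : ContinuousAt (shr c) p := (smooth_shr c).continuous.continuousAt
  refine isLocalDiffeomorphAt_of_injective rfl ?_ ?_
  · filter_upwards [hc.eventually h1] with q hq
    exact hq.comp q (smooth_shr c).contDiffAt
  · have d1 : HasFDerivAt F (fderiv ℝ F (shr c p)) (shr c p) :=
      (h1.self_of_nhds.differentiableAt (by simp)).hasFDerivAt
    have d2 : HasFDerivAt (shr c) (fderiv ℝ (shr c) p) p :=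
      ((smooth_shr c).contDiffAt.differentiableAt (by simp)).hasFDerivAt
    have d3 : HasFDerivAt (shr (-c)) (fderiv ℝ (shr (-c)) (shr c p)) (shr c p) :=
      ((smooth_shr (-c)).contDiffAt.differentiableAt (by simp)).hasFDerivAt
    have e1 : fderiv ℝ (fun p => F (shr c p)) p =
        (fderiv ℝ F (shr c p)).comp (fderiv ℝ (shr c) p) := (d1.comp p d2).fderiv
    have e2 : HasFDerivAt (fun p : R4 => p)
        ((fderiv ℝ (shr (-c)) (shr c p)).comp (fderiv ℝ (shr c) p)) p := by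
      have := d3.comp p d2
      refine this.congr_of_eventuallyEq (Eventually.of_forall fun q => ?_)
      exact (shr_neg c q).symm
    have e3 := e2.unique (hasFDerivAt_id p)
    intro v w hvw
    rw [e1] at hvw
    have h4 : fderiv ℝ (shr c) p v = fderiv ℝ (shr c) p w := h2 hvw
    have h5 := congrArg (fderiv ℝ (shr (-c)) (shr c p)) h4
    have e4 : ∀ z, (fderiv ℝ (shr (-c)) (shr c p)) (fderiv ℝ (shr c) p z) = z := fun z =>
      congrArg (fun A : R4 →L[ℝ] R4 => A z) e3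
    rw [e4, e4] at h5
    exact h5

/-- the family -/
theorem fam {F : R4 → R4} {τ : ℝ → ℝ} (hF : EmbOn 𝓘(ℝ, R4) F SP) (hτ : ContDiff ℝ ∞ τ) :
    FamOn 𝓘(ℝ, R4) (fun q : ℝ × R4 => F (shr (τ q.1) q.2)) SP := by
  have hJ : ContDiff ℝ ∞ (fun q : ℝ × R4 => shr (τ q.1) q.2) :=
    smooth_shr2.comp ((hτ.comp contDiff_fst).prodMk contDiff_snd)
  refine ⟨⟨(fun q : ℝ × R4 => shr (τ q.1) q.2) ⁻¹' {p | ∀ᶠ q in 𝓝 p, ContDiffAt ℝ ∞ F q},
    (isOpen_setOfPred_eventually_nhds).preimage hJ.continuous, ?_, ?_⟩, ?_⟩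
  · rintro ⟨t, p⟩ ⟨-, hp⟩
    show ∀ᶠ q in 𝓝 (shr (τ t) p), ContDiffAt ℝ ∞ F q
    rw [fix _ hp]
    exact eventually_contDiffAt (hF.1 p hp)
  · rw [contMDiffOn_iff_contDiffOn]
    intro q hq
    have hq' : ∀ᶠ q' in 𝓝 (shr (τ q.1) q.2), ContDiffAt ℝ ∞ F q' := hq
    exact (hq'.self_of_nhds.comp q hJ.contDiffAt).contDiffWithinAt
  · intro t _
    refine ⟨fun p hp => ?_, ?_⟩
    · have h := hF.1 p hp
      rw [← fix (τ t) hp] at h
      exact loc_comp (τ t) h
    · intro p hp q hq hpq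
      have h1 : F (shr (τ t) p) = F (shr (τ t) q) := hpq
      rw [fix _ hp, fix _ hq] at h1
      exact hF.2 hp hq h1

/-- the derivative of the shear at a point of the first core sphere -/
theorem deriv_shr (c : ℝ) {p : R4} (hp : rsq 0 p = 1 / 25) (v : R4) :
    fderiv ℝ (shr c) p v = (v.1 + c * (2 * Complex.normSq p.2.2 * (rsq 1 p - 1 / 25) *
      drsq 0 p v), v.2) := by
  let A : R4 →L[ℝ] ℝ := (ContinuousLinearMap.fst ℝ ℝ ℂ).comp (ContinuousLinearMap.snd ℝ ℝ (ℝ × ℂ))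
  let R : R4 →L[ℝ] ℝ := Complex.reCLM.comp
    ((ContinuousLinearMap.snd ℝ ℝ ℂ).comp (ContinuousLinearMap.snd ℝ ℝ (ℝ × ℂ)))
  let M : R4 →L[ℝ] ℝ := Complex.imCLM.comp
    ((ContinuousLinearMap.snd ℝ ℝ ℂ).comp (ContinuousLinearMap.snd ℝ ℝ (ℝ × ℂ)))
  have hA : ∀ q : R4, A q = q.2.1 := fun q => rfl
  have hR : ∀ q : R4, R q = q.2.2.re := fun q => rfl
  have hM : ∀ q : R4, M q = q.2.2.im := fun q => rfl
  have h0 : HasFDerivAt (fun q : R4 => rsq 0 q - 1 / 25)
      ((2 * p.2.1) • A + (2 * p.2.2.re) • R + (2 * p.2.2.im) • M) p := by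
    have e : (fun q : R4 => rsq 0 q - 1 / 25) =
        fun q => (A q * A q + R q * R q + M q * M q) - 1 / 25 := by
      funext q
      rw [hA, hR, hM]
      show (q.2.1 - 0) ^ 2 + q.2.2.re ^ 2 + q.2.2.im ^ 2 - 1 / 25 = _
      ring
    rw [e]
    have := (((A.hasFDerivAt (x := p)).mul (A.hasFDerivAt (x := p))).add
      ((R.hasFDerivAt (x := p)).mul (R.hasFDerivAt (x := p)))).add
      ((M.hasFDerivAt (x := p)).mul (M.hasFDerivAt (x := p)))
    refine (this.sub_const (1 / 25)).congr_fderiv ?_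
    rw [← hA p, ← hR p, ← hM p]
    module
  have h1 : HasFDerivAt (fun q : R4 => Complex.normSq q.2.2 * (rsq 1 q - 1 / 25))
      (fderiv ℝ (fun q : R4 => Complex.normSq q.2.2 * (rsq 1 q - 1 / 25)) p) p :=
    ((smooth_nsq.mul ((smooth_rsq 1).sub contDiff_const)).contDiffAt.differentiableAt
      (by simp)).hasFDerivAt
  have h2 := h1.mul h0
  have h3 : HasFDerivAt gg ((Complex.normSq p.2.2 * (rsq 1 p - 1 / 25)) •
      ((2 * p.2.1) • A + (2 * p.2.2.re) • R + (2 * p.2.2.im) • M)) p := by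
    have h2' : HasFDerivAt gg _ p := h2
    refine h2'.congr_fderiv ?_
    rw [hp, sub_self, zero_smul, add_zero]
  have h4 : HasFDerivAt (shr c) (((ContinuousLinearMap.fst ℝ ℝ (ℝ × ℂ)) +
      c • ((Complex.normSq p.2.2 * (rsq 1 p - 1 / 25)) •
      ((2 * p.2.1) • A + (2 * p.2.2.re) • R + (2 * p.2.2.im) • M))).prod
      (ContinuousLinearMap.snd ℝ ℝ (ℝ × ℂ))) p := by
    have e : shr c = fun q : R4 => (q.1 + c * gg q, q.2) := funext fun q => shr_eq c q
    rw [e]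
    exact (hasFDerivAt_fst.add (h3.const_mul c)).prodMk hasFDerivAt_snd
  rw [h4.fderiv]
  refine Prod.ext ?_ rfl
  show v.1 + c * ((Complex.normSq p.2.2 * (rsq 1 p - 1 / 25)) *
      ((2 * p.2.1) * A v + (2 * p.2.2.re) * R v + (2 * p.2.2.im) * M v)) =
    v.1 + c * (2 * Complex.normSq p.2.2 * (rsq 1 p - 1 / 25) * drsq 0 p v)
  rw [hA, hR, hM]
  unfold drsq
  ring

end Shr

open Shr in
theorem m_Shr (t2 : StT2) : StShr := by
  refine ⟨fun F c hF => ⟨⟨fun p hp => ?_, fun p hp q hq hpq => ?_⟩, fun φ => ⟨fun h => ?_,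
    fun h => ?_⟩⟩, fun c p hp => fix c hp, ?_⟩
  · have h := hF.1 p hp
    rw [← fix c hp] at h
    exact loc_comp c h
  · have h1 : F (shr c p) = F (shr c q) := hpq
    rw [fix _ hp, fix _ hq] at h1
    exact hF.2 hp hq h1
  · -- from `F ∘ shr c` to `F`
    have h1 := (t2 R4 R4 𝓘(ℝ, R4) R4).2.2.1 _ φ
      (Shr.fam (τ := fun t => (1 - t) * c) hF ((contDiff_const.sub contDiff_id).mul contDiff_const))
    have e0 : (fun p : R4 => F (shr ((1 - (0 : ℝ)) * c) p)) = fun p => F (shr c p) := by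
      rw [sub_zero, one_mul]
    have e1 : (fun p : R4 => F (shr ((1 - (1 : ℝ)) * c) p)) = F := by
      funext p
      rw [sub_self, zero_mul, shr_zero]
    have h2 : Thin 𝓘(ℝ, R4) (fun p : R4 => F (shr ((1 - (0 : ℝ)) * c) p)) φ →
      Thin 𝓘(ℝ, R4) (fun p : R4 => F (shr ((1 - (1 : ℝ)) * c) p)) φ := h1
    rw [e0, e1] at h2
    exact h2 h
  · have h1 := (t2 R4 R4 𝓘(ℝ, R4) R4).2.2.1 _ φ
      (Shr.fam (τ := fun t => t * c) hF (contDiff_id.mul contDiff_const))
    have e0 : (fun p : R4 => F (shr ((0 : ℝ) * c) p)) = F := by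
      funext p
      rw [zero_mul, shr_zero]
    have e1 : (fun p : R4 => F (shr ((1 : ℝ) * c) p)) = fun p => F (shr c p) := by
      rw [one_mul]
    have h2 : Thin 𝓘(ℝ, R4) (fun p : R4 => F (shr ((0 : ℝ) * c) p)) φ →
      Thin 𝓘(ℝ, R4) (fun p : R4 => F (shr ((1 : ℝ) * c) p)) φ := h1
    rw [e0, e1] at h2
    exact h2 h
  · intro J t₀ u₀ p₀ hJ
    have hp₀ : p₀ ∈ SP := Or.inl (Or.inl hJ.mem)
    have hq₀ : ((1 / 2, u₀, 0) : R4) ∈ SP :=
      Or.inr ⟨rfl, hJ.arc.1.le, hJ.arc.2.le, rfl⟩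
    have hrs : rsq 0 p₀ = 1 / 25 := hJ.mem.2
    have hlocp := hJ.loc p₀ hp₀
    -- the strand does not change
    have hstr : ∀ c : ℝ, (fun x : ℝ × ℝ => J (x.1, shr c (1 / 2, x.2, 0))) =
        fun x : ℝ × ℝ => J (x.1, (1 / 2, x.2, 0)) := fun c => by
      funext x
      rw [fix_line]
    -- the derivative of the sheared germ
    have hder : ∀ (c : ℝ) (v : R4), fderiv ℝ (fun p => J (t₀, shr c p)) p₀ v =
        fderiv ℝ (fun p => J (t₀, p)) p₀ (v.1 + c * (2 * Complex.normSq p₀.2.2 *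
          (rsq 1 p₀ - 1 / 25) * drsq 0 p₀ v), v.2) := by
      intro c v
      have d1 : HasFDerivAt (fun p => J (t₀, p)) (fderiv ℝ (fun p => J (t₀, p)) p₀)
          (shr c p₀) := by
        rw [fix c hp₀]
        exact ((eventually_contDiffAt hlocp).self_of_nhds.differentiableAt (by simp)).hasFDerivAt
      have d2 : HasFDerivAt (shr c) (fderiv ℝ (shr c) p₀) p₀ :=
        ((smooth_shr c).contDiffAt.differentiableAt (by simp)).hasFDerivAt
      have d3 : fderiv ℝ (fun p => J (t₀, shr c p)) p₀ = _ := (d1.comp p₀ d2).fderiv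
      rw [d3, ← deriv_shr c hrs v]
      rfl
    have hcont : ∀ c : ℝ, ∀ p ∈ SP, Tendsto (fun q : ℝ × R4 => (q.1, shr c q.2)) (𝓝 (t₀, p))
        (𝓝 (t₀, p)) := by
      intro c p hp
      have h1 : Continuous (fun q : ℝ × R4 => (q.1, shr c q.2)) :=
        continuous_fst.prodMk ((smooth_shr c).continuous.comp continuous_snd)
      have h2 := h1.tendsto (t₀, p)
      rw [show ((t₀, p).1, shr c (t₀, p).2) = (t₀, p) from Prod.ext rfl (fix c hp)] at h2
      exact h2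
    have hall : ∀ c : ℝ, PreCross (fun q => J (q.1, shr c q.2)) t₀ u₀ p₀ := by
      intro c
      refine ⟨?_, ?_, ?_, hJ.mem, hJ.re, hJ.arc, ?_, ?_, ?_⟩
      · intro p hp
        filter_upwards [(hcont c p hp).eventually (hJ.smooth p hp)] with q hq
        have h1 : ContDiffAt ℝ ∞ (fun q : ℝ × R4 => (q.1, shr c q.2)) q :=
          (contDiff_fst.prodMk ((smooth_shr c).comp contDiff_snd)).contDiffAt
        exact ContDiffAt.comp q hq h1
      · intro p hp
        have h := hJ.loc p hp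
        rw [← fix c hp] at h
        exact loc_comp (F := fun p => J (t₀, p)) c h
      · intro p hp
        have hp' : p ∈ SP := Or.inl hp
        filter_upwards [(hcont c p hp').eventually (hJ.frozen p hp)] with q hq
        exact hq
      · show J (t₀, shr c p₀) = J (t₀, shr c (1 / 2, u₀, 0))
        rw [fix c hp₀, fix c hq₀]
        exact hJ.eq
      · intro p hp q hq hpq
        have h1 : J (t₀, shr c p) = J (t₀, shr c q) := hpq
        rw [fix c hp, fix c hq] at h1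
        exact hJ.inj p hp q hq h1
      · intro ζ v h h1 h2
        have h3 : fderiv ℝ (fun x : ℝ × ℝ => J (x.1, shr c (1 / 2, x.2, 0))) (t₀, u₀) ζ =
          fderiv ℝ (fun p => J (t₀, shr c p)) p₀ v := h
        rw [hstr c, hder c v, h2, mul_zero, mul_zero, add_zero] at h3
        exact hJ.trans ζ v h3 h1 h2
    -- the vector `ξ`
    obtain ⟨ξ, hξ⟩ : ∃ ξ : R4, fderiv ℝ (fun p => J (t₀, p)) p₀ ξ =
        fderiv ℝ (fun x : ℝ × ℝ => J (x.1, (1 / 2, x.2, 0))) (t₀, u₀) (0, 1) := by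
      have hinj : Function.Injective (fderiv ℝ (fun p => J (t₀, p)) p₀ : R4 →ₗ[ℝ] R4) :=
        injective_fderiv hlocp
      exact (LinearMap.injective_iff_surjective.1 hinj) _
    have hB : 0 < rsq 1 p₀ - 1 / 25 := by
      have h1 : (p₀.2.1 - 0) ^ 2 + p₀.2.2.re ^ 2 + p₀.2.2.im ^ 2 = 1 / 25 := hrs
      have h2 : rsq 1 p₀ = (p₀.2.1 - 1) ^ 2 + p₀.2.2.re ^ 2 + p₀.2.2.im ^ 2 := rfl
      have h3 : p₀.2.1 ≤ 1 / 5 := by nlinarith [sq_nonneg p₀.2.2.re, sq_nonneg p₀.2.2.im]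
      rw [h2]
      nlinarith
    have hN : 0 < Complex.normSq p₀.2.2 := by
      rw [Complex.normSq_pos]
      intro h
      exact hJ.re (by rw [h]; rfl)
    by_cases hξ1 : ξ.1 = 0
    · refine ⟨1, hall 1, ?_⟩
      have hξd : drsq 0 p₀ ξ ≠ 0 := by
        intro h
        have := hJ.trans (0, 1) ξ hξ.symm hξ1 h
        exact one_ne_zero (congrArg Prod.snd this)
      intro v hv hv1
      have h3 : fderiv ℝ (fun x : ℝ × ℝ => J (x.1, shr 1 (1 / 2, x.2, 0))) (t₀, u₀) (0, 1) =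
          fderiv ℝ (fun p => J (t₀, shr 1 p)) p₀ v := hv
      rw [hstr 1, hder 1 v, ← hξ] at h3
      have h4 := injective_fderiv hlocp h3
      have h5 : ξ.1 = v.1 + 1 * (2 * Complex.normSq p₀.2.2 * (rsq 1 p₀ - 1 / 25) *
          drsq 0 p₀ v) := congrArg Prod.fst h4
      have h6 : ξ.2 = v.2 := by rw [h4]
      have h7 : drsq 0 p₀ v = drsq 0 p₀ ξ := by
        unfold drsq
        rw [h6]
      rw [hξ1, hv1, h7, zero_add, one_mul] at h5
      have h8 : 2 * Complex.normSq p₀.2.2 * (rsq 1 p₀ - 1 / 25) ≠ 0 :=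
        mul_ne_zero (mul_ne_zero two_ne_zero hN.ne') hB.ne'
      exact mul_ne_zero h8 hξd h5.symm
    · refine ⟨0, hall 0, ?_⟩
      intro v hv hv1
      have h3 : fderiv ℝ (fun x : ℝ × ℝ => J (x.1, shr 0 (1 / 2, x.2, 0))) (t₀, u₀) (0, 1) =
          fderiv ℝ (fun p => J (t₀, shr 0 p)) p₀ v := hv
      rw [hstr 0, hder 0 v, ← hξ] at h3
      have h4 := injective_fderiv hlocp h3
      have h5 : ξ.1 = v.1 + 0 * (2 * Complex.normSq p₀.2.2 * (rsq 1 p₀ - 1 / 25) *
          drsq 0 p₀ v) := congrArg Prod.fst h4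
      rw [zero_mul, add_zero] at h5
      exact hξ1 (h5.trans hv1)

end Pool.Agent.Helper34.BI
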