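import Pool.Agent.Helper34.BI.BF

/-!
# Project BI: the main theorem of stage 1 (`StMain`) from the modules of parts (B), (D)
-/

set_option autoImplicit false

open Module Set Filter Topology
open scoped ContDiff Manifold ComplexConjugate
open Pool.Agent.Helper65.Barb Pool.Agent.Helper18.BI Pool.Agent.Helper27.BI

namespace Pool.Agent.Helper34.BI

theorem finrank_R4 : finrank ℝ R4 = 4 := by
  simp [finrank_prod]

theorem stMain_of (hCH : StCH) (hCO : StCO) (hLG : StLG) (hFr : StFr) : StMain := by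
  intro F F' φ φ' U hF hF' hU hs he hφ hφ'
  obtain ⟨c₀, c₁, δ, hδ, hδ2, s₀, s₁, core, hfr, imm⟩ := hCO F F' U hF hF' hU hs he
  obtain ⟨charts, -, -, -, hcrv, -, -⟩ := hCH F hF
  have ha : (1 / 5 : ℝ) ∈ Icc (1 / 5 : ℝ) (4 / 5) := by norm_num
  have hb : (4 / 5 : ℝ) ∈ Icc (1 / 5 : ℝ) (4 / 5) := by norm_num
  rw [(core _ ha).1, (core _ hb).1] at charts
  have inj₁ : InjOn c₁ (Icc (1 / 5) (4 / 5)) := by
    intro a ha b hb h
    rw [← (core a ha).2, ← (core b hb).2] at h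
    have := hF'.2 (Or.inr (mem_neck ha.1 ha.2)) (Or.inr (mem_neck hb.1 hb.2)) h
    exact congrArg (fun p : R4 => p.2.1) this
  have inj₀ : InjOn c₀ (Icc (1 / 5) (4 / 5)) := by
    intro a ha b hb h
    rw [← (core a ha).1, ← (core b hb).1] at h
    have := hF.2 (Or.inr (mem_neck ha.1 ha.2)) (Or.inr (mem_neck hb.1 hb.2)) h
    exact congrArg (fun p : R4 => p.2.1) this
  have dis : ∀ (K : R4 → R4), EmbOn 𝓘(ℝ, R4) K SP → ∀ a ∈ Ioo (1 / 5 : ℝ) (4 / 5),
      K (1 / 2, a, 0) ∉ K '' (sph 0 ∪ sph 1) := by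
    rintro K hK a ha ⟨p, hp, he⟩
    have := hK.2 (Or.inl hp) (Or.inr (mem_neck ha.1.le ha.2.le)) he
    subst this
    rcases hp with hp | hp
    · have := sph_zero_le hp
      simp only at this
      linarith [ha.1]
    · have := le_sph_one hp
      simp only at this
      linarith [ha.2]
  have hA : F '' (sph 0 ∪ sph 1) = F' '' (sph 0 ∪ sph 1) := image_congr fun p hp => he (hs hp)
  have dis₀ : ∀ a ∈ Ioo (1 / 5 : ℝ) (4 / 5), c₀ a ∉ F '' (sph 0 ∪ sph 1) := by
    intro a ha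
    rw [← (core a ⟨ha.1.le, ha.2.le⟩).1]
    exact dis F hF a ha
  have dis₁ : ∀ a ∈ Ioo (1 / 5 : ℝ) (4 / 5), c₁ a ∉ F '' (sph 0 ∪ sph 1) := by
    intro a ha
    rw [← (core a ⟨ha.1.le, ha.2.le⟩).2, hA]
    exact dis F' hF' a ha
  obtain ⟨H, hH, avoid, -⟩ := exists_arcFamily (κ := Bool) (g := fun b θ => F (crv b θ))
    finrank_R4 (Complex.finrank_real_complex) hcrv hδ (by linarith) s₀ s₁ hfr
    inj₀ inj₁ (fun u hu => (imm u hu).1) (fun u hu => (imm u hu).2) charts dis₀ dis₁ one_pos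
  have G : GenData F c₀ c₁ δ H := {
    emb := hF
    pos := hδ
    small := hδ2
    smooth₀ := s₀
    core := fun a ha => (core a ha).1
    inj₁ := inj₁
    imm₀ := fun u hu => (imm u hu).1
    imm₁ := fun u hu => (imm u hu).2
    dis₁ := dis₁
    arcs := hH
    avoid := avoid }
  have hJ0 : (fun p => barFam F c₀ H δ (0, p)) = F := by
    funext p
    have e1 : H (0, p.2.1) = c₀ p.2.1 := hH.start 0 _ le_rfl
    have e2 : fderiv ℝ H (0, p.2.1) (0, 1) = deriv c₀ p.2.1 := by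
      rw [← (G.hasDeriv 0 p.2.1).deriv]
      have e : (fun r => H (0, r)) = c₀ := funext fun r => hH.start 0 r le_rfl
      rw [e]
    simp only [barFam, thick, thickB, e1, e2, sub_self, map_zero, ContinuousLinearMap.zero_comp,
      ContinuousLinearMap.zero_apply, add_zero, smul_zero]
  have emb1 : EmbOn 𝓘(ℝ, R4) (fun p => barFam F c₀ H δ (1, p)) SP := by
    refine G.bar.embOn (G.imm 1) G.injF (G.injH 1) ?_
    intro a ha
    rw [hH.stop 1 a le_rfl]
    exact dis₁ a ha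
  have hMR := hLG _ (G.bfam hCH) (by rw [hJ0]; exact hF) emb1
  rw [hJ0] at hMR
  have hU' : IsOpen (U ∩ {p : R4 | p.2.1 < 1 / 5 + δ / 2 ∨ 4 / 5 - δ / 2 < p.2.1}) := by
    have hcont : Continuous (fun q : R4 => q.2.1) := by fun_prop
    exact hU.inter ((isOpen_lt hcont continuous_const).union (isOpen_lt continuous_const hcont))
  have hT : Thin 𝓘(ℝ, R4) (fun p => barFam F c₀ H δ (1, p)) φ' := by
    refine (hFr _ F' _ emb1 hF' hU' ?_ ?_ ?_ φ').2 hφ'
    · intro p hp
      refine ⟨hs hp, ?_⟩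
      rcases hp with hp | hp
      · exact Or.inl (by linarith [sph_zero_le hp])
      · exact Or.inr (by linarith [le_sph_one hp])
    · rintro p ⟨hp1, hp2⟩
      show barFam F c₀ H δ (1, p) = F' p
      rw [G.bar.barFam_eq (hp2.imp le_of_lt le_of_lt)]
      exact he hp1
    · intro p hp
      show barFam F c₀ H δ (1, p) = F' p
      rw [neck_eq hp, G.bar.barFam_neck hp.2.1 hp.2.2.1, hH.stop 1 _ le_rfl,
        (core _ ⟨hp.2.1, hp.2.2.1⟩).2]
  exact hMR φ φ' hφ hT

end Pool.Agent.Helper34.BI
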