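import Pool.Agent.Helper18.BI.AsmA
import Pool.Agent.Helper27.BI.AsmC
import Pool.Agent.Helper34.BI.M_RE
import Pool.Agent.Helper34.BI.M_RC
import Pool.Agent.Helper34.BI.M_Add2
import Pool.Agent.Helper34.BI.M_D2a
import Pool.Agent.Helper34.BI.M_D2b
import Pool.Agent.Helper34.BI.M_D2
import Pool.Agent.Helper34.BI.M_D2aP
import Pool.Agent.Helper34.BI.M_D1a
import Pool.Agent.Helper34.BI.M_D1aP
import Pool.Agent.Helper34.BI.M_D1b
import Pool.Agent.Helper34.BI.M_Shr
import Pool.Agent.Helper34.BI.M_MRL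
import Pool.Agent.Helper34.BI.M_CR
import Pool.Agent.Helper34.BI.M_LG
import Pool.Agent.Helper34.BI.M_CO
import Pool.Agent.Helper34.BI.M_CRP
import Pool.Agent.Helper34.BI.Main

/-!
# Project BI: parts (B) and (D), assembled (without the charts of the cuffs)
-/

set_option autoImplicit false

open Pool.Agent.Helper18.BI Pool.Agent.Helper27.BI

namespace Pool.Agent.Helper34.BI

theorem hRE : StRE := m_RE
theorem hRC : StRC := m_RC
theorem hAdd2 : StAdd2 := m_Add2 hADD2
theorem hSwap : StSwap := m_Swap hR2sw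
theorem hD2a : StD2a := m_D2a hRE hAdd2 hImp hCI hS3 hS4 hT2 hT3 hT5 hT6
theorem hD2b : StD2b := m_D2b hRE hRC hT2
theorem hD2 : StD2 := m_D2 hRE hT2 hN1 hCI hD2a hD2b
theorem hD2aP : StD2aP := m_D2aP hRE hADD2 hImp hCI hS3 hS4 hT2 hT3 hT5 hT6
theorem hD1a : StD1a := m_D1a
theorem hD1aP : StD1aP := m_D1aP
theorem hD1b : StD1b := m_D1b
theorem hShr : StShr := m_Shr hT2
theorem hMRL : StMRL := m_MRL hT2 hN1 hCI hSwap
theorem hCR : StCR := m_CR hShr hD1a hD1b hD2 hMRL
theorem hLG : StLG := m_LG hMRL hCR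
theorem hCO : StCO := m_CO
theorem hCRP : Pool.Agent.Helper70.BI.StCRP := m_CRP hRE hT2 hCI hD1aP hD1b hD2aP hD2b

/-- stage 1, from the charts of the cuffs -/
theorem hMain_of (hCH : StCH) : StMain := stMain_of hCH hCO hLG hFr

end Pool.Agent.Helper34.BI
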