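import Pool.Agent.Helper34.BI.Sard

/-!
# General position for one-parameter families of arcs in four-space

`H (t, u) = h (t, u) + (ρ t * χ u) • (v + u • w)`: for `(v, w)` outside a null set the family is
in general position at all points with `ρ t ≠ 0`, `χ u ≠ 0`.
-/

set_option autoImplicit false

open MeasureTheory Module Set
open scoped ContDiff

namespace Pool.Agent.Helper34.BI

section
variable {E : Type*} [NormedAddCommGroup E] [NormedSpace ℝ E]

/-- the perturbed family of arcs -/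
def fam (h : ℝ × ℝ → E) (ρ χ : ℝ → ℝ) (v w : E) (p : ℝ × ℝ) : E :=
  h p + (ρ p.1 * χ p.2) • (v + p.2 • w)

/-- The family `H` of arcs is in general position, with respect to surfaces `f i` and curves
`g k`, at the points where `act t u` holds. -/
structure GenPos {ι κ Y : Type*} [NormedAddCommGroup Y] [NormedSpace ℝ Y]
    (H : ℝ × ℝ → E) (ρ χ : ℝ → ℝ) (f : ι → Y → E) (T : ι → Set Y) (g : κ → ℝ → E) : Prop where
  /-- no double points -/
  inj : ∀ t u u', ρ t ≠ 0 → u ≠ u' → (χ u ≠ 0 ∨ χ u' ≠ 0) → H (t, u) ≠ H (t, u')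
  /-- immersed -/
  imm : ∀ t u, ρ t ≠ 0 → χ u ≠ 0 → fderiv ℝ H (t, u) (0, 1) ≠ 0
  /-- transverse to the surfaces -/
  trans : ∀ t u i y, ρ t ≠ 0 → χ u ≠ 0 → y ∈ T i → H (t, u) = f i y →
    ∀ ζ η, fderiv ℝ H (t, u) ζ = fderiv ℝ (f i) y η → ζ = 0 ∧ η = 0
  /-- at most one crossing at each time -/
  cross : ∀ t u u' i i' y y', ρ t ≠ 0 → u ≠ u' → χ u ≠ 0 → χ u' ≠ 0 → y ∈ T i → y' ∈ T i' →
    H (t, u) = f i y → H (t, u') ≠ f i' y'
  /-- disjoint from the curves -/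
  curve : ∀ t u k r, ρ t ≠ 0 → χ u ≠ 0 → H (t, u) ≠ g k r

variable [FiniteDimensional ℝ E] [MeasurableSpace E] [BorelSpace E]
  (μ : Measure (E × E)) [μ.IsAddHaarMeasure]

variable {Y : Type*} [NormedAddCommGroup Y] [NormedSpace ℝ Y] [FiniteDimensional ℝ Y]
  {h : ℝ × ℝ → E} {ρ χ : ℝ → ℝ}

theorem null_inj (hE : finrank ℝ E = 4) (hh : ContDiff ℝ ∞ h) (hρ : ContDiff ℝ ∞ ρ)
    (hχ : ContDiff ℝ ∞ χ) :
    μ {p : E × E | ∃ t u u', ρ t ≠ 0 ∧ u ≠ u' ∧ (χ u ≠ 0 ∨ χ u' ≠ 0) ∧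
      fam h ρ χ p.1 p.2 (t, u) = fam h ρ χ p.1 p.2 (t, u')} = 0 := by
  have hdim : finrank ℝ (ℝ × ℝ × ℝ) < finrank ℝ E := by
    rw [hE]; simp
  have d1 : Differentiable ℝ ρ := hρ.differentiable (by simp)
  have d2 : Differentiable ℝ χ := hχ.differentiable (by simp)
  have d3 : Differentiable ℝ h := hh.differentiable (by simp)
  let s : Set (ℝ × ℝ × ℝ) := {x | ρ x.1 ≠ 0 ∧ x.2.1 ≠ x.2.2 ∧ (χ x.2.1 ≠ 0 ∨ χ x.2.2 ≠ 0)}
  have key := null_linear μ hdim (s := s)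
    (a := fun x => ρ x.1 * (χ x.2.1 - χ x.2.2))
    (b := fun x => ρ x.1 * (x.2.1 * χ x.2.1 - x.2.2 * χ x.2.2))
    (c := fun x => h (x.1, x.2.2) - h (x.1, x.2.1))
    (Differentiable.differentiableOn (by fun_prop)) (Differentiable.differentiableOn (by fun_prop))
    (Differentiable.differentiableOn (by fun_prop)) ?_
  · refine measure_mono_null ?_ key
    rintro ⟨v, w⟩ ⟨t, u, u', ht, hu, hor, he⟩
    refine ⟨(t, u, u'), ⟨ht, hu, hor⟩, ?_⟩
    simp only [fam] at he ⊢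
    have e1 : (ρ t * (χ u - χ u')) • v + (ρ t * (u * χ u - u' * χ u')) • w =
        (ρ t * χ u) • (v + u • w) - (ρ t * χ u') • (v + u' • w) := by
      module
    rw [e1, sub_eq_sub_iff_add_eq_add]
    rw [add_comm, he, add_comm]
  · rintro ⟨t, u, u'⟩ ⟨ht, hu, hor⟩
    simp only at ht hu hor ⊢
    by_contra hcon
    push Not at hcon
    obtain ⟨h1, h2⟩ := hcon
    have h3 : χ u - χ u' = 0 := (mul_eq_zero.1 h1).resolve_left ht
    have h4 : u * χ u - u' * χ u' = 0 := (mul_eq_zero.1 h2).resolve_left ht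
    have h5 : χ u = χ u' := by linarith
    rw [h5] at h4
    have h6 : (u - u') * χ u' = 0 := by linarith
    have h7 : χ u' = 0 := (mul_eq_zero.1 h6).resolve_left (sub_ne_zero.2 hu)
    rcases hor with h8 | h8
    · exact h8 (h5.trans h7)
    · exact h8 h7

omit [FiniteDimensional ℝ E] [MeasurableSpace E] [BorelSpace E] in
/-- the derivative of the perturbed family along the arcs -/
theorem fderiv_fam (hh : ContDiff ℝ ∞ h) (hρ : ContDiff ℝ ∞ ρ) (hχ : ContDiff ℝ ∞ χ) (v w : E)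
    (t u : ℝ) : fderiv ℝ (fam h ρ χ v w) (t, u) (0, 1) =
      fderiv ℝ h (t, u) (0, 1) + (ρ t * deriv χ u) • v + (ρ t * (u * deriv χ u + χ u)) • w := by
  have d2 : HasDerivAt χ (deriv χ u) u := (hχ.differentiable (by simp) u).hasDerivAt
  have d3 : HasFDerivAt h (fderiv ℝ h (t, u)) (t, u) := (hh.differentiable (by simp) _).hasFDerivAt
  have hfam : ContDiff ℝ ∞ (fam h ρ χ v w) := by
    unfold fam
    fun_prop
  have d4 : HasFDerivAt (fam h ρ χ v w) (fderiv ℝ (fam h ρ χ v w) (t, u)) (t, u) :=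
    (hfam.differentiable (by simp) _).hasFDerivAt
  have l : HasDerivAt (fun r : ℝ => ((t, r) : ℝ × ℝ)) (0, 1) u :=
    (hasDerivAt_const u t).prodMk (hasDerivAt_id u)
  have e1 := HasFDerivAt.comp_hasDerivAt_of_eq u d4 l rfl
  have e2 := HasFDerivAt.comp_hasDerivAt_of_eq u d3 l rfl
  have e3 : HasDerivAt (fun r : ℝ => (ρ t * χ r) • (v + r • w))
      ((ρ t * χ u) • w + (ρ t * deriv χ u) • (v + u • w)) u := by
    have a1 : HasDerivAt (fun r : ℝ => ρ t * χ r) (ρ t * deriv χ u) u := d2.const_mul _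
    have a2 : HasDerivAt (fun r : ℝ => v + r • w) w u := by
      simpa using ((hasDerivAt_id u).smul_const w).const_add v
    exact a1.smul a2
  have e4 := e2.add e3
  have e5 : (h ∘ fun r : ℝ => (t, r)) + (fun r : ℝ => (ρ t * χ r) • (v + r • w)) =
      fam h ρ χ v w ∘ fun r : ℝ => (t, r) := by
    ext r
    rfl
  rw [e5] at e4
  rw [e1.unique e4]
  module

theorem null_imm (hE : finrank ℝ E = 4) (hh : ContDiff ℝ ∞ h) (hρ : ContDiff ℝ ∞ ρ)
    (hχ : ContDiff ℝ ∞ χ) :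
    μ {p : E × E | ∃ t u, ρ t ≠ 0 ∧ χ u ≠ 0 ∧
      fderiv ℝ (fam h ρ χ p.1 p.2) (t, u) (0, 1) = 0} = 0 := by
  have hdim : finrank ℝ (ℝ × ℝ) < finrank ℝ E := by
    rw [hE]; simp
  have d1 : Differentiable ℝ ρ := hρ.differentiable (by simp)
  have d2 : Differentiable ℝ χ := hχ.differentiable (by simp)
  have d4 : Differentiable ℝ (deriv χ) :=
    (ContDiff.deriv' (n := ∞) (by simpa using hχ)).differentiable (by simp)
  have d3 : Differentiable ℝ (fun x : ℝ × ℝ => fderiv ℝ h x (0, 1)) := by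
    have : ContDiff ℝ ∞ (fderiv ℝ h) := hh.fderiv_right (by simp)
    exact ((this.differentiable (by simp)).clm_apply (differentiable_const _))
  let s : Set (ℝ × ℝ) := {x | ρ x.1 ≠ 0 ∧ χ x.2 ≠ 0}
  have key := null_linear μ hdim (s := s)
    (a := fun x => ρ x.1 * deriv χ x.2)
    (b := fun x => ρ x.1 * (x.2 * deriv χ x.2 + χ x.2))
    (c := fun x => -fderiv ℝ h x (0, 1))
    (Differentiable.differentiableOn (by fun_prop)) (Differentiable.differentiableOn (by fun_prop))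
    (d3.neg.differentiableOn) ?_
  · refine measure_mono_null ?_ key
    rintro ⟨v, w⟩ ⟨t, u, ht, hu, he⟩
    refine ⟨(t, u), ⟨ht, hu⟩, ?_⟩
    simp only
    simp only at he
    rw [fderiv_fam hh hρ hχ] at he
    rw [eq_neg_iff_add_eq_zero, ← he]
    abel
  · rintro ⟨t, u⟩ ⟨ht, hu⟩
    simp only at ht hu ⊢
    by_contra hcon
    push Not at hcon
    obtain ⟨h1, h2⟩ := hcon
    have h3 : deriv χ u = 0 := (mul_eq_zero.1 h1).resolve_left ht
    have h4 : u * deriv χ u + χ u = 0 := (mul_eq_zero.1 h2).resolve_left ht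
    rw [h3, mul_zero, zero_add] at h4
    exact hu h4

theorem null_trans (hE : finrank ℝ E = 4) (hY : finrank ℝ Y = 2) (hh : ContDiff ℝ ∞ h)
    (hρ : ContDiff ℝ ∞ ρ) (hχ : ContDiff ℝ ∞ χ) {f : Y → E} {T : Set Y} (hT : IsOpen T)
    (hf : ContDiffOn ℝ ∞ f T) :
    μ {p : E × E | ∃ t u y, ρ t ≠ 0 ∧ χ u ≠ 0 ∧ y ∈ T ∧ fam h ρ χ p.1 p.2 (t, u) = f y ∧
      ∃ ζ η, fderiv ℝ (fam h ρ χ p.1 p.2) (t, u) ζ = fderiv ℝ f y η ∧ ¬ (ζ = 0 ∧ η = 0)} = 0 := by
  have hdim : finrank ℝ (ℝ × ℝ) + finrank ℝ Y = finrank ℝ E := by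
    rw [hE, hY]; simp
  have d1 : Differentiable ℝ ρ := hρ.differentiable (by simp)
  have d2 : Differentiable ℝ χ := hχ.differentiable (by simp)
  have d3 : Differentiable ℝ h := hh.differentiable (by simp)
  let s : Set (ℝ × ℝ) := {x | ρ x.1 ≠ 0 ∧ χ x.2 ≠ 0}
  have hs : IsOpen s := by
    refine IsOpen.inter ?_ ?_
    · exact isOpen_ne_fun (d1.continuous.comp continuous_fst) continuous_const
    · exact isOpen_ne_fun (d2.continuous.comp continuous_snd) continuous_const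
  have key := null_sard μ hdim (s := s) (t := T) hs hT
    (a := fun x => ρ x.1 * χ x.2) (b := fun x => ρ x.1 * χ x.2 * x.2) (c := h) (f := f)
    (Differentiable.differentiableOn (by fun_prop)) (Differentiable.differentiableOn (by fun_prop))
    d3.differentiableOn (hf.differentiableOn (by simp)) (fun z hz => mul_ne_zero hz.1 hz.2)
  refine measure_mono_null ?_ key
  rintro ⟨v, w⟩ ⟨t, u, y, ht, hu, hy, he, ζ, η, hd, hne⟩
  have e : (fam h ρ χ v w) = fun z : ℝ × ℝ => h z + (ρ z.1 * χ z.2) • v +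
      (ρ z.1 * χ z.2 * z.2) • w := by
    ext z
    simp only [fam]
    module
  simp only at he hd
  refine ⟨(t, u), ⟨ht, hu⟩, y, hy, ?_, ζ, η, ?_, ?_⟩
  · rw [← he, e]
  · intro h0
    exact hne ⟨congrArg Prod.fst h0, congrArg Prod.snd h0⟩
  · rw [← hd, e]

theorem null_curve (hE : finrank ℝ E = 4) (hh : ContDiff ℝ ∞ h)
    (hρ : ContDiff ℝ ∞ ρ) (hχ : ContDiff ℝ ∞ χ) {g : ℝ → E} (hg : ContDiff ℝ ∞ g) :
    μ {p : E × E | ∃ t u r, ρ t ≠ 0 ∧ χ u ≠ 0 ∧ fam h ρ χ p.1 p.2 (t, u) = g r} = 0 := by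
  have hdim : finrank ℝ (ℝ × ℝ × ℝ) < finrank ℝ E := by
    rw [hE]; simp
  have d1 : Differentiable ℝ ρ := hρ.differentiable (by simp)
  have d2 : Differentiable ℝ χ := hχ.differentiable (by simp)
  have d3 : Differentiable ℝ h := hh.differentiable (by simp)
  have d4 : Differentiable ℝ g := hg.differentiable (by simp)
  let s : Set (ℝ × ℝ × ℝ) := {x | ρ x.1 ≠ 0 ∧ χ x.2.1 ≠ 0}
  have key := null_linear μ hdim (s := s)
    (a := fun x => ρ x.1 * χ x.2.1)
    (b := fun x => ρ x.1 * χ x.2.1 * x.2.1)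
    (c := fun x => g x.2.2 - h (x.1, x.2.1))
    (Differentiable.differentiableOn (by fun_prop)) (Differentiable.differentiableOn (by fun_prop))
    (Differentiable.differentiableOn (by fun_prop)) (fun x hx => Or.inl (mul_ne_zero hx.1 hx.2))
  refine measure_mono_null ?_ key
  rintro ⟨v, w⟩ ⟨t, u, r, ht, hu, he⟩
  refine ⟨(t, u, r), ⟨ht, hu⟩, ?_⟩
  simp only [fam] at he ⊢
  rw [← he]
  module

theorem null_cross (hE : finrank ℝ E = 4) (hY : finrank ℝ Y = 2) (hh : ContDiff ℝ ∞ h)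
    (hρ : ContDiff ℝ ∞ ρ) (hχ : ContDiff ℝ ∞ χ) {f f' : Y → E} {T T' : Set Y}
    (hf : ContDiffOn ℝ ∞ f T) (hf' : ContDiffOn ℝ ∞ f' T') :
    μ {p : E × E | ∃ t u u' y y', ρ t ≠ 0 ∧ u ≠ u' ∧ χ u ≠ 0 ∧ χ u' ≠ 0 ∧ y ∈ T ∧ y' ∈ T' ∧
      fam h ρ χ p.1 p.2 (t, u) = f y ∧ fam h ρ χ p.1 p.2 (t, u') = f' y'} = 0 := by
  have hdim : finrank ℝ ((ℝ × ℝ × ℝ) × (Y × Y)) < finrank ℝ (E × E) := by
    rw [finrank_prod, finrank_prod, finrank_prod, finrank_prod, finrank_prod, hE, hY]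
    simp
  have d1 : Differentiable ℝ ρ := hρ.differentiable (by simp)
  have d2 : Differentiable ℝ χ := hχ.differentiable (by simp)
  have d3 : Differentiable ℝ h := hh.differentiable (by simp)
  let s : Set ((ℝ × ℝ × ℝ) × (Y × Y)) := {x | ρ x.1.1 ≠ 0 ∧ x.1.2.1 ≠ x.1.2.2 ∧ χ x.1.2.1 ≠ 0 ∧
    χ x.1.2.2 ≠ 0 ∧ x.2.1 ∈ T ∧ x.2.2 ∈ T'}
  let A : (ℝ × ℝ × ℝ) × (Y × Y) → E := fun x =>
    (ρ x.1.1 * χ x.1.2.1)⁻¹ • (f x.2.1 - h (x.1.1, x.1.2.1))
  let B : (ℝ × ℝ × ℝ) × (Y × Y) → E := fun x =>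
    (ρ x.1.1 * χ x.1.2.2)⁻¹ • (f' x.2.2 - h (x.1.1, x.1.2.2))
  let W : (ℝ × ℝ × ℝ) × (Y × Y) → E := fun x => (x.1.2.1 - x.1.2.2)⁻¹ • (A x - B x)
  have hA : DifferentiableOn ℝ A s := by
    refine DifferentiableOn.smul (DifferentiableOn.inv ?_ ?_) (DifferentiableOn.sub ?_ ?_)
    · exact Differentiable.differentiableOn (by fun_prop)
    · exact fun x hx => mul_ne_zero hx.1 hx.2.2.1
    · exact (hf.differentiableOn (by simp)).comp
        (Differentiable.differentiableOn (by fun_prop)) (fun x hx => hx.2.2.2.2.1)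
    · exact Differentiable.differentiableOn (by fun_prop)
  have hB : DifferentiableOn ℝ B s := by
    refine DifferentiableOn.smul (DifferentiableOn.inv ?_ ?_) (DifferentiableOn.sub ?_ ?_)
    · exact Differentiable.differentiableOn (by fun_prop)
    · exact fun x hx => mul_ne_zero hx.1 hx.2.2.2.1
    · exact (hf'.differentiableOn (by simp)).comp
        (Differentiable.differentiableOn (by fun_prop)) (fun x hx => hx.2.2.2.2.2)
    · exact Differentiable.differentiableOn (by fun_prop)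
  have hW : DifferentiableOn ℝ W s := by
    refine DifferentiableOn.smul (DifferentiableOn.inv ?_ ?_) (hA.sub hB)
    · exact Differentiable.differentiableOn (by fun_prop)
    · exact fun x hx => sub_ne_zero.2 hx.2.1
  have hF : DifferentiableOn ℝ (fun x => (A x - x.1.2.1 • W x, W x)) s := by
    refine DifferentiableOn.prodMk (hA.sub (DifferentiableOn.smul ?_ hW)) hW
    exact Differentiable.differentiableOn (by fun_prop)
  refine measure_mono_null ?_ (null_image μ hdim hF)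
  rintro ⟨v, w⟩ ⟨t, u, u', y, y', ht, hne, hu, hu', hy, hy', he, he'⟩
  refine ⟨((t, u, u'), (y, y')), ⟨ht, hne, hu, hu', hy, hy'⟩, ?_⟩
  simp only [fam] at he he'
  have eA : A ((t, u, u'), (y, y')) = v + u • w := by
    simp only [A]
    rw [← he, add_sub_cancel_left, smul_smul, inv_mul_cancel₀ (mul_ne_zero ht hu), one_smul]
  have eB : B ((t, u, u'), (y, y')) = v + u' • w := by
    simp only [B]
    rw [← he', add_sub_cancel_left, smul_smul, inv_mul_cancel₀ (mul_ne_zero ht hu'), one_smul]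
  have eW : W ((t, u, u'), (y, y')) = w := by
    simp only [W]
    rw [eA, eB]
    have : v + u • w - (v + u' • w) = (u - u') • w := by module
    rw [this, smul_smul, inv_mul_cancel₀ (sub_ne_zero.2 hne), one_smul]
  simp only [eA, eW, Prod.mk.injEq, and_true]
  abel

/-- General position of families of arcs: the set of bad parameters is a null set. -/
theorem null_genPos (hE : finrank ℝ E = 4) (hY : finrank ℝ Y = 2) (hh : ContDiff ℝ ∞ h)
    (hρ : ContDiff ℝ ∞ ρ) (hχ : ContDiff ℝ ∞ χ) {ι κ : Type*} [Countable ι] [Countable κ]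
    {f : ι → Y → E} {T : ι → Set Y} (hT : ∀ i, IsOpen (T i))
    (hf : ∀ i, ContDiffOn ℝ ∞ (f i) (T i)) {g : κ → ℝ → E} (hg : ∀ k, ContDiff ℝ ∞ (g k)) :
    μ {p : E × E | ¬ GenPos (fam h ρ χ p.1 p.2) ρ χ f T g} = 0 := by
  have n1 := null_inj μ hE hh hρ hχ
  have n2 := null_imm μ hE hh hρ hχ
  have n3 : μ (⋃ i, {p : E × E | ∃ t u y, ρ t ≠ 0 ∧ χ u ≠ 0 ∧ y ∈ T i ∧
      fam h ρ χ p.1 p.2 (t, u) = f i y ∧
      ∃ ζ η, fderiv ℝ (fam h ρ χ p.1 p.2) (t, u) ζ = fderiv ℝ (f i) y η ∧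
        ¬ (ζ = 0 ∧ η = 0)}) = 0 :=
    measure_iUnion_null (fun i => null_trans μ hE hY hh hρ hχ (hT i) (hf i))
  have n4 : μ (⋃ i, ⋃ j, {p : E × E | ∃ t u u' y y', ρ t ≠ 0 ∧ u ≠ u' ∧ χ u ≠ 0 ∧ χ u' ≠ 0 ∧
      y ∈ T i ∧ y' ∈ T j ∧ fam h ρ χ p.1 p.2 (t, u) = f i y ∧
      fam h ρ χ p.1 p.2 (t, u') = f j y'}) = 0 :=
    measure_iUnion_null (fun i => measure_iUnion_null
      (fun j => null_cross μ hE hY hh hρ hχ (hf i) (hf j)))
  have n5 : μ (⋃ k, {p : E × E | ∃ t u r, ρ t ≠ 0 ∧ χ u ≠ 0 ∧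
      fam h ρ χ p.1 p.2 (t, u) = g k r}) = 0 :=
    measure_iUnion_null (fun k => null_curve μ hE hh hρ hχ (hg k))
  refine measure_mono_null ?_ (measure_union_null n1 (measure_union_null n2
    (measure_union_null n3 (measure_union_null n4 n5))))
  rintro ⟨v, w⟩ hnot
  by_contra hcon
  apply hnot
  simp only [mem_union, mem_iUnion, mem_setOf_eq, not_or, not_exists, not_and] at hcon
  obtain ⟨c1, c2, c3, c4, c5⟩ := hcon
  refine ⟨?_, ?_, ?_, ?_, ?_⟩
  · intro t u u' h1 h2 h3 h4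
    exact c1 t u u' h1 h2 h3 h4
  · intro t u h1 h2 h3
    exact c2 t u h1 h2 h3
  · intro t u i y h1 h2 h3 h4 ζ η h5
    have := c3 i t u y h1 h2 h3 h4 ζ η h5
    push Not at this
    exact this
  · intro t u u' i i' y y' h1 h2 h3 h4 h5 h6 h7 h8
    exact c4 i i' t u u' y y' h1 h2 h3 h4 h5 h6 h7 h8
  · intro t u k r h1 h2 h3
    exact c5 k t u r h1 h2 h3

omit [MeasurableSpace E] [BorelSpace E] in
/-- General position of families of arcs: arbitrarily small good parameters exist. -/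
theorem exists_genPos (hE : finrank ℝ E = 4) (hY : finrank ℝ Y = 2) (hh : ContDiff ℝ ∞ h)
    (hρ : ContDiff ℝ ∞ ρ) (hχ : ContDiff ℝ ∞ χ) {ι κ : Type*} [Countable ι] [Countable κ]
    {f : ι → Y → E} {T : ι → Set Y} (hT : ∀ i, IsOpen (T i))
    (hf : ∀ i, ContDiffOn ℝ ∞ (f i) (T i)) {g : κ → ℝ → E} (hg : ∀ k, ContDiff ℝ ∞ (g k))
    {ε : ℝ} (hε : 0 < ε) :
    ∃ v w : E, ‖v‖ < ε ∧ ‖w‖ < ε ∧ GenPos (fam h ρ χ v w) ρ χ f T g := by
  borelize E
  let μ : Measure (E × E) := Measure.addHaar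
  have hn := null_genPos μ hE hY hh hρ hχ hT hf hg
  have hball : 0 < μ (Metric.ball (0 : E × E) ε) := Metric.measure_ball_pos μ _ hε
  by_contra hcon
  push Not at hcon
  have hsub : Metric.ball (0 : E × E) ε ⊆ {p : E × E | ¬ GenPos (fam h ρ χ p.1 p.2) ρ χ f T g} := by
    rintro ⟨v, w⟩ hp
    rw [mem_ball_zero_iff, Prod.norm_def, max_lt_iff] at hp
    exact hcon v w hp.1 hp.2
  exact absurd (measure_mono_null hsub hn) hball.ne'

end

end Pool.Agent.Helper34.BI
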