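import Pool.Agent.Helper34.BI.StD

/-!
# Project BI: module MRL (the relation `MR`)
-/

set_option autoImplicit false

open Module Set Filter Topology
open scoped ContDiff Manifold ComplexConjugate
open Pool.Agent.Helper65.Barb Pool.Agent.Helper18.BI Pool.Agent.Helper27.BI

namespace Pool.Agent.Helper34.BI

theorem m_MRL (t2 : StT2) (n1 : StN1) (ci : StCI) (sw : StSwap) : StMRL := by
  obtain ⟨ti, tii, tiii, tiv, -, -, tvii⟩ := t2 R4 R4 𝓘(ℝ, R4) R4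
  obtain ⟨na, -, nc⟩ := n1 R4 R4 𝓘(ℝ, R4) R4
  obtain ⟨-, cs, -, ct, cc, cinv, cex, -, -, -⟩ := ci R4 R4 𝓘(ℝ, R4) R4
  refine ⟨?_, ?_, ?_, ?_, ?_, ?_⟩
  · intro F φ ψ hφ hψ
    exact ⟨fun x => x, InN.one, tii F ψ φ hψ hφ⟩
  · intro F G h φ ψ hφ hψ
    obtain ⟨n, hn, hc⟩ := h ψ φ hψ hφ
    obtain ⟨n', hn', h1, h2⟩ := cex n (na n hn)
    refine ⟨n', InN.inv n n' hn h1 h2, cs _ _ ?_⟩
    have h3 := cc n' n' φ (fun x => n (ψ x)) hn' hc
    have h4 : (fun x => n' (n (ψ x))) = ψ := funext fun x => h2 (ψ x)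
    rwa [h4] at h3
  · intro F G H hG h1 h2 φ ψ hφ hψ
    obtain ⟨ε₀, hε₀, hT⟩ := ti G hG
    have hχ := hT (ε₀ / 2) ⟨by linarith, by linarith⟩
    obtain ⟨m₁, hm₁, hc₁⟩ := h1 φ _ hφ hχ
    obtain ⟨m₂, hm₂, hc₂⟩ := h2 _ ψ hχ hψ
    exact ⟨fun x => m₂ (m₁ x), InN.mul m₂ m₁ hm₂ hm₁,
      ct _ _ _ hc₂ (cc m₂ m₂ _ _ (na m₂ hm₂) hc₁)⟩
  · intro J t₁ t₂ ht hs he φ ψ hφ hψ
    refine ⟨fun x => x, InN.one, ?_⟩
    set a : ℝ × R4 → ℝ × R4 := fun q => (t₁ + q.1 * (t₂ - t₁), q.2) with ha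
    have hac : ContDiff ℝ ∞ a :=
      (contDiff_const.add (contDiff_fst.mul contDiff_const)).prodMk contDiff_snd
    have hmem : ∀ t ∈ Icc (0 : ℝ) 1, t₁ + t * (t₂ - t₁) ∈ Icc t₁ t₂ := by
      intro t h
      constructor
      · nlinarith [h.1]
      · nlinarith [h.2]
    have hfam : FamOn 𝓘(ℝ, R4) (fun q => J (a q)) SP := by
      refine ⟨⟨{q | ∀ᶠ q' in 𝓝 q, ContDiffAt ℝ ∞ (fun q => J (a q)) q'},
        isOpen_setOfPred_eventually_nhds, ?_, ?_⟩, ?_⟩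
      · rintro ⟨t, p⟩ ⟨h, hp⟩
        have h1 := hs (t₁ + t * (t₂ - t₁)) (hmem t h) p hp
        have h2 : Tendsto a (𝓝 (t, p)) (𝓝 (t₁ + t * (t₂ - t₁), p)) :=
          hac.continuous.tendsto (t, p)
        filter_upwards [h2.eventually h1] with q hq
        exact ContDiffAt.comp q hq hac.contDiffAt
      · rw [contMDiffOn_iff_contDiffOn]
        intro q hq
        exact (Filter.Eventually.self_of_nhds hq).contDiffWithinAt
      · intro t h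
        exact he _ (hmem t h)
    have h0 : (fun p : R4 => J (a (0, p))) = fun p => J (t₁, p) := by
      funext p; simp [ha]
    have h1 : (fun p : R4 => J (a (1, p))) = fun p => J (t₂, p) := by
      funext p; simp [ha]
    have h2 := tiii (fun q => J (a q)) φ hfam (by rw [h0]; exact hφ)
    rw [h1] at h2
    exact tii _ _ _ hψ h2
  · intro F G hF hG h φ ψ hφ hψ
    obtain ⟨φ', -, hφ1, hφ2⟩ := cex φ (tvii F φ hφ)
    obtain ⟨ψ', -, hψ1, hψ2⟩ := cex ψ (tvii G ψ hψ)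
    obtain ⟨n, hn, hc⟩ := h φ' ψ' (sw F φ φ' hF hφ1 hφ2 hφ) (sw G ψ ψ' hG hψ1 hψ2 hψ)
    obtain ⟨m, hm, hm1, hm2⟩ := cex n (na n hn)
    have hmN : InN 𝓘(ℝ, R4) m := InN.inv n m hn hm1 hm2
    have h3 : CIsot 𝓘(ℝ, R4) ψ (fun x => φ (m x)) :=
      cinv ψ' (fun x => n (φ' x)) ψ (fun x => φ (m x)) hc hψ2
        (fun x => by rw [hφ2, hm1])
    obtain ⟨n', hn', he⟩ := nc φ m hmN (tvii F φ hφ)
    refine ⟨n', hn', ?_⟩
    have h4 : (fun x => φ (m x)) = fun x => n' (φ x) := funext he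
    rwa [h4] at h3
  · intro F F' G h hFG φ ψ hφ hψ
    exact hFG φ ψ ((h φ).2 hφ) hψ

end Pool.Agent.Helper34.BI
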