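import Pool.Agent.Helper34.BI.Loc

/-!
# Quaternion multiplication on `R4`
-/

set_option autoImplicit false

open Module Set Filter Topology Quaternion
open scoped ContDiff Manifold Quaternion
open Pool.Agent.Helper65.Barb

namespace Pool.Agent.Helper34.BI

/-- the linear identification of `R4` with the quaternions -/
noncomputable def toQL : R4 ≃ₗ[ℝ] ℍ[ℝ] where
  toFun p := ⟨p.1, p.2.1, p.2.2.re, p.2.2.im⟩
  invFun q := (q.re, q.imI, ⟨q.imJ, q.imK⟩)
  left_inv p := by rfl
  right_inv q := by rfl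
  map_add' p q := by ext <;> rfl
  map_smul' r p := by ext <;> simp

/-- the continuous linear identification of `R4` with the quaternions -/
noncomputable def toQ : R4 ≃L[ℝ] ℍ[ℝ] := toQL.toContinuousLinearEquiv

/-- left multiplication by the quaternion `toQ x`, as a continuous linear map of `R4`, depending
linearly on `x` -/
noncomputable def qmul : R4 →L[ℝ] R4 →L[ℝ] R4 :=
  ((ContinuousLinearMap.compL ℝ R4 ℍ[ℝ] R4 (toQ.symm : ℍ[ℝ] →L[ℝ] R4)).comp
    ((ContinuousLinearMap.compL ℝ R4 ℍ[ℝ] ℍ[ℝ]).flip (toQ : R4 →L[ℝ] ℍ[ℝ]))).comp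
    ((ContinuousLinearMap.mul ℝ ℍ[ℝ]).comp (toQ : R4 →L[ℝ] ℍ[ℝ]))

theorem qmul_apply (x y : R4) : qmul x y = toQ.symm (toQ x * toQ y) := rfl

/-- the quaternion inverse -/
noncomputable def qinv (x : R4) : R4 := toQ.symm (toQ x)⁻¹

theorem qmul_qinv_qmul {x : R4} (hx : x ≠ 0) (y : R4) : qmul x (qmul (qinv x) y) = y := by
  have h : toQ x ≠ 0 := by
    intro h0
    exact hx (by simpa using h0)
  simp only [qmul_apply, qinv, ContinuousLinearEquiv.apply_symm_apply]
  rw [← mul_assoc, mul_inv_cancel₀ h, one_mul, ContinuousLinearEquiv.symm_apply_apply]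

theorem qmul_qinv_self_qmul {x : R4} (hx : x ≠ 0) (y : R4) : qmul (qinv x) (qmul x y) = y := by
  have h : toQ x ≠ 0 := by
    intro h0
    exact hx (by simpa using h0)
  simp only [qmul_apply, qinv, ContinuousLinearEquiv.apply_symm_apply]
  rw [← mul_assoc, inv_mul_cancel₀ h, one_mul, ContinuousLinearEquiv.symm_apply_apply]

theorem qmul_injective {x : R4} (hx : x ≠ 0) : Function.Injective (qmul x) := by
  intro y z h
  have := congrArg (qmul (qinv x)) h
  rwa [qmul_qinv_self_qmul hx, qmul_qinv_self_qmul hx] at this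

theorem qinv_ne_zero {x : R4} (hx : x ≠ 0) : qinv x ≠ 0 := by
  have h : toQ x ≠ 0 := by
    intro h0
    exact hx (by simpa using h0)
  intro h0
  have : (toQ x)⁻¹ = 0 := by
    have := congrArg toQ h0
    simpa [qinv] using this
  exact h (inv_eq_zero.1 this)

theorem contDiffAt_qinv {x : R4} (hx : x ≠ 0) : ContDiffAt ℝ ∞ qinv x := by
  have h : toQ x ≠ 0 := by
    intro h0
    exact hx (by simpa using h0)
  have h1 : ContDiffAt ℝ ∞ (fun q : ℍ[ℝ] => q⁻¹) (toQ x) := by
    have e : (fun q : ℍ[ℝ] => q⁻¹) = Ring.inverse := by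
      funext q
      rw [Ring.inverse_eq_inv]
    rw [e]
    exact contDiffAt_ringInverse ℝ (Units.mk0 _ h)
  exact (toQ.symm.contDiff.contDiffAt).comp x (h1.comp x toQ.contDiff.contDiffAt)

/-- A smooth function which is `0` for `u ≤ a + δ / 2` and for `b - δ / 2 ≤ u`, and `1` for
`a + δ ≤ u ≤ b - δ`. -/
noncomputable def plateau (a b δ u : ℝ) : ℝ :=
  Real.smoothTransition ((u - (a + δ / 2)) / (δ / 2)) *
    Real.smoothTransition (((b - δ / 2) - u) / (δ / 2))

theorem contDiff_plateau (a b δ : ℝ) : ContDiff ℝ ∞ (plateau a b δ) := by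
  unfold plateau
  exact (Real.smoothTransition.contDiff.comp (by fun_prop)).mul
    (Real.smoothTransition.contDiff.comp (by fun_prop))

theorem plateau_zero {a b δ u : ℝ} (hδ : 0 < δ) (h : u ≤ a + δ / 2 ∨ b - δ / 2 ≤ u) :
    plateau a b δ u = 0 := by
  unfold plateau
  rcases h with h | h
  · rw [Real.smoothTransition.zero_of_nonpos, zero_mul]
    exact div_nonpos_of_nonpos_of_nonneg (by linarith) (by linarith)
  · rw [Real.smoothTransition.zero_of_nonpos (x := ((b - δ / 2) - u) / (δ / 2)), mul_zero]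
    exact div_nonpos_of_nonpos_of_nonneg (by linarith) (by linarith)

theorem plateau_one {a b δ u : ℝ} (hδ : 0 < δ) (h1 : a + δ ≤ u) (h2 : u ≤ b - δ) :
    plateau a b δ u = 1 := by
  unfold plateau
  rw [Real.smoothTransition.one_of_one_le, Real.smoothTransition.one_of_one_le, one_mul]
  · rw [le_div_iff₀ (by linarith)]; linarith
  · rw [le_div_iff₀ (by linarith)]; linarith

end Pool.Agent.Helper34.BI
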