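import Pool.Agent.Helper34.BI.Null

/-!
# Transversality of one-parameter families of arcs to surfaces
-/

set_option autoImplicit false

open MeasureTheory Module Set

namespace Pool.Agent.Helper34.BI

section sard
variable {Z Y E : Type*} [NormedAddCommGroup Z] [NormedSpace ℝ Z] [FiniteDimensional ℝ Z]
  [NormedAddCommGroup Y] [NormedSpace ℝ Y] [FiniteDimensional ℝ Y]
  [NormedAddCommGroup E] [NormedSpace ℝ E] [FiniteDimensional ℝ E] [MeasurableSpace E]
  [BorelSpace E] (μ : Measure (E × E)) [μ.IsAddHaarMeasure]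

/-- Parametric transversality for a family depending linearly on a pair of vectors: for `(v, w)`
outside a null set, the map `(z, y) ↦ h z + a z • v + b z • w - f y` has injective derivative at
all its zeros with `z` in `s`, `y` in `t` and `a z ≠ 0`. -/
theorem null_sard (h : finrank ℝ Z + finrank ℝ Y = finrank ℝ E) {a b : Z → ℝ} {c : Z → E}
    {f : Y → E} {s : Set Z} {t : Set Y}
    (hs : IsOpen s) (ht : IsOpen t)
    (ha : DifferentiableOn ℝ a s) (hb : DifferentiableOn ℝ b s) (hc : DifferentiableOn ℝ c s)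
    (hf : DifferentiableOn ℝ f t) (ha0 : ∀ z ∈ s, a z ≠ 0) :
    μ {p : E × E | ∃ z ∈ s, ∃ y ∈ t, c z + a z • p.1 + b z • p.2 = f y ∧
      ∃ (ζ : Z) (η : Y), (ζ, η) ≠ 0 ∧
        fderiv ℝ (fun z => c z + a z • p.1 + b z • p.2) z ζ = fderiv ℝ f y η} = 0 := by
  have hfr : finrank ℝ (Z × Y) = finrank ℝ E := by rw [finrank_prod, h]
  let L : E ≃L[ℝ] Z × Y := ContinuousLinearEquiv.ofFinrankEq hfr.symm
  -- the parametrization of the solutions
  let F : (Z × Y) × E → E × E := fun q =>
    ((a q.1.1)⁻¹ • (f q.1.2 - c q.1.1 - b q.1.1 • q.2), q.2)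
  let S : Set ((Z × Y) × E) := {q | q.1.1 ∈ s ∧ q.1.2 ∈ t}
  have hS : IsOpen S := by
    refine IsOpen.inter ?_ ?_
    · exact hs.preimage (continuous_fst.comp continuous_fst)
    · exact ht.preimage (continuous_snd.comp continuous_fst)
  have hFd : DifferentiableOn ℝ F S := by
    have m1 : MapsTo (fun q : (Z × Y) × E => q.1.1) S s := fun q hq => hq.1
    have m2 : MapsTo (fun q : (Z × Y) × E => q.1.2) S t := fun q hq => hq.2
    have d1 : DifferentiableOn ℝ (fun q : (Z × Y) × E => q.1.1) S :=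
      (differentiable_fst.comp differentiable_fst).differentiableOn
    have d2 : DifferentiableOn ℝ (fun q : (Z × Y) × E => q.1.2) S :=
      (differentiable_snd.comp differentiable_fst).differentiableOn
    have d3 : DifferentiableOn ℝ (fun q : (Z × Y) × E => q.2) S :=
      differentiable_snd.differentiableOn
    refine DifferentiableOn.prodMk ?_ d3
    exact ((ha.comp d1 m1).inv (fun q hq => ha0 _ hq.1)).smul
      (((hf.comp d2 m2).sub (hc.comp d1 m1)).sub ((hb.comp d1 m1).smul d3))
  -- the critical set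
  let C : Set ((Z × Y) × E) := {q | q ∈ S ∧ ∃ x : (Z × Y) × E, x ≠ 0 ∧ fderiv ℝ F q x = 0}
  let M : (E × E) ≃L[ℝ] ((Z × Y) × E) := L.prodCongr (ContinuousLinearEquiv.refl ℝ E)
  have hnull : μ ((F ∘ M) '' (M ⁻¹' C)) = 0 := by
    refine addHaar_image_eq_zero_of_det_fderivWithin_eq_zero μ
      (f' := fun q => (fderiv ℝ F (M q)).comp (M : (E × E) →L[ℝ] ((Z × Y) × E))) ?_ ?_
    · intro q hq
      have h1 : HasFDerivAt F (fderiv ℝ F (M q)) (M q) :=
        ((hFd _ hq.1).differentiableAt (hS.mem_nhds hq.1)).hasFDerivAt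
      exact (h1.comp q M.hasFDerivAt).hasFDerivWithinAt
    · rintro q ⟨-, x, hx, hx0⟩
      have h2 : ((fderiv ℝ F (M q)).comp (M : (E × E) →L[ℝ] ((Z × Y) × E))) (M.symm x) = 0 := by
        simpa using hx0
      have h3 : M.symm x ≠ 0 := by
        intro h0
        apply hx
        have := congrArg M h0
        simpa using this
      by_contra hdet
      apply h3
      have h4 := (LinearMap.equivOfDetNeZero
        (((fderiv ℝ F (M q)).comp (M : (E × E) →L[ℝ] ((Z × Y) × E))) : (E × E) →ₗ[ℝ] (E × E)) hdet)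
      have h5 : LinearMap.ker
          (((fderiv ℝ F (M q)).comp (M : (E × E) →L[ℝ] ((Z × Y) × E))) : (E × E) →ₗ[ℝ] (E × E)) = ⊥ :=
        (LinearMap.isUnit_iff_ker_eq_bot _).1
          ((LinearMap.isUnit_iff_isUnit_det _).2 (isUnit_iff_ne_zero.2 hdet))
      exact (LinearMap.ker_eq_bot'.1 h5) _ h2
  refine measure_mono_null ?_ hnull
  rintro ⟨v, w⟩ ⟨z, hz, y, hy, heq, ζ, η, hne, hder⟩
  simp only at heq hder
  have hqS : ((z, y), w) ∈ S := ⟨hz, hy⟩
  have haz := ha0 z hz
  have hFq : F ((z, y), w) = (v, w) := by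
    simp only [F, Prod.mk.injEq, and_true]
    rw [← heq]
    have : c z + a z • v + b z • w - c z - b z • w = a z • v := by abel
    rw [this, smul_smul, inv_mul_cancel₀ haz, one_smul]
  have hF1 : HasFDerivAt F (fderiv ℝ F ((z, y), w)) ((z, y), w) :=
    ((hFd _ hqS).differentiableAt (hS.mem_nhds hqS)).hasFDerivAt
  -- the derivative kills the vector `((ζ, η), 0)`
  have key : fderiv ℝ F ((z, y), w) ((ζ, η), 0) = 0 := by
    -- first component
    have hA : HasFDerivAt a (fderiv ℝ a z) z := ((ha z hz).differentiableAt (hs.mem_nhds hz)).hasFDerivAt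
    have hB : HasFDerivAt b (fderiv ℝ b z) z := ((hb z hz).differentiableAt (hs.mem_nhds hz)).hasFDerivAt
    have hC : HasFDerivAt c (fderiv ℝ c z) z := ((hc z hz).differentiableAt (hs.mem_nhds hz)).hasFDerivAt
    have hFy : HasFDerivAt f (fderiv ℝ f y) y := ((hf y hy).differentiableAt (ht.mem_nhds hy)).hasFDerivAt
    -- the one-variable restriction
    have line : HasDerivAt (fun r : ℝ => F ((z + r • ζ, y + r • η), w))
        (fderiv ℝ F ((z, y), w) ((ζ, η), 0)) 0 := by
      have e1 : HasDerivAt (fun r : ℝ => (((z + r • ζ, y + r • η), w) : (Z × Y) × E))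
          ((ζ, η), 0) 0 := by
        have e2 : HasDerivAt (fun r : ℝ => z + r • ζ) ζ 0 := by
          simpa using ((hasDerivAt_id (0 : ℝ)).smul_const ζ).const_add z
        have e3 : HasDerivAt (fun r : ℝ => y + r • η) η 0 := by
          simpa using ((hasDerivAt_id (0 : ℝ)).smul_const η).const_add y
        exact (e2.prodMk e3).prodMk (hasDerivAt_const 0 w)
      have e4 : ((fun r : ℝ => (((z + r • ζ, y + r • η), w) : (Z × Y) × E)) 0) = ((z, y), w) := by
        simp
      exact HasFDerivAt.comp_hasDerivAt_of_eq (0 : ℝ) hF1 e1 e4.symm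
    have lz : HasDerivAt (fun r : ℝ => z + r • ζ) ζ 0 := by
      simpa using ((hasDerivAt_id (0 : ℝ)).smul_const ζ).const_add z
    have ly : HasDerivAt (fun r : ℝ => y + r • η) η 0 := by
      simpa using ((hasDerivAt_id (0 : ℝ)).smul_const η).const_add y
    have z0 : (fun r : ℝ => z + r • ζ) 0 = z := by simp
    have y0 : (fun r : ℝ => y + r • η) 0 = y := by simp
    have A0 : HasDerivAt (fun r : ℝ => a (z + r • ζ)) (fderiv ℝ a z ζ) 0 :=
      HasFDerivAt.comp_hasDerivAt_of_eq (0 : ℝ) hA lz z0.symm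
    have B0 : HasDerivAt (fun r : ℝ => b (z + r • ζ)) (fderiv ℝ b z ζ) 0 :=
      HasFDerivAt.comp_hasDerivAt_of_eq (0 : ℝ) hB lz z0.symm
    have C0 : HasDerivAt (fun r : ℝ => c (z + r • ζ)) (fderiv ℝ c z ζ) 0 :=
      HasFDerivAt.comp_hasDerivAt_of_eq (0 : ℝ) hC lz z0.symm
    have F0 : HasDerivAt (fun r : ℝ => f (y + r • η)) (fderiv ℝ f y η) 0 :=
      HasFDerivAt.comp_hasDerivAt_of_eq (0 : ℝ) hFy ly y0.symm
    -- derivative of the numerator
    have hder' : fderiv ℝ c z ζ + fderiv ℝ a z ζ • v + fderiv ℝ b z ζ • w = fderiv ℝ f y η := by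
      have e : HasFDerivAt (fun z => c z + a z • v + b z • w)
          (fderiv ℝ c z + (fderiv ℝ a z).smulRight v + (fderiv ℝ b z).smulRight w) z :=
        (hC.add (hA.smul_const v)).add (hB.smul_const w)
      rw [e.fderiv] at hder
      simpa using hder
    have N0 : HasDerivAt (fun r : ℝ => f (y + r • η) - c (z + r • ζ) - b (z + r • ζ) • w)
        (fderiv ℝ a z ζ • v) 0 := by
      refine ((F0.fun_sub C0).fun_sub (B0.smul_const w)).congr_deriv ?_
      rw [← hder']
      abel
    have I0 : HasDerivAt (fun r : ℝ => (a (z + r • ζ))⁻¹) (-(fderiv ℝ a z ζ) / (a z) ^ 2) 0 := by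
      have e := A0.inv (by simpa using haz)
      refine HasDerivAt.congr_deriv (f := fun r : ℝ => (a (z + r • ζ))⁻¹) e ?_
      simp
    have G0 := I0.smul N0
    have line1 : HasDerivAt (fun r : ℝ => (F ((z + r • ζ, y + r • η), w)).1) 0 0 := by
      have e : (fun r : ℝ => (F ((z + r • ζ, y + r • η), w)).1) =
          ((fun r : ℝ => (a (z + r • ζ))⁻¹) • fun r : ℝ => f (y + r • η) - c (z + r • ζ) -
            b (z + r • ζ) • w) := rfl
      rw [e]
      convert G0 using 1
      simp only [zero_smul, add_zero]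
      have e5 : f y - c z - b z • w = a z • v := by rw [← heq]; abel
      rw [e5, smul_smul, smul_smul, ← add_smul]
      have : (a z)⁻¹ * (fderiv ℝ a z ζ) + -(fderiv ℝ a z ζ) / (a z) ^ 2 * a z = 0 := by
        field_simp
        ring
      rw [this, zero_smul]
    have line2 : HasDerivAt (fun r : ℝ => (F ((z + r • ζ, y + r • η), w)).2) 0 0 :=
      hasDerivAt_const 0 w
    have := line.unique (line1.prodMk line2)
    exact this
  refine ⟨M.symm ((z, y), w), ?_, ?_⟩
  · show M (M.symm ((z, y), w)) ∈ C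
    rw [ContinuousLinearEquiv.apply_symm_apply]
    refine ⟨hqS, ((ζ, η), 0), ?_, key⟩
    intro h0
    apply hne
    exact congrArg Prod.fst h0
  · show F (M (M.symm ((z, y), w))) = (v, w)
    rw [ContinuousLinearEquiv.apply_symm_apply, hFq]

end sard

end Pool.Agent.Helper34.BI
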