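import Pool.Agent.Helper18.BI.R.StR

/-!
# Project BI, module UNK, part 1: squeezing a flat ball, pushing homeomorphisms
-/

set_option autoImplicit false
set_option linter.unusedSectionVars false

open scoped Topology
open Set Pool.Agent.Helper65.Barb Pool.Agent.Helper18.BI

namespace Pool.Agent.Helper34.BI.UNK1

/-! ## the radial squeeze -/

/-- the slope -/
noncomputable def Kk (l R : ℝ) : ℝ := (R - l) / (R - 1)

/-- the factor -/
noncomputable def th (l R r : ℝ) : ℝ := min 1 (Kk l R - (Kk l R - l) / max r 1)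

/-- the inverse factor -/
noncomputable def ti (l R r : ℝ) : ℝ := max 1 ((Kk l R)⁻¹ + (1 - l / Kk l R) / max r l)

section

variable {l R : ℝ} (hl0 : 0 < l) (hl1 : l < 1) (hR : 1 < R)
include hl0 hl1 hR

theorem Kk_pos : 1 < Kk l R := by
  unfold Kk
  rw [lt_div_iff₀ (by linarith)]
  linarith

theorem KR : Kk l R * (R - 1) = R - l := by
  unfold Kk
  exact div_mul_cancel₀ _ (by linarith)

theorem th_lo {r : ℝ} (h : r ≤ 1) : th l R r = l := by
  unfold th
  rw [max_eq_right h, div_one, sub_sub_cancel, min_eq_right hl1.le]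

theorem th_mid {r : ℝ} (h1 : 1 ≤ r) (h2 : r ≤ R) : th l R r = Kk l R - (Kk l R - l) / r := by
  unfold th
  rw [max_eq_left h1, min_eq_right]
  have hr : 0 < r := by linarith
  rw [sub_le_iff_le_add, ← sub_le_iff_le_add', le_div_iff₀ hr]
  have := KR hl0 hl1 hR
  have hK := Kk_pos hl0 hl1 hR
  nlinarith

theorem th_hi {r : ℝ} (h2 : R ≤ r) : th l R r = 1 := by
  unfold th
  rw [max_eq_left (by linarith), min_eq_left]
  have hr : 0 < r := by linarith
  rw [le_sub_iff_add_le, ← le_sub_iff_add_le', div_le_iff₀ hr]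
  have := KR hl0 hl1 hR
  have hK := Kk_pos hl0 hl1 hR
  nlinarith

theorem ti_lo {r : ℝ} (h : r ≤ l) : ti l R r = l⁻¹ := by
  have hK := Kk_pos hl0 hl1 hR
  have hK0 : Kk l R ≠ 0 := by linarith
  unfold ti
  rw [max_eq_right h]
  have e : (Kk l R)⁻¹ + (1 - l / Kk l R) / l = l⁻¹ := by
    field_simp
    ring
  rw [e, max_eq_right]
  exact (one_le_inv₀ hl0).mpr hl1.le

theorem ti_mid {r : ℝ} (h1 : l ≤ r) (h2 : r ≤ R) :
    ti l R r = (Kk l R)⁻¹ + (1 - l / Kk l R) / r := by
  have hK := Kk_pos hl0 hl1 hR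
  have hK0 : 0 < Kk l R := by linarith
  have hr : 0 < r := by linarith
  unfold ti
  rw [max_eq_left h1, max_eq_right]
  have e : (Kk l R)⁻¹ + (1 - l / Kk l R) / r = (r + (Kk l R - l)) / (Kk l R * r) := by
    field_simp
  rw [e, one_le_div (by positivity)]
  have := KR hl0 hl1 hR
  nlinarith

theorem ti_hi {r : ℝ} (h2 : R ≤ r) : ti l R r = 1 := by
  have hK := Kk_pos hl0 hl1 hR
  have hK0 : 0 < Kk l R := by linarith
  have hr : 0 < r := by linarith
  have e0 : max r l = r := max_eq_left (by linarith)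
  unfold ti
  rw [e0]
  apply max_eq_left
  have e : (Kk l R)⁻¹ + (1 - l / Kk l R) / r = (r + (Kk l R - l)) / (Kk l R * r) := by
    field_simp
  rw [e, div_le_one (by positivity)]
  have := KR hl0 hl1 hR
  nlinarith

theorem th_ti {r : ℝ} (_hr : 0 ≤ r) : th l R (ti l R r * r) * ti l R r = 1 := by
  have hK := Kk_pos hl0 hl1 hR
  have hK0 : 0 < Kk l R := by linarith
  have hKR := KR hl0 hl1 hR
  rcases le_total r l with h1 | h1
  · rw [ti_lo hl0 hl1 hR h1, th_lo hl0 hl1 hR]
    · exact mul_inv_cancel₀ hl0.ne'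
    · rw [← div_eq_inv_mul]
      exact (div_le_one hl0).mpr h1
  · rcases le_total r R with h2 | h2
    · have hr0 : 0 < r := by linarith
      have e : ti l R r * r = 1 + (r - l) / Kk l R := by
        rw [ti_mid hl0 hl1 hR h1 h2]
        field_simp
        ring
      have h3 : 1 ≤ ti l R r * r := by
        rw [e]
        have : 0 ≤ (r - l) / Kk l R := div_nonneg (by linarith) hK0.le
        linarith
      have h4 : ti l R r * r ≤ R := by
        rw [e]
        have : (r - l) / Kk l R ≤ R - 1 := by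
          rw [div_le_iff₀ hK0]
          nlinarith
        linarith
      rw [th_mid hl0 hl1 hR h3 h4]
      have h5 : 0 < ti l R r * r := by linarith
      have h6 : ti l R r ≠ 0 := by
        intro h
        rw [h, zero_mul] at h5
        exact lt_irrefl _ h5
      have h7 : (Kk l R - (Kk l R - l) / (ti l R r * r)) * ti l R r =
          (Kk l R * (ti l R r * r) - (Kk l R - l)) / r := by
        field_simp
      rw [h7, e, div_eq_one_iff_eq hr0.ne']
      field_simp
      ring
    · rw [ti_hi hl0 hl1 hR h2, one_mul, th_hi hl0 hl1 hR h2, one_mul]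

theorem ti_th {r : ℝ} (hr : 0 ≤ r) : ti l R (th l R r * r) * th l R r = 1 := by
  have hK := Kk_pos hl0 hl1 hR
  have hK0 : 0 < Kk l R := by linarith
  have hKR := KR hl0 hl1 hR
  rcases le_total r 1 with h1 | h1
  · rw [th_lo hl0 hl1 hR h1, ti_lo hl0 hl1 hR]
    · exact inv_mul_cancel₀ hl0.ne'
    · nlinarith
  · rcases le_total r R with h2 | h2
    · have hr0 : 0 < r := by linarith
      have e : th l R r * r = Kk l R * r - (Kk l R - l) := by
        rw [th_mid hl0 hl1 hR h1 h2]
        field_simp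
      have h3 : l ≤ th l R r * r := by
        rw [e]
        nlinarith
      have h4 : th l R r * r ≤ R := by
        rw [e]
        nlinarith
      rw [ti_mid hl0 hl1 hR h3 h4]
      have h5 : 0 < th l R r * r := by linarith
      have h6 : th l R r ≠ 0 := by
        intro h
        rw [h, zero_mul] at h5
        exact lt_irrefl _ h5
      have h7 : ((Kk l R)⁻¹ + (1 - l / Kk l R) / (th l R r * r)) * th l R r =
          (th l R r * r + (Kk l R - l)) / (Kk l R * r) := by
        field_simp
      rw [h7, e, div_eq_one_iff_eq (by positivity)]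
      ring
    · rw [th_hi hl0 hl1 hR h2, one_mul, ti_hi hl0 hl1 hR h2, one_mul]

theorem th_cont : Continuous (th l R) := by
  unfold th
  have h : Continuous fun r : ℝ => max r 1 := continuous_id.max continuous_const
  refine continuous_const.min (continuous_const.sub (continuous_const.div h ?_))
  intro r
  have : (1 : ℝ) ≤ max r 1 := le_max_right _ _
  linarith

theorem ti_cont : Continuous (ti l R) := by
  unfold ti
  have h : Continuous fun r : ℝ => max r l := continuous_id.max continuous_const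
  refine continuous_const.max (continuous_const.add (continuous_const.div h ?_))
  intro r
  have : l ≤ max r l := le_max_right _ _
  linarith

theorem th_nonneg (r : ℝ) : 0 ≤ th l R r := by
  have hK := Kk_pos hl0 hl1 hR
  unfold th
  refine le_min zero_le_one ?_
  have h : (1 : ℝ) ≤ max r 1 := le_max_right _ _
  have : (Kk l R - l) / max r 1 ≤ Kk l R - l := div_le_self (by linarith) h
  linarith

theorem ti_nonneg (r : ℝ) : 0 ≤ ti l R r := by
  unfold ti
  exact zero_le_one.trans (le_max_left _ _)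

end

/-- the centre -/
noncomputable def mc : R4 := (1 / 2, (0, 0))

/-- the gauge -/
noncomputable def Ng (η : ℝ) (q : R4) : ℝ := max (|q.1| / η) (5 * Real.sqrt (nsq q.2))

theorem Ng_cont (η : ℝ) : Continuous (Ng η) := by
  unfold Ng
  have h1 : Continuous fun q : R4 => |q.1| / η := (continuous_fst.abs).div_const _
  have h2 : Continuous fun q : R4 => nsq q.2 := by
    unfold nsq
    fun_prop
  exact h1.max (continuous_const.mul (Real.continuous_sqrt.comp h2))

theorem Ng_nonneg (η : ℝ) (q : R4) : 0 ≤ Ng η q :=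
  le_trans (by positivity) (le_max_right _ _)

theorem Ng_smul {η t : ℝ} (ht : 0 ≤ t) (q : R4) : Ng η (t • q) = t * Ng η q := by
  unfold Ng
  rw [mul_max_of_nonneg _ _ ht]
  congr 1
  · show |t * q.1| / η = t * (|q.1| / η)
    rw [abs_mul, abs_of_nonneg ht, mul_div_assoc]
  · have : nsq (t • q).2 = t ^ 2 * nsq q.2 := by
      unfold nsq
      show (t * q.2.1) ^ 2 + (t • q.2.2).re ^ 2 + (t • q.2.2).im ^ 2 = _
      simp only [Complex.smul_re, Complex.smul_im, smul_eq_mul]
      ring
    rw [this, Real.sqrt_mul (sq_nonneg t), Real.sqrt_sq ht]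
    ring

theorem nsq_nonneg' (x : R3) : 0 ≤ nsq x := by
  unfold nsq
  positivity

theorem norm_le_nsq (x : R3) : ‖x‖ ≤ Real.sqrt (nsq x) := by
  refine Real.le_sqrt_of_sq_le ?_
  have h0 : ‖x.2‖ ^ 2 = x.2.re ^ 2 + x.2.im ^ 2 := by
    rw [← Complex.normSq_eq_norm_sq, Complex.normSq_apply]
    ring
  unfold nsq
  rw [Prod.norm_def]
  rcases max_choice ‖x.1‖ ‖x.2‖ with h | h
  · rw [h, Real.norm_eq_abs, sq_abs]
    nlinarith [sq_nonneg x.2.re, sq_nonneg x.2.im]
  · rw [h, h0]
    nlinarith [sq_nonneg x.1]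

theorem rsq0 (p : R4) : rsq 0 p = nsq p.2 := by
  unfold rsq
  rw [sub_zero]

/-- **The squeeze.** -/
theorem exists_squeeze (U : Set R4) (hU : IsOpen U) (hf : flat 0 ⊆ U) (hfc : IsCompact (flat 0))
    (l : ℝ) (hl0 : 0 < l) (hl1 : l < 1) :
    ∃ (T : R4 ≃ₜ R4) (C : Set R4), IsCompact C ∧ C ⊆ U ∧ (∀ p, p ∉ C → T p = p) ∧
      ∀ p ∈ flat 0, T p = mc + l • (p - mc) := by
  obtain ⟨δ, hδ, hδU⟩ := hfc.exists_cthickening_subset_open hU hf
  obtain ⟨R, hR1, hR2, hR3⟩ : ∃ R : ℝ, 1 < R ∧ (R - 1) / 5 ≤ δ ∧ R ≤ 2 :=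
    ⟨min 2 (1 + 5 * δ), lt_min (by norm_num) (by linarith),
      by linarith [min_le_right (2 : ℝ) (1 + 5 * δ)], min_le_left _ _⟩
  set η : ℝ := δ / 2 with hη
  have hη0 : 0 < η := by positivity
  have hηR : η * R ≤ δ := by nlinarith
  let C : Set R4 := {p | Ng η (p - mc) ≤ R}
  have hCd : C ⊆ Metric.cthickening δ (flat 0) := by
    intro p hp
    have hp1 : |(p - mc).1| / η ≤ R := (le_max_left _ _).trans hp
    have hp2 : 5 * Real.sqrt (nsq (p - mc).2) ≤ R := (le_max_right _ _).trans hp
    have hp1' : |(p - mc).1| ≤ η * R := by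
      rw [div_le_iff₀ hη0] at hp1
      linarith
    have hm2 : (p - mc).2 = p.2 := Prod.ext (sub_zero _) (sub_zero _)
    rw [hm2] at hp2
    refine Metric.mem_cthickening_of_dist_le p ((1 / 2, R⁻¹ • p.2) : R4) δ (flat 0) ?_ ?_
    · refine ⟨rfl, ?_⟩
      rw [rsq0]
      show nsq (R⁻¹ • p.2) ≤ 1 / 25
      have e : nsq (R⁻¹ • p.2) = (R⁻¹) ^ 2 * nsq p.2 := by
        unfold nsq
        show (R⁻¹ * p.2.1) ^ 2 + (R⁻¹ • p.2.2).re ^ 2 + (R⁻¹ • p.2.2).im ^ 2 = _
        simp only [Complex.smul_re, Complex.smul_im, smul_eq_mul]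
        ring
      rw [e]
      have h1 : nsq p.2 = Real.sqrt (nsq p.2) ^ 2 := (Real.sq_sqrt (nsq_nonneg' _)).symm
      have h2 : R⁻¹ * Real.sqrt (nsq p.2) ≤ 1 / 5 := by
        rw [← div_eq_inv_mul, div_le_iff₀ (by linarith)]
        linarith
      have h3 : 0 ≤ R⁻¹ * Real.sqrt (nsq p.2) := by positivity
      rw [h1]
      calc R⁻¹ ^ 2 * Real.sqrt (nsq p.2) ^ 2 = (R⁻¹ * Real.sqrt (nsq p.2)) ^ 2 := by ring
        _ ≤ (1 / 5) ^ 2 := pow_le_pow_left₀ h3 h2 2
        _ = 1 / 25 := by norm_num
    · rw [Prod.dist_eq]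
      refine max_le ?_ ?_
      · rw [Real.dist_eq]
        have : (p - mc).1 = p.1 - 1 / 2 := rfl
        rw [← this]
        exact hp1'.trans hηR
      · rw [dist_eq_norm]
        show ‖p.2 - R⁻¹ • p.2‖ ≤ δ
        have e : p.2 - R⁻¹ • p.2 = (1 - R⁻¹) • p.2 := by rw [sub_smul, one_smul]
        rw [e, norm_smul]
        have h1 : 0 ≤ 1 - R⁻¹ := by
          have : R⁻¹ ≤ 1 := inv_le_one_of_one_le₀ hR1.le
          linarith
        rw [Real.norm_of_nonneg h1]
        have h2 : ‖p.2‖ ≤ R / 5 := (norm_le_nsq _).trans (by linarith)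
        calc (1 - R⁻¹) * ‖p.2‖ ≤ (1 - R⁻¹) * (R / 5) := mul_le_mul_of_nonneg_left h2 h1
          _ = (R - 1) / 5 := by
              have : R ≠ 0 := by linarith
              field_simp
          _ ≤ δ := hR2
  have hCU : C ⊆ U := hCd.trans hδU
  have hCc : IsCompact C := by
    have hcl : IsClosed C :=
      isClosed_le ((Ng_cont η).comp (continuous_id.sub continuous_const)) continuous_const
    exact (hfc.cthickening (r := δ)).of_isClosed_subset hcl hCd
  let f : R4 → R4 := fun p => mc + th l R (Ng η (p - mc)) • (p - mc)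
  let g : R4 → R4 := fun p => mc + ti l R (Ng η (p - mc)) • (p - mc)
  have hfm : ∀ p, f p - mc = th l R (Ng η (p - mc)) • (p - mc) := fun p => add_sub_cancel_left _ _
  have hgm : ∀ p, g p - mc = ti l R (Ng η (p - mc)) • (p - mc) := fun p => add_sub_cancel_left _ _
  have hgf : ∀ p, g (f p) = p := by
    intro p
    show mc + ti l R (Ng η (f p - mc)) • (f p - mc) = p
    rw [hfm, Ng_smul (th_nonneg hl0 hl1 hR1 _), smul_smul,
      ti_th hl0 hl1 hR1 (Ng_nonneg η (p - mc)), one_smul, add_sub_cancel]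
  have hfg : ∀ p, f (g p) = p := by
    intro p
    show mc + th l R (Ng η (g p - mc)) • (g p - mc) = p
    rw [hgm, Ng_smul (ti_nonneg hl0 hl1 hR1 _), smul_smul,
      th_ti hl0 hl1 hR1 (Ng_nonneg η (p - mc)), one_smul, add_sub_cancel]
  have hN : Continuous fun p : R4 => Ng η (p - mc) :=
    (Ng_cont η).comp (continuous_id.sub continuous_const)
  have hfcont : Continuous f :=
    continuous_const.add (((th_cont hl0 hl1 hR1).comp hN).smul (continuous_id.sub continuous_const))
  have hgcont : Continuous g :=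
    continuous_const.add (((ti_cont hl0 hl1 hR1).comp hN).smul (continuous_id.sub continuous_const))
  refine ⟨⟨⟨f, g, hgf, hfg⟩, hfcont, hgcont⟩, C, hCc, hCU, ?_, ?_⟩
  · intro p hp
    have hp' : R < Ng η (p - mc) := not_le.mp hp
    show mc + th l R (Ng η (p - mc)) • (p - mc) = p
    rw [th_hi hl0 hl1 hR1 hp'.le, one_smul, add_sub_cancel]
  · intro p hp
    show mc + th l R (Ng η (p - mc)) • (p - mc) = mc + l • (p - mc)
    rw [th_lo hl0 hl1 hR1]
    have h1 : p.1 = 1 / 2 := hp.1
    have h2 := hp.2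
    rw [rsq0] at h2
    have hm2 : (p - mc).2 = p.2 := Prod.ext (sub_zero _) (sub_zero _)
    have hm1 : (p - mc).1 = 0 := by
      show p.1 - 1 / 2 = 0
      rw [h1, sub_self]
    unfold Ng
    rw [hm1, hm2, abs_zero, zero_div]
    refine max_le zero_le_one ?_
    have : Real.sqrt (nsq p.2) ≤ 1 / 5 := by
      rw [show (1 / 5 : ℝ) = Real.sqrt (1 / 25) by
        rw [show (1 / 25 : ℝ) = (1 / 5) ^ 2 by norm_num, Real.sqrt_sq (by norm_num)]]
      exact Real.sqrt_le_sqrt h2
    linarith

/-! ## pushing homeomorphisms -/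

open Classical in
/-- **Push.** -/
theorem exists_push {X : Type} [TopologicalSpace X] [T2Space X] (δ : OpenPartialHomeomorph R4 X)
    (T : R4 ≃ₜ R4) (C : Set R4) (hC : IsCompact C) (hCs : C ⊆ δ.source)
    (hT : ∀ p, p ∉ C → T p = p) : ∃ Ψ : X ≃ₜ X, ∀ p ∈ δ.source, Ψ (δ p) = δ (T p) := by
  have hTC : ∀ p, p ∈ C ↔ T p ∈ C := by
    intro p
    constructor
    · intro hp
      by_contra h
      have h1 := hT _ h
      have h2 : T p = p := T.injective h1
      rw [h2] at h
      exact h hp
    · intro hp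
      by_contra h
      rw [hT _ h] at hp
      exact h hp
  have hTi : ∀ p, p ∉ C → T.symm p = p := by
    intro p hp
    rw [← hT p hp, T.symm_apply_apply, hT p hp]
  have hTs : ∀ p ∈ δ.source, T p ∈ δ.source := by
    intro p hp
    by_cases h : p ∈ C
    · exact hCs ((hTC p).1 h)
    · rw [hT p h]; exact hp
  have hTis : ∀ p ∈ δ.source, T.symm p ∈ δ.source := by
    intro p hp
    by_cases h : p ∈ C
    · exact hCs ((hTC _).2 (by rw [T.apply_symm_apply]; exact h))
    · rw [hTi p h]; exact hp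
  -- general push
  have key : ∀ S : R4 ≃ₜ R4, (∀ p, p ∉ C → S p = p) → (∀ p ∈ δ.source, S p ∈ δ.source) →
      Continuous (fun y : X => if y ∈ δ.target then δ (S (δ.symm y)) else y) := by
    intro S hS hSs
    have hK : IsCompact (δ '' C) := hC.image_of_continuousOn (δ.continuousOn.mono hCs)
    rw [continuous_iff_continuousAt]
    intro y
    by_cases hy : y ∈ δ.target
    · have h1 : ContinuousOn (fun y : X => δ (S (δ.symm y))) δ.target := by
        refine δ.continuousOn.comp (S.continuous.comp_continuousOn δ.continuousOn_symm) ?_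
        intro z hz
        exact hSs _ (δ.map_target hz)
      refine (h1.continuousAt (δ.open_target.mem_nhds hy)).congr ?_
      filter_upwards [δ.open_target.mem_nhds hy] with z hz
      rw [if_pos hz]
    · have hy' : y ∉ δ '' C := by
        rintro ⟨p, hp, rfl⟩
        exact hy (δ.map_source (hCs hp))
      refine continuousAt_id.congr ?_
      filter_upwards [hK.isClosed.isOpen_compl.mem_nhds hy'] with z hz
      show z = _
      split_ifs with h
      · have : δ.symm z ∉ C := by
          intro hc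
          exact hz ⟨δ.symm z, hc, δ.right_inv h⟩
        rw [hS _ this, δ.right_inv h]
      · rfl
  let f : X → X := fun y => if y ∈ δ.target then δ (T (δ.symm y)) else y
  let g : X → X := fun y => if y ∈ δ.target then δ (T.symm (δ.symm y)) else y
  have hft : ∀ y, y ∈ δ.target → f y = δ (T (δ.symm y)) := fun y h => if_pos h
  have hfn : ∀ y, y ∉ δ.target → f y = y := fun y h => if_neg h
  have hgt : ∀ y, y ∈ δ.target → g y = δ (T.symm (δ.symm y)) := fun y h => if_pos h
  have hgn : ∀ y, y ∉ δ.target → g y = y := fun y h => if_neg h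
  have hgf : ∀ y, g (f y) = y := by
    intro y
    by_cases h : y ∈ δ.target
    · have h1 := hTs _ (δ.map_target h)
      rw [hft y h, hgt _ (δ.map_source h1), δ.left_inv h1, T.symm_apply_apply, δ.right_inv h]
    · rw [hfn y h, hgn y h]
  have hfg : ∀ y, f (g y) = y := by
    intro y
    by_cases h : y ∈ δ.target
    · have h1 := hTis _ (δ.map_target h)
      rw [hgt y h, hft _ (δ.map_source h1), δ.left_inv h1, T.apply_symm_apply, δ.right_inv h]
    · rw [hgn y h, hfn y h]
  refine ⟨⟨⟨f, g, hgf, hfg⟩, key T hT hTs, key T.symm hTi hTis⟩, ?_⟩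
  intro p hp
  show f (δ p) = δ (T p)
  rw [hft _ (δ.map_source hp), δ.left_inv hp]

end Pool.Agent.Helper34.BI.UNK1
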